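import Pool.Agent.H847.CG.Stm

set_option autoImplicit false

/-! The leaf ANA. -/

open MeasureTheory

namespace Pool.Agent.H847.CG.ANA

theorem abs_sin_mul (k : ℕ) (θ : ℝ) : |Real.sin (k * θ)| ≤ k * |Real.sin θ| := by
  induction k with
  | zero => simp
  | succ k ih =>
    have h : ((k + 1 : ℕ) : ℝ) * θ = k * θ + θ := by push_cast; ring
    rw [h, Real.sin_add]
    calc |Real.sin (k * θ) * Real.cos θ + Real.cos (k * θ) * Real.sin θ|
        ≤ |Real.sin (k * θ)| * |Real.cos θ| + |Real.cos (k * θ)| * |Real.sin θ| := by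
          rw [← abs_mul, ← abs_mul]
          exact abs_add_le _ _
      _ ≤ (k * |Real.sin θ|) * 1 + 1 * |Real.sin θ| := by
          have h1 := Real.abs_cos_le_one θ
          have h2 := Real.abs_cos_le_one (k * θ)
          gcongr
      _ = ((k + 1 : ℕ) : ℝ) * |Real.sin θ| := by push_cast; ring

/-- the normalised Chebyshev polynomials -/
noncomputable def pu (m : ℕ) : Polynomial ℝ :=
  Polynomial.C (((m : ℝ) + 1)⁻¹) * Polynomial.Chebyshev.U ℝ m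

theorem pu_one (m : ℕ) : (pu m).eval 1 = 1 := by
  unfold pu
  rw [Polynomial.eval_mul, Polynomial.eval_C, Polynomial.Chebyshev.U_eval_one]
  push_cast
  field_simp

theorem pu_deg (m : ℕ) : (pu m).natDegree ≤ m := by
  unfold pu
  refine (Polynomial.natDegree_C_mul_le _ _).trans ?_
  rw [Polynomial.Chebyshev.natDegree_U_natCast]

theorem pu_bd (m : ℕ) {x : ℝ} (h0 : 0 ≤ x) (h1 : x ≤ 1) :
    (pu m).eval x ^ 2 ≤ 1 ∧ ((m : ℝ) + 1) ^ 2 * (1 - x) * (pu m).eval x ^ 2 ≤ 1 := by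
  rcases h1.eq_or_lt with h | h
  · subst h
    rw [pu_one]
    norm_num
  · have hθ : Real.cos (Real.arccos x) = x := Real.cos_arccos (by linarith) h1
    have hs : Real.sin (Real.arccos x) ^ 2 = 1 - x ^ 2 := by
      rw [Real.sin_sq, hθ]
    have hs0 : 0 < 1 - x ^ 2 := by nlinarith
    have hU := Polynomial.Chebyshev.U_real_cos (Real.arccos x) (m : ℤ)
    rw [hθ] at hU
    have hc : (((m : ℤ) : ℝ) + 1) * Real.arccos x = ((m + 1 : ℕ) : ℝ) * Real.arccos x := by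
      push_cast
      ring
    rw [hc] at hU
    have hm : (0 : ℝ) < (m : ℝ) + 1 := by positivity
    have e1 : (Polynomial.Chebyshev.U ℝ (m : ℤ)).eval x ^ 2 * (1 - x ^ 2) =
        Real.sin (((m + 1 : ℕ) : ℝ) * Real.arccos x) ^ 2 := by
      rw [← hU, mul_pow, hs]
    have e2 : Real.sin (((m + 1 : ℕ) : ℝ) * Real.arccos x) ^ 2 ≤ ((m : ℝ) + 1) ^ 2 * (1 - x ^ 2) := by
      have h3 := abs_sin_mul (m + 1) (Real.arccos x)
      rw [← sq_abs, ← hs, ← sq_abs (Real.sin (Real.arccos x)), ← mul_pow]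
      push_cast at h3 ⊢
      gcongr
    have e3 : (pu m).eval x ^ 2 =
        (Polynomial.Chebyshev.U ℝ (m : ℤ)).eval x ^ 2 / ((m : ℝ) + 1) ^ 2 := by
      unfold pu
      rw [Polynomial.eval_mul, Polynomial.eval_C]
      field_simp
    have e4 := Real.sin_sq_le_one (((m + 1 : ℕ) : ℝ) * Real.arccos x)
    rw [← e1] at e2 e4
    constructor
    · rw [e3, div_le_one (by positivity)]
      exact le_of_mul_le_mul_right e2 hs0
    · rw [e3]
      have e5 : ((m : ℝ) + 1) ^ 2 * (1 - x) *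
          ((Polynomial.Chebyshev.U ℝ (m : ℤ)).eval x ^ 2 / ((m : ℝ) + 1) ^ 2) =
          (Polynomial.Chebyshev.U ℝ (m : ℤ)).eval x ^ 2 * (1 - x) := by
        field_simp
      rw [e5]
      have e6 : (Polynomial.Chebyshev.U ℝ (m : ℤ)).eval x ^ 2 * (1 - x) ≤
          (Polynomial.Chebyshev.U ℝ (m : ℤ)).eval x ^ 2 * (1 - x ^ 2) := by
        refine mul_le_mul_of_nonneg_left ?_ (sq_nonneg _)
        nlinarith
      exact e6.trans e4

theorem quarter (Q : ℕ) (hQ : 1 ≤ Q) : 1 / 4 ≤ (1 - 1 / (Q : ℝ)) ^ (Q - 1) := by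
  obtain ⟨N, rfl⟩ : ∃ N, Q = N + 1 := ⟨Q - 1, by omega⟩
  rw [Nat.add_sub_cancel]
  rcases Nat.eq_zero_or_pos N with h | h
  · subst h
    norm_num
  · have hN : (0 : ℝ) < N := Nat.cast_pos.2 h
    have e1 : (1 - 1 / ((N + 1 : ℕ) : ℝ)) = (1 + 1 / (N : ℝ))⁻¹ := by
      push_cast
      field_simp
      ring
    rw [e1, inv_pow, ← one_div, one_div_le_one_div (by norm_num) (by positivity)]
    have e2 : 1 + 1 / (N : ℝ) ≤ Real.exp (1 / N) := by
      have := Real.add_one_le_exp (1 / (N : ℝ))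
      linarith
    calc (1 + 1 / (N : ℝ)) ^ N ≤ Real.exp (1 / N) ^ N := by gcongr
      _ = Real.exp 1 := by
          rw [← Real.exp_nat_mul]
          congr 1
          field_simp
      _ ≤ 4 := by
          have := Real.exp_one_lt_d9
          linarith

theorem pow_quarter {x : ℝ} {Q : ℕ} (hQ : 1 ≤ Q) (h : 1 - 1 / (Q : ℝ) ≤ x) :
    1 / 4 ≤ x ^ (Q - 1) := by
  have hQ' : (1 : ℝ) ≤ Q := by exact_mod_cast hQ
  have h1 : 0 ≤ 1 - 1 / (Q : ℝ) := by
    rw [sub_nonneg, div_le_one (by linarith)]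
    exact hQ'
  exact (quarter Q hQ).trans (pow_le_pow_left₀ h1 h _)

/-- the pointwise inequality -/
theorem pw {a b s : ℕ} (hab : b < a) {x w : ℝ} (hx0 : 0 ≤ x) (hx1 : x ≤ 1) (hw0 : 0 ≤ w)
    (hw1 : w ≤ 1) (hw2 : (4 : ℝ) ^ a * (1 - x) * w ≤ 1) :
    w ^ s ≤ (4 : ℝ) ^ (2 * 4 ^ b) * x ^ (4 ^ a) +
      ∑ k ∈ Finset.range (a - b), 4 * (((4 : ℝ) ^ (b + k))⁻¹) ^ s *
        x ^ ((2 ^ (a - b - k - 1)) ^ 2 - 1) := by
  have hws : w ^ s ≤ 1 := pow_le_one₀ hw0 hw1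
  have hterm : ∀ k, 0 ≤ 4 * (((4 : ℝ) ^ (b + k))⁻¹) ^ s * x ^ ((2 ^ (a - b - k - 1)) ^ 2 - 1) :=
    fun k => by positivity
  rcases le_or_gt ((4 : ℝ) ^ a * (1 - x)) (4 ^ b) with ht | ht
  · have hsum : 0 ≤ ∑ k ∈ Finset.range (a - b), 4 * (((4 : ℝ) ^ (b + k))⁻¹) ^ s *
        x ^ ((2 ^ (a - b - k - 1)) ^ 2 - 1) := Finset.sum_nonneg fun k _ => hterm k
    have hQ : 1 ≤ 4 ^ (a - b) := Nat.one_le_pow _ _ (by norm_num)
    have hQ2 : 4 ≤ 4 ^ (a - b) := by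
      calc 4 = 4 ^ 1 := by norm_num
        _ ≤ 4 ^ (a - b) := Nat.pow_le_pow_right (by norm_num) (by omega)
    have h1 : 1 - 1 / ((4 ^ (a - b) : ℕ) : ℝ) ≤ x := by
      have h2 : (4 : ℝ) ^ a = 4 ^ b * 4 ^ (a - b) := by
        rw [← pow_add]
        congr 1
        omega
      rw [h2, mul_assoc] at ht
      have h3 : (0 : ℝ) < 4 ^ b := by positivity
      have h4 : (4 : ℝ) ^ (a - b) * (1 - x) ≤ 1 := by
        by_contra h5
        push Not at h5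
        nlinarith
      have h5 : (0 : ℝ) < 4 ^ (a - b) := by positivity
      have h6 : 1 - x ≤ 1 / (4 : ℝ) ^ (a - b) := by
        rw [le_div_iff₀ h5]
        linarith
      push_cast
      linarith
    have h2 := pow_quarter hQ h1
    have h3 : (1 / 4 : ℝ) ^ (2 * 4 ^ b) ≤ x ^ (4 ^ a) := by
      calc (1 / 4 : ℝ) ^ (2 * 4 ^ b) ≤ (x ^ (4 ^ (a - b) - 1)) ^ (2 * 4 ^ b) :=
            pow_le_pow_left₀ (by norm_num) h2 _
        _ = x ^ ((4 ^ (a - b) - 1) * (2 * 4 ^ b)) := by rw [← pow_mul]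
        _ ≤ x ^ (4 ^ a) := by
            refine pow_le_pow_of_le_one hx0 hx1 ?_
            have h4 : 4 ^ a = 4 ^ (a - b) * 4 ^ b := by
              rw [← pow_add]
              congr 1
              omega
            have h5 : 4 ^ (a - b) ≤ (4 ^ (a - b) - 1) * 2 := by omega
            calc 4 ^ a = 4 ^ (a - b) * 4 ^ b := h4
              _ ≤ ((4 ^ (a - b) - 1) * 2) * 4 ^ b := Nat.mul_le_mul_right _ h5
              _ = (4 ^ (a - b) - 1) * (2 * 4 ^ b) := by ring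
    have h4 : (1 : ℝ) ≤ (4 : ℝ) ^ (2 * 4 ^ b) * x ^ (4 ^ a) := by
      have h5 : (4 : ℝ) ^ (2 * 4 ^ b) * (1 / 4 : ℝ) ^ (2 * 4 ^ b) = 1 := by
        rw [← mul_pow]
        norm_num
      rw [← h5]
      exact mul_le_mul_of_nonneg_left h3 (by positivity)
    linarith
  · have hex : ∃ k, (4 : ℝ) ^ a * (1 - x) ≤ 4 ^ (b + k + 1) := by
      refine ⟨a, ?_⟩
      have h1 : (4 : ℝ) ^ a * (1 - x) ≤ 4 ^ a * 1 :=
        mul_le_mul_of_nonneg_left (by linarith) (by positivity)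
      rw [mul_one] at h1
      exact h1.trans (pow_le_pow_right₀ (by norm_num) (by omega))
    classical
    obtain ⟨k, hk, hk'⟩ : ∃ k, (4 : ℝ) ^ a * (1 - x) ≤ 4 ^ (b + k + 1) ∧
        4 ^ (b + k) < (4 : ℝ) ^ a * (1 - x) := by
      refine ⟨Nat.find hex, Nat.find_spec hex, ?_⟩
      rcases Nat.eq_zero_or_pos (Nat.find hex) with h | h
      · rw [h, add_zero]
        exact ht
      · have h1 := Nat.find_min hex (m := Nat.find hex - 1) (by omega)
        rw [not_le] at h1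
        have h2 : b + (Nat.find hex - 1) + 1 = b + Nat.find hex := by omega
        rwa [h2] at h1
    have hka : b + k < a := by
      by_contra h
      push Not at h
      have h1 : (4 : ℝ) ^ a ≤ 4 ^ (b + k) := pow_le_pow_right₀ (by norm_num) h
      have h2 : (4 : ℝ) ^ a * (1 - x) ≤ 4 ^ a * 1 :=
        mul_le_mul_of_nonneg_left (by linarith) (by positivity)
      linarith
    have hmem : k ∈ Finset.range (a - b) := Finset.mem_range.2 (by omega)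
    have h1 : 4 * (((4 : ℝ) ^ (b + k))⁻¹) ^ s * x ^ ((2 ^ (a - b - k - 1)) ^ 2 - 1) ≤
        ∑ k ∈ Finset.range (a - b), 4 * (((4 : ℝ) ^ (b + k))⁻¹) ^ s *
        x ^ ((2 ^ (a - b - k - 1)) ^ 2 - 1) :=
      Finset.single_le_sum (f := fun k => 4 * (((4 : ℝ) ^ (b + k))⁻¹) ^ s *
        x ^ ((2 ^ (a - b - k - 1)) ^ 2 - 1)) (fun k _ => hterm k) hmem
    have h2 : w ≤ ((4 : ℝ) ^ (b + k))⁻¹ := by
      rw [← one_div, le_div_iff₀ (by positivity)]
      have h3 : w * 4 ^ (b + k) ≤ w * ((4 : ℝ) ^ a * (1 - x)) :=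
        mul_le_mul_of_nonneg_left hk'.le hw0
      linarith
    have h3 : 1 / 4 ≤ x ^ ((2 ^ (a - b - k - 1)) ^ 2 - 1) := by
      refine pow_quarter (Nat.one_le_pow _ _ (Nat.one_le_pow _ _ (by norm_num))) ?_
      have h4 : (4 : ℝ) ^ a = 4 ^ (b + k + 1) * (2 ^ (a - b - k - 1)) ^ 2 := by
        rw [← pow_mul, mul_comm (a - b - k - 1) 2, pow_mul, show (2 : ℝ) ^ 2 = 4 by norm_num,
          ← pow_add]
        congr 1
        omega
      rw [h4, mul_assoc] at hk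
      have h5 : (0 : ℝ) < 4 ^ (b + k + 1) := by positivity
      have h6 : ((2 : ℝ) ^ (a - b - k - 1)) ^ 2 * (1 - x) ≤ 1 := by
        by_contra h7
        push Not at h7
        nlinarith
      have h7 : (0 : ℝ) < (2 ^ (a - b - k - 1)) ^ 2 := by positivity
      have h8 : 1 - x ≤ 1 / ((2 : ℝ) ^ (a - b - k - 1)) ^ 2 := by
        rw [le_div_iff₀ h7]
        linarith
      push_cast
      linarith
    have h4 : w ^ s ≤ 4 * (((4 : ℝ) ^ (b + k))⁻¹) ^ s * x ^ ((2 ^ (a - b - k - 1)) ^ 2 - 1) := by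
      have h5 : w ^ s ≤ (((4 : ℝ) ^ (b + k))⁻¹) ^ s := pow_le_pow_left₀ hw0 h2 _
      have h6 : (0:ℝ) ≤ (((4 : ℝ) ^ (b + k))⁻¹) ^ s := by positivity
      nlinarith
    have h5 : 0 ≤ (4 : ℝ) ^ (2 * 4 ^ b) * x ^ (4 ^ a) := by positivity
    linarith

theorem main : S_ANA := by
  intro Ω _ μ _ x hxm hx D A C h1 h2
  -- moments
  obtain ⟨m, hm⟩ : ∃ m : ℕ → ℝ, m = fun l => ∫ ω, x ω ^ l ∂μ := ⟨_, rfl⟩
  have hint : ∀ l, Integrable (fun ω => x ω ^ l) μ := fun l => by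
    refine Integrable.of_bound (hxm.pow_const l).aestronglyMeasurable 1
      (Filter.Eventually.of_forall fun ω => ?_)
    rw [Real.norm_eq_abs, abs_of_nonneg (pow_nonneg (hx ω).1 l)]
    exact pow_le_one₀ (hx ω).1 (hx ω).2
  have hm0 : ∀ l, 0 ≤ m l := fun l => by
    rw [hm]
    exact integral_nonneg fun ω => pow_nonneg (hx ω).1 l
  have hmanti : ∀ l l', l ≤ l' → m l' ≤ m l := fun l l' h => by
    rw [hm]
    exact integral_mono (hint l') (hint l) fun ω => pow_le_pow_of_le_one (hx ω).1 (hx ω).2 h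
  have hA : 1 ≤ A := by
    have h3 := h1 0 1 (by simp)
    simp at h3
    exact h3
  have hC : 1 ≤ C := by
    have h3 := h2 0
    simp at h3
    exact h3
  have h2' : ∀ q : ℕ, 1 ≤ q → m (q ^ 2 - 1) * q ^ D ≤ √C := by
    intro q hq
    refine Real.le_sqrt_of_sq_le ?_
    have h3 := h2 (q ^ 2 - 1)
    have h4 : ((q ^ 2 - 1 : ℕ) : ℝ) + 1 = (q : ℝ) ^ 2 := by
      have h5 : 1 ≤ q ^ 2 := Nat.one_le_pow _ _ hq
      rw [Nat.cast_sub h5]
      push_cast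
      ring
    rw [h4] at h3
    rw [hm]
    calc ((∫ ω, x ω ^ (q ^ 2 - 1) ∂μ) * (q : ℝ) ^ D) ^ 2
        = (∫ ω, x ω ^ (q ^ 2 - 1) ∂μ) ^ 2 * ((q : ℝ) ^ 2) ^ D := by ring
      _ ≤ C := h3
  -- constants
  obtain ⟨c₁, hc₁⟩ : ∃ c₁ : ℝ, c₁ = 1 / (A * ((D : ℝ) + 1) ^ D) := ⟨_, rfl⟩
  have hc₁0 : 0 < c₁ := by
    rw [hc₁]
    positivity
  obtain ⟨b, hb⟩ := pow_unbounded_of_one_lt (16 * √C * 2 ^ D / c₁) (one_lt_two (α := ℝ))
  have hb' : 8 * √C * 2 ^ D / 2 ^ b ≤ c₁ / 2 := by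
    rw [div_lt_iff₀ hc₁0] at hb
    rw [div_le_iff₀ (by positivity)]
    linarith
  -- the lower bound at `4 ^ a`
  have key : ∀ a, b < a → c₁ / 2 ≤ (4 : ℝ) ^ (2 * 4 ^ b) * (m (4 ^ a) * (2 ^ a) ^ D) := by
    intro a hab
    obtain ⟨M, hM⟩ : ∃ M : ℕ, M + 1 = 2 ^ a := ⟨2 ^ a - 1, by
      have : 1 ≤ 2 ^ a := Nat.one_le_pow _ _ (by norm_num)
      omega⟩
    have hM' : (M : ℝ) + 1 = 2 ^ a := by exact_mod_cast hM
    have hpt : ∀ ω, ((pu M ^ (D + 1)).eval (x ω)) ^ 2 ≤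
        (4 : ℝ) ^ (2 * 4 ^ b) * x ω ^ (4 ^ a) +
        ∑ k ∈ Finset.range (a - b), 4 * (((4 : ℝ) ^ (b + k))⁻¹) ^ (D + 1) *
          x ω ^ ((2 ^ (a - b - k - 1)) ^ 2 - 1) := by
      intro ω
      obtain ⟨h3, h4⟩ := pu_bd M (hx ω).1 (hx ω).2
      rw [hM'] at h4
      have h5 : ((2 : ℝ) ^ a) ^ 2 = 4 ^ a := by
        rw [← pow_mul, mul_comm, pow_mul]
        norm_num
      rw [h5] at h4
      have h6 := pw (s := D + 1) hab (hx ω).1 (hx ω).2 (sq_nonneg _) h3 h4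
      rw [Polynomial.eval_pow, ← pow_mul, mul_comm (D + 1) 2, pow_mul]
      exact h6
    have hintf : Integrable (fun ω => ((pu M ^ (D + 1)).eval (x ω)) ^ 2) μ := by
      refine Integrable.of_bound
        (((pu M ^ (D + 1)).continuous.measurable.comp hxm).pow_const 2).aestronglyMeasurable 1
        (Filter.Eventually.of_forall fun ω => ?_)
      obtain ⟨h3, h4⟩ := pu_bd M (hx ω).1 (hx ω).2
      rw [Real.norm_eq_abs, abs_of_nonneg (sq_nonneg _), Polynomial.eval_pow, ← pow_mul,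
        mul_comm (D + 1) 2, pow_mul]
      exact pow_le_one₀ (sq_nonneg _) h3
    have hI : ∫ ω, ((pu M ^ (D + 1)).eval (x ω)) ^ 2 ∂μ ≤
        (4 : ℝ) ^ (2 * 4 ^ b) * m (4 ^ a) +
        ∑ k ∈ Finset.range (a - b), 4 * (((4 : ℝ) ^ (b + k))⁻¹) ^ (D + 1) *
          m ((2 ^ (a - b - k - 1)) ^ 2 - 1) := by
      have hi1 : Integrable (fun ω => (4 : ℝ) ^ (2 * 4 ^ b) * x ω ^ (4 ^ a)) μ :=
        (hint _).const_mul _
      have hi2 : ∀ k ∈ Finset.range (a - b), Integrable (fun ω =>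
          4 * (((4 : ℝ) ^ (b + k))⁻¹) ^ (D + 1) * x ω ^ ((2 ^ (a - b - k - 1)) ^ 2 - 1)) μ :=
        fun k _ => (hint _).const_mul _
      refine (integral_mono hintf (hi1.add (integrable_finsetSum _ hi2)) hpt).trans (le_of_eq ?_)
      simp only [Pi.add_apply]
      rw [integral_add hi1 (integrable_finsetSum _ hi2), integral_finsetSum _ hi2,
        integral_const_mul, hm]
      congr 1
      refine Finset.sum_congr rfl fun k _ => ?_
      rw [integral_const_mul]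
    have hdeg : (pu M ^ (D + 1)).natDegree ≤ (D + 1) * M :=
      Polynomial.natDegree_pow_le.trans (Nat.mul_le_mul_left _ (pu_deg M))
    have h3 := h1 ((D + 1) * M) (pu M ^ (D + 1)) hdeg
    rw [Polynomial.eval_pow, pu_one, one_pow, one_pow] at h3
    have hD1 : (((D + 1) * M : ℕ) : ℝ) + 1 ≤ ((D : ℝ) + 1) * 2 ^ a := by
      rw [← hM']
      push_cast
      nlinarith [(Nat.cast_nonneg D : (0:ℝ) ≤ D)]
    have hI0 : 0 ≤ ∫ ω, ((pu M ^ (D + 1)).eval (x ω)) ^ 2 ∂μ := integral_nonneg fun ω => sq_nonneg _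
    have h4 : c₁ ≤ (2 ^ a) ^ D * ∫ ω, ((pu M ^ (D + 1)).eval (x ω)) ^ 2 ∂μ := by
      rw [hc₁, div_le_iff₀ (by positivity)]
      calc (1 : ℝ) ≤ A * ((((D + 1) * M : ℕ) : ℝ) + 1) ^ D *
            ∫ ω, ((pu M ^ (D + 1)).eval (x ω)) ^ 2 ∂μ := h3
        _ ≤ A * (((D : ℝ) + 1) * 2 ^ a) ^ D *
            ∫ ω, ((pu M ^ (D + 1)).eval (x ω)) ^ 2 ∂μ := by
            gcongr
        _ = _ := by rw [mul_pow]; ring
    have h5 : c₁ ≤ (4 : ℝ) ^ (2 * 4 ^ b) * (m (4 ^ a) * (2 ^ a) ^ D) +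
        ∑ k ∈ Finset.range (a - b), 4 * (((4 : ℝ) ^ (b + k))⁻¹) ^ (D + 1) *
          (m ((2 ^ (a - b - k - 1)) ^ 2 - 1) * (2 ^ a) ^ D) := by
      refine h4.trans ((mul_le_mul_of_nonneg_left hI (by positivity)).trans (le_of_eq ?_))
      rw [mul_add, Finset.mul_sum]
      congr 1
      · ring
      · refine Finset.sum_congr rfl fun k _ => ?_
        ring
    have h6 : ∑ k ∈ Finset.range (a - b), 4 * (((4 : ℝ) ^ (b + k))⁻¹) ^ (D + 1) *
          (m ((2 ^ (a - b - k - 1)) ^ 2 - 1) * (2 ^ a) ^ D) ≤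
        ∑ k ∈ Finset.range (a - b), (4 * √C * 2 ^ D / 2 ^ b) * (1 / 2) ^ k := by
      refine Finset.sum_le_sum fun k hk => ?_
      rw [Finset.mem_range] at hk
      have h7 := h2' (2 ^ (a - b - k - 1)) (Nat.one_le_pow _ _ (by norm_num))
      push_cast at h7
      obtain ⟨B, hB⟩ : ∃ B : ℝ, B = 2 ^ (b + k) := ⟨_, rfl⟩
      have hB1 : 1 ≤ B := by
        rw [hB]
        exact one_le_pow₀ (by norm_num)
      have e1 : (4 : ℝ) ^ (b + k) = B ^ 2 := by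
        rw [hB, ← pow_mul, mul_comm, pow_mul]
        norm_num
      have e2 : (2 : ℝ) ^ a = 2 ^ (a - b - k - 1) * (2 * B) := by
        rw [hB, ← pow_succ', ← pow_add]
        congr 1
        omega
      have e3 : (2 : ℝ) ^ b * 2 ^ k = B := by rw [hB, pow_add]
      rw [e1, e2, mul_pow _ (2 * B) D, ← mul_assoc (m _)]
      calc 4 * ((B ^ 2)⁻¹) ^ (D + 1) *
            (m ((2 ^ (a - b - k - 1)) ^ 2 - 1) * (2 ^ (a - b - k - 1)) ^ D * (2 * B) ^ D)
          ≤ 4 * ((B ^ 2)⁻¹) ^ (D + 1) * (√C * (2 * B) ^ D) := by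
            gcongr
        _ = 4 * √C * 2 ^ D * (((B ^ 2)⁻¹) ^ (D + 1) * B ^ D) := by
            rw [mul_pow]
            ring
        _ ≤ 4 * √C * 2 ^ D * B⁻¹ := by
            have h8 : ((B ^ 2)⁻¹) ^ (D + 1) * B ^ D ≤ B⁻¹ := by
              have h9 : ((B ^ 2)⁻¹) ^ (D + 1) * B ^ D = (B ^ (D + 2))⁻¹ := by
                have hB0 : B ≠ 0 := by positivity
                rw [inv_pow]
                field_simp
                ring
              rw [h9]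
              refine inv_anti₀ (by linarith) ?_
              calc B = B ^ 1 := (pow_one B).symm
                _ ≤ B ^ (D + 2) := pow_le_pow_right₀ hB1 (by omega)
            gcongr
        _ = (4 * √C * 2 ^ D / 2 ^ b) * (1 / 2) ^ k := by
            rw [← e3, one_div, inv_pow]
            field_simp
    have h7 : ∑ k ∈ Finset.range (a - b), (4 * √C * 2 ^ D / 2 ^ b) * (1 / 2 : ℝ) ^ k ≤
        8 * √C * 2 ^ D / 2 ^ b := by
      rw [← Finset.mul_sum]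
      have h8 : ∑ k ∈ Finset.range (a - b), (1 / 2 : ℝ) ^ k ≤ 2 := by
        rw [geom_sum_eq (by norm_num)]
        have h9 : (0:ℝ) < (1 / 2) ^ (a - b) := by positivity
        rw [div_le_iff_of_neg (by norm_num)]
        linarith
      calc (4 * √C * 2 ^ D / 2 ^ b) * ∑ k ∈ Finset.range (a - b), (1 / 2 : ℝ) ^ k
          ≤ (4 * √C * 2 ^ D / 2 ^ b) * 2 := by gcongr
        _ = 8 * √C * 2 ^ D / 2 ^ b := by ring
    linarith
  -- conclusion
  obtain ⟨c₂, hc₂⟩ : ∃ c₂ : ℝ, c₂ = c₁ / 2 / (4 : ℝ) ^ (2 * 4 ^ b) := ⟨_, rfl⟩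
  have hc₂0 : 0 < c₂ := by
    rw [hc₂]
    positivity
  refine ⟨c₂ ^ 2 / ((4 : ℝ) ^ (b + 2)) ^ D, by positivity, fun l => ?_⟩
  obtain ⟨a, ha⟩ : ∃ a : ℕ, a = b + 2 + Nat.log 4 (l + 1) := ⟨_, rfl⟩
  have ha1 : b < a := by omega
  have ha2 : l ≤ 4 ^ a := by
    have h3 := Nat.lt_pow_succ_log_self (b := 4) (by norm_num) (l + 1)
    have h4 : 4 ^ (Nat.log 4 (l + 1)).succ ≤ 4 ^ a :=
      Nat.pow_le_pow_right (by norm_num) (by rw [ha]; omega)
    omega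
  have ha3 : (4 : ℝ) ^ a ≤ 4 ^ (b + 2) * ((l : ℝ) + 1) := by
    have h3 := Nat.pow_log_le_self 4 (x := l + 1) (by omega)
    rw [ha, pow_add]
    have h4 : ((4 : ℝ)) ^ (Nat.log 4 (l + 1)) ≤ (l : ℝ) + 1 := by exact_mod_cast h3
    gcongr
  have h3 := key a ha1
  have h4 : c₂ ≤ m (4 ^ a) * (2 ^ a) ^ D := by
    rw [hc₂, div_le_iff₀ (by positivity)]
    linarith
  have h5 : m (4 ^ a) ≤ m l := hmanti _ _ ha2
  rw [div_le_iff₀ (by positivity)]
  calc c₂ ^ 2 ≤ (m (4 ^ a) * (2 ^ a) ^ D) ^ 2 := by gcongr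
    _ = m (4 ^ a) ^ 2 * (4 ^ a) ^ D := by
        have h6 : ((2 : ℝ) ^ a) ^ 2 = 4 ^ a := by
          rw [← pow_mul, mul_comm, pow_mul]
          norm_num
        rw [← h6]
        ring
    _ ≤ m l ^ 2 * (4 ^ (b + 2) * ((l : ℝ) + 1)) ^ D := by
        have h7 := hm0 (4 ^ a)
        gcongr
    _ = (∫ ω, x ω ^ l ∂μ) ^ 2 * ((l : ℝ) + 1) ^ D * (4 ^ (b + 2)) ^ D := by
        rw [hm, mul_pow]
        ring

end Pool.Agent.H847.CG.ANA
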