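import Pool.Agent.H847.CG.Stm

/-!
# BER: a Bernstein-type inequality for tensor powers of a unitary matrix
-/

set_option autoImplicit false

open scoped ComplexOrder

namespace Pool.Agent.H847.CG.BER

open Matrix

/-- the square of the norm -/
noncomputable def n2 {I : Type} [Fintype I] (x : I → ℂ) : ℝ := ∑ i, ‖x i‖ ^ 2

theorem n2_nonneg {I : Type} [Fintype I] (x : I → ℂ) : 0 ≤ n2 x :=
  Finset.sum_nonneg fun _ _ => sq_nonneg _

theorem sqrt_add {I : Type} [Fintype I] (u v : I → ℂ) :
    √(n2 fun i => u i + v i) ≤ √(n2 u) + √(n2 v) := by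
  have h := norm_add_le (WithLp.toLp 2 u : EuclideanSpace ℂ I) (WithLp.toLp 2 v)
  rw [EuclideanSpace.norm_eq, EuclideanSpace.norm_eq, EuclideanSpace.norm_eq] at h
  exact h

theorem n2_eq {I : Type} [Fintype I] (x : I → ℂ) : (n2 x : ℂ) = star x ⬝ᵥ x := by
  unfold n2 dotProduct
  push_cast
  apply Finset.sum_congr rfl
  intro i _
  rw [Pi.star_apply, Complex.star_def, Complex.conj_mul']

theorem n2_unitary {B : Type} [Fintype B] [DecidableEq B] {k : Matrix B B ℂ}
    (hk : k ∈ Matrix.unitaryGroup B ℂ) (w : B → ℂ) : n2 (k *ᵥ w) = n2 w := by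
  have h : (n2 (k *ᵥ w) : ℂ) = n2 w := by
    rw [n2_eq, n2_eq, Matrix.star_mulVec, Matrix.dotProduct_mulVec, Matrix.vecMul_vecMul]
    have h1 : kᴴ * k = 1 := by
      have := Matrix.mem_unitaryGroup_iff'.mp hk
      rwa [Matrix.star_eq_conjTranspose] at this
    rw [h1, Matrix.vecMul_one]
  exact_mod_cast h

/-- the square of the Hilbert-Schmidt norm -/
noncomputable def hs {B : Type} [Fintype B] (m : Matrix B B ℂ) : ℝ := ∑ b, ∑ b', ‖m b b'‖ ^ 2

theorem hs_nonneg {B : Type} [Fintype B] (m : Matrix B B ℂ) : 0 ≤ hs m :=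
  Finset.sum_nonneg fun _ _ => Finset.sum_nonneg fun _ _ => sq_nonneg _

theorem n2_hs {B : Type} [Fintype B] (m : Matrix B B ℂ) (w : B → ℂ) :
    n2 (m *ᵥ w) ≤ hs m * n2 w := by
  unfold n2 hs
  rw [Finset.sum_mul]
  apply Finset.sum_le_sum
  intro b _
  have h1 : ‖(m *ᵥ w) b‖ ≤ ∑ b', ‖m b b'‖ * ‖w b'‖ := by
    unfold Matrix.mulVec dotProduct
    refine (norm_sum_le _ _).trans (le_of_eq ?_)
    apply Finset.sum_congr rfl
    intro i _
    rw [norm_mul]
  calc ‖(m *ᵥ w) b‖ ^ 2 ≤ (∑ b', ‖m b b'‖ * ‖w b'‖) ^ 2 := by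
        apply pow_le_pow_left₀ (norm_nonneg _) h1
    _ ≤ _ := Finset.sum_mul_sq_le_sq_mul_sq _ _ _

theorem hs_eq {B : Type} [Fintype B] [DecidableEq B] {k : Matrix B B ℂ}
    (hk : k ∈ Matrix.unitaryGroup B ℂ) :
    hs (k - 1) = 2 * (Fintype.card B - k.trace.re) := by
  have h0 : ∀ m : Matrix B B ℂ, (hs m : ℂ) = (mᴴ * m).trace := by
    intro m
    unfold hs Matrix.trace
    push_cast
    rw [Finset.sum_comm]
    apply Finset.sum_congr rfl
    intro b' _
    rw [Matrix.diag_apply, Matrix.mul_apply]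
    apply Finset.sum_congr rfl
    intro b _
    rw [Matrix.conjTranspose_apply, Complex.star_def, Complex.conj_mul']
  have h1 : kᴴ * k = 1 := by
    have := Matrix.mem_unitaryGroup_iff'.mp hk
    rwa [Matrix.star_eq_conjTranspose] at this
  have h2 : (k - 1)ᴴ * (k - 1) = 1 + 1 - kᴴ - k := by
    rw [Matrix.conjTranspose_sub, Matrix.conjTranspose_one, sub_mul, mul_sub, h1, mul_one, one_mul]
    abel
  have h3 := h0 (k - 1)
  rw [h2, Matrix.trace_sub, Matrix.trace_sub, Matrix.trace_add, Matrix.trace_one,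
    Matrix.trace_conjTranspose] at h3
  have h4 := congrArg Complex.re h3
  simp at h4
  rw [h4]
  ring

/-- the sum over the first coordinate and the other ones -/
theorem sum_cons {B M : Type} [Fintype B] [AddCommMonoid M] (r : ℕ)
    (φ : (Fin (r + 1) → B) → M) :
    ∑ J, φ J = ∑ b, ∑ J : Fin r → B, φ (Fin.cons b J) := by
  rw [← (Fin.consEquiv (fun _ : Fin (r + 1) => B)).sum_comp, Fintype.sum_prod_type]
  rfl

theorem n2_cons {B : Type} [Fintype B] (r : ℕ) (x : (Fin (r + 1) → B) → ℂ) :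
    n2 x = ∑ b, n2 (fun J : Fin r → B => x (Fin.cons b J)) := by
  unfold n2
  rw [sum_cons]

theorem n2_cons' {B : Type} [Fintype B] (r : ℕ) (x : (Fin (r + 1) → B) → ℂ) :
    n2 x = ∑ J : Fin r → B, n2 (fun b : B => x (Fin.cons b J)) := by
  rw [n2_cons]
  unfold n2
  rw [Finset.sum_comm]

theorem tpw_cons {B : Type} [Fintype B] [DecidableEq B] (r : ℕ) (k : Matrix B B ℂ)
    (x : (Fin (r + 1) → B) → ℂ) (b : B) (J : Fin r → B) :
    (tpw (r + 1) k *ᵥ x) (Fin.cons b J) =
      (k *ᵥ fun b' => (tpw r k *ᵥ fun J' => x (Fin.cons b' J')) J) b := by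
  unfold Matrix.mulVec dotProduct tpw
  rw [sum_cons]
  apply Finset.sum_congr rfl
  intro b' _
  rw [Finset.mul_sum]
  apply Finset.sum_congr rfl
  intro J' _
  simp only [Matrix.of_apply]
  rw [Fin.prod_univ_succ]
  simp only [Fin.cons_zero, Fin.cons_succ]
  ring

theorem key {B : Type} [Fintype B] [DecidableEq B] {k : Matrix B B ℂ}
    (hk : k ∈ Matrix.unitaryGroup B ℂ) (r : ℕ) : ∀ x : (Fin r → B) → ℂ,
    n2 (tpw r k *ᵥ x) = n2 x ∧
      √(n2 fun J => (tpw r k *ᵥ x) J - x J) ≤ r * √(hs (k - 1)) * √(n2 x) := by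
  induction r with
  | zero =>
    intro x
    have h : tpw 0 k *ᵥ x = x := by
      funext J
      unfold Matrix.mulVec dotProduct tpw
      simp only [Matrix.of_apply, Finset.univ_eq_empty, Finset.prod_empty, one_mul]
      rw [Fintype.sum_unique]
      congr 1
      exact Subsingleton.elim _ _
    rw [h]
    refine ⟨rfl, ?_⟩
    simp [n2]
  | succ r ih =>
    intro x
    -- the image of the fibres
    let y : (Fin (r + 1) → B) → ℂ := fun I =>
      (tpw r k *ᵥ fun J' => x (Fin.cons (I 0) J')) (fun i => I i.succ)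
    have hy : ∀ b J, y (Fin.cons b J) = (tpw r k *ᵥ fun J' => x (Fin.cons b J')) J := by
      intro b J
      simp only [y, Fin.cons_zero, Fin.cons_succ]
    have h1 : ∀ b J, (tpw (r + 1) k *ᵥ x) (Fin.cons b J) = (k *ᵥ fun b' => y (Fin.cons b' J)) b := by
      intro b J
      rw [tpw_cons]
      simp only [hy]
    have hny : n2 y = n2 x := by
      rw [n2_cons, n2_cons r x]
      apply Finset.sum_congr rfl
      intro b _
      simp only [hy]
      exact (ih _).1
    constructor
    · rw [n2_cons']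
      simp only [h1]
      have : ∀ J : Fin r → B, n2 (fun b => (k *ᵥ fun b' => y (Fin.cons b' J)) b) =
          n2 (fun b => y (Fin.cons b J)) := fun J => n2_unitary hk _
      rw [Finset.sum_congr rfl fun J _ => this J, ← n2_cons', hny]
    · -- the two parts
      let u : (Fin (r + 1) → B) → ℂ := fun I =>
        (k *ᵥ fun b' => y (Fin.cons b' (fun i => I i.succ)) - x (Fin.cons b' (fun i => I i.succ)))
          (I 0)
      let v : (Fin (r + 1) → B) → ℂ := fun I =>
        ((k - 1) *ᵥ fun b' => x (Fin.cons b' (fun i => I i.succ))) (I 0)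
      have hu : ∀ b J, u (Fin.cons b J) =
          (k *ᵥ fun b' => y (Fin.cons b' J) - x (Fin.cons b' J)) b := by
        intro b J
        simp only [u, Fin.cons_zero, Fin.cons_succ]
      have hv : ∀ b J, v (Fin.cons b J) = ((k - 1) *ᵥ fun b' => x (Fin.cons b' J)) b := by
        intro b J
        simp only [v, Fin.cons_zero, Fin.cons_succ]
      have huv : (fun J => (tpw (r + 1) k *ᵥ x) J - x J) = fun J => u J + v J := by
        funext I
        rw [← Fin.cons_self_tail I, hu, hv, h1]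
        have e1 : (k *ᵥ fun b' => y (Fin.cons b' (Fin.tail I)) - x (Fin.cons b' (Fin.tail I))) =
            (k *ᵥ fun b' => y (Fin.cons b' (Fin.tail I))) -
              (k *ᵥ fun b' => x (Fin.cons b' (Fin.tail I))) := by
          rw [← Matrix.mulVec_sub]
          rfl
        have e2 : ((k - 1) *ᵥ fun b' => x (Fin.cons b' (Fin.tail I))) =
            (k *ᵥ fun b' => x (Fin.cons b' (Fin.tail I))) - fun b' => x (Fin.cons b' (Fin.tail I)) := by
          rw [Matrix.sub_mulVec, Matrix.one_mulVec]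
        rw [e1, e2]
        simp only [Pi.sub_apply]
        ring
      have hnu : n2 u = n2 (fun I => y I - x I) := by
        rw [n2_cons', n2_cons' r (fun I => y I - x I)]
        apply Finset.sum_congr rfl
        intro J _
        simp only [hu]
        exact n2_unitary hk _
      have hnu2 : n2 (fun I => y I - x I) ≤ (r * √(hs (k - 1))) ^ 2 * n2 x := by
        rw [n2_cons, n2_cons r x, Finset.mul_sum]
        apply Finset.sum_le_sum
        intro b _
        simp only [hy]
        have h2 := (ih (fun J' => x (Fin.cons b J'))).2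
        have h3 := pow_le_pow_left₀ (Real.sqrt_nonneg _) h2 2
        rw [Real.sq_sqrt (n2_nonneg _), mul_pow, Real.sq_sqrt (n2_nonneg _)] at h3
        exact h3
      have hnv : n2 v ≤ hs (k - 1) * n2 x := by
        rw [n2_cons', n2_cons' r x, Finset.mul_sum]
        apply Finset.sum_le_sum
        intro J _
        simp only [hv]
        exact n2_hs _ _
      rw [huv]
      have hr : (0 : ℝ) ≤ r * √(hs (k - 1)) := by positivity
      have hu2 : √(n2 u) ≤ r * √(hs (k - 1)) * √(n2 x) := by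
        rw [hnu]
        refine (Real.sqrt_le_sqrt hnu2).trans (le_of_eq ?_)
        rw [Real.sqrt_mul (sq_nonneg _), Real.sqrt_sq hr]
      have hv2 : √(n2 v) ≤ √(hs (k - 1)) * √(n2 x) := by
        refine (Real.sqrt_le_sqrt hnv).trans (le_of_eq ?_)
        rw [Real.sqrt_mul (hs_nonneg _)]
      calc √(n2 fun J => u J + v J) ≤ √(n2 u) + √(n2 v) := sqrt_add u v
        _ ≤ r * √(hs (k - 1)) * √(n2 x) + √(hs (k - 1)) * √(n2 x) := add_le_add hu2 hv2
        _ = ((r + 1 : ℕ) : ℝ) * √(hs (k - 1)) * √(n2 x) := by push_cast; ring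

/-- the inequality for one vector -/
theorem vec {B : Type} [Fintype B] [DecidableEq B] {k : Matrix B B ℂ}
    (hk : k ∈ Matrix.unitaryGroup B ℂ) (r : ℕ) (x : (Fin r → B) → ℂ) :
    n2 x * (1 - (r : ℝ) ^ 2 * (Fintype.card B - k.trace.re)) ≤
      (star x ⬝ᵥ (tpw r k *ᵥ x)).re := by
  obtain ⟨h1, h2⟩ := key hk r x
  have h3 := pow_le_pow_left₀ (Real.sqrt_nonneg _) h2 2
  rw [Real.sq_sqrt (n2_nonneg _), mul_pow, mul_pow, Real.sq_sqrt (n2_nonneg _),
    Real.sq_sqrt (hs_nonneg _), hs_eq hk] at h3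
  have h4 : n2 (fun J => (tpw r k *ᵥ x) J - x J) =
      n2 (tpw r k *ᵥ x) + n2 x - 2 * (star x ⬝ᵥ (tpw r k *ᵥ x)).re := by
    unfold n2 dotProduct
    rw [Complex.re_sum, Finset.mul_sum, ← Finset.sum_add_distrib, ← Finset.sum_sub_distrib]
    apply Finset.sum_congr rfl
    intro J _
    rw [Pi.star_apply, Complex.star_def, ← Complex.normSq_eq_norm_sq, ← Complex.normSq_eq_norm_sq,
      ← Complex.normSq_eq_norm_sq, Complex.normSq_apply, Complex.normSq_apply,
      Complex.normSq_apply, Complex.mul_re, Complex.conj_re, Complex.conj_im, Complex.sub_re,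
      Complex.sub_im]
    ring
  rw [h4, h1] at h3
  nlinarith [h3]

theorem main : S_BER := by
  intro B _ _ r P k hP hk
  open scoped MatrixOrder in
  obtain ⟨A, rfl⟩ := CStarAlgebra.nonneg_iff_eq_star_mul_self.mp hP.nonneg
  rw [Matrix.star_eq_conjTranspose]
  -- the rows
  let x : (Fin r → B) → (Fin r → B) → ℂ := fun i J => star (A i J)
  have h1 : (Aᴴ * A).trace.re = ∑ i, n2 (x i) := by
    rw [Matrix.trace_mul_comm]
    unfold Matrix.trace
    rw [Complex.re_sum]
    apply Finset.sum_congr rfl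
    intro i _
    rw [Matrix.diag_apply, Matrix.mul_apply]
    have : (n2 (x i) : ℂ) = ∑ j, A i j * Aᴴ j i := by
      unfold n2
      push_cast
      apply Finset.sum_congr rfl
      intro j _
      simp only [x]
      rw [Matrix.conjTranspose_apply, norm_star, Complex.star_def, Complex.mul_conj']
    rw [← this, Complex.ofReal_re]
  have h2 : (Aᴴ * A * tpw r k).trace.re = ∑ i, (star (x i) ⬝ᵥ (tpw r k *ᵥ x i)).re := by
    rw [Matrix.mul_assoc, Matrix.trace_mul_comm]
    unfold Matrix.trace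
    rw [Complex.re_sum]
    apply Finset.sum_congr rfl
    intro i _
    rw [Matrix.diag_apply, Matrix.mul_assoc, Matrix.mul_apply]
    congr 1
    unfold dotProduct
    apply Finset.sum_congr rfl
    intro j _
    simp only [x, Pi.star_apply, star_star]
    rw [Matrix.mul_apply]
    rfl
  rw [h1, h2, Finset.sum_mul]
  apply Finset.sum_le_sum
  intro i _
  exact vec hk r (x i)

end Pool.Agent.H847.CG.BER
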