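import Pool.Agent.H847.CG.Stm

/-! Leaf FIX: the dimension of the space of the fixed vectors is the integral of the trace. -/

open MeasureTheory

namespace Pool.Agent.H847.CG.FIX

theorem main : S_FIX := by
  intro G _ _ _ _ _ _ μ _ _ I _ _ R hR
  have hent : ∀ i j, Continuous fun g => R g i j := fun i j => hR.matrix_elem i j
  have hint : ∀ i j, Integrable (fun g => R g i j) μ := fun i j =>
    (hent i j).integrable_of_hasCompactSupport (HasCompactSupport.of_compactSpace _)
  set P : Matrix I I ℂ := Matrix.of fun i j => ∫ g, R g i j ∂μ with hP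
  have hPe : ∀ i j, P i j = ∫ g, R g i j ∂μ := fun i j => rfl
  have hRP : ∀ h, R h * P = P := by
    intro h
    ext i j
    rw [Matrix.mul_apply]
    simp_rw [hPe, ← integral_const_mul]
    rw [← integral_finsetSum _ (fun k _ => (hint k j).const_mul _)]
    rw [← integral_mul_left_eq_self (μ := μ) (fun g => R g i j) h]
    refine integral_congr_ae (Filter.Eventually.of_forall fun g => ?_)
    simp only [map_mul, Matrix.mul_apply]
  have hPv : ∀ v ∈ fixedBy R, P.mulVec v = v := by
    intro v hv
    funext i
    have h1 : P.mulVec v i = ∑ j, (∫ g, R g i j ∂μ) * v j := by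
      simp [Matrix.mulVec, dotProduct, hPe]
    rw [h1]
    simp_rw [← integral_mul_const]
    rw [← integral_finsetSum _ (fun k _ => (hint i k).mul_const _)]
    have h2 : ∀ g, ∑ j, R g i j * v j = v i := by
      intro g
      have := congrFun (hv g) i
      simpa [Matrix.mulVec, dotProduct] using this
    simp_rw [h2]
    simp
  have hproj : LinearMap.IsProj (fixedBy R) (Matrix.toLin' P) := by
    refine ⟨fun x => ?_, fun x hx => ?_⟩
    · intro g
      rw [Matrix.toLin'_apply, Matrix.mulVec_mulVec, hRP]
    · rw [Matrix.toLin'_apply]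
      exact hPv x hx
  rw [← hproj.trace, Matrix.trace_toLin'_eq, Matrix.trace]
  simp only [Matrix.diag_apply, hPe]
  rw [← integral_finsetSum _ (fun k _ => hint k k)]
  rfl

end Pool.Agent.H847.CG.FIX
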