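import Pool.Agent.H847.CG.Char
import Pool.Agent.H847.CG.BER
import Pool.Agent.H847.CG.FIX

/-!
# Growth of invariant tensors of compact groups: asymptotics with error `O(1/n)`
-/

open Matrix MeasureTheory
open scoped ComplexOrder

namespace Pool.Agent.H847.CG.ASY

lemma integ {G : Type} [TopologicalSpace G] [CompactSpace G] [MeasurableSpace G] [BorelSpace G]
    (μ : Measure G) [IsProbabilityMeasure μ] {E : Type} [NormedAddCommGroup E] {f : G → E}
    (hf : Continuous f) : Integrable f μ :=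
  hf.integrable_of_hasCompactSupport (HasCompactSupport.of_compactSpace _)

theorem main (h1 : S_KEY) (h2 : S_STEP) (h3 : S_MON) : S_ASY := by
  intro B _ _ Γ hΓ r J _ _ t
  have hF : S_FIX := FIX.main
  obtain ⟨b, hb⟩ : ∃ b : ℝ, b = Fintype.card B := ⟨_, rfl⟩
  obtain ⟨q, hq⟩ : ∃ q : ℝ, q = Module.finrank ℂ (Γ.orb r t) := ⟨_, rfl⟩
  have hb1 : 1 ≤ b := by
    rw [hb]
    exact_mod_cast hΓ.card_pos
  have hb0 : 0 < b := by linarith
  have hq0 : 0 ≤ q := by
    rw [hq]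
    exact Nat.cast_nonneg _
  refine ⟨q * (r : ℝ) ^ 2 * b ^ 5, ?_⟩
  intro n T hT
  obtain ⟨T', P, hP, hPt, hPn, hfin, hT'⟩ := h1 B Γ r n J t
  have hTT : T = T' := by
    ext x
    rw [hT, hT']
  subst hTT
  -- the functions
  obtain ⟨x, hx⟩ : ∃ x : Γ.G → ℝ, x = fun g => (Γ.χ g).re := ⟨_, rfl⟩
  obtain ⟨F, hFd⟩ : ∃ F : Γ.G → ℝ, F = fun g => ((P * tpw r (Γ.ρ g)).trace).re := ⟨_, rfl⟩
  have hxy : ∀ g, x g = b * Γ.y g := by
    intro g
    rw [hx, CGrp.y, ← hb, mul_div_cancel₀ _ hb0.ne']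
  have hχ : ∀ g, Γ.χ g = ((x g : ℝ) : ℂ) := by
    intro g
    rw [hx]
    exact hΓ.χ_eq g
  have hxc : Continuous x := by
    rw [hx]
    exact Complex.continuous_re.comp Γ.cont_χ
  have hFcC : Continuous fun g => (P * tpw r (Γ.ρ g)).trace :=
    (continuous_const.matrix_mul ((continuous_tpw r).comp Γ.cont)).matrix_trace
  have hFc : Continuous F := by
    rw [hFd]
    exact Complex.continuous_re.comp hFcC
  have hyc : Continuous Γ.y := hΓ.cont_y
  -- the dimension of T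
  have e1 : (Module.finrank ℂ T : ℝ) = ∫ g, x g ^ n * F g ∂Γ.μ := by
    have k1 : Continuous fun g => Γ.χ g ^ n * star ((P * tpw r (Γ.ρ g)).trace) :=
      (Γ.cont_χ.pow n).mul (continuous_star.comp hFcC)
    have k2 := integral_re (integ Γ.μ k1)
    rw [← hfin] at k2
    have k3 : RCLike.re ((Module.finrank ℂ T : ℕ) : ℂ) = (Module.finrank ℂ T : ℝ) := by
      simp
    rw [k3] at k2
    rw [← k2]
    refine integral_congr_ae (Filter.Eventually.of_forall fun g => ?_)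
    show (Γ.χ g ^ n * star ((P * tpw r (Γ.ρ g)).trace)).re = x g ^ n * F g
    rw [hχ, ← Complex.ofReal_pow, Complex.re_ofReal_mul, hFd]
    rfl
  -- the number of the invariant tensors
  have e2 : (Γ.s n : ℝ) = ∫ g, x g ^ n ∂Γ.μ := by
    rw [hΓ.s_real hF n, ← hb, ← integral_const_mul]
    refine integral_congr_ae (Filter.Eventually.of_forall fun g => ?_)
    show b ^ n * Γ.y g ^ n = x g ^ n
    rw [hxy, mul_pow]
  obtain ⟨m, hm⟩ : ∃ m : ℕ, m = n / 2 := ⟨_, rfl⟩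
  have hm1 : 2 * m ≤ n := by omega
  have hm2 : n + 1 ≤ 2 * (m + 1) := by omega
  have e3 : (Module.finrank ℂ T : ℝ) - q * Γ.s n = ∫ g, x g ^ n * (F g - q) ∂Γ.μ := by
    rw [e1, e2, ← integral_const_mul, ← integral_sub]
    · refine integral_congr_ae (Filter.Eventually.of_forall fun g => ?_)
      show x g ^ n * F g - q * x g ^ n = x g ^ n * (F g - q)
      ring
    · exact integ Γ.μ ((hxc.pow n).mul hFc)
    · exact integ Γ.μ (continuous_const.mul (hxc.pow n))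
  -- the moments
  have e4 : Γ.mom m - Γ.mom (m + 1) = ∫ g, Γ.y g ^ (2 * m) * (1 - Γ.y g ^ 2) ∂Γ.μ := by
    rw [CGrp.mom, CGrp.mom, ← integral_sub]
    · refine integral_congr_ae (Filter.Eventually.of_forall fun g => ?_)
      show Γ.y g ^ (2 * m) - Γ.y g ^ (2 * (m + 1)) = Γ.y g ^ (2 * m) * (1 - Γ.y g ^ 2)
      ring
    · exact integ Γ.μ (hyc.pow _)
    · exact integ Γ.μ (hyc.pow _)
  have e5 : 0 ≤ Γ.mom m - Γ.mom (m + 1) := by
    rw [e4]
    refine integral_nonneg fun g => ?_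
    have k1 := hΓ.y_bound g
    have k2 : 0 ≤ Γ.y g ^ (2 * m) := by
      rw [pow_mul]
      positivity
    exact mul_nonneg k2 (by linarith)
  -- pointwise
  have e6 : ∀ g, |F g - q| ≤ q * (r : ℝ) ^ 2 * (b ^ 2 / 2 * (1 - Γ.y g ^ 2)) := by
    intro g
    have k1 := BER.main B r P (Γ.ρ g) hP (Γ.unit g)
    have k2 : P.trace.re = q := by
      rw [hPt, hq]
      simp
    have k3 : F g ≤ q := by
      rw [hFd, hq]
      exact (Complex.re_le_norm _).trans (hPn g)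
    have k4 := hΓ.sub_le g
    rw [k2] at k1
    have k5 : (Γ.ρ g).trace.re = (Γ.χ g).re := rfl
    rw [k5, ← hb] at k1
    rw [← hb] at k4
    have k6 : (P * tpw r (Γ.ρ g)).trace.re = F g := by rw [hFd]
    rw [k6] at k1
    rw [abs_le]
    have k7 : 0 ≤ q * (r : ℝ) ^ 2 := by positivity
    have k8 : q * (r : ℝ) ^ 2 * (b - (Γ.χ g).re) ≤
        q * (r : ℝ) ^ 2 * (b ^ 2 / 2 * (1 - Γ.y g ^ 2)) := mul_le_mul_of_nonneg_left k4 k7
    have k9 : 0 ≤ q * (r : ℝ) ^ 2 * (b ^ 2 / 2 * (1 - Γ.y g ^ 2)) := by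
      have := hΓ.y_bound g
      exact mul_nonneg k7 (mul_nonneg (by positivity) (by linarith))
    constructor
    · nlinarith
    · linarith
  have e7 : ∀ g, |x g| ^ n ≤ b ^ n * Γ.y g ^ (2 * m) := by
    intro g
    have k1 := hΓ.y_bound g
    have k2 : |Γ.y g| ≤ 1 := abs_le_one_iff_mul_self_le_one.2 (by nlinarith)
    rw [hxy, abs_mul, mul_pow, abs_of_pos hb0]
    refine mul_le_mul_of_nonneg_left ?_ (by positivity)
    calc |Γ.y g| ^ n ≤ |Γ.y g| ^ (2 * m) := pow_le_pow_of_le_one (abs_nonneg _) k2 hm1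
      _ = Γ.y g ^ (2 * m) := by
        rw [pow_mul, sq_abs, ← pow_mul]
  have e8 : |(Module.finrank ℂ T : ℝ) - q * Γ.s n| ≤
      q * (r : ℝ) ^ 2 * (b ^ n * (b ^ 2 / 2)) * (Γ.mom m - Γ.mom (m + 1)) := by
    rw [e3, e4, ← integral_const_mul]
    refine (abs_integral_le_integral_abs).trans ?_
    refine integral_mono (integ Γ.μ ((hxc.pow n).mul (hFc.sub continuous_const)).abs)
      (integ Γ.μ (continuous_const.mul ((hyc.pow _).mul (continuous_const.sub (hyc.pow 2)))))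
      fun g => ?_
    show |x g ^ n * (F g - q)| ≤ q * (r : ℝ) ^ 2 * (b ^ n * (b ^ 2 / 2)) *
      (Γ.y g ^ (2 * m) * (1 - Γ.y g ^ 2))
    rw [abs_mul, abs_pow]
    calc |x g| ^ n * |F g - q| ≤ (b ^ n * Γ.y g ^ (2 * m)) *
          (q * (r : ℝ) ^ 2 * (b ^ 2 / 2 * (1 - Γ.y g ^ 2))) :=
          mul_le_mul (e7 g) (e6 g) (abs_nonneg _) (by
            have : 0 ≤ Γ.y g ^ (2 * m) := by
              rw [pow_mul]
              positivity
            positivity)
      _ = _ := by ring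
  -- the bound for the moments
  have e9 := h2 B Γ hΓ m
  rw [← hb] at e9
  have e10 : b ^ n * Γ.mom m ≤ b * Γ.s n := by
    have k1 : (Γ.s (2 * m) : ℝ) = b ^ (2 * m) * Γ.mom m := by
      rw [hΓ.s_real hF, ← hb]
      rfl
    have k2 : (0 : ℝ) ≤ Γ.s n := Nat.cast_nonneg _
    rcases Nat.lt_or_ge (2 * m) n with h | h
    · have h' : n = 2 * m + 1 := by omega
      have k3 : (Γ.s (2 * m) : ℝ) ≤ Γ.s n := by
        rw [h']
        exact_mod_cast (h3 B Γ hΓ (2 * m)).2.1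
      calc b ^ n * Γ.mom m = b * (b ^ (2 * m) * Γ.mom m) := by
            rw [h', pow_succ]
            ring
        _ = b * Γ.s (2 * m) := by rw [← k1]
        _ ≤ b * Γ.s n := mul_le_mul_of_nonneg_left k3 hb0.le
    · have h' : 2 * m = n := by omega
      rw [h'] at k1
      rw [← k1]
      nlinarith
  have hn2 : (n : ℝ) + 1 ≤ 2 * ((m : ℝ) + 1) := by exact_mod_cast hm2
  rw [← hq]
  have hc : 0 ≤ q * (r : ℝ) ^ 2 := by positivity
  calc |(Module.finrank ℂ T : ℝ) - q * Γ.s n| * (n + 1)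
      ≤ (q * (r : ℝ) ^ 2 * (b ^ n * (b ^ 2 / 2)) * (Γ.mom m - Γ.mom (m + 1))) *
        (2 * ((m : ℝ) + 1)) := mul_le_mul e8 hn2 (by positivity) (by positivity)
    _ = q * (r : ℝ) ^ 2 * b ^ 2 * b ^ n * (((m : ℝ) + 1) * (Γ.mom m - Γ.mom (m + 1))) := by ring
    _ ≤ q * (r : ℝ) ^ 2 * b ^ 2 * b ^ n * (b ^ 2 * Γ.mom m) :=
        mul_le_mul_of_nonneg_left e9 (by positivity)
    _ = q * (r : ℝ) ^ 2 * b ^ 4 * (b ^ n * Γ.mom m) := by ring
    _ ≤ q * (r : ℝ) ^ 2 * b ^ 4 * (b * Γ.s n) := mul_le_mul_of_nonneg_left e10 (by positivity)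
    _ = q * (r : ℝ) ^ 2 * b ^ 5 * Γ.s n := by ring

end Pool.Agent.H847.CG.ASY
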