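import Pool.Agent.H847.CG.Stm2

/-!
# Characters and invariant tensors: basic lemmas
-/

set_option linter.unusedSectionVars false

open Matrix MeasureTheory

namespace Pool.Agent.H847.CG

variable {B : Type} [Fintype B] [DecidableEq B]

namespace CGrp

variable (Γ : CGrp B)

lemma mem_inv (n : ℕ) (v : (Fin n → B) → ℂ) : v ∈ Γ.inv' n ↔ ∀ g, tpw n (Γ.ρ g) *ᵥ v = v :=
  Iff.rfl

lemma cont_χ : Continuous Γ.χ := Γ.cont.matrix_trace

lemma s_eq (hF : S_FIX) (n : ℕ) : (Γ.s n : ℂ) = ∫ g, Γ.χ g ^ n ∂Γ.μ := by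
  have h1 := hF Γ.G Γ.μ (Fin n → B) (Γ.rep n) (Γ.cont_rep n)
  rw [s, inv', h1]
  congr 1
  funext g
  rw [rep_apply, trace_tpw]
  rfl

end CGrp

section trace

/-- The trace of the product with a Hermitian idempotent. -/
lemma trace_le {I : Type} [Fintype I] [DecidableEq I] {k P : Matrix I I ℂ} (hk : kᴴ * k = 1)
    (hP : Pᴴ = P) (hPP : P * P = P) : ‖(k * P).trace‖ ≤ P.trace.re := by
  have h1 : (k * P).trace = ∑ i, ∑ j, star (P i j) * (k * P) i j := by
    have h2 : k * P = k * P * Pᴴ := by rw [hP, Matrix.mul_assoc, hPP]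
    conv_lhs => rw [h2]
    rw [trace]
    simp only [diag_apply, Matrix.mul_apply (M := k * P), conjTranspose_apply]
    refine Finset.sum_congr rfl fun i _ => Finset.sum_congr rfl fun j _ => mul_comm _ _
  have h3 : ∀ Q : Matrix I I ℂ, ((Qᴴ * Q).trace).re = ∑ i, ∑ j, ‖Q i j‖ ^ 2 := by
    intro Q
    rw [trace, Complex.re_sum]
    simp only [diag_apply, Matrix.mul_apply, Complex.re_sum, conjTranspose_apply]
    rw [Finset.sum_comm]
    refine Finset.sum_congr rfl fun i _ => Finset.sum_congr rfl fun j _ => ?_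
    rw [Complex.star_def, Complex.conj_mul', ← Complex.ofReal_pow, Complex.ofReal_re]
  have h4 : ∑ i, ∑ j, ‖P i j‖ ^ 2 = P.trace.re := by
    rw [← h3, hP, hPP]
  have h5 : ∑ i, ∑ j, ‖(k * P) i j‖ ^ 2 = P.trace.re := by
    rw [← h3, conjTranspose_mul]
    congr 2
    calc Pᴴ * kᴴ * (k * P) = Pᴴ * (kᴴ * k) * P := by simp only [Matrix.mul_assoc]
      _ = P := by rw [hk, Matrix.mul_one, hP, hPP]
  rw [h1]
  have h6 : ‖∑ i, ∑ j, star (P i j) * (k * P) i j‖ ≤ ∑ i, ∑ j, ‖P i j‖ * ‖(k * P) i j‖ := by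
    refine (norm_sum_le _ _).trans (Finset.sum_le_sum fun i _ => ?_)
    refine (norm_sum_le _ _).trans (Finset.sum_le_sum fun j _ => ?_)
    rw [norm_mul, norm_star]
  refine h6.trans ?_
  have h7 : ∑ i, ∑ j, ‖P i j‖ * ‖(k * P) i j‖ ≤
      ∑ i, ∑ j, (‖P i j‖ ^ 2 + ‖(k * P) i j‖ ^ 2) / 2 := by
    refine Finset.sum_le_sum fun i _ => Finset.sum_le_sum fun j _ => ?_
    nlinarith [sq_nonneg (‖P i j‖ - ‖(k * P) i j‖)]
  refine h7.trans (le_of_eq ?_)
  simp only [add_div, Finset.sum_add_distrib, ← Finset.sum_div]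
  rw [h4, h5]
  ring

end trace

namespace Good

variable {Γ : CGrp B} (hΓ : Good Γ)

include hΓ

lemma card_pos : 0 < Fintype.card B := by
  obtain ⟨e, he, -⟩ := hΓ.vec
  rw [Fintype.card_pos_iff]
  by_contra h
  rw [not_nonempty_iff] at h
  rw [Finset.univ_eq_empty, Finset.sum_empty] at he
  exact zero_ne_one he

lemma χ_eq (g : Γ.G) : Γ.χ g = ((Γ.χ g).re : ℂ) := by
  apply Complex.ext
  · rfl
  · rw [hΓ.real, Complex.ofReal_im]

lemma χ_ge (g : Γ.G) : 2 - (Fintype.card B : ℝ) ≤ (Γ.χ g).re ∧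
    (Γ.χ g).re ≤ Fintype.card B := by
  obtain ⟨e, he, hfix⟩ := hΓ.vec
  have hk : (Γ.ρ g)ᴴ * Γ.ρ g = 1 := mem_unitaryGroup_iff'.1 (Γ.unit g)
  have hee : star e ⬝ᵥ e = 1 := by
    rw [dotProduct]
    simp only [Pi.star_apply, Complex.star_def, Complex.conj_mul', ← Complex.ofReal_pow]
    rw [← Complex.ofReal_sum, he, Complex.ofReal_one]
  set Q : Matrix B B ℂ := vecMulVec e (star e) with hQ
  have hQh : Qᴴ = Q := by
    rw [hQ, conjTranspose_vecMulVec, star_star]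
  have hQQ : Q * Q = Q := by
    rw [hQ, vecMulVec_mul_vecMulVec, hee, one_smul]
  have hQt : Q.trace = 1 := by
    rw [hQ, trace_vecMulVec, dotProduct_comm, hee]
  have hkQ : Γ.ρ g * Q = Q := by
    rw [hQ, mul_vecMulVec, hfix g]
  set P : Matrix B B ℂ := 1 - Q with hP
  have hPh : Pᴴ = P := by rw [hP, conjTranspose_sub, conjTranspose_one, hQh]
  have hPP : P * P = P := by
    rw [hP, Matrix.sub_mul, Matrix.one_mul, Matrix.mul_sub, Matrix.mul_one, hQQ, sub_self, sub_zero]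
  have hPt : P.trace.re = Fintype.card B - 1 := by
    rw [hP, trace_sub, trace_one, hQt]
    simp
  have h1 := trace_le hk hPh hPP
  have h2 : (Γ.ρ g * P).trace = Γ.χ g - 1 := by
    rw [hP, Matrix.mul_sub, Matrix.mul_one, hkQ, trace_sub, hQt]
    rfl
  rw [h2, hPt] at h1
  have h3 : |(Γ.χ g - 1).re| ≤ Fintype.card B - 1 := (Complex.abs_re_le_norm _).trans h1
  rw [Complex.sub_re, Complex.one_re, abs_le] at h3
  constructor <;> linarith [h3.1, h3.2]

lemma y_bound (g : Γ.G) : Γ.y g ^ 2 ≤ 1 := by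
  have hb : (0 : ℝ) < Fintype.card B := by exact_mod_cast hΓ.card_pos
  have h := hΓ.χ_ge g
  have h1 : -(1 : ℝ) ≤ Γ.y g := by
    rw [CGrp.y, le_div_iff₀ hb]
    linarith [h.1]
  have h2 : Γ.y g ≤ 1 := by
    rw [CGrp.y, div_le_one hb]
    exact h.2
  nlinarith

/-- The comparison of `b - χ` with `1 - y²`. -/
lemma sub_le (g : Γ.G) : (Fintype.card B : ℝ) - (Γ.χ g).re ≤
    (Fintype.card B : ℝ) ^ 2 / 2 * (1 - Γ.y g ^ 2) := by
  have hb : (0 : ℝ) < Fintype.card B := by exact_mod_cast hΓ.card_pos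
  have h := hΓ.χ_ge g
  set x := (Γ.χ g).re with hx
  set b := (Fintype.card B : ℝ) with hbdef
  have h1 : b ^ 2 / 2 * (1 - Γ.y g ^ 2) = (b - x) * (b + x) / 2 := by
    rw [CGrp.y, ← hx, ← hbdef]
    field_simp
    ring
  rw [h1]
  nlinarith [h.1, h.2]

lemma cont_y : Continuous Γ.y := (Complex.continuous_re.comp Γ.cont_χ).div_const _

/-- The numbers of invariant tensors are the moments of the character. -/
lemma s_real (hF : S_FIX) (n : ℕ) :
    (Γ.s n : ℝ) = (Fintype.card B : ℝ) ^ n * ∫ g, Γ.y g ^ n ∂Γ.μ := by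
  have hb : (0 : ℝ) < Fintype.card B := by exact_mod_cast hΓ.card_pos
  have h1 := Γ.s_eq hF n
  have h2 : ∀ g, Γ.χ g ^ n = (((Fintype.card B : ℝ) ^ n * Γ.y g ^ n : ℝ) : ℂ) := by
    intro g
    rw [← mul_pow, CGrp.y, mul_div_cancel₀ _ hb.ne', Complex.ofReal_pow, ← hΓ.χ_eq]
  simp only [h2] at h1
  rw [integral_complex_ofReal, integral_const_mul] at h1
  exact_mod_cast h1

end Good

end Pool.Agent.H847.CG
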