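import Pool.Agent.H847.CG.Stm2
import Pool.Agent.H847.CG.Char

/-! Leaf AVG: averages are equivariant. -/

set_option linter.unusedSectionVars false

open MeasureTheory Matrix

namespace Pool.Agent.H847.CG.AVG

variable {B : Type} [Fintype B] [DecidableEq B] (Γ : CGrp B)

/-- The measure is right invariant. -/
lemma map_mul_right (h : Γ.G) : Γ.μ.map (fun g => g * h) = Γ.μ := by
  have : Γ.μ.IsHaarMeasure := { }
  have : (Γ.μ.map (fun g => g * h)).IsMulLeftInvariant := inferInstance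
  have hp : IsProbabilityMeasure (Γ.μ.map (fun g => g * h)) :=
    Measure.isProbabilityMeasure_map (continuous_mul_const h).measurable.aemeasurable
  have h1 := Measure.isMulInvariant_eq_smul_of_compactSpace (Γ.μ.map (fun g => g * h)) Γ.μ
  have h2 : (1 : ENNReal) = (Measure.haarScalarFactor (Γ.μ.map (fun g => g * h)) Γ.μ) := by
    have h3 := congrArg (fun ν : Measure Γ.G => ν Set.univ) h1
    simpa using h3
  rw [h1]
  have h3 : Measure.haarScalarFactor (Γ.μ.map (fun g => g * h)) Γ.μ = 1 := by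
    exact_mod_cast h2.symm
  rw [h3, one_smul]

lemma integral_mul_right' (f : Γ.G → ℂ) (h : Γ.G) :
    ∫ g, f (g * h) ∂Γ.μ = ∫ g, f g ∂Γ.μ := by
  conv_rhs => rw [← map_mul_right Γ h]
  have := (MeasurableEquiv.mulRight h).measurableEmbedding.integral_map (μ := Γ.μ) f
  simpa using this.symm

lemma hent (n : ℕ) (I J : Fin n → B) : Continuous fun g => tpw n (Γ.ρ g) I J :=
  (Γ.cont_rep n).matrix_elem I J

/-- The integrand. -/
noncomputable def F (r n : ℕ) (M : Matrix (Fin n → B) (Fin r → B) ℂ) (g : Γ.G) :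
    Matrix (Fin n → B) (Fin r → B) ℂ := (tpw n (Γ.ρ g))ᴴ * M * tpw r (Γ.ρ g)

lemma F_cont (r n : ℕ) (M : Matrix (Fin n → B) (Fin r → B) ℂ) : Continuous (F Γ r n M) := by
  have h1 : Continuous fun g => tpw n (Γ.ρ g) := Γ.cont_rep n
  have h2 : Continuous fun g => tpw r (Γ.ρ g) := Γ.cont_rep r
  exact ((h1.matrix_conjTranspose).matrix_mul continuous_const).matrix_mul h2

lemma F_int (r n : ℕ) (M : Matrix (Fin n → B) (Fin r → B) ℂ) (I : Fin n → B) (K : Fin r → B) :
    Integrable (fun g => F Γ r n M g I K) Γ.μ :=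
  ((F_cont Γ r n M).matrix_elem I K).integrable_of_hasCompactSupport
    (HasCompactSupport.of_compactSpace _)

lemma uni (n : ℕ) (g : Γ.G) : tpw n (Γ.ρ g) * (tpw n (Γ.ρ g))ᴴ = 1 := by
  rw [← tpw_ct, ← tpw_mul, ← star_eq_conjTranspose, mem_unitaryGroup_iff.1 (Γ.unit g), tpw_one]

lemma uni' (n : ℕ) (g : Γ.G) : (tpw n (Γ.ρ g))ᴴ * tpw n (Γ.ρ g) = 1 := by
  rw [← tpw_ct, ← tpw_mul, ← star_eq_conjTranspose, mem_unitaryGroup_iff'.1 (Γ.unit g), tpw_one]

theorem main : S_AVG := by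
  intro B _ _ Γ r n M h
  set E : Matrix (Fin n → B) (Fin r → B) ℂ := Matrix.of fun I K => ∫ g, F Γ r n M g I K ∂Γ.μ with hE
  change tpw n (Γ.ρ h) * E = E * tpw r (Γ.ρ h)
  have key : (tpw n (Γ.ρ h))ᴴ * E * tpw r (Γ.ρ h) = E := by
    ext I K
    have h1 : ∀ g, F Γ r n M (g * h) I K =
        ∑ K', (∑ I', (tpw n (Γ.ρ h))ᴴ I I' * F Γ r n M g I' K') * tpw r (Γ.ρ h) K' K := by
      intro g
      have h2 : F Γ r n M (g * h) = (tpw n (Γ.ρ h))ᴴ * F Γ r n M g * tpw r (Γ.ρ h) := by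
        simp only [F, map_mul, tpw_mul, conjTranspose_mul, Matrix.mul_assoc]
      rw [h2]
      simp only [Matrix.mul_apply]
    have h3 : E I K = ∫ g, F Γ r n M (g * h) I K ∂Γ.μ := by
      rw [integral_mul_right' Γ (fun g => F Γ r n M g I K) h]
      rfl
    rw [h3]
    simp only [h1]
    rw [integral_finsetSum]
    · rw [Matrix.mul_apply]
      refine Finset.sum_congr rfl fun K' _ => ?_
      rw [integral_mul_const, integral_finsetSum]
      · rw [Matrix.mul_apply]
        congr 1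
        refine Finset.sum_congr rfl fun I' _ => ?_
        rw [integral_const_mul]
        rfl
      · intro I' _
        exact (F_int Γ r n M I' K').const_mul _
    · intro K' _
      refine Integrable.mul_const ?_ _
      exact integrable_finsetSum _ fun I' _ => (F_int Γ r n M I' K').const_mul _
  calc tpw n (Γ.ρ h) * E
      = tpw n (Γ.ρ h) * ((tpw n (Γ.ρ h))ᴴ * E * tpw r (Γ.ρ h)) := by
        rw [key]
    _ = (tpw n (Γ.ρ h) * (tpw n (Γ.ρ h))ᴴ) * E * tpw r (Γ.ρ h) := by
        simp only [Matrix.mul_assoc]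
    _ = E * tpw r (Γ.ρ h) := by rw [uni, Matrix.one_mul]

end Pool.Agent.H847.CG.AVG
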