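import Pool.Agent.H847.CG.Brd
import Pool.Graph.R_seed8.R920.MT.Main

/-!
# Pairs of systems of classes, and Hodge classes
-/

set_option linter.unusedSectionVars false
set_option linter.unusedVariables false

open CategoryTheory AlgebraicGeometry CategoryTheory.Limits TensorProduct Matrix Filter

universe u v

namespace Pool.Agent.H847.CG

open Pool.Agent.H914 Pool.Agent.H447 Pool.Agent.W534 Pool.Agent.Y163 VarClass Obj WeilCohomology
  Module
open Pool.Agent.Y121 Pool.Agent.Y121.AHS Pool.Agent.R940 Pool.Agent.R914.UN Pool.Agent.R920.MT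
open Pool.Agent.Y133.Half (Sys PH Ev Adj ClassPred dimBy)

variable {k : Type u} [Field k] {𝒱 : VarClass k} {ops : CycleOps 𝒱}

lemma IsSystem.toClass {W : WeilCohomology.{u, v} ops} {P : Property W} (h : IsSystem P)
    (hdeg : ∀ Y j c, P Y j c → c ∈ W.gr Y (2 * j)) : IsClassSystem P :=
  ⟨h.lin, h.cl, h.mul, h.map, h.push, hdeg⟩

/-- The Hodge classes form a system of classes. -/
lemma isClass_hodge (T : HodgeTheory ops) : IsClassSystem (IsHodge T) :=
  IsSystem.toClass (isSystem_hodge (toH T)) fun _ _ _ h => h.1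

/-- The algebraic classes form a system of classes. -/
lemma isClass_alg (T : HodgeTheory ops) :
    IsClassSystem (W := T.W) (fun Y j c => ∃ z, Y.IsCyc j z ∧ T.W.cl Y z = c) where
  lin Y j := ⟨{ carrier := {c | ∃ z, Y.IsCyc j z ∧ T.W.cl Y z = c}
                add_mem' := fun ha hb => (algP (toH T)).add ha hb
                zero_mem' := (algP (toH T)).zero
                smul_mem' := fun r _ ha => (algP (toH T)).smul r ha }, fun _ => Iff.rfl⟩
  cyc _ _ _ hz := ⟨_, hz, rfl⟩
  mul _ _ _ _ _ ha hb := (algP (toH T)).mul ha hb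
  map _ _ f _ _ h := (algP (toH T)).map f h
  push _ _ f _ _ _ hl h := (algP (toH T)).push f hl h
  deg _ _ _ h := (algP (toH T)).gr h

/-- The motivated classes form a system of classes. -/
lemma isClass_mot (W : WeilCohomology.{u, v} ops) : IsClassSystem (IsMotivated W) where
  lin Y j := ⟨{ carrier := {c | IsMotivated W Y j c}
                add_mem' := (motPred W).add
                zero_mem' := (motPred W).zero
                smul_mem' := fun r _ h => (motPred W).smul r h }, fun _ => Iff.rfl⟩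
  cyc _ _ _ hz := (motPred W).cl hz
  mul _ _ _ _ _ ha hb := (motPred W).mul ha hb
  map _ _ f _ _ h := (motPred W).map f h
  push _ _ f _ _ _ hl h := (motPred W).push f hl h
  deg _ _ _ h := (motPred W).gr h

/-- Polarisations are given by Hodge classes. -/
theorem given_hodge (T : HodgeTheory ops) (hpos : NonnegTypes T) {X : 𝒱.Obj} {ψ : BilH T X}
    (hψ : IsPolarisation T X ψ) : GivenBy (IsHodge T) ψ := by
  have key : ∀ (c : T.W.H (X.prod X)) (x y : T.W.H X), T.W.tr X (T.W.corr c x * y) =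
      T.W.tr (X.prod X) (c * (T.W.map (fst X X) x * T.W.map (snd X X) y)) := by
    intro c x y
    rw [corr_apply, T.W.tr_push, mul_assoc]
  obtain ⟨c, hc, h⟩ := pol_hodge (T := toH T) (X := X) hpos (ψ := ψ) ⟨hψ.orth, hψ.pos⟩
  exact ⟨c, hc, fun x y => (h x y).trans (key c x y)⟩

/-- Comparison of two systems of classes. -/
lemma base_eq_iff {W : WeilCohomology.{u, 0} ops} [Algebra W.K ℂ] (Q R : ClassPred W)
    (h : ∀ Y j c, Q.P Y j c → R.P Y j c) (Y : 𝒱.Obj) :
    (R.sys.base ℂ).C Y = (Q.sys.base ℂ).C Y ↔ ∀ j c, R.P Y j c → Q.P Y j c := by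
  have hsp : Q.sp Y ≤ R.sp Y := Submodule.span_mono fun c ⟨j, hj⟩ => ⟨j, h Y j c hj⟩
  constructor
  · intro h1 j c hc
    have h2 : finrank W.K (R.sp Y) = finrank W.K (Q.sp Y) := by
      have e1 := Sys.finrank_base ℂ (S := R.sys) Y
      have e2 := Sys.finrank_base ℂ (S := Q.sys) Y
      rw [h1] at e1
      exact e1.symm.trans e2
    have h3 : Q.sp Y = R.sp Y := Submodule.eq_of_le_of_finrank_eq hsp h2.symm
    have h4 : c ∈ Q.sp Y := h3 ▸ ClassPred.sp_of hc
    have h5 := ClassPred.sp_proj h4 j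
    rwa [proj_same _ (R.gr hc)] at h5
  · intro h1
    have h3 : R.sp Y = Q.sp Y :=
      le_antisymm (Submodule.span_mono fun c ⟨j, hj⟩ => ⟨j, h1 j c hj⟩) hsp
    change (R.sp Y).baseChange ℂ = (Q.sp Y).baseChange ℂ
    rw [h3]

/-- The growth law for a system of Hodge classes, and the gap for larger systems. -/
theorem pair_law (T : HodgeTheory ops) (hpos : NonnegTypes T) (X : 𝒱.Obj)
    (hsym : HodgeSymmetric T X) [Nontrivial (T.W.H X)] (P : Property T.W) (hP : IsClassSystem P)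
    (hH : ∀ Y j c, P Y j c → IsHodge T Y j c) {ψ : BilH T X} (hψ : IsPolarisation T X ψ)
    (hψP : GivenBy P ψ) :
    ∃ D : ℕ, HasOrder (finrank T.W.K (T.W.H X)) D (fun n => dimBy T.W P (pw X n)) ∧
      HasPoly D (polyDim T.W P X) ∧
      ∀ P' : Property T.W, IsClassSystem P' → (∀ Y j c, P Y j c → P' Y j c) →
        (∃ N : ℕ, 1 ≤ N ∧ (N = 1 ↔ ∀ n j c, P' (pw X n) j c → P (pw X n) j c) ∧
          NearIndex N (fun n => dimBy T.W P' (pw X n)) (fun n => dimBy T.W P (pw X n))) ∨
        SqrtGap (fun n => dimBy T.W P' (pw X n)) (fun n => dimBy T.W P (pw X n)) := by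
  obtain ⟨D, h1, h2, h3⟩ := prop_law T hpos X hsym P hP hH hψ hψP
  refine ⟨D, h1, h2, fun P' hP' hPP' => ?_⟩
  have hsp : ∀ Y, (cpred P hP).sys.C Y ≤ (cpred P' hP').sys.C Y := by
    intro Y
    have h7 : {c : T.W.H Y | ∃ j, P Y j c} ⊆ {c | ∃ j, P' Y j c} :=
      fun c ⟨j, hj⟩ => ⟨j, hPP' Y j c hj⟩
    exact Submodule.span_mono h7
  have h4 := h3 ((cpred P' hP').sys.base ℂ) (fun Y => Sys.base_le ℂ hsp Y)
  have e1 : (fun n => finrank (baseW T.W ℂ).K (((cpred P' hP').sys.base ℂ).C (pw X n))) =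
      fun n => dimBy T.W P' (pw X n) :=
    funext fun n => Sys.finrank_base ℂ (S := (cpred P' hP').sys) (pw X n)
  have e2 : (∀ n, ((cpred P' hP').sys.base ℂ).C (pw X n) =
      ((cpred P hP).sys.base ℂ).C (pw X n)) ↔ ∀ n j c, P' (pw X n) j c → P (pw X n) j c :=
    forall_congr' fun n => base_eq_iff (cpred P hP) (cpred P' hP') hPP' (pw X n)
  rw [e1, e2] at h4
  exact h4

/-- **The growth laws for Hodge classes and for systems of Hodge classes.** -/
theorem hodge_law (T : HodgeTheory ops) (hpos : NonnegTypes T) (X : 𝒱.Obj)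
    (hsym : HodgeSymmetric T X) [Nontrivial (T.W.H X)] (hpol : IsPolarisable T X) :
    ∃ h : ℕ, HasOrder (finrank T.W.K (T.W.H X)) h (fun n => dimBy T.W (IsHodge T) (pw X n)) ∧
      HasPoly h (polyDim T.W (IsHodge T) X) ∧
      ∀ P : Property T.W, IsClassSystem P → (∀ Y j c, P Y j c → IsHodge T Y j c) →
        (∃ ψ : BilH T X, IsPolarisation T X ψ ∧ GivenBy P ψ) →
        ∃ a : ℕ, h ≤ a ∧ HasOrder (finrank T.W.K (T.W.H X)) a (fun n => dimBy T.W P (pw X n)) ∧
          HasPoly a (polyDim T.W P X) ∧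
          (a = h → ∃ N : ℕ, 1 ≤ N ∧
            (N = 1 ↔ ∀ n j c, IsHodge T (pw X n) j c → P (pw X n) j c) ∧
            NearIndex N (fun n => dimBy T.W (IsHodge T) (pw X n))
              (fun n => dimBy T.W P (pw X n))) := by
  obtain ⟨ψ, hψ⟩ := hpol
  obtain ⟨h, h1, h2, -⟩ := pair_law T hpos X hsym (IsHodge T) (isClass_hodge T)
    (fun _ _ _ h => h) hψ (given_hodge T hpos hψ)
  refine ⟨h, h1, h2, fun P hP hH ⟨ψ', hψ', hψP⟩ => ?_⟩
  obtain ⟨a, h3, h4, h5⟩ := pair_law T hpos X hsym P hP hH hψ' hψP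
  have hb : (0 : ℝ) < finrank T.W.K (T.W.H X) := by
    exact_mod_cast finrank_pos (R := T.W.K) (M := T.W.H X)
  have hle : ∀ n, dimBy T.W P (pw X n) ≤ dimBy T.W (IsHodge T) (pw X n) := by
    intro n
    have := Submodule.finrank_mono (R := T.W.K) (M := T.W.H (pw X n))
      (s := Submodule.span T.W.K {c | ∃ j, P (pw X n) j c})
      (t := Submodule.span T.W.K {c | ∃ j, IsHodge T (pw X n) j c})
      (Submodule.span_mono fun c ⟨j, hj⟩ => ⟨j, hH _ _ _ hj⟩)
    exact this
  refine ⟨a, order_le_of_le hb h3 h1 hle, h3, h4, fun hah => ?_⟩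
  rcases h5 (IsHodge T) (isClass_hodge T) hH with h6 | h6
  · exact h6
  · have := order_lt_of_gap hb h3 h1 h6
    omega

end Pool.Agent.H847.CG
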