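import Pool.Agent.H847.CG.Law
import Pool.Agent.H847.CG.Fin1
import Pool.Graph.R_seed8.Y121.AHS.Conv

/-!
# The absolutely Hodge classes and the Hodge classes on the powers of a variety
-/

set_option linter.unusedSectionVars false
set_option linter.unusedVariables false

open CategoryTheory AlgebraicGeometry CategoryTheory.Limits TensorProduct Matrix Filter

universe u v

namespace Pool.Agent.H847.CG

open Pool.Agent.H914 Pool.Agent.H447 Pool.Agent.W534 Pool.Agent.Y163 VarClass Obj WeilCohomology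
  Module
open Pool.Agent.Y121 Pool.Agent.Y121.AHS Pool.Agent.R940 Pool.Agent.R914.UN Pool.Agent.R920.MT
open Pool.Agent.Y133.Half (Sys PH Ev Adj ClassPred dimBy)

section seq

variable {b : ℝ} {a h N : ℕ} {s t : ℕ → ℕ}

/-- The exact order of the quotient of two sequences. -/
lemma quot_order (hb : 0 < b) (hs : HasOrder b a s) (ht : HasOrder b h t) :
    ∃ c C : ℝ, 0 < c ∧ ∀ n : ℕ, c * ((n : ℝ) + 1) ^ (((a : ℝ) - h) / 2) * s n ≤ t n ∧
      (t n : ℝ) ≤ C * ((n : ℝ) + 1) ^ (((a : ℝ) - h) / 2) * s n := by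
  obtain ⟨c₁, C₁, hc₁, h₁⟩ := hs
  obtain ⟨c₂, C₂, hc₂, h₂⟩ := ht
  have key : ∀ n : ℕ, ((n : ℝ) + 1) ^ (((a : ℝ) - h) / 2) *
      (b ^ n * ((n : ℝ) + 1) ^ (-(a : ℝ) / 2)) = b ^ n * ((n : ℝ) + 1) ^ (-(h : ℝ) / 2) := by
    intro n
    have hn : (0 : ℝ) < (n : ℝ) + 1 := by positivity
    rw [mul_left_comm, ← Real.rpow_add hn]
    congr 2
    ring
  have hC₁ : 0 < C₁ := by
    have h3 := (h₁ 0).1.trans (h₁ 0).2
    by_contra hneg
    push Not at hneg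
    have h4 : 0 < c₁ * (b ^ 0 * (((0 : ℕ) : ℝ) + 1) ^ (-(a : ℝ) / 2)) := by positivity
    have h5 : C₁ * (b ^ 0 * (((0 : ℕ) : ℝ) + 1) ^ (-(a : ℝ) / 2)) ≤ 0 :=
      mul_nonpos_of_nonpos_of_nonneg hneg (by positivity)
    linarith
  have hC₂ : 0 < C₂ := by
    have h3 := (h₂ 0).1.trans (h₂ 0).2
    by_contra hneg
    push Not at hneg
    have h4 : 0 < c₂ * (b ^ 0 * (((0 : ℕ) : ℝ) + 1) ^ (-(h : ℝ) / 2)) := by positivity
    have h5 : C₂ * (b ^ 0 * (((0 : ℕ) : ℝ) + 1) ^ (-(h : ℝ) / 2)) ≤ 0 :=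
      mul_nonpos_of_nonpos_of_nonneg hneg (by positivity)
    linarith
  refine ⟨c₂ / C₁, C₂ / c₁, by positivity, fun n => ⟨?_, ?_⟩⟩
  · have h3 : (0 : ℝ) < ((n : ℝ) + 1) ^ (((a : ℝ) - h) / 2) := by positivity
    calc c₂ / C₁ * ((n : ℝ) + 1) ^ (((a : ℝ) - h) / 2) * s n
        ≤ c₂ / C₁ * ((n : ℝ) + 1) ^ (((a : ℝ) - h) / 2) *
          (C₁ * (b ^ n * ((n : ℝ) + 1) ^ (-(a : ℝ) / 2))) :=
          mul_le_mul_of_nonneg_left (h₁ n).2 (by positivity)
      _ = c₂ * (((n : ℝ) + 1) ^ (((a : ℝ) - h) / 2) *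
          (b ^ n * ((n : ℝ) + 1) ^ (-(a : ℝ) / 2))) := by field_simp
      _ = c₂ * (b ^ n * ((n : ℝ) + 1) ^ (-(h : ℝ) / 2)) := by rw [key]
      _ ≤ t n := (h₂ n).1
  · calc (t n : ℝ) ≤ C₂ * (b ^ n * ((n : ℝ) + 1) ^ (-(h : ℝ) / 2)) := (h₂ n).2
      _ = C₂ * (((n : ℝ) + 1) ^ (((a : ℝ) - h) / 2) *
          (b ^ n * ((n : ℝ) + 1) ^ (-(a : ℝ) / 2))) := by rw [key]
      _ = C₂ / c₁ * ((n : ℝ) + 1) ^ (((a : ℝ) - h) / 2) *
          (c₁ * (b ^ n * ((n : ℝ) + 1) ^ (-(a : ℝ) / 2))) := by field_simp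
      _ ≤ C₂ / c₁ * ((n : ℝ) + 1) ^ (((a : ℝ) - h) / 2) * s n :=
          mul_le_mul_of_nonneg_left (h₁ n).1 (by positivity)

/-- A bounded quotient. -/
lemma eq_of_near (hb : 0 < b) (hs : HasOrder b a s) (ht : HasOrder b h t) (hst : ∀ n, s n ≤ t n)
    (hN : NearIndex N t s) : a = h := by
  refine le_antisymm ?_ (order_le_of_le hb hs ht hst)
  obtain ⟨C, hC⟩ := hN
  have hK : (0 : ℝ) < N + |C| + 1 := by positivity
  have h1 := order_le hb ht hs (e := 0) (inv_pos.2 hK) fun n => by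
    rw [Real.rpow_zero, mul_one, inv_mul_le_iff₀ hK]
    have h2 := hC n
    have h3 := (abs_le.1 h2).2
    have h4 : (0 : ℝ) ≤ s n := Nat.cast_nonneg _
    have h5 : C / ((n : ℝ) + 1) ≤ |C| := by
      have h6 : (1 : ℝ) ≤ (n : ℝ) + 1 := by
        have := Nat.cast_nonneg (α := ℝ) n
        linarith
      rw [div_le_iff₀ (by linarith)]
      calc C ≤ |C| := le_abs_self C
        _ = |C| * 1 := (mul_one _).symm
        _ ≤ |C| * ((n : ℝ) + 1) := mul_le_mul_of_nonneg_left h6 (abs_nonneg C)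
    have h7 : C / ((n : ℝ) + 1) * s n ≤ |C| * s n := mul_le_mul_of_nonneg_right h5 h4
    nlinarith
  rw [mul_zero, add_zero] at h1
  exact_mod_cast h1

end seq

variable {k : Type u} [Field k] {𝒱 : VarClass k} {ops : CycleOps 𝒱}

/-- The absolutely Hodge classes form a system of classes. -/
lemma isClass_abs {T : HodgeTheory ops} (D : Conjugates T) :
    IsClassSystem (W := T.W) (IsAbsHodge D) where
  lin Y j := ⟨{ carrier := {c | IsAbsHodge D Y j c}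
                add_mem' := fun ha hb => (AH.absPred (toD D)).add ha hb
                zero_mem' := (AH.absPred (toD D)).zero
                smul_mem' := fun r _ ha => (AH.absPred (toD D)).smul r ha }, fun _ => Iff.rfl⟩
  cyc _ _ _ hz := (AH.absPred (toD D)).cl hz
  mul _ _ _ _ _ ha hb := (AH.absPred (toD D)).mul ha hb
  map _ _ f _ _ h := (AH.absPred (toD D)).map f h
  push _ _ f _ _ _ hl h := (AH.absPred (toD D)).push f hl h
  deg _ _ _ h := (AH.absPred (toD D)).gr h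

/-- **The growth of the Hodge classes and of the absolutely Hodge classes.** -/
theorem abs_law (T : HodgeTheory ops) (hpos : NonnegTypes T) (X : 𝒱.Obj)
    (hsym : HodgeSymmetric T X) [Nontrivial (T.W.H X)] (D : Conjugates T)
    (hpol : ∃ ψ : BilH T X, IsPolarisation T X ψ ∧ GivenBy (IsAbsHodge D) ψ) :
    ∃ h a : ℕ, h ≤ a ∧
      HasOrder (finrank T.W.K (T.W.H X)) h (fun n => hodgeDim T (pw X n)) ∧
      HasPoly h (polyDim T.W (IsHodge T) X) ∧
      HasOrder (finrank T.W.K (T.W.H X)) a (fun n => absDim D (pw X n)) ∧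
      HasPoly a (polyDim T.W (IsAbsHodge D) X) ∧
      (∃ c C : ℝ, 0 < c ∧ ∀ n : ℕ,
        c * ((n : ℝ) + 1) ^ (((a : ℝ) - h) / 2) * absDim D (pw X n) ≤ hodgeDim T (pw X n) ∧
        (hodgeDim T (pw X n) : ℝ) ≤
          C * ((n : ℝ) + 1) ^ (((a : ℝ) - h) / 2) * absDim D (pw X n)) ∧
      (a = h ↔ ∃ N : ℕ, 1 ≤ N ∧
        (N = 1 ↔ ∀ n j c, IsHodge T (pw X n) j c → IsAbsHodge D (pw X n) j c) ∧
        NearIndex N (fun n => hodgeDim T (pw X n)) (fun n => absDim D (pw X n))) := by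
  obtain ⟨ψ, hψ, hψP⟩ := hpol
  obtain ⟨h, h1, h2, h3⟩ := hodge_law T hpos X hsym ⟨ψ, hψ⟩
  obtain ⟨a, h4, h5, h6, h7⟩ := h3 (IsAbsHodge D) (isClass_abs D) (fun _ _ _ h => h.1)
    ⟨ψ, hψ, hψP⟩
  have hb : (0 : ℝ) < finrank T.W.K (T.W.H X) := by
    exact_mod_cast finrank_pos (R := T.W.K) (M := T.W.H X)
  have hle : ∀ n, absDim D (pw X n) ≤ hodgeDim T (pw X n) := by
    intro n
    have := Submodule.finrank_mono (R := T.W.K) (M := T.W.H (pw X n))
      (s := Submodule.span T.W.K {c | ∃ j, IsAbsHodge D (pw X n) j c})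
      (t := Submodule.span T.W.K {c | ∃ j, IsHodge T (pw X n) j c})
      (Submodule.span_mono fun c ⟨j, hj⟩ => ⟨j, hj.1⟩)
    exact this
  exact ⟨h, a, h4, h1, h2, h5, h6, quot_order hb h5 h1, h7, fun ⟨N, _, _, hN⟩ =>
    eq_of_near hb h5 h1 hle hN⟩

end Pool.Agent.H847.CG
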