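import Pool.Agent.H847.CG.Stm2
import Pool.Agent.H847.CG.FIX

/-! Leaf KEY: the dimension of the span of the images of columns under equivariant maps. -/

set_option linter.unusedSectionVars false

open MeasureTheory Matrix
open scoped ComplexOrder Kronecker

namespace Pool.Agent.H847.CG.KEY

section frame

variable {I J : Type} [Fintype I] [Fintype J]

/-- The Frobenius inner product. -/
noncomputable def fr (A A' : Matrix I J ℂ) : ℂ := (Aᴴ * A').trace

lemma fr_eq (A A' : Matrix I J ℂ) : fr A A' = ∑ p : I × J, star (A p.1 p.2) * A' p.1 p.2 := by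
  rw [fr, trace, Fintype.sum_prod_type, Finset.sum_comm]
  simp [Matrix.mul_apply]

lemma fr_sum_right {ι : Type} (s : Finset ι) (A : Matrix I J ℂ) (c : ι → ℂ)
    (f : ι → Matrix I J ℂ) : fr A (∑ i ∈ s, c i • f i) = ∑ i ∈ s, c i * fr A (f i) := by
  simp only [fr, Matrix.mul_sum, Matrix.mul_smul, trace_sum, trace_smul, smul_eq_mul]

/-- The matrices as a Euclidean space. -/
noncomputable def phi (I J : Type) [Fintype I] [Fintype J] :
    Matrix I J ℂ ≃ₗ[ℂ] EuclideanSpace ℂ (I × J) where
  toFun M := WithLp.toLp 2 fun p => M p.1 p.2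
  invFun v := Matrix.of fun i j => v (i, j)
  left_inv _ := rfl
  right_inv _ := rfl
  map_add' _ _ := rfl
  map_smul' _ _ := rfl

lemma inner_phi (A A' : Matrix I J ℂ) : inner ℂ (phi I J A) (phi I J A') = fr A A' := by
  rw [fr_eq, PiLp.inner_apply]
  refine Finset.sum_congr rfl fun p _ => ?_
  change inner ℂ (A p.1 p.2) (A' p.1 p.2) = _
  rw [RCLike.inner_apply, mul_comm]
  rfl

lemma exists_frame (U : Submodule ℂ (Matrix I J ℂ)) :
    ∃ (q : ℕ) (A : Fin q → Matrix I J ℂ), Module.finrank ℂ U = q ∧ (∀ i, A i ∈ U) ∧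
      (∀ i k, fr (A i) (A k) = if i = k then 1 else 0) ∧
      ∀ M ∈ U, M = ∑ i, fr (A i) M • A i := by
  set U' : Submodule ℂ (EuclideanSpace ℂ (I × J)) :=
    U.map (phi I J : Matrix I J ℂ →ₗ[ℂ] EuclideanSpace ℂ (I × J)) with hU'
  have hfin : Module.finrank ℂ U' = Module.finrank ℂ U := LinearEquiv.finrank_map_eq (phi I J) U
  let b : OrthonormalBasis (Fin (Module.finrank ℂ U)) ℂ U' :=
    (stdOrthonormalBasis ℂ U').reindex (finCongr hfin)
  let A : Fin (Module.finrank ℂ U) → Matrix I J ℂ := fun i =>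
    (phi I J).symm (b i : EuclideanSpace ℂ (I × J))
  have hA : ∀ i, phi I J (A i) = (b i : EuclideanSpace ℂ (I × J)) := fun i =>
    (phi I J).apply_symm_apply _
  refine ⟨_, A, rfl, ?_, ?_, ?_⟩
  · intro i
    obtain ⟨M, hM, hMb⟩ := (b i).2
    have e : A i = M := by
      change (phi I J).symm (b i : EuclideanSpace ℂ (I × J)) = M
      rw [← hMb]
      exact (phi I J).symm_apply_apply M
    rw [e]
    exact hM
  · intro i k
    rw [← inner_phi, hA, hA, ← Submodule.coe_inner]
    exact orthonormal_iff_ite.mp b.orthonormal i k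
  · intro M hM
    apply (phi I J).injective
    let M' : U' := ⟨phi I J M, ⟨M, hM, rfl⟩⟩
    have h1 := b.sum_repr M'
    have h2 := congrArg (Submodule.subtype U') h1
    rw [map_sum] at h2
    rw [map_sum]
    refine h2.symm.trans (Finset.sum_congr rfl fun i _ => ?_)
    rw [map_smul, map_smul, hA, b.repr_apply_apply, Submodule.coe_inner, ← hA, inner_phi]
    simp [hA]

end frame

theorem main : S_KEY := by
  intro B _ _ Γ r n J _ _ t
  obtain ⟨q, A, hq, hAU, hAo, hAr⟩ := exists_frame (Γ.orb r t)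
  rw [hq]
  -- stability
  have hT1 : ∀ g, (tpw r (Γ.ρ g))ᴴ = tpw r (Γ.ρ g⁻¹) := by
    intro g
    have h1 : tpw r (Γ.ρ g⁻¹) * tpw r (Γ.ρ g) = 1 := by
      rw [← tpw_mul, ← map_mul, inv_mul_cancel, map_one, tpw_one]
    have h2 : tpw r (Γ.ρ g) * (tpw r (Γ.ρ g))ᴴ = 1 := by
      rw [← tpw_ct, ← tpw_mul]
      have := mem_unitaryGroup_iff.mp (Γ.unit g)
      rw [← star_eq_conjTranspose, this, tpw_one]
    calc (tpw r (Γ.ρ g))ᴴ = (tpw r (Γ.ρ g⁻¹) * tpw r (Γ.ρ g)) * (tpw r (Γ.ρ g))ᴴ := by
          rw [h1, one_mul]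
      _ = tpw r (Γ.ρ g⁻¹) := by rw [mul_assoc, h2, mul_one]
  have hTm : ∀ g h, tpw r (Γ.ρ (g * h)) = tpw r (Γ.ρ g) * tpw r (Γ.ρ h) := by
    intro g h
    rw [map_mul, tpw_mul]
  have hstab : ∀ g, ∀ M ∈ Γ.orb r t, tpw r (Γ.ρ g) * M ∈ Γ.orb r t := by
    intro g M hM
    induction hM using Submodule.span_induction with
    | mem x hx =>
      obtain ⟨h, rfl⟩ := hx
      refine Submodule.subset_span ⟨g * h, ?_⟩
      change tpw r (Γ.ρ (g * h)) * t = tpw r (Γ.ρ g) * (tpw r (Γ.ρ h) * t)
      rw [hTm, Matrix.mul_assoc]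
    | zero => rw [Matrix.mul_zero]; exact Submodule.zero_mem _
    | add x y _ _ hx hy => rw [Matrix.mul_add]; exact Submodule.add_mem _ hx hy
    | smul a x _ hx => rw [Matrix.mul_smul]; exact Submodule.smul_mem _ _ hx
  -- the matrix representation
  let D : Γ.G → Matrix (Fin q) (Fin q) ℂ := fun g => Matrix.of fun i l =>
    fr (A i) (tpw r (Γ.ρ g) * A l)
  have hDap : ∀ g i l, D g i l = fr (A i) (tpw r (Γ.ρ g) * A l) := fun _ _ _ => rfl
  have hD1 : ∀ g l, tpw r (Γ.ρ g) * A l = ∑ i, D g i l • A i := fun g l =>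
    hAr _ (hstab g _ (hAU l))
  have hDone : D 1 = 1 := by
    ext i l
    rw [hDap, map_one, tpw_one, Matrix.one_mul, hAo, Matrix.one_apply]
  have hDmul : ∀ g h, D (g * h) = D g * D h := by
    intro g h
    ext i l
    rw [hDap, hTm, Matrix.mul_assoc, hD1 h l, Matrix.mul_apply]
    have e : tpw r (Γ.ρ g) * ∑ k, D h k l • A k = ∑ k, D h k l • (tpw r (Γ.ρ g) * A k) := by
      rw [Matrix.mul_sum]
      exact Finset.sum_congr rfl fun k _ => Matrix.mul_smul _ _ _
    rw [e, fr_sum_right]
    exact Finset.sum_congr rfl fun k _ => by rw [← hDap, mul_comm]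
  have hDct : ∀ g, (D g)ᴴ = D g⁻¹ := by
    intro g
    ext i l
    rw [conjTranspose_apply, hDap, hDap, fr, fr, ← trace_conjTranspose, conjTranspose_mul,
      conjTranspose_conjTranspose, conjTranspose_mul, hT1, Matrix.mul_assoc]
  have hDu : ∀ g, (D g)ᴴ * D g = 1 := by
    intro g
    rw [hDct, ← hDmul, inv_mul_cancel, hDone]
  have hDu' : ∀ g, D g * (D g)ᴴ = 1 := by
    intro g
    rw [hDct, ← hDmul, mul_inv_cancel, hDone]
  have hDcont : Continuous D := by
    refine continuous_pi fun i => continuous_pi fun l => ?_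
    have h1 : Continuous fun g => tpw r (Γ.ρ g) := (continuous_tpw r).comp Γ.cont
    simp only [hDap, fr]
    exact Continuous.matrix_trace
      (continuous_const.matrix_mul (h1.matrix_mul continuous_const))
  -- the representation on the homomorphisms
  let R : Γ.G →* Matrix ((Fin n → B) × Fin q) ((Fin n → B) × Fin q) ℂ :=
    { toFun := fun g => tpw n (Γ.ρ g) ⊗ₖ (D g).map (starRingEnd ℂ)
      map_one' := by
        rw [map_one, tpw_one, hDone, Matrix.map_one _ (map_zero _) (map_one _),
          Matrix.one_kronecker_one]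
      map_mul' := by
        intro g h
        rw [map_mul, tpw_mul, hDmul, Matrix.map_mul, Matrix.mul_kronecker_mul] }
  have hRap : ∀ g, R g = tpw n (Γ.ρ g) ⊗ₖ (D g).map (starRingEnd ℂ) := fun _ => rfl
  have hRcont : Continuous R := by
    refine continuous_pi fun a => continuous_pi fun b => ?_
    have h1 : Continuous fun g => tpw n (Γ.ρ g) := (continuous_tpw n).comp Γ.cont
    simp only [hRap, Matrix.kroneckerMap_apply, Matrix.map_apply]
    exact (h1.matrix_elem _ _).mul (Complex.continuous_conj.comp (hDcont.matrix_elem _ _))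
  have hfix := FIX.main Γ.G Γ.μ ((Fin n → B) × Fin q) R hRcont
  -- fixed vectors
  have hRv : ∀ g (v : (Fin n → B) × Fin q → ℂ) I i, (R g *ᵥ v) (I, i) =
      (tpw n (Γ.ρ g) * Matrix.of (fun I i => v (I, i)) * (D g)ᴴ) I i := by
    intro g v I i
    rw [Matrix.mul_apply]
    simp only [Matrix.mul_apply, Matrix.mulVec, dotProduct, hRap, Matrix.kroneckerMap_apply,
      Matrix.map_apply, Fintype.sum_prod_type, Matrix.of_apply, conjTranspose_apply,
      Finset.sum_mul]
    rw [Finset.sum_comm]
    refine Finset.sum_congr rfl fun k _ => Finset.sum_congr rfl fun K _ => ?_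
    rw [starRingEnd_apply]
    ring
  have hfixiff : ∀ v : (Fin n → B) × Fin q → ℂ, v ∈ fixedBy R ↔
      ∀ g, tpw n (Γ.ρ g) * Matrix.of (fun I i => v (I, i)) =
        Matrix.of (fun I i => v (I, i)) * D g := by
    intro v
    constructor
    · intro hv g
      have h1 : tpw n (Γ.ρ g) * Matrix.of (fun I i => v (I, i)) * (D g)ᴴ =
          Matrix.of (fun I i => v (I, i)) := by
        ext I i
        rw [← hRv]
        exact congrFun (hv g) (I, i)
      calc tpw n (Γ.ρ g) * Matrix.of (fun I i => v (I, i))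
          = (tpw n (Γ.ρ g) * Matrix.of (fun I i => v (I, i)) * (D g)ᴴ) * D g := by
            rw [Matrix.mul_assoc _ ((D g)ᴴ), hDu, Matrix.mul_one]
        _ = _ := by rw [h1]
    · intro hv g
      funext ⟨I, i⟩
      rw [hRv, hv g, Matrix.mul_assoc, hDu', Matrix.mul_one]
      rfl
  -- the columns
  let AJ : J → Matrix (Fin r → B) (Fin q) ℂ := fun j => Matrix.of fun K i => A i K j
  have hAJ : ∀ g j, tpw r (Γ.ρ g) * AJ j = AJ j * D g := by
    intro g j
    ext K i
    have h1 := congrFun (congrFun (hD1 g i) K) j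
    rw [Matrix.mul_apply] at h1 ⊢
    rw [Matrix.mul_apply]
    have h2 : (∑ k, D g k i • A k) K j = ∑ k, D g k i * A k K j := by
      rw [Matrix.sum_apply]
      rfl
    rw [h2] at h1
    refine Eq.trans ?_ (h1.trans ?_)
    · rfl
    · exact Finset.sum_congr rfl fun k _ => mul_comm _ _
  -- the coordinates of `t`
  let c : Fin q → ℂ := fun i => fr (A i) t
  have htU : t ∈ Γ.orb r t := by
    refine Submodule.subset_span ⟨1, ?_⟩
    change tpw r (Γ.ρ 1) * t = t
    rw [map_one, tpw_one, Matrix.one_mul]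
  have htc : ∀ K j, t K j = ∑ i, c i * A i K j := by
    intro K j
    have h1 := congrFun (congrFun (hAr t htU) K) j
    rw [Matrix.sum_apply] at h1
    exact h1
  have hAJc : ∀ j, AJ j *ᵥ c = fun K => t K j := by
    intro j
    funext K
    rw [htc]
    change ∑ i, A i K j * c i = ∑ i, c i * A i K j
    exact Finset.sum_congr rfl fun i _ => mul_comm _ _
  -- the evaluation map
  let E : ((Fin n → B) × Fin q → ℂ) →ₗ[ℂ] ((Fin n → B) → ℂ) :=
    { toFun := fun v => Matrix.of (fun I i => v (I, i)) *ᵥ c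
      map_add' := by
        intro v w
        rw [← Matrix.add_mulVec]
        rfl
      map_smul' := by
        intro a v
        rw [RingHom.id_apply, ← Matrix.smul_mulVec]
        rfl }
  have hEap : ∀ v, E v = Matrix.of (fun I i => v (I, i)) *ᵥ c := fun _ => rfl
  have hinj : Function.Injective (E.domRestrict (fixedBy R)) := by
    rw [← LinearMap.ker_eq_bot, LinearMap.ker_eq_bot']
    rintro ⟨v, hv⟩ hE
    have hE' : Matrix.of (fun I i => v (I, i)) *ᵥ c = 0 := hE
    have hv' := (hfixiff v).mp hv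
    -- a linear map which vanishes on the span
    let L : Matrix (Fin r → B) J ℂ →ₗ[ℂ] ((Fin n → B) → ℂ) :=
      { toFun := fun M => Matrix.of (fun I i => v (I, i)) *ᵥ (fun i => fr (A i) M)
        map_add' := by
          intro M M'
          rw [← Matrix.mulVec_add]
          congr 1
          funext i
          simp only [fr, Matrix.mul_add, trace_add, Pi.add_apply]
        map_smul' := by
          intro a M
          rw [RingHom.id_apply, ← Matrix.mulVec_smul]
          congr 1
          funext i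
          simp only [fr, Matrix.mul_smul, trace_smul, Pi.smul_apply] }
    have hLap : ∀ M, L M = Matrix.of (fun I i => v (I, i)) *ᵥ (fun i => fr (A i) M) :=
      fun _ => rfl
    have hL0 : ∀ M ∈ Γ.orb r t, L M = 0 := by
      intro M hM
      induction hM using Submodule.span_induction with
      | mem x hx =>
        obtain ⟨g, rfl⟩ := hx
        have h1 : (fun i => fr (A i) (tpw r (Γ.ρ g) * t)) = D g *ᵥ c := by
          funext i
          have h2 : tpw r (Γ.ρ g) * t = ∑ l, c l • (tpw r (Γ.ρ g) * A l) := by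
            nth_rewrite 1 [hAr t htU]
            rw [Matrix.mul_sum]
            exact Finset.sum_congr rfl fun k _ => Matrix.mul_smul _ _ _
          rw [h2, fr_sum_right]
          exact Finset.sum_congr rfl fun l _ => by rw [← hDap, mul_comm]
        change L (tpw r (Γ.ρ g) * t) = 0
        rw [hLap, h1, Matrix.mulVec_mulVec, ← hv' g, ← Matrix.mulVec_mulVec, hE',
          Matrix.mulVec_zero]
      | zero => exact map_zero _
      | add x y _ _ hx hy => rw [map_add, hx, hy, add_zero]
      | smul a x _ hx => rw [map_smul, hx, smul_zero]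
    apply Subtype.ext
    funext ⟨I, k⟩
    have h1 := congrFun (hL0 (A k) (hAU k)) I
    rw [hLap] at h1
    simp only [hAo, Matrix.mulVec, dotProduct, Matrix.of_apply, Pi.zero_apply, mul_ite, mul_one,
      mul_zero, Finset.sum_ite_eq', Finset.mem_univ, if_true] at h1
    exact h1
  -- the trace
  set P : Matrix (Fin r → B) (Fin r → B) ℂ := ∑ i, A i * (A i)ᴴ with hP
  have htr : ∀ g, (P * tpw r (Γ.ρ g)).trace = (D g).trace := by
    intro g
    rw [hP, Matrix.sum_mul, trace_sum, trace]
    refine Finset.sum_congr rfl fun i _ => ?_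
    rw [Matrix.diag_apply, hDap, fr, Matrix.mul_assoc, Matrix.trace_mul_comm, Matrix.mul_assoc]
  refine ⟨LinearMap.range (E.domRestrict (fixedBy R)), P, ?_, ?_, ?_, ?_, ?_⟩
  · exact Matrix.posSemidef_sum _ fun i _ => Matrix.posSemidef_self_mul_conjTranspose (A i)
  · have h1 := htr 1
    rw [map_one, tpw_one, mul_one, hDone, trace_one, Fintype.card_fin] at h1
    exact h1
  · intro g
    rw [htr, trace]
    refine (norm_sum_le _ _).trans ?_
    have h1 : ∀ i, ‖(D g) i i‖ ≤ 1 := fun i =>
      entry_norm_bound_of_unitary (mem_unitaryGroup_iff.mpr (hDu' g)) i i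
    calc ∑ i, ‖(D g).diag i‖ ≤ ∑ _i : Fin q, (1 : ℝ) := Finset.sum_le_sum fun i _ => h1 i
      _ = q := by simp
  · rw [LinearMap.finrank_range_of_inj hinj, hfix]
    refine integral_congr_ae (Filter.Eventually.of_forall fun g => ?_)
    change (R g).trace = Γ.χ g ^ n * star ((P * tpw r (Γ.ρ g)).trace)
    rw [hRap, Matrix.trace_kronecker, trace_tpw, htr]
    congr 1
    simp [trace, Matrix.map_apply]
  · intro x
    constructor
    · rintro ⟨⟨v, hv⟩, rfl⟩
      have hv' := (hfixiff v).mp hv
      set F : Matrix (Fin n → B) (Fin q) ℂ := Matrix.of (fun I i => v (I, i)) with hF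
      refine ⟨fun j => F * (AJ j)ᴴ, ?_, ?_⟩
      · intro j g
        change tpw n (Γ.ρ g) * (F * (AJ j)ᴴ) = F * (AJ j)ᴴ * tpw r (Γ.ρ g)
        have h1 : (AJ j)ᴴ * tpw r (Γ.ρ g) = D g * (AJ j)ᴴ := by
          have h2 := congrArg conjTranspose (hAJ g⁻¹ j)
          rw [conjTranspose_mul, conjTranspose_mul, ← hT1, conjTranspose_conjTranspose, ← hDct,
            conjTranspose_conjTranspose] at h2
          exact h2
        rw [← Matrix.mul_assoc, hv' g, Matrix.mul_assoc, Matrix.mul_assoc, h1]
      · change F *ᵥ c = ∑ j, (F * (AJ j)ᴴ) *ᵥ (fun I => t I j)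
        simp_rw [← Matrix.mulVec_mulVec]
        rw [← Matrix.mulVec_sum]
        congr 1
        funext i
        change fr (A i) t = _
        rw [fr, trace, Finset.sum_apply]
        refine Finset.sum_congr rfl fun j _ => ?_
        rfl
    · rintro ⟨N, hN, rfl⟩
      refine ⟨⟨fun p => (∑ j, N j * AJ j) p.1 p.2, ?_⟩, ?_⟩
      · rw [hfixiff]
        intro g
        have e : (Matrix.of fun I i => (∑ j, N j * AJ j) (I, i).1 (I, i).2) = ∑ j, N j * AJ j := rfl
        rw [e, Matrix.mul_sum, Matrix.sum_mul]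
        refine Finset.sum_congr rfl fun j _ => ?_
        rw [← Matrix.mul_assoc, hN j g, Matrix.mul_assoc, hAJ, Matrix.mul_assoc]
      · change (∑ j, N j * AJ j) *ᵥ c = _
        rw [Matrix.sum_mulVec]
        refine Finset.sum_congr rfl fun j _ => ?_
        rw [← Matrix.mulVec_mulVec, hAJc]

end Pool.Agent.H847.CG.KEY
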