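import Pool.Agent.H847.CG.Stm3
import Pool.Agent.H847.CG.KEY

/-! Leaf BIC: the double centraliser theorem. -/

set_option linter.unusedSectionVars false

open MeasureTheory Matrix
open scoped ComplexOrder

namespace Pool.Agent.H847.CG.BIC

open Pool.Agent.H847.CG.KEY

theorem main : S_BIC := by
  intro B _ _ Γ r M
  have hT1 : ∀ g, (tpw r (Γ.ρ g))ᴴ = tpw r (Γ.ρ g⁻¹) := by
    intro g
    have h1 : tpw r (Γ.ρ g⁻¹) * tpw r (Γ.ρ g) = 1 := by
      rw [← tpw_mul, ← map_mul, inv_mul_cancel, map_one, tpw_one]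
    have h2 : tpw r (Γ.ρ g) * (tpw r (Γ.ρ g))ᴴ = 1 := by
      rw [← tpw_ct, ← tpw_mul]
      have := mem_unitaryGroup_iff.mp (Γ.unit g)
      rw [← star_eq_conjTranspose, this, tpw_one]
    calc (tpw r (Γ.ρ g))ᴴ = (tpw r (Γ.ρ g⁻¹) * tpw r (Γ.ρ g)) * (tpw r (Γ.ρ g))ᴴ := by
          rw [h1, one_mul]
      _ = tpw r (Γ.ρ g⁻¹) := by rw [mul_assoc, h2, mul_one]
  have hTm : ∀ g h, tpw r (Γ.ρ (g * h)) = tpw r (Γ.ρ g) * tpw r (Γ.ρ h) := by
    intro g h
    rw [map_mul, tpw_mul]
  have hstab : ∀ g, ∀ X ∈ Γ.orb r (1 : Matrix (Fin r → B) (Fin r → B) ℂ),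
      tpw r (Γ.ρ g) * X ∈ Γ.orb r (1 : Matrix (Fin r → B) (Fin r → B) ℂ) := by
    intro g X hX
    induction hX using Submodule.span_induction with
    | mem x hx =>
      obtain ⟨h, rfl⟩ := hx
      refine Submodule.subset_span ⟨g * h, ?_⟩
      change tpw r (Γ.ρ (g * h)) * 1 = tpw r (Γ.ρ g) * (tpw r (Γ.ρ h) * 1)
      rw [hTm, Matrix.mul_assoc]
    | zero => rw [Matrix.mul_zero]; exact Submodule.zero_mem _
    | add x y _ _ hx hy => rw [Matrix.mul_add]; exact Submodule.add_mem _ hx hy
    | smul a x _ hx => rw [Matrix.mul_smul]; exact Submodule.smul_mem _ _ hx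
  have hone : (1 : Matrix (Fin r → B) (Fin r → B) ℂ) ∈
      Γ.orb r (1 : Matrix (Fin r → B) (Fin r → B) ℂ) := by
    refine Submodule.subset_span ⟨1, ?_⟩
    change tpw r (Γ.ρ 1) * 1 = 1
    rw [map_one, tpw_one, Matrix.one_mul]
  constructor
  · intro hM
    obtain ⟨q, A, hq, hAU, hAo, hAr⟩ :=
      exists_frame (Γ.orb r (1 : Matrix (Fin r → B) (Fin r → B) ℂ))
    -- the projection
    let Q : Matrix (Fin r → B) (Fin r → B) ℂ →ₗ[ℂ] Matrix (Fin r → B) (Fin r → B) ℂ :=
      { toFun := fun X => ∑ i, fr (A i) X • A i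
        map_add' := by
          intro X Y
          simp only [fr, Matrix.mul_add, trace_add, add_smul, Finset.sum_add_distrib]
        map_smul' := by
          intro a X
          simp only [fr, Matrix.mul_smul, trace_smul, RingHom.id_apply, Finset.smul_sum,
            smul_smul, smul_eq_mul] }
    have hQap : ∀ X, Q X = ∑ i, fr (A i) X • A i := fun _ => rfl
    have hQmem : ∀ X, Q X ∈ Γ.orb r (1 : Matrix (Fin r → B) (Fin r → B) ℂ) := by
      intro X
      rw [hQap]
      exact Submodule.sum_mem _ fun i _ => Submodule.smul_mem _ _ (hAU i)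
    have hQfix : ∀ X ∈ Γ.orb r (1 : Matrix (Fin r → B) (Fin r → B) ℂ), Q X = X := fun X hX =>
      (hAr X hX).symm
    -- elements of the span are orthogonal to the complement
    have hQort : ∀ X i, fr (A i) (X - Q X) = 0 := by
      intro X i
      have h1 : fr (A i) (X - Q X) = fr (A i) X - fr (A i) (Q X) := by
        simp only [fr, Matrix.mul_sub, trace_sub]
      rw [h1, hQap, fr_sum_right]
      simp [hAo]
    have hfrl : ∀ (Y X : Matrix (Fin r → B) (Fin r → B) ℂ) (c : Fin q → ℂ),
        fr (∑ i, c i • A i) X = ∑ i, star (c i) * fr (A i) X := by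
      intro Y X c
      simp only [fr, conjTranspose_sum, conjTranspose_smul, Finset.sum_mul, smul_mul,
        trace_sum, trace_smul, smul_eq_mul]
    have hort2 : ∀ Y ∈ Γ.orb r (1 : Matrix (Fin r → B) (Fin r → B) ℂ), ∀ X,
        fr Y (X - Q X) = 0 := by
      intro Y hY X
      rw [hAr Y hY, hfrl Y]
      exact Finset.sum_eq_zero fun i _ => by rw [hQort, mul_zero]
    have hQT : ∀ g X, Q (tpw r (Γ.ρ g) * X) = tpw r (Γ.ρ g) * Q X := by
      intro g X
      have h1 : tpw r (Γ.ρ g) * X = tpw r (Γ.ρ g) * Q X + tpw r (Γ.ρ g) * (X - Q X) := by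
        rw [← Matrix.mul_add, add_sub_cancel]
      rw [h1, map_add, hQfix _ (hstab g _ (hQmem X))]
      have h2 : Q (tpw r (Γ.ρ g) * (X - Q X)) = 0 := by
        rw [hQap]
        refine Finset.sum_eq_zero fun i _ => ?_
        have h3 : fr (A i) (tpw r (Γ.ρ g) * (X - Q X)) =
            fr (tpw r (Γ.ρ g⁻¹) * A i) (X - Q X) := by
          rw [fr, fr, conjTranspose_mul, hT1, inv_inv, Matrix.mul_assoc]
        rw [h3, hort2 _ (hstab _ _ (hAU i)), zero_smul]
      rw [h2, add_zero]
    -- the equivariant matrices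
    let N : (Fin r → B) → (Fin r → B) → Matrix (Fin r → B) (Fin r → B) ℂ := fun J K =>
      Matrix.of fun I L => Q (Matrix.single L J 1) I K
    have hNap : ∀ J K I L, N J K I L = Q (Matrix.single L J 1) I K := fun _ _ _ _ => rfl
    have hQN : ∀ X I K, Q X I K = ∑ J, (N J K * X) I J := by
      intro X I K
      have h1 : X = ∑ J, ∑ L, X L J • Matrix.single L J (1 : ℂ) := by
        conv_lhs => rw [Matrix.matrix_eq_sum_single X]
        rw [Finset.sum_comm]
        simp
      conv_lhs => rw [h1]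
      simp only [map_sum, map_smul, Matrix.sum_apply, Matrix.smul_apply, smul_eq_mul]
      refine Finset.sum_congr rfl fun J _ => ?_
      rw [Matrix.mul_apply]
      exact Finset.sum_congr rfl fun L _ => by rw [hNap, mul_comm]
    have hNeqv : ∀ J K, Γ.IsEqv r r (N J K) := by
      intro J K g
      ext I L
      have h1 : (tpw r (Γ.ρ g) * N J K) I L =
          (tpw r (Γ.ρ g) * Q (Matrix.single L J 1)) I K := by
        rw [Matrix.mul_apply, Matrix.mul_apply]
        rfl
      have h2 : tpw r (Γ.ρ g) * Matrix.single L J (1 : ℂ) =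
          ∑ P, tpw r (Γ.ρ g) P L • Matrix.single P J (1 : ℂ) := by
        ext I' J'
        rw [Matrix.mul_apply, Matrix.sum_apply]
        simp only [Matrix.smul_apply, Matrix.single_apply, smul_eq_mul, mul_ite, mul_one, mul_zero]
        by_cases hJ : J = J'
        · subst hJ
          simp
        · simp [hJ]
      rw [h1, ← hQT, h2]
      simp only [map_sum, map_smul, Matrix.sum_apply, Matrix.smul_apply, smul_eq_mul]
      rw [Matrix.mul_apply]
      exact Finset.sum_congr rfl fun P _ => by rw [hNap, mul_comm]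
    have hfin : M = Q M := by
      have h1 : M = M * Q 1 := by rw [hQfix 1 hone, Matrix.mul_one]
      have h2 : M * Q 1 = Q M := by
        ext I K
        rw [hQN M I K, Matrix.mul_apply]
        have h3 : ∀ J, (N J K * M) I J = (M * N J K) I J := fun J => by rw [hM _ (hNeqv J K)]
        simp only [h3, hQN 1, Matrix.mul_one]
        simp only [Matrix.mul_apply, Finset.mul_sum]
        rw [Finset.sum_comm]
      exact h1.trans h2
    rw [hfin]
    exact hQmem M
  · intro hM N hN
    induction hM using Submodule.span_induction with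
    | mem x hx =>
      obtain ⟨h, rfl⟩ := hx
      change (tpw r (Γ.ρ h) * 1) * N = N * (tpw r (Γ.ρ h) * 1)
      rw [Matrix.mul_one, hN h]
    | zero => rw [Matrix.zero_mul, Matrix.mul_zero]
    | add x y _ _ hx hy => rw [Matrix.add_mul, Matrix.mul_add, hx, hy]
    | smul a x _ hx => rw [Matrix.mul_smul, Matrix.smul_mul, hx]

end Pool.Agent.H847.CG.BIC
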