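import Pool.Agent.H847.CG.Stm2
import Pool.Agent.H847.CG.AVG

/-! Leaf COL: tensors whose coefficients lie in a given span come from equivariant maps. -/

set_option linter.unusedSectionVars false

open MeasureTheory Matrix

namespace Pool.Agent.H847.CG.COL

theorem main (h : S_AVG) : S_COL := by
  intro B _ _ Γ r n J _ _ t x hx
  have h1 : ∀ I, ∃ w : (Fin r → B) × J → ℂ, ∀ g, (tpw n (Γ.ρ g) *ᵥ x) I =
      ∑ p, w p * (tpw r (Γ.ρ g) * t) p.1 p.2 := by
    intro I
    have h2 := hx I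
    have h3 : {f : Γ.G → ℂ | ∃ K j, f = fun g => (tpw r (Γ.ρ g) * t) K j} =
        Set.range fun p : (Fin r → B) × J => fun g => (tpw r (Γ.ρ g) * t) p.1 p.2 := by
      ext f
      constructor
      · rintro ⟨K, j, rfl⟩
        exact ⟨(K, j), rfl⟩
      · rintro ⟨p, rfl⟩
        exact ⟨p.1, p.2, rfl⟩
    rw [h3, Submodule.mem_span_range_iff_exists_fun] at h2
    obtain ⟨w, hw⟩ := h2
    refine ⟨w, fun g => ?_⟩
    have h4 := congrFun hw g
    simp only [Finset.sum_apply, Pi.smul_apply, smul_eq_mul] at h4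
    exact h4.symm
  choose w hw using h1
  set W : J → Matrix (Fin n → B) (Fin r → B) ℂ := fun j => Matrix.of fun I K => w I (K, j) with hW
  have h5 : ∀ g, x = ∑ j, AVG.F Γ r n (W j) g *ᵥ (fun K => t K j) := by
    intro g
    have h6 : tpw n (Γ.ρ g) *ᵥ x = ∑ j, W j *ᵥ (tpw r (Γ.ρ g) *ᵥ (fun K => t K j)) := by
      funext I
      rw [hw I g, Fintype.sum_prod_type_right, Finset.sum_apply]
      refine Finset.sum_congr rfl fun j _ => ?_
      rw [mulVec, dotProduct]
      refine Finset.sum_congr rfl fun K _ => ?_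
      rfl
    have h7 : x = (tpw n (Γ.ρ g))ᴴ *ᵥ (tpw n (Γ.ρ g) *ᵥ x) := by
      rw [mulVec_mulVec, AVG.uni', one_mulVec]
    rw [h6, mulVec_sum] at h7
    conv_lhs => rw [h7]
    refine Finset.sum_congr rfl fun j _ => ?_
    rw [AVG.F, mulVec_mulVec, mulVec_mulVec, Matrix.mul_assoc]
  refine ⟨fun j => Matrix.of fun I K => ∫ g, ((tpw n (Γ.ρ g))ᴴ * W j * tpw r (Γ.ρ g)) I K ∂Γ.μ,
    fun j => h B Γ r n (W j), ?_⟩
  funext I
  have h8 : x I = ∫ g, (∑ j, AVG.F Γ r n (W j) g *ᵥ (fun K => t K j)) I ∂Γ.μ := by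
    have : ∀ g, (∑ j, AVG.F Γ r n (W j) g *ᵥ (fun K => t K j)) I = x I := fun g => by
      rw [← h5 g]
    simp only [this]
    simp
  rw [h8, Finset.sum_apply]
  simp only [Finset.sum_apply, mulVec, dotProduct]
  rw [integral_finsetSum]
  · refine Finset.sum_congr rfl fun j _ => ?_
    rw [integral_finsetSum]
    · refine Finset.sum_congr rfl fun K _ => ?_
      rw [integral_mul_const]
      rfl
    · intro K _
      exact (AVG.F_int Γ r n (W j) I K).mul_const _
  · intro j _
    exact integrable_finsetSum _ fun K _ => (AVG.F_int Γ r n (W j) I K).mul_const _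

end Pool.Agent.H847.CG.COL
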