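import Pool.Agent.H847.CG.Stm2

/-!
# DIM: the coefficients of the tensor powers are the polynomials of degree at most `r`

Leaf `DIM` of helper847's project, by helper86.
-/

open MeasureTheory Matrix

namespace Pool.Agent.H847.CG.DIM

/-- Row rank equals column rank, for an arbitrary family of vectors. -/
lemma finrank_rows_eq_cols {G P V : Type} [AddCommGroup V] [Module ℂ V] [FiniteDimensional ℂ V]
    (M : G → V) (φ : P → (V →ₗ[ℂ] ℂ)) (hφ : ∀ L : V →ₗ[ℂ] ℂ, L ∈ Submodule.span ℂ (Set.range φ)) :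
    Module.finrank ℂ (Submodule.span ℂ (Set.range M)) =
      Module.finrank ℂ (Submodule.span ℂ (Set.range fun (p : P) (g : G) => φ p (M g))) := by
  classical
  set W := Submodule.span ℂ (Set.range M) with hW
  have hmem : ∀ g, M g ∈ W := fun g => Submodule.subset_span ⟨g, rfl⟩
  let Φ : Module.Dual ℂ W →ₗ[ℂ] (G → ℂ) :=
    { toFun := fun l g => l ⟨M g, hmem g⟩
      map_add' := fun a b => rfl
      map_smul' := fun a b => rfl }
  have hinj : Function.Injective Φ := by
    rw [injective_iff_map_eq_zero]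
    intro l hl
    have h0 : ∀ g, l ⟨M g, hmem g⟩ = 0 := fun g => congrFun hl g
    have key : ∀ w (hw : w ∈ W), l ⟨w, hw⟩ = 0 := by
      intro w hw
      induction hw using Submodule.span_induction with
      | mem x hx =>
        obtain ⟨g, rfl⟩ := hx
        exact h0 g
      | zero => exact map_zero l
      | add x y hx hy h1 h2 =>
        have : l (⟨x, hx⟩ + ⟨y, hy⟩) = 0 := by rw [map_add, h1, h2, add_zero]
        exact this
      | smul a x hx h1 =>
        have : l (a • ⟨x, hx⟩) = 0 := by rw [map_smul, h1, smul_zero]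
        exact this
    ext ⟨w, hw⟩
    exact key w hw
  have hrange : LinearMap.range Φ = Submodule.span ℂ (Set.range fun (p : P) (g : G) => φ p (M g)) := by
    apply le_antisymm
    · rintro _ ⟨l, rfl⟩
      obtain ⟨L, hL⟩ := LinearMap.exists_extend (p := W) l
      let Ψ : (V →ₗ[ℂ] ℂ) →ₗ[ℂ] (G → ℂ) :=
        { toFun := fun L g => L (M g)
          map_add' := fun a b => rfl
          map_smul' := fun a b => rfl }
      have h1 : Φ l = Ψ L := by
        funext g
        change l ⟨M g, hmem g⟩ = L (M g)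
        rw [← hL]
        rfl
      rw [h1]
      have h2 : Ψ L ∈ Submodule.map Ψ (Submodule.span ℂ (Set.range φ)) :=
        Submodule.mem_map_of_mem (hφ L)
      rw [Submodule.map_span, ← Set.range_comp] at h2
      exact h2
    · rw [Submodule.span_le]
      rintro _ ⟨p, rfl⟩
      exact ⟨(φ p).comp W.subtype, rfl⟩
  rw [← hrange, LinearMap.finrank_range_of_inj hinj, Subspace.dual_finrank_eq]

variable {B : Type} [Fintype B] [DecidableEq B] (Γ : CGrp B)

lemma coef_eq (r : ℕ) : Γ.coef r =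
    Submodule.span ℂ (Set.range fun (p : (Fin r → B) × (Fin r → B)) (g : Γ.G) =>
      tpw r (Γ.ρ g) p.1 p.2) := by
  unfold CGrp.coef
  congr 1
  ext f
  constructor
  · rintro ⟨I, J, rfl⟩
    exact ⟨(I, J), rfl⟩
  · rintro ⟨⟨I, J⟩, rfl⟩
    exact ⟨I, J, rfl⟩

lemma dual_matrix {m n : Type} [Fintype m] [Fintype n] [DecidableEq m] [DecidableEq n]
    (L : Matrix m n ℂ →ₗ[ℂ] ℂ) :
    L ∈ Submodule.span ℂ (Set.range fun p : m × n => Matrix.entryLinearMap ℂ ℂ p.1 p.2) := by
  have h : L = ∑ p : m × n, L (Matrix.single p.1 p.2 1) • Matrix.entryLinearMap ℂ ℂ p.1 p.2 := by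
    apply LinearMap.ext
    intro A
    conv_lhs => rw [Matrix.matrix_eq_sum_single A]
    rw [map_sum, LinearMap.sum_apply, Fintype.sum_prod_type]
    refine Finset.sum_congr rfl fun i _ => ?_
    rw [map_sum]
    refine Finset.sum_congr rfl fun j _ => ?_
    have : Matrix.single i j (A i j) = (A i j) • Matrix.single i j (1 : ℂ) := by
      rw [Matrix.smul_single, smul_eq_mul, mul_one]
    rw [this, map_smul]
    simp [mul_comm]
  rw [h]
  exact Submodule.sum_mem _ fun p _ => Submodule.smul_mem _ _ (Submodule.subset_span ⟨p, rfl⟩)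

lemma first (r : ℕ) :
    Module.finrank ℂ (Γ.orb r (1 : Matrix (Fin r → B) (Fin r → B) ℂ)) =
      Module.finrank ℂ (Γ.coef r) := by
  rw [coef_eq]
  have h := finrank_rows_eq_cols (fun g : Γ.G => tpw r (Γ.ρ g) * (1 : Matrix (Fin r → B) (Fin r → B) ℂ))
    (fun p : (Fin r → B) × (Fin r → B) => Matrix.entryLinearMap ℂ ℂ p.1 p.2) dual_matrix
  have h1 : (fun (p : (Fin r → B) × (Fin r → B)) (g : Γ.G) =>
      (Matrix.entryLinearMap ℂ ℂ p.1 p.2) (tpw r (Γ.ρ g) * (1 : Matrix (Fin r → B) (Fin r → B) ℂ))) =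
      fun p g => tpw r (Γ.ρ g) p.1 p.2 := by
    funext p g
    rw [Matrix.mul_one]
    rfl
  rw [h1] at h
  exact h

/-- Multiplication by a coefficient. -/
lemma mul_coef {r : ℕ} {f : Γ.G → ℂ} (hf : f ∈ Γ.coef r) (a b : B) :
    (fun g => f g * Γ.ρ g a b) ∈ Γ.coef (r + 1) := by
  unfold CGrp.coef at hf
  induction hf using Submodule.span_induction with
  | mem x hx =>
    obtain ⟨I, J, rfl⟩ := hx
    refine Submodule.subset_span ⟨Fin.cons a I, Fin.cons b J, ?_⟩
    funext g
    change tpw r (Γ.ρ g) I J * Γ.ρ g a b = tpw (r + 1) (Γ.ρ g) (Fin.cons a I) (Fin.cons b J)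
    rw [tpw_apply, tpw_apply, Fin.prod_univ_succ]
    simp only [Fin.cons_zero, Fin.cons_succ]
    ring
  | zero =>
    have : (fun g : Γ.G => (0 : Γ.G → ℂ) g * Γ.ρ g a b) = 0 := by
      funext g; simp
    rw [this]
    exact Submodule.zero_mem _
  | add x y hx hy h1 h2 =>
    have : (fun g : Γ.G => (x + y) g * Γ.ρ g a b) =
        (fun g => x g * Γ.ρ g a b) + (fun g => y g * Γ.ρ g a b) := by
      funext g; simp [add_mul]
    rw [this]
    exact Submodule.add_mem _ h1 h2
  | smul c x hx h1 =>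
    have : (fun g : Γ.G => (c • x) g * Γ.ρ g a b) = c • (fun g => x g * Γ.ρ g a b) := by
      funext g; simp [mul_assoc]
    rw [this]
    exact Submodule.smul_mem _ _ h1

lemma one_coef : (fun _ : Γ.G => (1 : ℂ)) ∈ Γ.coef 0 := by
  refine Submodule.subset_span ⟨Fin.elim0, Fin.elim0, ?_⟩
  funext g
  rw [tpw_apply]
  simp

variable {Γ}

lemma coef_succ (hΓ : Good Γ) {r : ℕ} {f : Γ.G → ℂ} (hf : f ∈ Γ.coef r) : f ∈ Γ.coef (r + 1) := by
  obtain ⟨e, he, hfix⟩ := hΓ.vec
  have h1 : ∀ g, ∑ i, ∑ j, star (e i) * e j * Γ.ρ g i j = 1 := by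
    intro g
    have h2 : ∀ i, ∑ j, star (e i) * e j * Γ.ρ g i j = star (e i) * e i := by
      intro i
      have h3 := congrFun (hfix g) i
      rw [Matrix.mulVec, dotProduct] at h3
      calc ∑ j, star (e i) * e j * Γ.ρ g i j = star (e i) * ∑ j, Γ.ρ g i j * e j := by
            rw [Finset.mul_sum]
            exact Finset.sum_congr rfl fun j _ => by ring
        _ = star (e i) * e i := by rw [h3]
    rw [Finset.sum_congr rfl fun i _ => h2 i]
    have h4 : ∀ i, star (e i) * e i = ((‖e i‖ ^ 2 : ℝ) : ℂ) := by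
      intro i
      rw [Complex.star_def, ← Complex.normSq_eq_conj_mul_self, Complex.normSq_eq_norm_sq]
    rw [Finset.sum_congr rfl fun i _ => h4 i, ← Complex.ofReal_sum, he, Complex.ofReal_one]
  have h5 : f = ∑ i, ∑ j, (star (e i) * e j) • (fun g => f g * Γ.ρ g i j) := by
    funext g
    have := h1 g
    simp only [Finset.sum_apply, Pi.smul_apply, smul_eq_mul]
    calc f g = f g * 1 := (mul_one _).symm
      _ = f g * ∑ i, ∑ j, star (e i) * e j * Γ.ρ g i j := by rw [this]
      _ = _ := by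
        rw [Finset.mul_sum]
        refine Finset.sum_congr rfl fun i _ => ?_
        rw [Finset.mul_sum]
        exact Finset.sum_congr rfl fun j _ => by ring
  rw [h5]
  exact Submodule.sum_mem _ fun i _ => Submodule.sum_mem _ fun j _ =>
    Submodule.smul_mem _ _ (mul_coef Γ hf i j)

lemma coef_mono (hΓ : Good Γ) {r s : ℕ} (h : r ≤ s) {f : Γ.G → ℂ} (hf : f ∈ Γ.coef r) :
    f ∈ Γ.coef s := by
  induction h with
  | refl => exact hf
  | step _ ih => exact coef_succ hΓ ih

lemma mul_pow_coef {r : ℕ} {f : Γ.G → ℂ} (hf : f ∈ Γ.coef r) (q : B × B) (k : ℕ) :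
    (fun g => f g * (Γ.ρ g q.1 q.2) ^ k) ∈ Γ.coef (r + k) := by
  induction k with
  | zero => simpa using hf
  | succ k ih =>
    have := mul_coef Γ ih q.1 q.2
    have h : (fun g => f g * (Γ.ρ g q.1 q.2) ^ (k + 1)) =
        (fun g => f g * (Γ.ρ g q.1 q.2) ^ k * Γ.ρ g q.1 q.2) := by
      funext g; ring
    rw [h, ← add_assoc]
    exact this

lemma prod_coef (s : Finset (B × B)) (m : B × B → ℕ) :
    (fun g : Γ.G => ∏ q ∈ s, (Γ.ρ g q.1 q.2) ^ (m q)) ∈ Γ.coef (∑ q ∈ s, m q) := by
  classical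
  induction s using Finset.induction_on with
  | empty => simpa using one_coef Γ
  | insert a s ha ih =>
    rw [Finset.sum_insert ha]
    have := mul_pow_coef ih a (m a)
    have h : (fun g : Γ.G => ∏ q ∈ insert a s, (Γ.ρ g q.1 q.2) ^ (m q)) =
        (fun g => (∏ q ∈ s, (Γ.ρ g q.1 q.2) ^ (m q)) * (Γ.ρ g a.1 a.2) ^ (m a)) := by
      funext g
      rw [Finset.prod_insert ha, mul_comm]
    rw [h, add_comm]
    exact this

lemma third (hΓ : Good Γ) (r : ℕ) (p : MvPolynomial (B × B) ℂ) (hp : p.totalDegree ≤ r) :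
    (fun g => MvPolynomial.eval (fun q : B × B => Γ.ρ g q.1 q.2) p) ∈ Γ.coef r := by
  classical
  have h : (fun g => MvPolynomial.eval (fun q : B × B => Γ.ρ g q.1 q.2) p) =
      ∑ m ∈ p.support, (p.coeff m) • (fun g : Γ.G => ∏ q ∈ m.support, (Γ.ρ g q.1 q.2) ^ (m q)) := by
    funext g
    rw [MvPolynomial.eval_eq]
    simp only [Finset.sum_apply, Pi.smul_apply, smul_eq_mul]
  rw [h]
  refine Submodule.sum_mem _ fun m hm => Submodule.smul_mem _ _ ?_
  refine coef_mono hΓ ?_ (prod_coef m.support m)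
  exact (MvPolynomial.le_totalDegree hm).trans hp

lemma second (hΓ : Good Γ) (r : ℕ) :
    Module.finrank ℂ (Γ.coef r) =
    Module.finrank ℂ (polyOn (Set.range fun (g : Γ.G) (p : B × B) => Γ.ρ g p.1 p.2) r) := by
  classical
  set Z := Set.range fun (g : Γ.G) (p : B × B) => Γ.ρ g p.1 p.2 with hZ
  let z : Γ.G → Z := fun g => ⟨fun p => Γ.ρ g p.1 p.2, ⟨g, rfl⟩⟩
  have hz : Function.Surjective z := by
    rintro ⟨_, g, rfl⟩
    exact ⟨g, rfl⟩
  have hinj := LinearMap.funLeft_injective_of_surjective ℂ ℂ z hz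
  have hmap : Submodule.map (LinearMap.funLeft ℂ ℂ z) (polyOn Z r) = Γ.coef r := by
    apply le_antisymm
    · rw [polyOn, Submodule.map_span, Submodule.span_le]
      rintro _ ⟨f, ⟨p, hp, rfl⟩, rfl⟩
      exact third hΓ r p hp
    · unfold CGrp.coef
      rw [Submodule.span_le]
      rintro _ ⟨I, J, rfl⟩
      refine ⟨fun w => MvPolynomial.eval w.1 (∏ i, MvPolynomial.X (I i, J i)),
        Submodule.subset_span ⟨_, ?_, rfl⟩, ?_⟩
      · refine (MvPolynomial.totalDegree_finsetProd _ _).trans ?_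
        refine (Finset.sum_le_sum fun i _ => (MvPolynomial.totalDegree_X (R := ℂ) (I i, J i)).le).trans ?_
        simp
      · funext g
        change MvPolynomial.eval (z g).1 (∏ i, MvPolynomial.X (I i, J i)) = _
        rw [map_prod, tpw_apply]
        simp [z]
  rw [← hmap]
  exact (LinearEquiv.finrank_eq (Submodule.equivMapOfInjective _ hinj (polyOn Z r))).symm

theorem main : S_DIM := by
  intro B _ _ Γ hΓ r
  exact ⟨first Γ r, second hΓ r, third hΓ r⟩

end Pool.Agent.H847.CG.DIM
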