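import Pool.Agent.H847.CG.Stm

open MeasureTheory
open scoped ComplexOrder InnerProductSpace ComplexConjugate

namespace Pool.Agent.H847.CG.CHR

set_option linter.unusedSectionVars false
set_option linter.style.haveILetI false

section

variable {G : Type} [Group G] [TopologicalSpace G] [IsTopologicalGroup G] [CompactSpace G]
  [MeasurableSpace G] [BorelSpace G] (μ : Measure G) [IsProbabilityMeasure μ]

lemma integ {f : G → ℂ} (hf : Continuous f) : Integrable f μ :=
  hf.integrable_of_hasCompactSupport (HasCompactSupport.of_compactSpace f)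

lemma integR {f : G → ℝ} (hf : Continuous f) : Integrable f μ :=
  hf.integrable_of_hasCompactSupport (HasCompactSupport.of_compactSpace f)

lemma self_eq (f : G → ℂ) :
    ∫ x, conj (f x) * f x ∂μ = ((∫ x, ‖f x‖ ^ 2 ∂μ : ℝ) : ℂ) := by
  rw [← integral_complex_ofReal]
  refine integral_congr_ae (Filter.Eventually.of_forall fun x => ?_)
  simp only
  rw [mul_comm, Complex.mul_conj]
  norm_cast
  rw [Complex.normSq_eq_norm_sq]

variable {V : Type} [AddCommGroup V] [Module ℂ V] (j : V →ₗ[ℂ] (G → ℂ))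

/-- The inner product on a space of continuous functions. -/
@[reducible]
noncomputable def core [μ.IsOpenPosMeasure] (hj : Function.Injective j)
    (hE : ∀ f, Continuous (j f)) : InnerProductSpace.Core ℂ V where
  inner f g := ∫ x, conj (j f x) * j g x ∂μ
  conj_inner_symm f g := by
    rw [← integral_conj]
    refine integral_congr_ae (Filter.Eventually.of_forall fun x => ?_)
    simp [mul_comm]
  re_inner_nonneg f := by
    change 0 ≤ (∫ x, conj (j f x) * j f x ∂μ).re
    rw [self_eq, Complex.ofReal_re]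
    exact integral_nonneg fun x => by positivity
  add_left f g h := by
    rw [← integral_add]
    · refine integral_congr_ae (Filter.Eventually.of_forall fun x => ?_)
      simp [add_mul]
    · exact integ μ ((Complex.continuous_conj.comp (hE _)).mul (hE _))
    · exact integ μ ((Complex.continuous_conj.comp (hE _)).mul (hE _))
  smul_left f g r := by
    rw [← integral_const_mul]
    refine integral_congr_ae (Filter.Eventually.of_forall fun x => ?_)
    simp [mul_assoc]
  definite f hf := by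
    change ∫ x, conj (j f x) * j f x ∂μ = 0 at hf
    rw [self_eq, Complex.ofReal_eq_zero] at hf
    have hc : Continuous fun x => ‖j f x‖ ^ 2 := (hE _).norm.pow 2
    rw [integral_eq_zero_iff_of_nonneg (fun x => by positivity) (integR μ hc)] at hf
    have h2 := (hc.ae_eq_iff_eq μ continuous_zero).1 hf
    apply hj
    rw [map_zero]
    funext x
    have := congrFun h2 x
    simpa using this

theorem gen [FiniteDimensional ℂ V] [μ.IsMulLeftInvariant] [μ.IsOpenPosMeasure]
    (hj : Function.Injective j)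
    (hE : ∀ f, Continuous (j f)) (T : G → V → V) (hTd : ∀ h f g, j (T h f) g = j f (h * g))
    (f : V) : ‖j f 1‖ ^ 2 ≤ Module.finrank ℂ V * ∫ g, ‖j f g‖ ^ 2 ∂μ := by
  let c : InnerProductSpace.Core ℂ V := core μ j hj hE
  letI : NormedAddCommGroup V := c.toNormedAddCommGroup
  letI : InnerProductSpace ℂ V := InnerProductSpace.ofCore c.toCore
  haveI : CompleteSpace V := FiniteDimensional.complete ℂ V
  have inner_def : ∀ f g : V, ⟪f, g⟫_ℂ = ∫ x, conj (j f x) * j g x ∂μ := fun f g => rfl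
  have norm_def : ∀ f : V, ‖f‖ ^ 2 = ∫ x, ‖j f x‖ ^ 2 ∂μ := by
    intro f
    have h1 := inner_self_eq_norm_sq_to_K (𝕜 := ℂ) f
    rw [inner_def, self_eq] at h1
    have h2 : ((∫ x, ‖j f x‖ ^ 2 ∂μ : ℝ) : ℂ) = ((‖f‖ ^ 2 : ℝ) : ℂ) := by
      rw [h1]; push_cast; rfl
    exact_mod_cast h2.symm
  -- evaluation functionals
  let ev : G → (V →ₗ[ℂ] ℂ) := fun g =>
    { toFun := fun f => j f g
      map_add' := fun a b => by rw [map_add]; rfl
      map_smul' := fun r a => by rw [map_smul]; rfl }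
  let k : G → V := fun g =>
    (InnerProductSpace.toDual ℂ V).symm (LinearMap.toContinuousLinearMap (ev g))
  have hk : ∀ g (f : V), ⟪k g, f⟫_ℂ = j f g := by
    intro g f
    simp only [k]
    rw [InnerProductSpace.toDual_symm_apply]
    rfl
  -- translations
  have hT : ∀ h (f f' : V), ⟪T h f, T h f'⟫_ℂ = ⟪f, f'⟫_ℂ := by
    intro h f f'
    rw [inner_def, inner_def]
    simp only [hTd]
    exact integral_mul_left_eq_self (fun x => conj (j f x) * j f' x) h
  have hTT : ∀ h (f : V), T h⁻¹ (T h f) = f := by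
    intro h f
    apply hj
    funext g
    rw [hTd, hTd, mul_inv_cancel_left]
  have hkT : ∀ g, k g = T g⁻¹ (k 1) := by
    intro g
    refine ext_inner_right ℂ fun f => ?_
    rw [hk]
    have h1 : ⟪T g⁻¹ (k 1), f⟫_ℂ = ⟪T g⁻¹ (k 1), T g⁻¹ (T g f)⟫_ℂ := by rw [hTT]
    rw [h1, hT, hk, hTd, mul_one]
  have hnorm : ∀ g, ‖k g‖ ^ 2 = ‖k 1‖ ^ 2 := by
    intro g
    have h1 := inner_self_eq_norm_sq_to_K (𝕜 := ℂ) (k g)
    rw [hkT, hT, inner_self_eq_norm_sq_to_K (𝕜 := ℂ) (k 1), ← hkT] at h1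
    exact_mod_cast h1.symm
  let b := stdOrthonormalBasis ℂ V
  have hsum : ∀ g, ∑ i, ‖j (b i) g‖ ^ 2 = ‖k 1‖ ^ 2 := by
    intro g
    rw [← hnorm g, ← b.sum_sq_norm_inner_left (k g)]
    refine Finset.sum_congr rfl fun i _ => ?_
    rw [hk]
  have hdim : (Module.finrank ℂ V : ℝ) = ‖k 1‖ ^ 2 := by
    have h1 : ∫ g, ∑ i, ‖j (b i) g‖ ^ 2 ∂μ = ‖k 1‖ ^ 2 := by
      simp only [hsum]
      simp
    rw [← h1, integral_finsetSum]
    · have : ∀ i, ∫ g, ‖j (b i) g‖ ^ 2 ∂μ = 1 := by
        intro i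
        rw [← norm_def, b.norm_eq_one, one_pow]
      simp [this]
    · intro i _
      exact integR μ ((hE (b i)).norm.pow 2)
  have h1 : ‖j f 1‖ ≤ ‖k 1‖ * ‖f‖ := by
    have := norm_inner_le_norm (𝕜 := ℂ) (k 1) f
    rwa [hk] at this
  calc ‖j f 1‖ ^ 2 ≤ (‖k 1‖ * ‖f‖) ^ 2 := by gcongr
    _ = ‖k 1‖ ^ 2 * ‖f‖ ^ 2 := by ring
    _ = _ := by rw [hdim, norm_def f]

end

theorem main : S_CHR := by
  intro G _ _ _ _ _ _ μ _ _ _ E hfd hE htr f hf
  haveI : FiniteDimensional ℂ E := hfd
  exact gen μ E.subtype Subtype.val_injective (fun f => hE _ f.2)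
    (fun h f => ⟨fun g => f.1 (h * g), htr h f.1 f.2⟩) (fun _ _ _ => rfl) ⟨f, hf⟩

end Pool.Agent.H847.CG.CHR
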