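import Pool.Agent.H847.CG.Char
import Pool.Agent.H847.CG.ANA
import Pool.Agent.H847.CG.CHR

/-!
# Growth of invariant tensors of compact groups: DOWN
-/

set_option linter.unusedSectionVars false

open Matrix MeasureTheory

namespace Pool.Agent.H847.CG.DOWN

variable {B : Type} [Fintype B] [DecidableEq B]

/-- `coef` is finite-dimensional. -/
lemma finite_coef (Γ : CGrp B) (r : ℕ) : FiniteDimensional ℂ (Γ.coef r) := by
  have h : {f : Γ.G → ℂ | ∃ I J : Fin r → B, f = fun g => tpw r (Γ.ρ g) I J} =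
      Set.range fun p : (Fin r → B) × (Fin r → B) => fun g => tpw r (Γ.ρ g) p.1 p.2 := by
    ext f
    constructor
    · rintro ⟨I, J, rfl⟩
      exact ⟨(I, J), rfl⟩
    · rintro ⟨p, rfl⟩
      exact ⟨p.1, p.2, rfl⟩
  rw [CGrp.coef, h]
  exact FiniteDimensional.span_of_finite ℂ (Set.finite_range _)

lemma cont_coef (Γ : CGrp B) (r : ℕ) : ∀ f ∈ Γ.coef r, Continuous f := by
  intro f hf
  rw [CGrp.coef] at hf
  induction hf using Submodule.span_induction with
  | mem f hf =>
    obtain ⟨I, J, rfl⟩ := hf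
    exact ((continuous_apply J).comp ((continuous_apply I).comp (Γ.cont_rep r)))
  | zero => exact continuous_const
  | add f g _ _ hf hg => exact hf.add hg
  | smul c f _ hf => exact hf.const_smul c

lemma trans_coef (Γ : CGrp B) (r : ℕ) (h : Γ.G) : ∀ f ∈ Γ.coef r,
    (fun g => f (h * g)) ∈ Γ.coef r := by
  intro f hf
  rw [CGrp.coef] at hf
  induction hf using Submodule.span_induction with
  | mem f hf =>
    obtain ⟨I, J, rfl⟩ := hf
    have h1 : (fun g => tpw r (Γ.ρ (h * g)) I J) =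
        ∑ K, tpw r (Γ.ρ h) I K • fun g => tpw r (Γ.ρ g) K J := by
      funext g
      rw [map_mul, tpw_mul, Matrix.mul_apply, Finset.sum_apply]
      rfl
    rw [h1]
    exact Submodule.sum_mem _ fun K _ => Submodule.smul_mem _ _ (Submodule.subset_span ⟨K, J, rfl⟩)
  | zero => exact Submodule.zero_mem _
  | add f g _ _ hf hg => exact Submodule.add_mem _ hf hg
  | smul c f _ hf => exact Submodule.smul_mem _ c hf

/-- The character divided by the dimension as a polynomial. -/
noncomputable def ch (B : Type) [Fintype B] : MvPolynomial (B × B) ℂ :=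
  MvPolynomial.C (1 / (Fintype.card B : ℂ)) * ∑ i : B, MvPolynomial.X (i, i)

lemma deg_ch : (ch B).totalDegree ≤ 1 := by
  refine (MvPolynomial.totalDegree_mul _ _).trans ?_
  rw [MvPolynomial.totalDegree_C, zero_add]
  refine (MvPolynomial.totalDegree_finsetSum _ _).trans (Finset.sup_le fun i _ => ?_)
  rw [MvPolynomial.totalDegree_X]

lemma eval_ch {Γ : CGrp B} (hΓ : Good Γ) (g : Γ.G) :
    MvPolynomial.eval (fun q : B × B => Γ.ρ g q.1 q.2) (ch B) = (Γ.y g : ℂ) := by
  rw [ch, map_mul, MvPolynomial.eval_C, map_sum]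
  simp only [MvPolynomial.eval_X]
  have h1 : ∑ i : B, Γ.ρ g i i = Γ.χ g := rfl
  rw [h1, hΓ.χ_eq, CGrp.y, Complex.ofReal_div, Complex.ofReal_natCast]
  ring

/-- The polynomial `f (y ^ 2)`. -/
noncomputable def pl (B : Type) [Fintype B] (f : Polynomial ℝ) : MvPolynomial (B × B) ℂ :=
  ∑ k ∈ Finset.range (f.natDegree + 1), MvPolynomial.C (f.coeff k : ℂ) * ch B ^ (2 * k)

lemma deg_pl {n : ℕ} {f : Polynomial ℝ} (hf : f.natDegree ≤ n) :
    (pl B f).totalDegree ≤ 2 * n := by
  rw [pl]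
  refine (MvPolynomial.totalDegree_finsetSum _ _).trans (Finset.sup_le fun k hk => ?_)
  refine (MvPolynomial.totalDegree_mul _ _).trans ?_
  rw [MvPolynomial.totalDegree_C, zero_add]
  refine (MvPolynomial.totalDegree_pow _ _).trans ?_
  have h1 : k ≤ n := by
    have := Finset.mem_range.1 hk
    omega
  calc 2 * k * (ch B).totalDegree ≤ 2 * k * 1 := Nat.mul_le_mul_left _ deg_ch
    _ ≤ 2 * n := by omega

lemma eval_pl {Γ : CGrp B} (hΓ : Good Γ) (f : Polynomial ℝ) (g : Γ.G) :
    MvPolynomial.eval (fun q : B × B => Γ.ρ g q.1 q.2) (pl B f) =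
      ((f.eval (Γ.y g ^ 2) : ℝ) : ℂ) := by
  rw [pl, map_sum, Polynomial.eval_eq_sum_range, Complex.ofReal_sum]
  refine Finset.sum_congr rfl fun k _ => ?_
  rw [map_mul, MvPolynomial.eval_C, map_pow, eval_ch hΓ, Complex.ofReal_mul, Complex.ofReal_pow,
    Complex.ofReal_pow, pow_mul]

theorem main (h : S_DIM) : S_DOWN := by
  intro B _ _ Γ hΓ D C C' hC hup hmom
  have hb : (0 : ℝ) < Fintype.card B := by exact_mod_cast hΓ.card_pos
  have hy1 : Γ.y 1 = 1 := by
    rw [CGrp.y, CGrp.χ, map_one, trace_one, Complex.natCast_re, div_self hb.ne']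
  have hkey := ANA.main Γ.G Γ.μ (fun g => Γ.y g ^ 2) (hΓ.cont_y.pow 2).measurable
    (fun g => ⟨sq_nonneg _, hΓ.y_bound g⟩) D (C * 2 ^ D) C' ?_ ?_
  · obtain ⟨c, hc, hcl⟩ := hkey
    refine ⟨c, hc, fun m => ?_⟩
    have h1 := hcl m
    simp only [← pow_mul] at h1
    exact h1
  · intro n f hf
    have h3 := (h B Γ hΓ (2 * n)).2.2 (pl B f) (deg_pl hf)
    have h4 : (fun g => MvPolynomial.eval (fun q : B × B => Γ.ρ g q.1 q.2) (pl B f)) =
        fun g => ((f.eval (Γ.y g ^ 2) : ℝ) : ℂ) := by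
      funext g
      exact eval_pl hΓ f g
    rw [h4] at h3
    have h5 := CHR.main Γ.G Γ.μ (Γ.coef (2 * n)) (finite_coef Γ _) (cont_coef Γ _)
      (trans_coef Γ _) _ h3
    simp only [Complex.norm_real, Real.norm_eq_abs, sq_abs, hy1, one_pow] at h5
    refine h5.trans (mul_le_mul_of_nonneg_right ?_ (integral_nonneg fun g => sq_nonneg _))
    refine (hup (2 * n)).trans ?_
    rw [mul_assoc, ← mul_pow]
    refine mul_le_mul_of_nonneg_left (pow_le_pow_left₀ (by positivity) ?_ D) hC.le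
    push_cast
    linarith
  · intro l
    simp only [← pow_mul]
    exact hmom l

end Pool.Agent.H847.CG.DOWN
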