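import Pool.Agent.H847.CG.Stm

/-!
# Leaf MIN: spaces of polynomial functions with finitely many values
-/

namespace Pool.Agent.H847.CG.MIN

/-- The abstract form: a space of elements of a reduced noetherian algebra which are roots of split
polynomials with distinct roots is finite-dimensional. -/
theorem abstract_form (R : Type) [CommRing R] [Algebra ℂ R] [IsNoetherianRing R] [IsReduced R]
    (W : Type) [AddCommGroup W] [Module ℂ W] (inc : W →ₗ[ℂ] R) (hinj : Function.Injective inc)
    (h : ∀ w, ∃ s : Finset ℂ, ∏ c ∈ s, (inc w - algebraMap ℂ R c) = 0) :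
    Module.Finite ℂ W := by
  classical
  have hfin : (minimalPrimes R).Finite := minimalPrimes.finite_of_isNoetherianRing R
  have : Finite (minimalPrimes R) := hfin
  have key : ∀ (P : Ideal R), P.IsPrime → ∀ f : W,
      (Ideal.Quotient.mkₐ ℂ P).toLinearMap (inc f) ∈ Submodule.span ℂ {(1 : R ⧸ P)} := by
    intro P hP f
    obtain ⟨s, hprod⟩ := h f
    have hmem : ∏ c ∈ s, (inc f - algebraMap ℂ R c) ∈ P := by
      rw [hprod]; exact P.zero_mem
    obtain ⟨c, -, hc⟩ := (hP.prod_mem_iff).1 hmem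
    rw [Submodule.mem_span_singleton]
    refine ⟨c, ?_⟩
    have h3 : Ideal.Quotient.mk P (inc f) = Ideal.Quotient.mk P (algebraMap ℂ R c) :=
      (Ideal.Quotient.mk_eq_mk_iff_sub_mem _ _).2 hc
    change c • (1 : R ⧸ P) = Ideal.Quotient.mk P (inc f)
    rw [h3, ← Algebra.algebraMap_eq_smul_one]
    rfl
  let φ : W →ₗ[ℂ] ((P : minimalPrimes R) → (R ⧸ P.1)) :=
    LinearMap.pi (fun P => (Ideal.Quotient.mkₐ ℂ P.1).toLinearMap ∘ₗ inc)
  have hφ : Function.Injective φ := by
    rw [injective_iff_map_eq_zero]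
    intro f hf
    have h4 : ∀ P ∈ minimalPrimes R, inc f ∈ P := by
      intro P hP
      have h5 := congrFun hf ⟨P, hP⟩
      exact (Ideal.Quotient.eq_zero_iff_mem).1 h5
    have h7 : inc f ∈ sInf (minimalPrimes R) := by
      rw [Submodule.mem_sInf]
      exact fun P hP => h4 P hP
    have h8 : sInf (minimalPrimes R) = (⊥ : Ideal R) := by
      have h9 := Ideal.sInf_minimalPrimes (I := (⊥ : Ideal R))
      rw [minimalPrimes, h9]
      exact nilradical_eq_zero R
    rw [h8] at h7
    have h9 : inc f = 0 := (Submodule.mem_bot R).1 h7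
    exact (injective_iff_map_eq_zero inc).1 hinj f h9
  let T : Submodule ℂ ((P : minimalPrimes R) → (R ⧸ P.1)) :=
    Submodule.pi Set.univ (fun P => Submodule.span ℂ {(1 : R ⧸ P.1)})
  have hT : ∀ w, φ w ∈ T := by
    intro w
    rw [Submodule.mem_pi]
    intro P _
    exact key P.1 P.2.1.1 w
  have hTf : Module.Finite ℂ T := by
    have : T.FG := by
      exact Submodule.fg_pi (fun P => Submodule.fg_span_singleton _)
    exact Module.Finite.iff_fg.2 this
  exact Module.Finite.of_injective (LinearMap.codRestrict T φ hT)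
    (fun a b hab => hφ (congrArg Subtype.val hab))

/-- Evaluation of the polynomials on `Z`. -/
noncomputable def ev {σ : Type} (Z : Set (σ → ℂ)) : MvPolynomial σ ℂ →ₐ[ℂ] (Z → ℂ) :=
  AlgHom.pi (fun z => MvPolynomial.aeval z.1)

theorem ev_apply {σ : Type} (Z : Set (σ → ℂ)) (p : MvPolynomial σ ℂ) (z : Z) :
    ev Z p z = MvPolynomial.eval z.1 p := by
  simp only [ev, AlgHom.pi_apply]
  rw [MvPolynomial.aeval_eq_eval]

theorem main : S_MIN := by
  intro σ _ Z V hV
  classical
  let R : Subalgebra ℂ (Z → ℂ) := (ev Z).range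
  have hN : IsNoetherianRing R :=
    isNoetherianRing_of_surjective _ _ (ev Z).rangeRestrict.toRingHom
      (ev Z).rangeRestrict_surjective
  have hred : IsReduced R := by
    refine ⟨fun x hx => ?_⟩
    obtain ⟨n, hn⟩ := hx
    apply Subtype.ext
    funext z
    have h1 : (x : Z → ℂ) z ^ n = 0 := by
      have := congrArg (fun y : R => (y : Z → ℂ) z) hn
      simpa using this
    simpa using eq_zero_of_pow_eq_zero h1
  have hVR : ∀ f ∈ V, f ∈ R := by
    intro f hf
    obtain ⟨⟨p, hp⟩, -⟩ := hV f hf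
    refine ⟨p, ?_⟩
    funext z
    rw [hp]
    exact ev_apply Z p z
  let inc : V →ₗ[ℂ] R :=
    { toFun := fun f => ⟨f.1, hVR f.1 f.2⟩
      map_add' := fun _ _ => rfl
      map_smul' := fun _ _ => rfl }
  have hinc : Function.Injective inc := by
    intro a b hab
    apply Subtype.ext
    exact congrArg (fun y : R => (y : Z → ℂ)) hab
  refine abstract_form R V inc hinc ?_
  intro f
  obtain ⟨-, hfinr⟩ := hV f.1 f.2
  refine ⟨hfinr.toFinset, ?_⟩
  apply Subtype.ext
  funext z
  have h2 : ((∏ c ∈ hfinr.toFinset, (inc f - algebraMap ℂ R c) : R) : Z → ℂ) z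
      = ∏ c ∈ hfinr.toFinset, ((f : Z → ℂ) z - c) := by
    rw [← Subalgebra.coe_val, map_prod, Finset.prod_apply]
    rfl
  rw [h2]
  apply Finset.prod_eq_zero (i := (f : Z → ℂ) z)
  · simp
  · simp

end Pool.Agent.H847.CG.MIN
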