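import Pool.Agent.H847.CG.Stm2
import Pool.Agent.H847.CG.Char
import Pool.Agent.H847.CG.MIN

/-! Leaf FIN: finitely many values imply a finite-dimensional space of coefficients. -/

set_option linter.unusedSectionVars false

open MeasureTheory Matrix

namespace Pool.Agent.H847.CG.FIN

/-- The functions with finitely many values. -/
def finR (G : Type) : Submodule ℂ (G → ℂ) where
  carrier := {f | (Set.range f).Finite}
  add_mem' := by
    intro f g hf hg
    refine (Set.Finite.image2 (fun a b : ℂ => a + b) hf hg).subset ?_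
    rintro _ ⟨x, rfl⟩
    exact ⟨f x, ⟨x, rfl⟩, g x, ⟨x, rfl⟩, rfl⟩
  zero_mem' := (Set.finite_singleton (0 : ℂ)).subset (by rintro _ ⟨x, rfl⟩; rfl)
  smul_mem' := by
    intro c f hf
    refine (Set.Finite.image (fun a : ℂ => c * a) hf).subset ?_
    rintro _ ⟨x, rfl⟩
    exact ⟨f x, ⟨x, rfl⟩, rfl⟩

variable {B : Type} [Fintype B] [DecidableEq B] (Γ : CGrp B)

/-- The polynomial functions. -/
def polR : Submodule ℂ (Γ.G → ℂ) where
  carrier := {f | ∃ p : MvPolynomial (B × B) ℂ,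
    f = fun g => MvPolynomial.eval (fun q : B × B => Γ.ρ g q.1 q.2) p}
  add_mem' := by
    rintro _ _ ⟨p, rfl⟩ ⟨q, rfl⟩
    exact ⟨p + q, by funext g; simp⟩
  zero_mem' := ⟨0, by funext g; simp⟩
  smul_mem' := by
    rintro c _ ⟨p, rfl⟩
    exact ⟨MvPolynomial.C c * p, by funext g; simp⟩

/-- The span of the coefficients of the tensors of `S`. -/
def O (S : TS Γ) (r : ℕ) : Submodule ℂ (Γ.G → ℂ) :=
  Submodule.span ℂ {f | ∃ t₀ ∈ S.T r, ∃ I, f = fun g => (tpw r (Γ.ρ g) *ᵥ t₀) I}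

lemma O_pol (S : TS Γ) (r : ℕ) : O Γ S r ≤ polR Γ := by
  refine Submodule.span_le.2 ?_
  rintro _ ⟨t₀, -, I, rfl⟩
  refine ⟨∑ J : Fin r → B, MvPolynomial.C (t₀ J) * ∏ i, MvPolynomial.X (I i, J i), ?_⟩
  funext g
  rw [mulVec, dotProduct, map_sum]
  refine Finset.sum_congr rfl fun J _ => ?_
  rw [map_mul, MvPolynomial.eval_C, map_prod, tpw_apply, mul_comm]
  simp only [MvPolynomial.eval_X]

lemma O_fin (S : TS Γ)
    (hf : ∀ (r : ℕ) (t₀ ξ : (Fin r → B) → ℂ), t₀ ∈ S.T r →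
      (Set.range fun g => ∑ I, ξ I * (tpw r (Γ.ρ g) *ᵥ t₀) I).Finite) (r : ℕ) :
    O Γ S r ≤ finR Γ.G := by
  refine Submodule.span_le.2 ?_
  rintro _ ⟨t₀, ht₀, I, rfl⟩
  have h1 := hf r t₀ (Pi.single I 1) ht₀
  have h2 : (fun g => ∑ I', (Pi.single I 1 : (Fin r → B) → ℂ) I' * (tpw r (Γ.ρ g) *ᵥ t₀) I') =
      fun g => (tpw r (Γ.ρ g) *ᵥ t₀) I := by
    funext g
    rw [Finset.sum_eq_single I]
    · simp
    · intro J _ hJ
      simp [hJ]
    · simp
  rw [h2] at h1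
  exact h1

lemma tensor_apply (m n : ℕ) (g : Matrix B B ℂ) (v : (Fin m → B) → ℂ) (w : (Fin n → B) → ℂ)
    (I : Fin m → B) (J : Fin n → B) :
    (tpw (m + n) g *ᵥ (fun I : Fin (m + n) → B =>
      v (fun i => I (Fin.castAdd n i)) * w (fun i => I (Fin.natAdd m i)))) (Fin.append I J) =
    (tpw m g *ᵥ v) I * (tpw n g *ᵥ w) J := by
  rw [mulVec, dotProduct, mulVec, dotProduct, mulVec, dotProduct, Finset.sum_mul_sum,
    ← Fintype.sum_prod_type']
  refine Fintype.sum_equiv (Fin.appendEquiv m n).symm _ _ fun K => ?_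
  rw [tpw_apply, tpw_apply, tpw_apply, Fin.prod_univ_add]
  simp only [Fin.append_left, Fin.append_right, Fin.appendEquiv]
  simp only [Equiv.symm, Equiv.coe_fn_mk]
  ring

lemma O_mono (hΓ : Good Γ) (S : TS Γ) (r : ℕ) : O Γ S r ≤ O Γ S (r + 1) := by
  obtain ⟨e, he, hfix⟩ := hΓ.vec
  obtain ⟨i₀, hi₀⟩ : ∃ i, e i ≠ 0 := by
    by_contra h
    push Not at h
    simp [h] at he
  have he1 : (fun I : Fin 1 → B => e (I 0)) ∈ S.T 1 := by
    refine S.inv_le 1 ?_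
    rw [Γ.mem_inv]
    intro g
    funext I
    have h1 := congrFun (hfix g) (I 0)
    rw [mulVec, dotProduct] at h1 ⊢
    rw [← h1]
    refine Fintype.sum_equiv (Equiv.funUnique (Fin 1) B) _ _ fun K => ?_
    rw [tpw_apply]
    simp
  refine Submodule.span_le.2 ?_
  rintro _ ⟨t₀, ht₀, I, rfl⟩
  have h2 : (fun g => (tpw r (Γ.ρ g) *ᵥ t₀) I) = (e i₀)⁻¹ • fun g => (tpw (r + 1) (Γ.ρ g) *ᵥ
      (fun I : Fin (r + 1) → B => t₀ (fun i => I (Fin.castAdd 1 i)) *
        (fun I : Fin 1 → B => e (I 0)) (fun i => I (Fin.natAdd r i)))) (Fin.append I fun _ => i₀) := by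
    funext g
    rw [Pi.smul_apply, smul_eq_mul]
    have h9 := tensor_apply r 1 (Γ.ρ g) t₀ (fun I : Fin 1 → B => e (I 0)) I fun _ => i₀
    refine Eq.trans ?_ (congrArg (fun a : ℂ => (e i₀)⁻¹ * a) h9.symm)
    have h3 : (tpw 1 (Γ.ρ g) *ᵥ fun I : Fin 1 → B => e (I 0)) (fun _ => i₀) = e i₀ := by
      have h1 := congrFun (hfix g) i₀
      rw [mulVec, dotProduct] at h1 ⊢
      conv_rhs => rw [← h1]
      refine Fintype.sum_equiv (Equiv.funUnique (Fin 1) B) _ _ fun K => ?_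
      rw [tpw_apply]
      simp
    rw [h3]
    field_simp
  rw [h2]
  refine Submodule.smul_mem _ _ (Submodule.subset_span ⟨_, S.mul r 1 _ _ ht₀ he1, _, rfl⟩)

theorem main : S_FIN := by
  intro B _ _ Γ hΓ S hf
  have hmono : Monotone (O Γ S) := monotone_nat_of_le_succ fun r => O_mono Γ hΓ S r
  set V : Submodule ℂ (Γ.G → ℂ) := ⨆ r, O Γ S r with hV
  set Z : Set (B × B → ℂ) := Set.range fun (g : Γ.G) (p : B × B) => Γ.ρ g p.1 p.2 with hZ
  let z : Γ.G → Z := fun g => ⟨fun p => Γ.ρ g p.1 p.2, g, rfl⟩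
  have hz : Function.Surjective z := by
    rintro ⟨_, g, rfl⟩
    exact ⟨g, rfl⟩
  let Φ : (Z → ℂ) →ₗ[ℂ] (Γ.G → ℂ) := LinearMap.funLeft ℂ ℂ z
  have hVp : V ≤ polR Γ := iSup_le fun r => O_pol Γ S r
  have hVf : V ≤ finR Γ.G := iSup_le fun r => O_fin Γ S hf r
  have hfd : FiniteDimensional ℂ (V.comap Φ) := by
    refine MIN.main (B × B) Z (V.comap Φ) fun f hf => ?_
    constructor
    · obtain ⟨p, hp⟩ := hVp hf
      refine ⟨p, ?_⟩
      funext x
      obtain ⟨g, rfl⟩ := hz x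
      exact congrFun hp g
    · have h1 : (Set.range (f ∘ z)).Finite := hVf hf
      rwa [hz.range_comp] at h1
  have hmap : (V.comap Φ).map Φ = V := by
    apply le_antisymm (Submodule.map_comap_le _ _)
    intro f hf
    obtain ⟨p, hp⟩ := hVp hf
    have h2 : Φ (fun x => MvPolynomial.eval x.1 p) = f := by
      rw [hp]
      rfl
    refine ⟨fun x => MvPolynomial.eval x.1 p, ?_, h2⟩
    change Φ _ ∈ V
    rw [h2]
    exact hf
  have hfdV : FiniteDimensional ℂ V := by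
    rw [← hmap]
    infer_instance
  have hfdO : ∀ r, FiniteDimensional ℂ (O Γ S r) := fun r =>
    Submodule.finiteDimensional_of_le (le_iSup (O Γ S) r)
  have hbdd : ∀ r, Module.finrank ℂ (O Γ S r) ≤ Module.finrank ℂ V := fun r =>
    Submodule.finrank_mono (le_iSup (O Γ S) r)
  obtain ⟨r, hr⟩ : ∃ r, ∀ m, Module.finrank ℂ (O Γ S m) ≤ Module.finrank ℂ (O Γ S r) := by
    have h3 : (Set.range fun r => Module.finrank ℂ (O Γ S r)).Finite :=
      (Set.finite_Iic (Module.finrank ℂ V)).subset (by rintro _ ⟨r, rfl⟩; exact hbdd r)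
    obtain ⟨a, ⟨r, rfl⟩, ha⟩ := Set.exists_max_image _ id h3 (Set.range_nonempty _)
    exact ⟨r, fun m => ha _ ⟨m, rfl⟩⟩
  have hall : ∀ n, O Γ S n ≤ O Γ S r := by
    intro n
    rcases le_total n r with h | h
    · exact hmono h
    · have := hfdO n
      exact (Submodule.eq_of_le_of_finrank_le (hmono h) (hr n)).ge
  let bs := Module.finBasis ℂ (S.T r)
  refine ⟨r, Module.finrank ℂ (S.T r), Matrix.of fun I j => (bs j : (Fin r → B) → ℂ) I,
    fun j => (bs j).2, fun n x hx I => ?_⟩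
  have h4 : (fun g => (tpw n (Γ.ρ g) *ᵥ x) I) ∈ O Γ S r :=
    hall n (Submodule.subset_span ⟨x, hx, I, rfl⟩)
  refine (Submodule.span_le.2 ?_) h4
  rintro _ ⟨t₀, ht₀, K, rfl⟩
  have h5 : t₀ = ∑ j, bs.repr ⟨t₀, ht₀⟩ j • (bs j : (Fin r → B) → ℂ) := by
    have h6 := congrArg (fun v : S.T r => (v : (Fin r → B) → ℂ)) (bs.sum_repr ⟨t₀, ht₀⟩)
    simp only [Submodule.coe_sum, Submodule.coe_smul] at h6
    exact h6.symm
  have h7 : (fun g => (tpw r (Γ.ρ g) *ᵥ t₀) K) = ∑ j, bs.repr ⟨t₀, ht₀⟩ j •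
      fun g => (tpw r (Γ.ρ g) * (Matrix.of fun I j => (bs j : (Fin r → B) → ℂ) I)) K j := by
    funext g
    conv_lhs => rw [h5]
    rw [mulVec_sum, Finset.sum_apply, Finset.sum_apply]
    refine Finset.sum_congr rfl fun j _ => ?_
    rw [mulVec_smul]
    rfl
  rw [h7]
  exact Submodule.sum_mem _ fun j _ => Submodule.smul_mem _ _ (Submodule.subset_span ⟨K, j, rfl⟩)

end Pool.Agent.H847.CG.FIN
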