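import Pool.Agent.H847.CG.Char

/-!
# The gap: assembly
-/

set_option linter.unusedSectionVars false

open Matrix MeasureTheory

namespace Pool.Agent.H847.CG.GAP

variable {B : Type} [Fintype B] [DecidableEq B]

lemma IsEqv.mulVec_inv {Γ : CGrp B} {r n : ℕ} {N : Matrix (Fin n → B) (Fin r → B) ℂ}
    (hN : Γ.IsEqv r n N) {v : (Fin r → B) → ℂ} (hv : v ∈ Γ.inv' r) : N *ᵥ v ∈ Γ.inv' n := by
  intro g
  change tpw n (Γ.ρ g) *ᵥ (N *ᵥ v) = N *ᵥ v
  rw [mulVec_mulVec, hN g, ← mulVec_mulVec, Γ.mem_inv r v |>.1 hv g]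

theorem main (h1 : S_GAPA) (h2 : S_FIN) (h3 : S_COL) (h4 : S_ASY) (h5 : S_MON) : S_GAP := by
  intro B _ _ Γ hΓ S
  by_cases hinf : ∃ (r : ℕ) (t₀ ξ : (Fin r → B) → ℂ), t₀ ∈ S.T r ∧
      (Set.range fun g => ∑ I, ξ I * (tpw r (Γ.ρ g) *ᵥ t₀) I).Infinite
  · obtain ⟨r, t₀, ξ, ht, hi⟩ := hinf
    exact Or.inr (h1 B Γ hΓ S r t₀ ξ ht hi)
  left
  obtain ⟨r, q, t, ht, hx⟩ := h2 B Γ hΓ S (fun r t₀ ξ h0 => by
    by_contra hcon
    exact hinf ⟨r, t₀, ξ, h0, hcon⟩)
  obtain ⟨C, hC⟩ := h4 B Γ hΓ r (Fin q) t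
  have key : ∀ n x, x ∈ S.T n ↔ ∃ N : Fin q → Matrix (Fin n → B) (Fin r → B) ℂ,
      (∀ j, Γ.IsEqv r n (N j)) ∧ x = ∑ j, N j *ᵥ (fun I => t I j) := by
    intro n x
    constructor
    · intro hx'
      exact h3 B Γ r n (Fin q) t x (hx n x hx')
    · rintro ⟨N, hN, rfl⟩
      exact Submodule.sum_mem _ fun j _ => S.eqv r n (N j) _ (hN j) (ht j)
  have hasy := fun n => hC n (S.T n) (key n)
  set N := Module.finrank ℂ (Γ.orb r t) with hNdef
  have hs : ∀ n, (0 : ℝ) < Γ.s n := fun n => by exact_mod_cast (h5 B Γ hΓ n).1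
  have hle : ∀ n, (Γ.s n : ℝ) ≤ Module.finrank ℂ (S.T n) := fun n => by
    exact_mod_cast Submodule.finrank_mono (S.inv_le n)
  refine ⟨N, ?_, ?_, C, hasy⟩
  · by_contra hcon
    have hN0 : N = 0 := by omega
    obtain ⟨n, hn⟩ := exists_nat_gt C
    have h6 := hasy n
    rw [hN0, Nat.cast_zero, zero_mul, sub_zero, abs_of_nonneg (Nat.cast_nonneg _)] at h6
    have h7 : (Γ.s n : ℝ) * (n + 1) ≤ C * Γ.s n :=
      (mul_le_mul_of_nonneg_right (hle n) (by positivity)).trans h6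
    have h8 : (n : ℝ) + 1 ≤ C := by
      have := hs n
      nlinarith
    linarith
  constructor
  · intro hN1 n
    -- the orbit is a line
    have htmem : t ∈ Γ.orb r t := by
      have : tpw r (Γ.ρ 1) * t ∈ Γ.orb r t := Submodule.subset_span ⟨1, rfl⟩
      rwa [map_one, tpw_one, Matrix.one_mul] at this
    have ht0 : t ≠ 0 := by
      intro h0
      have h6 : Γ.orb r t = ⊥ := by
        rw [CGrp.orb, Submodule.span_eq_bot]
        rintro _ ⟨g, rfl⟩
        change tpw r (Γ.ρ g) * t = 0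
        rw [h0, Matrix.mul_zero]
      rw [h6, finrank_bot] at hNdef
      omega
    have hlin : ∀ g, ∃ c : ℂ, tpw r (Γ.ρ g) * t = c • t := by
      intro g
      have h6 : tpw r (Γ.ρ g) * t ∈ Γ.orb r t := Submodule.subset_span ⟨g, rfl⟩
      obtain ⟨c, hc⟩ := exists_smul_eq_of_finrank_eq_one (V := Γ.orb r t) (hNdef.symm.trans hN1)
        (x := ⟨t, htmem⟩) (fun h => ht0 (congrArg Subtype.val h)) ⟨_, h6⟩
      exact ⟨c, (congrArg Subtype.val hc).symm⟩
    choose l hl using hlin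
    have hl1 : l 1 = 1 := by
      have h6 := hl 1
      rw [map_one, tpw_one, Matrix.one_mul] at h6
      have h7 : (1 - l 1) • t = 0 := by rw [sub_smul, one_smul, ← h6, sub_self]
      rcases smul_eq_zero.1 h7 with h8 | h8
      · exact (sub_eq_zero.1 h8).symm
      · exact absurd h8 ht0
    have hone : (fun _ => 1 : (Fin 0 → B) → ℂ) ∈ S.T 0 := by
      refine S.inv_le 0 ?_
      intro g
      change tpw 0 (Γ.ρ g) *ᵥ _ = _
      funext I
      rw [mulVec, dotProduct, Fintype.sum_unique, tpw_apply, Fin.prod_univ_zero, one_mul]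
    have h6 := hx 0 _ hone default
    have h7 : (fun g : Γ.G => (tpw 0 (Γ.ρ g) *ᵥ (fun _ => 1 : (Fin 0 → B) → ℂ)) default) =
        fun _ => 1 := by
      funext g
      rw [mulVec, dotProduct, Fintype.sum_unique, tpw_apply, Fin.prod_univ_zero, one_mul]
    rw [h7] at h6
    have h8 : Submodule.span ℂ {f : Γ.G → ℂ | ∃ K j, f = fun g => (tpw r (Γ.ρ g) * t) K j} ≤
        Submodule.span ℂ {l} := by
      rw [Submodule.span_le]
      rintro _ ⟨K, j, rfl⟩
      have h9 : (fun g => (tpw r (Γ.ρ g) * t) K j) = t K j • l := by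
        funext g
        rw [hl g, Matrix.smul_apply, Pi.smul_apply, smul_eq_mul, smul_eq_mul, mul_comm]
      rw [h9]
      exact Submodule.smul_mem _ _ (Submodule.mem_span_singleton_self l)
    obtain ⟨c, hc⟩ := Submodule.mem_span_singleton.1 (h8 h6)
    have hc1 : c = 1 := by
      have := congrFun hc 1
      rw [Pi.smul_apply, hl1, smul_eq_mul, mul_one] at this
      exact this
    have hlone : ∀ g, l g = 1 := by
      intro g
      have := congrFun hc g
      rw [hc1, one_smul] at this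
      exact this
    refine le_antisymm ?_ (S.inv_le n)
    intro x hx'
    obtain ⟨M, hM, rfl⟩ := (key n x).1 hx'
    refine Submodule.sum_mem _ fun j _ => IsEqv.mulVec_inv (hM j) ?_
    intro g
    change tpw r (Γ.ρ g) *ᵥ _ = _
    have h9 := hl g
    rw [hlone, one_smul] at h9
    funext I
    exact congrFun (congrFun h9 I) j
  · intro hT
    have h6 : ∀ n : ℕ, |1 - (N : ℝ)| * (n + 1) ≤ C := by
      intro n
      have h7 := hasy n
      rw [hT n] at h7
      have h8 : (Module.finrank ℂ (Γ.inv' n) : ℝ) - N * Γ.s n = (1 - (N : ℝ)) * Γ.s n := by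
        change ((Γ.s n : ℕ) : ℝ) - _ = _
        ring
      rw [h8, abs_mul, abs_of_pos (hs n)] at h7
      have h9 := hs n
      by_contra hcon
      push Not at hcon
      nlinarith
    by_contra hN
    have h7 : (1 : ℝ) ≤ |1 - (N : ℝ)| := by
      have h8 : (1 : ℤ) ≤ |1 - (N : ℤ)| := by
        rw [← Int.sub_one_lt_iff, sub_self, abs_pos]
        omega
      exact_mod_cast h8
    obtain ⟨n, hn⟩ := exists_nat_gt C
    have h8 := h6 n
    nlinarith

end Pool.Agent.H847.CG.GAP
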