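import Pool.Agent.H847.CG.Stm2
import Pool.Agent.H847.CG.Char

/-!
# Growth of invariant tensors of compact groups: GAPA
-/

set_option linter.unusedSectionVars false

open MeasureTheory Matrix

namespace Pool.Agent.H847.CG.GAPA

variable {B : Type} [Fintype B] [DecidableEq B]

/-- The product with a vector. -/
noncomputable def L (n : ℕ) (e : B → ℂ) : ((Fin n → B) → ℂ) →ₗ[ℂ] ((Fin (n + 1) → B) → ℂ) where
  toFun v := fun I => v (fun i => I (Fin.castAdd 1 i)) * e (I (Fin.natAdd n 0))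
  map_add' v w := by
    funext I
    simp only [Pi.add_apply]
    ring
  map_smul' c v := by
    funext I
    simp only [Pi.smul_apply, smul_eq_mul, RingHom.id_apply]
    ring

theorem L_inj (n : ℕ) {e : B → ℂ} {i : B} (hi : e i ≠ 0) : Function.Injective (L n e) := by
  rw [injective_iff_map_eq_zero]
  intro v hv
  funext I
  have h1 := congrFun hv (Fin.append I (fun _ : Fin 1 => i))
  change v (fun j => Fin.append I (fun _ : Fin 1 => i) (Fin.castAdd 1 j)) *
    e (Fin.append I (fun _ : Fin 1 => i) (Fin.natAdd n 0)) = 0 at h1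
  simp only [Fin.append_left, Fin.append_right] at h1
  rcases mul_eq_zero.1 h1 with h2 | h2
  · exact h2
  · exact absurd h2 hi

theorem e_inv (Γ : CGrp B) {e : B → ℂ} (he : ∀ g, Γ.ρ g *ᵥ e = e) :
    (fun K : Fin 1 → B => e (K 0)) ∈ Γ.inv' 1 := by
  rw [Γ.mem_inv]
  intro g
  funext I
  have h1 : (tpw 1 (Γ.ρ g) *ᵥ (fun K : Fin 1 → B => e (K 0))) I =
      ∑ K : Fin 1 → B, Γ.ρ g (I 0) (K 0) * e (K 0) := by
    rw [Matrix.mulVec, dotProduct]
    refine Finset.sum_congr rfl fun K _ => ?_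
    rw [tpw_apply]
    simp
  rw [h1, Fintype.sum_equiv (Equiv.funUnique (Fin 1) B) _ (fun k => Γ.ρ g (I 0) k * e k)]
  · exact congrFun (he g) (I 0)
  · intro K
    rfl

/-- The dimensions of the system increase. -/
theorem T_mono {Γ : CGrp B} (hΓ : Good Γ) (S : TS Γ) (n : ℕ) :
    Module.finrank ℂ (S.T n) ≤ Module.finrank ℂ (S.T (n + 1)) := by
  obtain ⟨e, he, hfix⟩ := hΓ.vec
  have hne : ∃ i, e i ≠ 0 := by
    by_contra hcon
    push Not at hcon
    simp [hcon] at he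
  obtain ⟨i, hi⟩ := hne
  rw [(Submodule.equivMapOfInjective (L n e) (L_inj n hi) (S.T n)).finrank_eq]
  apply Submodule.finrank_mono
  rintro _ ⟨v, hv, rfl⟩
  exact S.mul n 1 v _ hv (S.inv_le 1 (e_inv Γ hfix))

theorem main (h1 : S_VAN) (h2 : S_LOW) (h3 : S_MON) : S_GAPA := by
  intro B _ _ Γ hΓ S r t₀ ξ ht₀ hinf
  set b : ℝ := (Fintype.card B : ℝ) with hb
  have hb1 : (1 : ℝ) ≤ b := by
    rw [hb]
    exact_mod_cast hΓ.card_pos
  have hb0 : 0 < b := by linarith
  -- the degree is positive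
  have hr : 0 < r := by
    rcases Nat.eq_zero_or_pos r with h0 | h0
    · exfalso
      subst h0
      apply hinf
      refine (Set.finite_singleton (∑ I, ξ I * t₀ I)).subset ?_
      rintro _ ⟨g, rfl⟩
      rw [Set.mem_singleton_iff]
      have h4 : tpw 0 (Γ.ρ g) = 1 := by
        ext I J
        rw [tpw_apply, Subsingleton.elim I J]
        simp
      simp only [h4, Matrix.one_mulVec]
    · exact h0
  have hrR : (0 : ℝ) < r := by exact_mod_cast hr
  -- even degrees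
  have heven : ∀ m : ℕ, Real.sqrt (m + 1) / (2 * r * b ^ 2) * Γ.s (2 * m) ≤
      Module.finrank ℂ (S.T (2 * m)) := by
    intro m
    set a : ℝ := Real.sqrt (m + 1) / (r * b ^ 2) with ha
    have ha0 : 0 ≤ a := by positivity
    set j : ℕ := ⌊a⌋₊ with hj
    have hj1 : (j : ℝ) ≤ a := Nat.floor_le ha0
    have hj2 : a < j + 1 := Nat.lt_floor_add_one a
    obtain ⟨t, ht, hdim⟩ := h1 B Γ hΓ S r t₀ ξ ht₀ hinf j
    have hcond : ((r * j : ℕ) : ℝ) ^ 2 * (Fintype.card B : ℝ) ^ 4 ≤ (m : ℝ) + 1 := by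
      rw [← hb]
      push_cast
      have h4 : (r : ℝ) * j * b ^ 2 ≤ Real.sqrt (m + 1) := by
        have h5 : (j : ℝ) * (r * b ^ 2) ≤ Real.sqrt (m + 1) := by
          rw [ha, le_div_iff₀ (by positivity)] at hj1
          exact hj1
        linarith
      have h6 : ((r : ℝ) * j * b ^ 2) ^ 2 ≤ Real.sqrt (m + 1) ^ 2 :=
        pow_le_pow_left₀ (by positivity) h4 2
      rw [Real.sq_sqrt (by positivity)] at h6
      linarith
    obtain ⟨T, hT1, hT2⟩ := h2 B Γ hΓ (r * j) m (Fin (j + 1)) t hcond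
    have hTS : T ≤ S.T (2 * m) := by
      intro x hx
      obtain ⟨N, hN1, rfl⟩ := hT2 x hx
      exact Submodule.sum_mem _ fun i _ => S.eqv _ _ _ _ (hN1 i) (ht i)
    have h4 : Module.finrank ℂ T ≤ Module.finrank ℂ (S.T (2 * m)) := Submodule.finrank_mono hTS
    have h5 : (j + 1) * Γ.s (2 * m) ≤ 2 * Module.finrank ℂ (S.T (2 * m)) :=
      (Nat.mul_le_mul_right _ hdim).trans (hT1.trans (Nat.mul_le_mul_left 2 h4))
    have h6 : ((j : ℝ) + 1) * Γ.s (2 * m) ≤ 2 * Module.finrank ℂ (S.T (2 * m)) := by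
      exact_mod_cast h5
    have h7 : a * Γ.s (2 * m) ≤ ((j : ℝ) + 1) * Γ.s (2 * m) :=
      mul_le_mul_of_nonneg_right hj2.le (Nat.cast_nonneg _)
    have h8 : Real.sqrt (m + 1) / (2 * r * b ^ 2) = a / 2 := by
      rw [ha]
      field_simp
    rw [h8]
    linarith
  refine ⟨1 / (4 * r * b ^ 5), by positivity, fun n => ?_⟩
  -- reduction to even degrees
  obtain ⟨m, hm⟩ : ∃ m, n = 2 * m ∨ n = 2 * m + 1 := ⟨n / 2, by omega⟩
  have hsn : (Γ.s n : ℝ) ≤ b ^ 3 * Γ.s (2 * m) := by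
    rcases hm with rfl | rfl
    · have h4 : (1 : ℝ) ≤ b ^ 3 := one_le_pow₀ hb1
      nlinarith [Nat.cast_nonneg (α := ℝ) (Γ.s (2 * m))]
    · have h4 := (h3 B Γ hΓ (2 * m)).2.2 1
      rw [hb]
      exact_mod_cast h4
  have hTn : (Module.finrank ℂ (S.T (2 * m)) : ℝ) ≤ Module.finrank ℂ (S.T n) := by
    rcases hm with rfl | rfl
    · exact le_rfl
    · exact_mod_cast T_mono hΓ S (2 * m)
  have hsq : Real.sqrt (n + 1) ≤ 2 * Real.sqrt (m + 1) := by
    have h4 : (n : ℝ) + 1 ≤ 4 * (m + 1) := by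
      have : n + 1 ≤ 4 * (m + 1) := by omega
      exact_mod_cast this
    calc Real.sqrt (n + 1) ≤ Real.sqrt (4 * (m + 1)) := Real.sqrt_le_sqrt h4
      _ = 2 * Real.sqrt (m + 1) := by
        rw [Real.sqrt_mul (by norm_num), show (4 : ℝ) = 2 ^ 2 by norm_num,
          Real.sqrt_sq (by norm_num)]
  calc 1 / (4 * r * b ^ 5) * Real.sqrt (n + 1) * Γ.s n
      ≤ 1 / (4 * r * b ^ 5) * (2 * Real.sqrt (m + 1)) * (b ^ 3 * Γ.s (2 * m)) := by
        gcongr
    _ = Real.sqrt (m + 1) / (2 * r * b ^ 2) * Γ.s (2 * m) := by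
        field_simp
        ring
    _ ≤ Module.finrank ℂ (S.T (2 * m)) := heven m
    _ ≤ Module.finrank ℂ (S.T n) := hTn

end Pool.Agent.H847.CG.GAPA
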