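import Pool.Agent.H847.CG.Stm

/-!
# HIL: the Hilbert function of a finitely generated algebra has polynomial growth of integer order
-/

open MvPolynomial

namespace Pool.Agent.H847.CG.HIL

/-- Evaluation of the polynomials on `Z`. -/
noncomputable def ev {σ : Type} (Z : Set (σ → ℂ)) : MvPolynomial σ ℂ →ₐ[ℂ] (Z → ℂ) :=
  AlgHom.pi (fun z => MvPolynomial.aeval z.1)

lemma ev_apply {σ : Type} (Z : Set (σ → ℂ)) (p : MvPolynomial σ ℂ) :
    ev Z p = fun z => MvPolynomial.eval z.1 p := by
  funext z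
  simp [ev, MvPolynomial.aeval_eq_eval]

lemma mem_polyOn {σ : Type} (Z : Set (σ → ℂ)) (r : ℕ) (p : MvPolynomial σ ℂ)
    (hp : p.totalDegree ≤ r) : ev Z p ∈ polyOn Z r := by
  apply Submodule.subset_span
  exact ⟨p, hp, ev_apply Z p⟩

lemma polyOn_span {σ : Type} (Z : Set (σ → ℂ)) (r : ℕ) :
    polyOn Z r = Submodule.span ℂ ((fun m : σ →₀ ℕ => ev Z (monomial m 1)) '' {m | m.degree ≤ r}) := by
  apply le_antisymm
  · apply Submodule.span_le.2
    rintro f ⟨p, hp, rfl⟩
    rw [SetLike.mem_coe, ← ev_apply Z p, p.as_sum, map_sum]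
    apply Submodule.sum_mem
    intro m hm
    have h1 : (monomial m (coeff m p)) = (coeff m p) • (monomial m (1 : ℂ)) := by
      rw [smul_monomial, smul_eq_mul, mul_one]
    rw [h1, map_smul]
    apply Submodule.smul_mem
    apply Submodule.subset_span
    refine ⟨m, ?_, rfl⟩
    have := le_totalDegree hm
    change m.degree ≤ r
    rw [Finsupp.degree_apply]
    exact le_trans this hp
  · apply Submodule.span_le.2
    rintro f ⟨m, hm, rfl⟩
    apply mem_polyOn
    have h2 : m.degree ≤ r := hm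
    rw [Finsupp.degree_apply] at h2
    exact le_trans (totalDegree_monomial_le m 1) h2

lemma fd_polyOn {σ : Type} [Finite σ] (Z : Set (σ → ℂ)) (r : ℕ) :
    FiniteDimensional ℂ (polyOn Z r) := by
  rw [polyOn_span]
  exact FiniteDimensional.span_of_finite ℂ ((Finsupp.finite_of_degree_le r).image _)

/-- The spaces of the upper bound. -/
noncomputable def Wsp {σ : Type} (Z : Set (σ → ℂ)) {s M : ℕ} (G : MvPolynomial (Fin s) ℂ →ₐ[ℂ] (Z → ℂ))
    (z : Fin M → (Z → ℂ)) (n : ℕ) : Submodule ℂ (Z → ℂ) :=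
  Submodule.span ℂ (Set.range (fun q : (Fin s → Fin (n + 1)) × Fin M =>
    G (monomial (Finsupp.equivFunOnFinite.symm (fun i => (q.1 i : ℕ))) 1) * z q.2))

lemma mon_mem {σ : Type} (Z : Set (σ → ℂ)) {s M : ℕ} (G : MvPolynomial (Fin s) ℂ →ₐ[ℂ] (Z → ℂ))
    (z : Fin M → (Z → ℂ)) (n : ℕ) (m : Fin s →₀ ℕ) (hm : ∀ i, m i ≤ n) (k : Fin M) :
    G (monomial m 1) * z k ∈ Wsp Z G z n := by
  apply Submodule.subset_span
  refine ⟨(fun i => ⟨m i, Nat.lt_succ_of_le (hm i)⟩, k), ?_⟩
  have : (Finsupp.equivFunOnFinite.symm (fun i => m i)) = m := by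
    ext i; simp
  simp [this]

lemma pol_mem {σ : Type} (Z : Set (σ → ℂ)) {s M : ℕ} (G : MvPolynomial (Fin s) ℂ →ₐ[ℂ] (Z → ℂ))
    (z : Fin M → (Z → ℂ)) (n : ℕ) (f : MvPolynomial (Fin s) ℂ) (hm : ∀ m ∈ f.support, ∀ i, m i ≤ n)
    (k : Fin M) : G f * z k ∈ Wsp Z G z n := by
  rw [f.as_sum, map_sum, Finset.sum_mul]
  apply Submodule.sum_mem
  intro m hm'
  have h1 : (monomial m (coeff m f)) = (coeff m f) • (monomial m (1 : ℂ)) := by
    rw [smul_monomial, smul_eq_mul, mul_one]
  rw [h1, map_smul, smul_mul_assoc]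
  exact Submodule.smul_mem _ _ (mon_mem Z G z n m (hm m hm') k)

lemma Wsp_mono {σ : Type} (Z : Set (σ → ℂ)) {s M : ℕ} (G : MvPolynomial (Fin s) ℂ →ₐ[ℂ] (Z → ℂ))
    (z : Fin M → (Z → ℂ)) {n n' : ℕ} (h : n ≤ n') : Wsp Z G z n ≤ Wsp Z G z n' := by
  apply Submodule.span_le.2
  rintro f ⟨⟨e, k⟩, rfl⟩
  apply mon_mem
  intro i
  simp only [Finsupp.equivFunOnFinite_symm_apply_apply]
  have := (e i).2
  omega

lemma finrank_Wsp {σ : Type} (Z : Set (σ → ℂ)) {s M : ℕ} (G : MvPolynomial (Fin s) ℂ →ₐ[ℂ] (Z → ℂ))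
    (z : Fin M → (Z → ℂ)) (n : ℕ) : Module.finrank ℂ (Wsp Z G z n) ≤ (n + 1) ^ s * M := by
  have := finrank_range_le_card (R := ℂ) (fun q : (Fin s → Fin (n + 1)) × Fin M =>
    G (monomial (Finsupp.equivFunOnFinite.symm (fun i => (q.1 i : ℕ))) 1) * z q.2)
  have h2 : Module.finrank ℂ (Wsp Z G z n) ≤ Fintype.card ((Fin s → Fin (n + 1)) × Fin M) := this
  simpa using h2

instance fd_Wsp {σ : Type} (Z : Set (σ → ℂ)) {s M : ℕ} (G : MvPolynomial (Fin s) ℂ →ₐ[ℂ] (Z → ℂ))
    (z : Fin M → (Z → ℂ)) (n : ℕ) : FiniteDimensional ℂ (Wsp Z G z n) :=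
  FiniteDimensional.span_of_finite ℂ (Set.finite_range _)

/-- Multiplication by `x` shifts the spaces if it does so on the generators. -/
lemma mul_shift {σ : Type} (Z : Set (σ → ℂ)) {s M : ℕ} (G : MvPolynomial (Fin s) ℂ →ₐ[ℂ] (Z → ℂ))
    (z : Fin M → (Z → ℂ)) (q : ℕ) (x : Z → ℂ) (F : Fin M → Fin M → MvPolynomial (Fin s) ℂ)
    (hF : ∀ k j, ∀ m ∈ (F k j).support, ∀ i, m i ≤ q)
    (hx : ∀ k, x * z k = ∑ j, G (F k j) * z j) (n : ℕ) (w : Z → ℂ) (hw : w ∈ Wsp Z G z n) :
    x * w ∈ Wsp Z G z (n + q) := by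
  induction hw using Submodule.span_induction with
  | mem w hw =>
    obtain ⟨⟨e, k⟩, rfl⟩ := hw
    simp only
    have h1 : x * (G (monomial (Finsupp.equivFunOnFinite.symm (fun i => (e i : ℕ))) 1) * z k) =
        ∑ j, G (monomial (Finsupp.equivFunOnFinite.symm (fun i => (e i : ℕ))) 1 * F k j) * z j := by
      calc x * (G (monomial (Finsupp.equivFunOnFinite.symm (fun i => (e i : ℕ))) 1) * z k)
          = G (monomial (Finsupp.equivFunOnFinite.symm (fun i => (e i : ℕ))) 1) * (x * z k) := by ring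
        _ = _ := by
          rw [hx k, Finset.mul_sum]
          apply Finset.sum_congr rfl
          intro j _
          rw [map_mul, mul_assoc]
    rw [h1]
    apply Submodule.sum_mem
    intro j _
    apply pol_mem
    intro m hm i
    rw [mem_support_iff, coeff_monomial_mul'] at hm
    split_ifs at hm with hle
    · have h3 : m - Finsupp.equivFunOnFinite.symm (fun i => (e i : ℕ)) ∈ (F k j).support := by
        rw [mem_support_iff]
        intro h0
        apply hm
        rw [h0, mul_zero]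
      have h4 := hF k j _ h3 i
      have h5 := hle i
      simp only [Finsupp.tsub_apply, Finsupp.equivFunOnFinite_symm_apply_apply] at h4 h5
      have := (e i).2
      omega
    · exact absurd rfl hm
  | zero => rw [mul_zero]; exact Submodule.zero_mem _
  | add a b _ _ ha hb => rw [mul_add]; exact Submodule.add_mem _ ha hb
  | smul c a _ ha => rw [mul_smul_comm]; exact Submodule.smul_mem _ _ ha

lemma mon_in_W {σ : Type} (Z : Set (σ → ℂ)) {s M : ℕ} (G : MvPolynomial (Fin s) ℂ →ₐ[ℂ] (Z → ℂ))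
    (z : Fin M → (Z → ℂ)) (q : ℕ) (F : σ → Fin M → Fin M → MvPolynomial (Fin s) ℂ)
    (hF : ∀ a k j, ∀ m ∈ (F a k j).support, ∀ i, m i ≤ q)
    (hx : ∀ a k, ev Z (X a) * z k = ∑ j, G (F a k j) * z j)
    (h1 : (1 : Z → ℂ) ∈ Wsp Z G z q) :
    ∀ (r : ℕ) (m : σ →₀ ℕ), m.degree = r → ev Z (monomial m 1) ∈ Wsp Z G z (q * (r + 1)) := by
  intro r
  induction r with
  | zero =>
    intro m hm
    rw [Finsupp.degree_eq_zero_iff] at hm
    subst hm
    have : (monomial (0 : σ →₀ ℕ) (1 : ℂ)) = 1 := rfl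
    rw [this, map_one]
    simpa using h1
  | succ r ih =>
    intro m hm
    have hne : m ≠ 0 := by
      intro h0
      rw [h0] at hm
      simp at hm
    obtain ⟨a, ha⟩ := Finsupp.ne_iff.1 hne
    have hle : Finsupp.single a 1 ≤ m := by
      rw [Finsupp.single_le_iff]
      have : m a ≠ 0 := by simpa using ha
      omega
    have hsum : m = Finsupp.single a 1 + (m - Finsupp.single a 1) := by
      rw [add_tsub_cancel_of_le hle]
    have hdeg : (m - Finsupp.single a 1).degree = r := by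
      have h := congrArg Finsupp.degree hsum
      rw [map_add, Finsupp.degree_single, hm] at h
      omega
    have h2 := ih _ hdeg
    have h3 := mul_shift Z G z q (ev Z (X a)) (F a) (hF a) (hx a) _ _ h2
    have h4 : ev Z (monomial m 1) = ev Z (X a) * ev Z (monomial (m - Finsupp.single a 1) 1) := by
      rw [← map_mul]
      congr 1
      rw [X, monomial_mul, ← hsum, mul_one]
    rw [h4]
    have h5 : q * (r + 1) + q = q * (r + 1 + 1) := by ring
    rw [h5] at h3
    exact h3

theorem main : S_HIL := by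
  intro σ _ Z hZ
  classical
  cases nonempty_fintype σ
  -- the algebra `R`
  let R : Subalgebra ℂ (Z → ℂ) := (ev Z).range
  have : Nonempty Z := hZ.to_subtype
  have : Algebra.FiniteType ℂ R :=
    Algebra.FiniteType.of_surjective (ev Z).rangeRestrict (AlgHom.rangeRestrict_surjective _)
  obtain ⟨s, g, hinj, hfin⟩ := exists_finite_inj_algHom_of_fg ℂ R
  let G : MvPolynomial (Fin s) ℂ →ₐ[ℂ] (Z → ℂ) := R.val.comp g
  have hGinj : Function.Injective G := by
    intro a b h
    exact hinj (Subtype.ext h)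
  refine ⟨s, ?_⟩
  -- lower bound
  have hP : ∀ i : Fin s, ∃ p : MvPolynomial σ ℂ, ev Z p = G (X i) := fun i => (g (X i)).2
  choose P hP using hP
  obtain ⟨q0, hq0⟩ : ∃ q0 : ℕ, ∀ i, (P i).totalDegree ≤ q0 :=
    ⟨Finset.univ.sup (fun i => (P i).totalDegree), fun i => Finset.le_sup (f := fun i => (P i).totalDegree) (Finset.mem_univ i)⟩
  have hlow : ∀ r n : ℕ, (q0 + 1) * (s + 1) * n ≤ r → (n + 1) ^ s ≤ Module.finrank ℂ (polyOn Z r) := by
    intro r n hr
    have := fd_polyOn Z r
    have hmon : ∀ m : Fin s →₀ ℕ, G (monomial m 1) = ev Z (∏ i, P i ^ m i) := by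
      intro m
      rw [map_prod]
      have h0 : (monomial m (1 : ℂ)) = ∏ i, X i ^ m i := by
        rw [monomial_eq, map_one, one_mul, Finsupp.prod_fintype]
        intro i; exact pow_zero _
      rw [h0, map_prod]
      apply Finset.prod_congr rfl
      intro i _
      rw [map_pow, map_pow, hP i]
    let v : (Fin s → Fin (n + 1)) → polyOn Z r := fun e =>
      ⟨G (monomial (Finsupp.equivFunOnFinite.symm (fun i => (e i : ℕ))) 1), by
        rw [hmon]
        apply mem_polyOn
        calc (∏ i, P i ^ (Finsupp.equivFunOnFinite.symm (fun i => (e i : ℕ))) i).totalDegree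
            ≤ ∑ i, (P i ^ (Finsupp.equivFunOnFinite.symm (fun i => (e i : ℕ))) i).totalDegree :=
              totalDegree_finsetProd _ _
          _ ≤ ∑ i : Fin s, n * q0 := by
              apply Finset.sum_le_sum
              intro i _
              refine le_trans (totalDegree_pow _ _) ?_
              apply Nat.mul_le_mul
              · simp only [Finsupp.equivFunOnFinite_symm_apply_apply]
                have := (e i).2
                omega
              · exact hq0 i
          _ = s * (n * q0) := by simp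
          _ ≤ (q0 + 1) * (s + 1) * n := by
              have : s * (n * q0) ≤ (s + 1) * (n * (q0 + 1)) :=
                Nat.mul_le_mul (by omega) (Nat.mul_le_mul le_rfl (by omega))
              calc s * (n * q0) ≤ (s + 1) * (n * (q0 + 1)) := this
                _ = (q0 + 1) * (s + 1) * n := by ring
          _ ≤ r := hr⟩
    have hv : LinearIndependent ℂ v := by
      have h1 : LinearIndependent ℂ (fun m : Fin s →₀ ℕ => (monomial m (1 : ℂ))) := by
        have := (basisMonomials (Fin s) ℂ).linearIndependent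
        simpa using this
      have h2 : LinearIndependent ℂ (fun m : Fin s →₀ ℕ => G (monomial m (1 : ℂ))) := by
        exact h1.map' G.toLinearMap (LinearMap.ker_eq_bot.2 hGinj)
      have h3 : LinearIndependent ℂ (fun e : Fin s → Fin (n + 1) =>
          G (monomial (Finsupp.equivFunOnFinite.symm (fun i => (e i : ℕ))) (1 : ℂ))) := by
        apply h2.comp (fun e : Fin s → Fin (n + 1) => Finsupp.equivFunOnFinite.symm (fun i => (e i : ℕ)))
        intro e e' h
        have h' := Finsupp.equivFunOnFinite.symm.injective h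
        funext i
        exact Fin.ext (congrFun h' i)
      exact LinearIndependent.of_comp (polyOn Z r).subtype h3
    have := hv.fintype_card_le_finrank
    simpa using this
  -- upper bound
  obtain ⟨M, z, q, hup⟩ : ∃ (M : ℕ) (z : Fin M → (Z → ℂ)) (q : ℕ), ∀ r (m : σ →₀ ℕ), m.degree = r →
      ev Z (monomial m 1) ∈ Wsp Z G z (q * (r + 1)) := by
    let _ : Algebra (MvPolynomial (Fin s) ℂ) R := g.toRingHom.toAlgebra
    have : Module.Finite (MvPolynomial (Fin s) ℂ) R := hfin
    obtain ⟨M, f, hf⟩ := Module.Finite.exists_fin' (MvPolynomial (Fin s) ℂ) R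
    let z : Fin M → (Z → ℂ) := fun k => (f (Pi.single k 1)).1
    have key : ∀ x : R, ∃ a : Fin M → MvPolynomial (Fin s) ℂ, x.1 = ∑ j, G (a j) * z j := by
      intro x
      obtain ⟨a, ha⟩ := hf x
      refine ⟨a, ?_⟩
      have h1 : a = ∑ j, a j • (Pi.single j (1 : MvPolynomial (Fin s) ℂ) : Fin M → MvPolynomial (Fin s) ℂ) := by
        funext i
        simp [Finset.sum_apply, Pi.single_apply]
      have h2 : x = ∑ j, a j • f (Pi.single j 1) := by
        rw [← ha]
        conv_lhs => rw [h1]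
        rw [map_sum]
        apply Finset.sum_congr rfl
        intro j _
        rw [map_smul]
      rw [h2]
      have h3 : ∀ j, ((a j • f (Pi.single j 1) : R) : Z → ℂ) = G (a j) * z j := by
        intro j
        rw [Algebra.smul_def]
        rfl
      rw [AddSubmonoidClass.coe_finsetSum]
      exact Finset.sum_congr rfl fun j _ => h3 j
    have hxk : ∀ (a : σ) (k : Fin M), ∃ F : Fin M → MvPolynomial (Fin s) ℂ,
        ev Z (X a) * z k = ∑ j, G (F j) * z j := by
      intro a k
      exact key ((ev Z).rangeRestrict (X a) * f (Pi.single k 1))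
    choose F hF using hxk
    obtain ⟨F1, hF1⟩ := key 1
    obtain ⟨q1, hq1⟩ : ∃ q1 : ℕ, ∀ a k j, (F a k j).totalDegree ≤ q1 :=
      ⟨Finset.univ.sup (fun t : σ × Fin M × Fin M => (F t.1 t.2.1 t.2.2).totalDegree), fun a k j =>
        Finset.le_sup (f := fun t : σ × Fin M × Fin M => (F t.1 t.2.1 t.2.2).totalDegree)
          (Finset.mem_univ (a, k, j))⟩
    obtain ⟨q2, hq2⟩ : ∃ q2 : ℕ, ∀ j, (F1 j).totalDegree ≤ q2 :=
      ⟨Finset.univ.sup (fun t => (F1 t).totalDegree), fun j =>
        Finset.le_sup (f := fun t => (F1 t).totalDegree) (Finset.mem_univ j)⟩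
    have hsup : ∀ (p : MvPolynomial (Fin s) ℂ) (n : ℕ), p.totalDegree ≤ n → ∀ m ∈ p.support, ∀ i, m i ≤ n := by
      intro p n hp m hm i
      have h1 := le_totalDegree hm
      have h2 : m i ≤ m.degree := Finsupp.le_degree i m
      rw [Finsupp.degree_apply] at h2
      exact le_trans h2 (le_trans h1 hp)
    refine ⟨M, z, q1 + q2, ?_⟩
    apply mon_in_W Z G z (q1 + q2) F
    · intro a k j
      exact hsup _ _ (le_trans (hq1 a k j) (by omega))
    · exact hF
    · have : (1 : Z → ℂ) = ∑ j, G (F1 j) * z j := hF1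
      rw [this]
      apply Submodule.sum_mem
      intro j _
      exact pol_mem Z G z _ _ (hsup _ _ (le_trans (hq2 j) (by omega))) j
  have hup2 : ∀ r, Module.finrank ℂ (polyOn Z r) ≤ (q * (r + 1) + 1) ^ s * M := by
    intro r
    refine le_trans ?_ (finrank_Wsp Z G z (q * (r + 1)))
    apply Submodule.finrank_mono
    rw [polyOn_span]
    apply Submodule.span_le.2
    rintro w ⟨m, hm, rfl⟩
    have hm' : m.degree ≤ r := hm
    exact Wsp_mono Z G z (Nat.mul_le_mul le_rfl (by omega)) (hup m.degree m rfl)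
  refine ⟨(1 / (((q0 + 1) * (s + 1) : ℕ) : ℝ)) ^ s, ((q : ℝ) + 1) ^ s * M + 1, by positivity, by positivity, ?_⟩
  intro r
  constructor
  · set K : ℕ := (q0 + 1) * (s + 1) with hK
    have hKpos : 0 < K := by positivity
    have h1 := hlow r (r / K) (Nat.mul_div_le r K)
    have h2 : ((r : ℝ) + 1) ≤ K * ((r / K : ℕ) + 1) := by
      have h3 : r + 1 ≤ K * (r / K + 1) := by
        have := Nat.lt_mul_div_succ r hKpos
        omega
      exact_mod_cast h3
    have hKR : (0 : ℝ) < K := by exact_mod_cast hKpos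
    calc (1 / (K : ℝ)) ^ s * ((r : ℝ) + 1) ^ s = (((r : ℝ) + 1) / K) ^ s := by
          rw [← mul_pow]; congr 1; ring
      _ ≤ (((r / K : ℕ) : ℝ) + 1) ^ s := by
          apply pow_le_pow_left₀ (by positivity)
          rw [div_le_iff₀ hKR]
          linarith
      _ ≤ (Module.finrank ℂ (polyOn Z r) : ℝ) := by exact_mod_cast h1
  · have h1 := hup2 r
    calc (Module.finrank ℂ (polyOn Z r) : ℝ) ≤ (((q * (r + 1) + 1) ^ s * M : ℕ) : ℝ) := by exact_mod_cast h1
      _ = ((q : ℝ) * (r + 1) + 1) ^ s * M := by push_cast; ring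
      _ ≤ (((q : ℝ) + 1) * (r + 1)) ^ s * M := by
          apply mul_le_mul_of_nonneg_right _ (by positivity)
          apply pow_le_pow_left₀ (by positivity)
          nlinarith [Nat.cast_nonneg (α := ℝ) r]
      _ = (((q : ℝ) + 1) ^ s * M) * ((r : ℝ) + 1) ^ s := by rw [mul_pow]; ring
      _ ≤ (((q : ℝ) + 1) ^ s * M + 1) * ((r : ℝ) + 1) ^ s := by
          apply mul_le_mul_of_nonneg_right _ (by positivity)
          linarith

end Pool.Agent.H847.CG.HIL
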