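import Pool.Agent.H847.CG.Stm3
import Pool.Agent.H847.CG.Char
import Pool.Agent.H847.CG.HIL
import Pool.Agent.H847.CG.FIX

/-! The growth law, with the meaning of the exponent. -/

set_option linter.unusedSectionVars false

open MeasureTheory Matrix

namespace Pool.Agent.H847.CG.GROW2

theorem main (h1 : S_UP) (h2 : S_DOWN) (h3 : S_MON) (h4 : S_DIM) : S_GROW2 := by
  intro B _ _ Γ hΓ
  obtain ⟨D, c₀, C₀, hc₀, hC₀, hHIL⟩ := HIL.main (B × B)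
    (Set.range fun (g : Γ.G) (p : B × B) => Γ.ρ g p.1 p.2) (Set.range_nonempty _)
  have hlow : ∀ r : ℕ, c₀ * ((r : ℝ) + 1) ^ D ≤ Module.finrank ℂ (Γ.coef r) := by
    intro r
    rw [(h4 B Γ hΓ r).2.1]
    exact (hHIL r).1
  have hupp : ∀ r : ℕ, (Module.finrank ℂ (Γ.coef r) : ℝ) ≤ C₀ * ((r : ℝ) + 1) ^ D := by
    intro r
    rw [(h4 B Γ hΓ r).2.1]
    exact (hHIL r).2
  obtain ⟨C₁, hC₁⟩ := h1 B Γ hΓ D c₀ hc₀ hlow
  obtain ⟨c₁, hc₁, hc₁'⟩ := h2 B Γ hΓ D C₀ C₁ hC₀ hupp hC₁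
  have hC₁0 : 0 < C₁ := hc₁.trans_le ((hc₁' 0).trans (hC₁ 0))
  have hb1 : 1 ≤ Fintype.card B := hΓ.card_pos
  set b : ℝ := (Fintype.card B : ℝ) with hb
  have hb1' : (1 : ℝ) ≤ b := by
    rw [hb]
    exact_mod_cast hb1
  have hb0 : 0 < b := by linarith
  have hs : ∀ m : ℕ, (Γ.s (2 * m) : ℝ) = b ^ (2 * m) * Γ.mom m := fun m =>
    hΓ.s_real FIX.main (2 * m)
  have hmono : ∀ a k : ℕ, Γ.s a ≤ Γ.s (a + k) := by
    intro a k
    induction k with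
    | zero => exact le_rfl
    | succ k ih => exact ih.trans (h3 B Γ hΓ (a + k)).2.1
  have hmono' : ∀ {a k : ℕ}, a ≤ k → (Γ.s a : ℝ) ≤ Γ.s k := by
    intro a k hak
    obtain ⟨j, rfl⟩ := Nat.exists_eq_add_of_le hak
    exact_mod_cast hmono a j
  refine ⟨D, min (c₁ / b ^ 2) c₀, max (2 ^ D * C₁ * b ^ 2) C₀, lt_min (by positivity) hc₀,
    lt_max_of_lt_right hC₀, fun n => ⟨le_trans (mul_le_mul_of_nonneg_right (min_le_left _ _)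
      (by positivity)) ?_, le_trans ?_ (mul_le_mul_of_nonneg_right (le_max_left _ _)
      (by positivity)), le_trans (mul_le_mul_of_nonneg_right (min_le_right _ _)
      (by positivity)) ?_, le_trans ?_ (mul_le_mul_of_nonneg_right (le_max_right _ _)
      (by positivity))⟩⟩
  · obtain ⟨m, hm1, hm2⟩ : ∃ m : ℕ, 2 * m ≤ n ∧ n ≤ 2 * m + 1 := ⟨n / 2, by omega, by omega⟩
    have e1 : (b ^ n) ^ 2 ≤ b ^ 2 * (b ^ (2 * m)) ^ 2 := by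
      rw [← pow_mul, ← pow_mul, ← pow_add]
      exact pow_le_pow_right₀ hb1' (by omega)
    have e2 : (Γ.s (2 * m) : ℝ) ^ 2 * ((m : ℝ) + 1) ^ D ≤ (Γ.s n : ℝ) ^ 2 * ((n : ℝ) + 1) ^ D := by
      have : (m : ℝ) ≤ n := by
        have : m ≤ n := by omega
        exact_mod_cast this
      have := hmono' hm1
      gcongr
    have e3 : c₁ * (b ^ (2 * m)) ^ 2 ≤ (Γ.s (2 * m) : ℝ) ^ 2 * ((m : ℝ) + 1) ^ D := by
      rw [hs]
      have := hc₁' m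
      calc c₁ * (b ^ (2 * m)) ^ 2 ≤ (Γ.mom m ^ 2 * ((m : ℝ) + 1) ^ D) * (b ^ (2 * m)) ^ 2 := by
            gcongr
        _ = _ := by ring
    calc c₁ / b ^ 2 * (b ^ n) ^ 2 ≤ c₁ / b ^ 2 * (b ^ 2 * (b ^ (2 * m)) ^ 2) := by gcongr
      _ = c₁ * (b ^ (2 * m)) ^ 2 := by field_simp
      _ ≤ _ := e3.trans e2
  · obtain ⟨m, hm1, hm2⟩ : ∃ m : ℕ, n ≤ 2 * m ∧ 2 * m ≤ n + 1 := ⟨(n + 1) / 2, by omega, by omega⟩
    have e1 : (b ^ (2 * m)) ^ 2 ≤ b ^ 2 * (b ^ n) ^ 2 := by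
      rw [← pow_mul, ← pow_mul, ← pow_add]
      exact pow_le_pow_right₀ hb1' (by omega)
    have e2 : (Γ.s n : ℝ) ^ 2 * ((n : ℝ) + 1) ^ D ≤
        (Γ.s (2 * m) : ℝ) ^ 2 * (2 * ((m : ℝ) + 1)) ^ D := by
      have h5 : (n : ℝ) + 1 ≤ 2 * ((m : ℝ) + 1) := by
        have : (n : ℝ) ≤ 2 * m := by exact_mod_cast hm1
        linarith
      have := hmono' hm1
      gcongr
    calc (Γ.s n : ℝ) ^ 2 * ((n : ℝ) + 1) ^ D
        ≤ (Γ.s (2 * m) : ℝ) ^ 2 * (2 * ((m : ℝ) + 1)) ^ D := e2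
      _ = (b ^ (2 * m)) ^ 2 * (2 ^ D * (Γ.mom m ^ 2 * ((m : ℝ) + 1) ^ D)) := by
          rw [hs, mul_pow 2]
          ring
      _ ≤ (b ^ 2 * (b ^ n) ^ 2) * (2 ^ D * C₁) := by
          have := hC₁ m
          gcongr
      _ = _ := by ring
  · rw [(h4 B Γ hΓ n).1]
    exact hlow n
  · rw [(h4 B Γ hΓ n).1]
    exact hupp n

end Pool.Agent.H847.CG.GROW2
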