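import Pool.Agent.H847.CG.Stm2
import Pool.Agent.H847.CG.Char
import Pool.Agent.H847.CG.BER
import Pool.Agent.H847.CG.FIX

/-!
# Growth of invariant tensors of compact groups: LOW
-/

open MeasureTheory Matrix
open scoped ComplexOrder

namespace Pool.Agent.H847.CG.LOW

theorem integrable_cont {B : Type} [Fintype B] [DecidableEq B] (Γ : CGrp B) {f : Γ.G → ℝ}
    (hf : Continuous f) : Integrable f Γ.μ :=
  hf.integrable_of_hasCompactSupport (HasCompactSupport.of_compactSpace f)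

theorem integrable_contC {B : Type} [Fintype B] [DecidableEq B] (Γ : CGrp B) {f : Γ.G → ℂ}
    (hf : Continuous f) : Integrable f Γ.μ :=
  hf.integrable_of_hasCompactSupport (HasCompactSupport.of_compactSpace f)

theorem main (h1 : S_KEY) (h2 : S_STEP) : S_LOW := by
  intro B _ _ Γ hΓ r m J _ _ t hm
  obtain ⟨T, P, hP, htr, hbd, hdim, hT⟩ := h1 B Γ r (2 * m) J t
  refine ⟨T, ?_, fun x hx => (hT x).1 hx⟩
  set q : ℕ := Module.finrank ℂ (Γ.orb r t) with hq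
  set b : ℝ := (Fintype.card B : ℝ) with hb
  have hb0 : 0 < b := by rw [hb]; exact_mod_cast hΓ.card_pos
  have hs := hΓ.s_real FIX.main (2 * m)
  have hstep := h2 B Γ hΓ m
  have hmom : 0 ≤ Γ.mom m := by
    unfold CGrp.mom
    refine integral_nonneg fun g => ?_
    rw [pow_mul]
    exact pow_nonneg (sq_nonneg _) _
  -- the dimension as a real integral
  have hcf : Continuous fun g => Γ.χ g ^ (2 * m) * star ((P * tpw r (Γ.ρ g)).trace) := by
    refine (Γ.cont_χ.pow _).mul (Continuous.star ?_)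
    exact (continuous_const.mul ((continuous_tpw r).comp Γ.cont)).matrix_trace
  have hdimR : (Module.finrank ℂ T : ℝ) =
      ∫ g, (Γ.χ g ^ (2 * m) * star ((P * tpw r (Γ.ρ g)).trace)).re ∂Γ.μ := by
    have h3 := congrArg Complex.re hdim
    rw [Complex.natCast_re] at h3
    rw [h3]
    have h4 := Complex.reCLM.integral_comp_comm (integrable_contC Γ hcf)
    simp only [Complex.reCLM_apply] at h4
    exact h4.symm
  have hqP : P.trace.re = q := by rw [htr, Complex.natCast_re]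
  -- the pointwise inequality
  have hpt : ∀ g, (q : ℝ) * b ^ (2 * m) * Γ.y g ^ (2 * m) -
      (q : ℝ) * (r : ℝ) ^ 2 * (b ^ 2 / 2) * b ^ (2 * m) *
        (Γ.y g ^ (2 * m) - Γ.y g ^ (2 * (m + 1))) ≤
      (Γ.χ g ^ (2 * m) * star ((P * tpw r (Γ.ρ g)).trace)).re := by
    intro g
    have h3 := BER.main B r P (Γ.ρ g) hP (Γ.unit g)
    have h4 : Γ.χ g ^ (2 * m) = ((b ^ (2 * m) * Γ.y g ^ (2 * m) : ℝ) : ℂ) := by
      rw [← mul_pow, CGrp.y, ← hb, mul_div_cancel₀ _ hb0.ne', Complex.ofReal_pow, ← hΓ.χ_eq]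
    rw [h4, Complex.re_ofReal_mul, Complex.star_def, Complex.conj_re]
    have h5 : 0 ≤ b ^ (2 * m) * Γ.y g ^ (2 * m) := by
      rw [pow_mul (Γ.y g)]
      positivity
    have h6 := hΓ.sub_le g
    rw [← hb] at h6
    rw [hqP] at h3
    have h7 : (q : ℝ) * (1 - (r : ℝ) ^ 2 * (b ^ 2 / 2 * (1 - Γ.y g ^ 2))) ≤
        (P * tpw r (Γ.ρ g)).trace.re := by
      refine le_trans ?_ h3
      apply mul_le_mul_of_nonneg_left _ (Nat.cast_nonneg _)
      have h8 : (r : ℝ) ^ 2 * (b - (Γ.ρ g).trace.re) ≤ (r : ℝ) ^ 2 * (b ^ 2 / 2 * (1 - Γ.y g ^ 2)) :=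
        mul_le_mul_of_nonneg_left h6 (sq_nonneg _)
      linarith
    have h9 := mul_le_mul_of_nonneg_left h7 h5
    refine le_trans (le_of_eq ?_) h9
    rw [show 2 * (m + 1) = 2 * m + 2 by ring, pow_add (Γ.y g)]
    ring
  have hcy := hΓ.cont_y
  have hint1 : Integrable (fun g => Γ.y g ^ (2 * m)) Γ.μ := integrable_cont Γ (hcy.pow _)
  have hint2 : Integrable (fun g => Γ.y g ^ (2 * (m + 1))) Γ.μ := integrable_cont Γ (hcy.pow _)
  have hint3 : Integrable (fun g => Γ.y g ^ (2 * m) - Γ.y g ^ (2 * (m + 1))) Γ.μ :=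
    hint1.sub hint2
  have hle : ∫ g, ((q : ℝ) * b ^ (2 * m) * Γ.y g ^ (2 * m) -
      (q : ℝ) * (r : ℝ) ^ 2 * (b ^ 2 / 2) * b ^ (2 * m) *
        (Γ.y g ^ (2 * m) - Γ.y g ^ (2 * (m + 1)))) ∂Γ.μ ≤ (Module.finrank ℂ T : ℝ) := by
    rw [hdimR]
    apply integral_mono
    · exact (hint1.const_mul _).sub (hint3.const_mul _)
    · exact integrable_cont Γ (Complex.continuous_re.comp hcf)
    · exact hpt
  rw [integral_sub (hint1.const_mul _) (hint3.const_mul _), integral_const_mul,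
    integral_const_mul, integral_sub hint1 hint2] at hle
  change (q : ℝ) * b ^ (2 * m) * Γ.mom m - (q : ℝ) * (r : ℝ) ^ 2 * (b ^ 2 / 2) * b ^ (2 * m) *
    (Γ.mom m - Γ.mom (m + 1)) ≤ _ at hle
  change (Γ.s (2 * m) : ℝ) = b ^ (2 * m) * Γ.mom m at hs
  -- the numerical conclusion
  have hm0 : (0 : ℝ) < (m : ℝ) + 1 := by positivity
  have hkey : (r : ℝ) ^ 2 * (b ^ 2 / 2) * (Γ.mom m - Γ.mom (m + 1)) ≤ Γ.mom m / 2 := by
    have h3 : ((m : ℝ) + 1) * ((r : ℝ) ^ 2 * (b ^ 2 / 2) * (Γ.mom m - Γ.mom (m + 1))) ≤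
        ((m : ℝ) + 1) * (Γ.mom m / 2) := by
      calc ((m : ℝ) + 1) * ((r : ℝ) ^ 2 * (b ^ 2 / 2) * (Γ.mom m - Γ.mom (m + 1)))
          = (r : ℝ) ^ 2 * (b ^ 2 / 2) * (((m : ℝ) + 1) * (Γ.mom m - Γ.mom (m + 1))) := by ring
        _ ≤ (r : ℝ) ^ 2 * (b ^ 2 / 2) * (b ^ 2 * Γ.mom m) :=
            mul_le_mul_of_nonneg_left hstep (by positivity)
        _ = ((r : ℝ) ^ 2 * b ^ 4) * (Γ.mom m / 2) := by ring
        _ ≤ ((m : ℝ) + 1) * (Γ.mom m / 2) := mul_le_mul_of_nonneg_right hm (by positivity)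
    exact le_of_mul_le_mul_left h3 hm0
  have hfin : (q : ℝ) * Γ.s (2 * m) ≤ 2 * (Module.finrank ℂ T : ℝ) := by
    have h3 : (q : ℝ) * b ^ (2 * m) * ((r : ℝ) ^ 2 * (b ^ 2 / 2) * (Γ.mom m - Γ.mom (m + 1))) ≤
        (q : ℝ) * b ^ (2 * m) * (Γ.mom m / 2) :=
      mul_le_mul_of_nonneg_left hkey (by positivity)
    rw [hs]
    nlinarith [h3, hle]
  exact_mod_cast hfin

end Pool.Agent.H847.CG.LOW
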