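import Pool.Agent.H847.CG.Stm

/-!
# Leaf SPH of the project CG of helper847 (written by helper717)
-/

open MeasureTheory
open scoped BigOperators

namespace Pool.Agent.H847.CG.SPH

section CS

variable {Ω : Type} [MeasurableSpace Ω] {μ : Measure Ω} [IsProbabilityMeasure μ]

/-- The matrix of the moments of a family of vector functions. -/
noncomputable def mom (μ : Measure Ω) {W K : Type} [Fintype K] (f : K → Ω → W → ℂ) (I J : W) : ℂ :=
  ∑ k, ∫ x, f k x I * star (f k x J) ∂μ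

lemma integrable_bdd {f : Ω → ℂ} (hf : Measurable f) {C : ℝ} (hC : ∀ x, ‖f x‖ ≤ C) :
    Integrable f μ :=
  Integrable.of_bound hf.aestronglyMeasurable C (Filter.Eventually.of_forall hC)

lemma key {W K L : Type} [Fintype W] [Fintype K] [Fintype L] (f : K → Ω → W → ℂ)
    (g : L → Ω → W → ℂ) (hf : ∀ k I, Measurable fun x => f k x I)
    (hg : ∀ l I, Measurable fun x => g l x I) {C : ℝ} (hfC : ∀ k x I, ‖f k x I‖ ≤ C)
    (hgC : ∀ l x I, ‖g l x I‖ ≤ C) :
    ∑ I, ∑ J, mom μ f I J * star (mom μ g I J) =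
      ((∫ x, ∫ y, ∑ k, ∑ l, ‖ipr (g l y) (f k x)‖ ^ 2 ∂μ ∂μ : ℝ) : ℂ) := by
  have hpt : ∀ x y, ((∑ k, ∑ l, ‖ipr (g l y) (f k x)‖ ^ 2 : ℝ) : ℂ) =
      ∑ k, ∑ l, ∑ I, ∑ J, (f k x I * star (f k x J)) * (star (g l y I) * g l y J) := by
    intro x y
    push_cast
    refine Finset.sum_congr rfl fun k _ => Finset.sum_congr rfl fun l _ => ?_
    rw [← Complex.mul_conj']
    unfold ipr
    rw [map_sum, Finset.sum_mul_sum]
    refine Finset.sum_congr rfl fun I _ => Finset.sum_congr rfl fun J _ => ?_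
    simp only [map_mul, Complex.star_def, Complex.conj_conj]
    ring
  have hprodf : ∀ k I J, Integrable (fun x => f k x I * star (f k x J)) μ := by
    intro k I J
    refine integrable_bdd (C := C * C)
      ((hf k I).mul (continuous_star.measurable.comp (hf k J))) ?_
    intro x
    rw [norm_mul, norm_star]
    have h1 := hfC k x I
    have h2 := hfC k x J
    have h0 := norm_nonneg (f k x I)
    have h0' := norm_nonneg (f k x J)
    nlinarith
  have hprodg : ∀ l I J, Integrable (fun x => star (g l x I) * g l x J) μ := by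
    intro k I J
    refine integrable_bdd (C := C * C)
      ((continuous_star.measurable.comp (hg k I)).mul (hg k J)) ?_
    intro x
    rw [norm_mul, norm_star]
    have h1 := hgC k x I
    have h2 := hgC k x J
    have h0 := norm_nonneg (g k x I)
    have h0' := norm_nonneg (g k x J)
    nlinarith
  rw [← integral_complex_ofReal]
  have h1 : ∀ x, ((∫ y, ∑ k, ∑ l, ‖ipr (g l y) (f k x)‖ ^ 2 ∂μ : ℝ) : ℂ) =
      ∑ k, ∑ l, ∑ I, ∑ J, (f k x I * star (f k x J)) * ∫ y, star (g l y I) * g l y J ∂μ := by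
    intro x
    rw [← integral_complex_ofReal]
    simp_rw [hpt]
    rw [integral_finsetSum _ (fun k _ => integrable_finsetSum _ fun l _ =>
      integrable_finsetSum _ fun I _ => integrable_finsetSum _ fun J _ =>
        (hprodg l I J).const_mul _)]
    refine Finset.sum_congr rfl fun k _ => ?_
    rw [integral_finsetSum _ (fun l _ =>
      integrable_finsetSum _ fun I _ => integrable_finsetSum _ fun J _ =>
        (hprodg l I J).const_mul _)]
    refine Finset.sum_congr rfl fun l _ => ?_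
    rw [integral_finsetSum _ (fun I _ => integrable_finsetSum _ fun J _ =>
        (hprodg l I J).const_mul _)]
    refine Finset.sum_congr rfl fun I _ => ?_
    rw [integral_finsetSum _ (fun J _ => (hprodg l I J).const_mul _)]
    refine Finset.sum_congr rfl fun J _ => ?_
    rw [integral_const_mul]
  simp_rw [h1]
  rw [integral_finsetSum _ (fun k _ => integrable_finsetSum _ fun l _ =>
      integrable_finsetSum _ fun I _ => integrable_finsetSum _ fun J _ =>
        (hprodf k I J).mul_const _)]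
  have h2 : ∀ k, ∫ x, ∑ l, ∑ I, ∑ J, (f k x I * star (f k x J)) *
      ∫ y, star (g l y I) * g l y J ∂μ ∂μ =
      ∑ l, ∑ I, ∑ J, (∫ x, f k x I * star (f k x J) ∂μ) * ∫ y, star (g l y I) * g l y J ∂μ := by
    intro k
    rw [integral_finsetSum _ (fun l _ =>
      integrable_finsetSum _ fun I _ => integrable_finsetSum _ fun J _ =>
        (hprodf k I J).mul_const _)]
    refine Finset.sum_congr rfl fun l _ => ?_
    rw [integral_finsetSum _ (fun I _ => integrable_finsetSum _ fun J _ =>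
        (hprodf k I J).mul_const _)]
    refine Finset.sum_congr rfl fun I _ => ?_
    rw [integral_finsetSum _ (fun J _ => (hprodf k I J).mul_const _)]
    refine Finset.sum_congr rfl fun J _ => ?_
    rw [integral_mul_const]
  simp_rw [h2]
  have h3 : ∀ l I J, ∫ y, star (g l y I) * g l y J ∂μ = star (∫ y, g l y I * star (g l y J) ∂μ) := by
    intro l I J
    rw [Complex.star_def, ← integral_conj]
    refine integral_congr_ae (Filter.Eventually.of_forall fun y => ?_)
    simp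
  simp_rw [h3]
  unfold mom
  -- reorder the sums
  have h4 : ∀ I J, (∑ k, ∫ x, f k x I * star (f k x J) ∂μ) *
      star (∑ l, ∫ x, g l x I * star (g l x J) ∂μ) =
      ∑ k, ∑ l, (∫ x, f k x I * star (f k x J) ∂μ) * star (∫ x, g l x I * star (g l x J) ∂μ) := by
    intro I J
    rw [star_sum, Finset.sum_mul_sum]
  simp_rw [h4]
  calc _ = ∑ I, ∑ k, ∑ J, ∑ l, (∫ x, f k x I * star (f k x J) ∂μ) *
            star (∫ x, g l x I * star (g l x J) ∂μ) := by
        refine Finset.sum_congr rfl fun I _ => ?_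
        rw [Finset.sum_comm]
    _ = ∑ k, ∑ I, ∑ J, ∑ l, (∫ x, f k x I * star (f k x J) ∂μ) *
            star (∫ x, g l x I * star (g l x J) ∂μ) := Finset.sum_comm
    _ = _ := by
        refine Finset.sum_congr rfl fun k _ => ?_
        calc _ = ∑ I, ∑ l, ∑ J, (∫ x, f k x I * star (f k x J) ∂μ) *
                  star (∫ x, g l x I * star (g l x J) ∂μ) := by
              refine Finset.sum_congr rfl fun I _ => ?_
              rw [Finset.sum_comm]
          _ = _ := Finset.sum_comm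

lemma cs_fin {W : Type} [Fintype W] (A B : W → W → ℂ) :
    ‖∑ I, ∑ J, A I J * star (B I J)‖ ^ 2 ≤
      ‖∑ I, ∑ J, A I J * star (A I J)‖ * ‖∑ I, ∑ J, B I J * star (B I J)‖ := by
  have hself : ∀ A : W → W → ℂ, ‖∑ I, ∑ J, A I J * star (A I J)‖ = ∑ p : W × W, ‖A p.1 p.2‖ ^ 2 := by
    intro A
    have : ∑ I, ∑ J, A I J * star (A I J) = ((∑ p : W × W, ‖A p.1 p.2‖ ^ 2 : ℝ) : ℂ) := by
      rw [Fintype.sum_prod_type]
      push_cast
      refine Finset.sum_congr rfl fun I _ => Finset.sum_congr rfl fun J _ => ?_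
      rw [← Complex.mul_conj', Complex.star_def]
    rw [this, Complex.norm_real, Real.norm_of_nonneg (Finset.sum_nonneg fun _ _ => by positivity)]
  rw [hself, hself]
  have h1 : ‖∑ I, ∑ J, A I J * star (B I J)‖ ≤ ∑ p : W × W, ‖A p.1 p.2‖ * ‖B p.1 p.2‖ := by
    rw [Fintype.sum_prod_type]
    refine (norm_sum_le _ _).trans (Finset.sum_le_sum fun I _ => ?_)
    refine (norm_sum_le _ _).trans (Finset.sum_le_sum fun J _ => ?_)
    rw [norm_mul, norm_star]
  calc ‖∑ I, ∑ J, A I J * star (B I J)‖ ^ 2 ≤ (∑ p : W × W, ‖A p.1 p.2‖ * ‖B p.1 p.2‖) ^ 2 := by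
        gcongr
    _ ≤ _ := Finset.sum_mul_sq_le_sq_mul_sq _ _ _

/-- The Cauchy-Schwarz inequality for the moment matrices. -/
lemma cs {W K L : Type} [Fintype W] [Fintype K] [Fintype L] (f : K → Ω → W → ℂ)
    (g : L → Ω → W → ℂ) (hf : ∀ k I, Measurable fun x => f k x I)
    (hg : ∀ l I, Measurable fun x => g l x I) {C : ℝ} (hfC : ∀ k x I, ‖f k x I‖ ≤ C)
    (hgC : ∀ l x I, ‖g l x I‖ ≤ C) :
    (∫ x, ∫ y, ∑ k, ∑ l, ‖ipr (g l y) (f k x)‖ ^ 2 ∂μ ∂μ) ^ 2 ≤
      (∫ x, ∫ y, ∑ k, ∑ l, ‖ipr (f l y) (f k x)‖ ^ 2 ∂μ ∂μ) *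
      (∫ x, ∫ y, ∑ k, ∑ l, ‖ipr (g l y) (g k x)‖ ^ 2 ∂μ ∂μ) := by
  have h := cs_fin (mom μ f) (mom μ g)
  rw [key f g hf hg hfC hgC, key f f hf hf hfC hfC, key g g hg hg hgC hgC] at h
  rw [Complex.norm_real, Complex.norm_real, Complex.norm_real, Real.norm_eq_abs, sq_abs] at h
  rw [Real.norm_of_nonneg (integral_nonneg fun x => integral_nonneg fun y =>
    Finset.sum_nonneg fun _ _ => Finset.sum_nonneg fun _ _ => by positivity),
    Real.norm_of_nonneg (integral_nonneg fun x => integral_nonneg fun y =>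
    Finset.sum_nonneg fun _ _ => Finset.sum_nonneg fun _ _ => by positivity)] at h
  exact h

end CS

section Tensors

variable {I : Type} [Fintype I]

lemma ipr_prod {n : ℕ} (f g : Fin n → I → ℂ) :
    ipr (fun w : Fin n → I => ∏ k, f k (w k)) (fun w => ∏ k, g k (w k)) = ∏ k, ipr (f k) (g k) := by
  classical
  unfold ipr
  rw [Finset.prod_univ_sum]
  simp only [Fintype.piFinset_univ]
  refine Finset.sum_congr rfl fun w _ => ?_
  rw [star_prod, ← Finset.prod_mul_distrib]

variable [DecidableEq I]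

/-- The factors of `v^{⊗p} ⊗ e_i ⊗ v^{⊗(N-p)}`. -/
def fac {n : ℕ} (v : I → ℂ) (i : I) (p : Fin n) : Fin n → I → ℂ :=
  fun k l => if k = p then (if l = i then 1 else 0) else v l

/-- The vector `(N+1) P (v^{⊗N} ⊗ e_i)`. -/
def bb (n : ℕ) (v : I → ℂ) (i : I) : (Fin n → I) → ℂ :=
  fun w => ∑ p : Fin n, ∏ k, fac v i p k (w k)

/-- The tensor power. -/
def aa (n : ℕ) (v : I → ℂ) : (Fin n → I) → ℂ := fun w => ∏ k, v (w k)

lemma ipr_aa (n : ℕ) (v v' : I → ℂ) : ipr (aa n v) (aa n v') = ipr v v' ^ n := by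
  unfold aa
  rw [ipr_prod (fun _ => v) (fun _ => v')]
  simp

lemma ipr_sum_right {W S : Type} [Fintype W] [Fintype S] (f : W → ℂ) (g : S → W → ℂ) :
    ipr f (fun w => ∑ s, g s w) = ∑ s, ipr f (g s) := by
  unfold ipr
  simp_rw [Finset.mul_sum]
  rw [Finset.sum_comm]

lemma ipr_sum_left {W S : Type} [Fintype W] [Fintype S] (f : S → W → ℂ) (g : W → ℂ) :
    ipr (fun w => ∑ s, f s w) g = ∑ s, ipr (f s) g := by
  unfold ipr
  simp_rw [star_sum, Finset.sum_mul]
  rw [Finset.sum_comm]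

lemma ipr_e_right (v : I → ℂ) (i : I) : ipr v (fun l => if l = i then 1 else 0) = star (v i) := by
  unfold ipr
  simp

lemma ipr_e_left (v : I → ℂ) (i : I) : ipr (fun l => if l = i then 1 else 0) v = v i := by
  unfold ipr
  simp [apply_ite]

lemma prod_one {n : ℕ} (p : Fin (n + 1)) (a c : ℂ) :
    ∏ k : Fin (n + 1), (if k = p then a else c) = a * c ^ n := by
  rw [Fin.prod_univ_succAbove _ p]
  simp [Fin.succAbove_ne]

lemma prod_two {n : ℕ} (p q : Fin (n + 1)) (hpq : p ≠ q) (a b c : ℂ) :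
    ∏ k : Fin (n + 1), (if k = p then a else if k = q then b else c) = a * b * c ^ (n - 1) := by
  obtain ⟨q', rfl⟩ := Fin.exists_succAbove_eq hpq.symm
  rw [Fin.prod_univ_succAbove _ p]
  cases n with
  | zero => exact q'.elim0
  | succ n =>
    have : ∀ k : Fin (n + 1), (if p.succAbove k = p then a else
        if p.succAbove k = p.succAbove q' then b else c) = if k = q' then b else c := by
      intro k
      rw [if_neg (Fin.succAbove_ne _ _)]
      simp [Fin.succAbove_right_inj]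
    simp_rw [this]
    rw [prod_one]
    simp [mul_assoc]

lemma ipr_bb_aa (n : ℕ) (v v' : I → ℂ) (i : I) :
    ipr (bb (n + 1) v i) (aa (n + 1) v') = (n + 1) * (v' i * ipr v v' ^ n) := by
  have h : ∀ p : Fin (n + 1), ipr (fun w => ∏ k, fac v i p k (w k)) (aa (n + 1) v') =
      v' i * ipr v v' ^ n := by
    intro p
    unfold aa
    rw [ipr_prod (fac v i p) (fun _ => v'), ← prod_one p]
    refine Finset.prod_congr rfl fun k _ => ?_
    unfold fac
    by_cases hk : k = p
    · simp only [hk, if_true]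
      exact ipr_e_left v' i
    · simp only [hk, if_false]
  unfold bb
  rw [ipr_sum_left]
  simp_rw [h]
  simp

lemma ipr_bb_bb (n : ℕ) (v v' : I → ℂ) (i j : I) :
    ipr (bb (n + 1) v i) (bb (n + 1) v' j) =
      (n + 1) * ((if i = j then 1 else 0) * ipr v v' ^ n +
        n * (v' i * star (v j) * ipr v v' ^ (n - 1))) := by
  have h : ∀ p q : Fin (n + 1), ipr (fun w : Fin (n + 1) → I => ∏ k, fac v i p k (w k))
      (fun w : Fin (n + 1) → I => ∏ k, fac v' j q k (w k)) =
      if q = p then (if i = j then 1 else 0) * ipr v v' ^ n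
      else v' i * star (v j) * ipr v v' ^ (n - 1) := by
    intro p q
    rw [ipr_prod (fac v i p) (fac v' j q)]
    by_cases hpq : q = p
    · subst hpq
      rw [if_pos rfl, ← prod_one q]
      refine Finset.prod_congr rfl fun k _ => ?_
      unfold fac
      by_cases hk : k = q
      · simp only [hk, if_true]
        rw [ipr_e_left (fun l => if l = j then (1 : ℂ) else 0) i]
      · simp only [hk, if_false]
    · rw [if_neg hpq, ← prod_two p q (Ne.symm hpq)]
      refine Finset.prod_congr rfl fun k _ => ?_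
      unfold fac
      by_cases hk : k = p
      · have hkq : ¬ k = q := fun h => hpq (h.symm.trans hk)
        have hpq' : ¬ p = q := fun h => hpq h.symm
        simp only [hk, if_true, hpq', if_false]
        exact ipr_e_left v' i
      · by_cases hkq : k = q
        · simp only [hkq, if_true, if_neg hpq]
          exact ipr_e_right v j
        · simp only [hk, hkq, if_false]
  unfold bb
  rw [ipr_sum_left]
  simp_rw [ipr_sum_right, h]
  have h2 : ∀ p : Fin (n + 1), ∑ q : Fin (n + 1), (if q = p then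
      (if i = j then (1 : ℂ) else 0) * ipr v v' ^ n
      else v' i * star (v j) * ipr v v' ^ (n - 1)) =
      (if i = j then (1 : ℂ) else 0) * ipr v v' ^ n +
        n * (v' i * star (v j) * ipr v v' ^ (n - 1)) := by
    intro p
    rw [Fin.sum_univ_succAbove _ p]
    simp [Fin.succAbove_ne]
  simp_rw [h2]
  rw [Finset.sum_const, Finset.card_univ, Fintype.card_fin, nsmul_eq_mul]
  push_cast
  ring

/-- The norms. -/
lemma sum_bb_aa (n : ℕ) (v v' : I → ℂ) (hv' : ∑ i, ‖v' i‖ ^ 2 = 1) :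
    ∑ i, ‖ipr (bb (n + 1) v i) (aa (n + 1) v')‖ ^ 2 = ((n : ℝ) + 1) ^ 2 * ‖ipr v v'‖ ^ (2 * n) := by
  simp_rw [ipr_bb_aa, norm_mul, norm_pow, mul_pow]
  rw [← Finset.mul_sum]
  rw [← Finset.sum_mul, hv', one_mul, ← pow_mul, mul_comm n 2]
  congr 2
  have : ‖((n : ℂ) + 1)‖ = (n : ℝ) + 1 := by
    rw [show ((n : ℂ) + 1) = (((n : ℝ) + 1 : ℝ) : ℂ) by push_cast; ring, Complex.norm_real,
      Real.norm_of_nonneg (by positivity)]
  exact this

lemma sum_bb_bb (n : ℕ) (v v' : I → ℂ) (hv : ∑ i, ‖v i‖ ^ 2 = 1) (hv' : ∑ i, ‖v' i‖ ^ 2 = 1) :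
    ∑ i, ∑ j, ‖ipr (bb (n + 1) v i) (bb (n + 1) v' j)‖ ^ 2 =
      ((n : ℝ) + 1) ^ 2 * ((Fintype.card I + 2 * n) * ‖ipr v v'‖ ^ (2 * n) +
        (n : ℝ) ^ 2 * ‖ipr v v'‖ ^ (2 * (n - 1))) := by
  have hn : ‖((n : ℂ) + 1)‖ = (n : ℝ) + 1 := by
    rw [show ((n : ℂ) + 1) = (((n : ℝ) + 1 : ℝ) : ℂ) by push_cast; ring, Complex.norm_real,
      Real.norm_of_nonneg (by positivity)]
  simp_rw [ipr_bb_bb, norm_mul, mul_pow, hn]
  simp_rw [← Finset.mul_sum]
  congr 1
  set c := ipr v v' with hc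
  -- `|x + y|² = |x|² + 2 Re (x conj y) + |y|²`
  have h1 : ∀ i j : I, ‖(if i = j then (1 : ℂ) else 0) * c ^ n +
      n * (v' i * star (v j) * c ^ (n - 1))‖ ^ 2 =
      (if i = j then ‖c‖ ^ (2 * n) else 0) +
      (if i = j then 2 * (n * (c ^ n * star (v' i * star (v j) * c ^ (n - 1)))).re else 0) +
      (n : ℝ) ^ 2 * (‖c‖ ^ (2 * (n - 1)) * (‖v' i‖ ^ 2 * ‖v j‖ ^ 2)) := by
    intro i j
    have hy : ‖(n : ℂ) * (v' i * star (v j) * c ^ (n - 1))‖ ^ 2 =
        (n : ℝ) ^ 2 * (‖c‖ ^ (2 * (n - 1)) * (‖v' i‖ ^ 2 * ‖v j‖ ^ 2)) := by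
      rw [norm_mul, norm_mul, norm_mul, norm_pow, norm_star, Complex.norm_natCast]
      rw [mul_pow, mul_pow, mul_pow, ← pow_mul, mul_comm (n - 1) 2]
      ring
    by_cases hij : i = j
    · simp only [hij, if_true, one_mul] at hy ⊢
      rw [← hy]
      have := Complex.normSq_add (c ^ n) ((n : ℂ) * (v' j * star (v j) * c ^ (n - 1)))
      rw [Complex.normSq_eq_norm_sq, Complex.normSq_eq_norm_sq, Complex.normSq_eq_norm_sq] at this
      rw [this, norm_pow, ← pow_mul, mul_comm n 2]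
      have h3 : (c ^ n * (starRingEnd ℂ) ((n : ℂ) * (v' j * star (v j) * c ^ (n - 1)))) =
          (n * (c ^ n * star (v' j * star (v j) * c ^ (n - 1)))) := by
        rw [map_mul, Complex.conj_natCast]
        rw [Complex.star_def]
        ring
      rw [h3]
      ring
    · simp only [hij, if_false, zero_mul, zero_add]
      exact hy
  simp_rw [h1]
  simp_rw [Finset.sum_add_distrib]
  have hA : ∑ i : I, ∑ j : I, (if i = j then ‖c‖ ^ (2 * n) else 0) =
      Fintype.card I * ‖c‖ ^ (2 * n) := by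
    simp
  have hB : ∑ i : I, ∑ j : I, (if i = j then
      2 * (n * (c ^ n * star (v' i * star (v j) * c ^ (n - 1)))).re else 0) =
      2 * n * ‖c‖ ^ (2 * n) := by
    have : ∀ i : I, ∑ j : I, (if i = j then
      2 * (n * (c ^ n * star (v' i * star (v j) * c ^ (n - 1)))).re else 0) =
      2 * (n * (c ^ n * star (v' i * star (v i) * c ^ (n - 1)))).re := by
      intro i
      simp
    simp_rw [this]
    rw [← Finset.mul_sum, ← Complex.re_sum]
    have h5 : ∑ i, ((n : ℂ) * (c ^ n * star (v' i * star (v i) * c ^ (n - 1)))) =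
        ((n * ‖c‖ ^ (2 * n) : ℝ) : ℂ) := by
      have h6 : ∀ i, ((n : ℂ) * (c ^ n * star (v' i * star (v i) * c ^ (n - 1)))) =
          (n * (c ^ n * star (c ^ (n - 1)))) * star (star (v i) * v' i) := by
        intro i
        simp only [star_mul']
        ring
      simp_rw [h6]
      rw [← Finset.mul_sum, ← star_sum]
      change _ * star (ipr v v') = _
      rw [← hc]
      rcases Nat.eq_zero_or_pos n with h0 | h0
      · subst h0
        simp
      · have : (n : ℂ) * (c ^ n * star (c ^ (n - 1))) * star c = n * (c ^ n * star (c ^ n)) := by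
          rw [show c ^ n = c ^ (n - 1) * c by rw [← pow_succ]; congr 1; omega]
          simp only [star_mul']
          ring
        rw [this, Complex.star_def, Complex.mul_conj']
        push_cast
        rw [norm_pow]
        push_cast
        ring
    rw [h5]
    simp only [Complex.ofReal_re]
    ring
  have hC : ∑ i : I, ∑ j : I, (n : ℝ) ^ 2 * (‖c‖ ^ (2 * (n - 1)) * (‖v' i‖ ^ 2 * ‖v j‖ ^ 2)) =
      (n : ℝ) ^ 2 * ‖c‖ ^ (2 * (n - 1)) := by
    simp_rw [← Finset.mul_sum]
    rw [hv]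
    simp_rw [mul_one]
    rw [hv']
    ring
  rw [hA, hB, hC]
  ring

lemma norm_le_one_of_sum (v : I → ℂ) (hv : ∑ i, ‖v i‖ ^ 2 = 1) (i : I) : ‖v i‖ ≤ 1 := by
  have h := Finset.single_le_sum (f := fun i => ‖v i‖ ^ 2) (fun j _ => by positivity)
    (Finset.mem_univ i)
  rw [hv] at h
  have h2 : ‖v i‖ ^ 2 ≤ 1 := h
  nlinarith [norm_nonneg (v i)]

lemma fac_norm {n : ℕ} (v : I → ℂ) (hv : ∑ i, ‖v i‖ ^ 2 = 1) (i : I) (p k : Fin n) (l : I) :
    ‖fac v i p k l‖ ≤ 1 := by
  unfold fac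
  split_ifs
  · simp
  · simp
  · exact norm_le_one_of_sum v hv l

end Tensors

section Main

variable {Ω : Type} [MeasurableSpace Ω] {μ : Measure Ω} [IsProbabilityMeasure μ]
variable {I : Type} [Fintype I] [DecidableEq I]

/-- The moments. -/
noncomputable def am (μ : Measure Ω) (v : Ω → I → ℂ) (n : ℕ) : ℝ :=
  ∫ x, ∫ y, ‖ipr (v x) (v y)‖ ^ (2 * n) ∂μ ∂μ

lemma am_nonneg (v : Ω → I → ℂ) (n : ℕ) : 0 ≤ am μ v n :=
  integral_nonneg fun x => integral_nonneg fun y => by positivity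

lemma meas_ipr (v : Ω → I → ℂ) (hv : Measurable v) :
    Measurable fun p : Ω × Ω => ipr (v p.1) (v p.2) := by
  unfold ipr
  refine Finset.measurable_sum _ fun i _ => ?_
  exact (continuous_star.measurable.comp
    ((measurable_pi_apply i).comp (hv.comp measurable_fst))).mul
    ((measurable_pi_apply i).comp (hv.comp measurable_snd))

lemma ipr_norm_le (v w : I → ℂ) (hv : ∑ i, ‖v i‖ ^ 2 = 1) (hw : ∑ i, ‖w i‖ ^ 2 = 1) :
    ‖ipr v w‖ ≤ Fintype.card I := by
  unfold ipr
  refine (norm_sum_le _ _).trans ?_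
  calc ∑ i, ‖star (v i) * w i‖ ≤ ∑ i : I, (1 : ℝ) := by
        refine Finset.sum_le_sum fun i _ => ?_
        rw [norm_mul, norm_star]
        exact mul_le_one₀ (norm_le_one_of_sum v hv i) (norm_nonneg _)
          (norm_le_one_of_sum w hw i)
    _ = _ := by simp

lemma key_ineq (v : Ω → I → ℂ) (hv : Measurable v) (h1 : ∀ x, ∑ i, ‖v x i‖ ^ 2 = 1) (n : ℕ) :
    ((n : ℝ) + 1) ^ 2 * am μ v n ^ 2 ≤
      am μ v (n + 1) * ((Fintype.card I + 2 * n) * am μ v n + (n : ℝ) ^ 2 * am μ v (n - 1)) := by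
  have hvm : ∀ i, Measurable fun x => v x i := fun i => (measurable_pi_apply i).comp hv
  have haam : ∀ (_ : Unit) (w : Fin (n + 1) → I), Measurable fun x => aa (n + 1) (v x) w := by
    intro _ w
    unfold aa
    exact Finset.measurable_prod _ fun k _ => hvm (w k)
  have hbbm : ∀ (i : I) (w : Fin (n + 1) → I), Measurable fun x => bb (n + 1) (v x) i w := by
    intro i w
    unfold bb
    refine Finset.measurable_sum _ fun p _ => Finset.measurable_prod _ fun k _ => ?_
    unfold fac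
    by_cases hk : k = p
    · simp only [hk, if_true]
      exact measurable_const
    · simp only [hk, if_false]
      exact hvm _
  have haab : ∀ (_ : Unit) x (w : Fin (n + 1) → I), ‖aa (n + 1) (v x) w‖ ≤ (n : ℝ) + 1 := by
    intro _ x w
    unfold aa
    rw [norm_prod]
    calc ∏ k, ‖v x (w k)‖ ≤ 1 :=
          Finset.prod_le_one (fun _ _ => norm_nonneg _) fun k _ => norm_le_one_of_sum _ (h1 x) _
      _ ≤ _ := by linarith [Nat.cast_nonneg (α := ℝ) n]
  have hbbb : ∀ (i : I) x (w : Fin (n + 1) → I), ‖bb (n + 1) (v x) i w‖ ≤ (n : ℝ) + 1 := by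
    intro i x w
    unfold bb
    refine (norm_sum_le _ _).trans ?_
    calc ∑ p : Fin (n + 1), ‖∏ k, fac (v x) i p k (w k)‖ ≤ ∑ p : Fin (n + 1), (1 : ℝ) := by
          refine Finset.sum_le_sum fun p _ => ?_
          rw [norm_prod]
          exact Finset.prod_le_one (fun _ _ => norm_nonneg _) fun k _ => fac_norm _ (h1 x) _ _ _ _
      _ = _ := by simp
  have hcs := cs (μ := μ) (fun (_ : Unit) x => aa (n + 1) (v x)) (fun i x => bb (n + 1) (v x) i)
    haam hbbm haab hbbb
  simp only [Finset.univ_unique, Finset.sum_singleton] at hcs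
  have e1 : ∀ x y, ∑ l, ‖ipr (bb (n + 1) (v y) l) (aa (n + 1) (v x))‖ ^ 2 =
      ((n : ℝ) + 1) ^ 2 * ‖ipr (v x) (v y)‖ ^ (2 * n) := by
    intro x y
    rw [sum_bb_aa n (v y) (v x) (h1 x)]
    congr 2
    have : ipr (v y) (v x) = star (ipr (v x) (v y)) := by
      unfold ipr
      rw [star_sum]
      refine Finset.sum_congr rfl fun i _ => ?_
      simp [mul_comm]
    rw [this, norm_star]
  have e2 : ∀ x y, ‖ipr (aa (n + 1) (v y)) (aa (n + 1) (v x))‖ ^ 2 =
      ‖ipr (v x) (v y)‖ ^ (2 * (n + 1)) := by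
    intro x y
    rw [ipr_aa, norm_pow, ← pow_mul, mul_comm (n + 1) 2]
    congr 1
    have : ipr (v y) (v x) = star (ipr (v x) (v y)) := by
      unfold ipr
      rw [star_sum]
      refine Finset.sum_congr rfl fun i _ => ?_
      simp [mul_comm]
    rw [this, norm_star]
  have e3 : ∀ x y, ∑ k, ∑ l, ‖ipr (bb (n + 1) (v y) l) (bb (n + 1) (v x) k)‖ ^ 2 =
      ((n : ℝ) + 1) ^ 2 * ((Fintype.card I + 2 * n) * ‖ipr (v x) (v y)‖ ^ (2 * n) +
        (n : ℝ) ^ 2 * ‖ipr (v x) (v y)‖ ^ (2 * (n - 1))) := by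
    intro x y
    rw [Finset.sum_comm, sum_bb_bb n (v y) (v x) (h1 y) (h1 x)]
    have : ipr (v y) (v x) = star (ipr (v x) (v y)) := by
      unfold ipr
      rw [star_sum]
      refine Finset.sum_congr rfl fun i _ => ?_
      simp [mul_comm]
    rw [this, norm_star]
  simp_rw [e1, e2, e3] at hcs
  -- integrate
  have hmeas : ∀ m : ℕ, Measurable fun p : Ω × Ω => ‖ipr (v p.1) (v p.2)‖ ^ (2 * m) :=
    fun m => (meas_ipr v hv).norm.pow_const _
  have hbd : ∀ (m : ℕ) (x y : Ω), ‖‖ipr (v x) (v y)‖ ^ (2 * m)‖ ≤ (Fintype.card I : ℝ) ^ (2 * m) := by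
    intro m x y
    rw [norm_pow, norm_norm]
    exact pow_le_pow_left₀ (norm_nonneg _) (ipr_norm_le _ _ (h1 x) (h1 y)) _
  have hint : ∀ (m : ℕ) (x : Ω), Integrable (fun y => ‖ipr (v x) (v y)‖ ^ (2 * m)) μ := by
    intro m x
    exact Integrable.of_bound ((hmeas m).comp (measurable_prodMk_left)).aestronglyMeasurable _
      (Filter.Eventually.of_forall fun y => hbd m x y)
  have hint2 : ∀ (m : ℕ), Integrable (fun x => ∫ y, ‖ipr (v x) (v y)‖ ^ (2 * m) ∂μ) μ := by
    intro m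
    have : Integrable (fun p : Ω × Ω => ‖ipr (v p.1) (v p.2)‖ ^ (2 * m)) (μ.prod μ) :=
      Integrable.of_bound (hmeas m).aestronglyMeasurable _
        (Filter.Eventually.of_forall fun p => hbd m p.1 p.2)
    exact this.integral_prod_left
  simp_rw [integral_const_mul] at hcs
  have e4 : ∫ x, ∫ y, ((Fintype.card I + 2 * n) * ‖ipr (v x) (v y)‖ ^ (2 * n) +
        (n : ℝ) ^ 2 * ‖ipr (v x) (v y)‖ ^ (2 * (n - 1))) ∂μ ∂μ =
      (Fintype.card I + 2 * n) * am μ v n + (n : ℝ) ^ 2 * am μ v (n - 1) := by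
    have : ∀ x, ∫ y, ((Fintype.card I + 2 * n) * ‖ipr (v x) (v y)‖ ^ (2 * n) +
        (n : ℝ) ^ 2 * ‖ipr (v x) (v y)‖ ^ (2 * (n - 1))) ∂μ =
        (Fintype.card I + 2 * n) * ∫ y, ‖ipr (v x) (v y)‖ ^ (2 * n) ∂μ +
        (n : ℝ) ^ 2 * ∫ y, ‖ipr (v x) (v y)‖ ^ (2 * (n - 1)) ∂μ := by
      intro x
      rw [integral_add ((hint n x).const_mul _) ((hint (n - 1) x).const_mul _),
        integral_const_mul, integral_const_mul]
    simp_rw [this]
    rw [integral_add ((hint2 n).const_mul _) ((hint2 (n - 1)).const_mul _),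
        integral_const_mul, integral_const_mul]
    rfl
  rw [e4] at hcs
  change (((n : ℝ) + 1) ^ 2 * am μ v n) ^ 2 ≤ am μ v (n + 1) * (((n : ℝ) + 1) ^ 2 * _) at hcs
  have hpos : (0 : ℝ) < ((n : ℝ) + 1) ^ 2 := by positivity
  have : ((n : ℝ) + 1) ^ 2 * (((n : ℝ) + 1) ^ 2 * am μ v n ^ 2) ≤ ((n : ℝ) + 1) ^ 2 *
      (am μ v (n + 1) * ((Fintype.card I + 2 * n) * am μ v n + (n : ℝ) ^ 2 * am μ v (n - 1))) := by
    calc _ = (((n : ℝ) + 1) ^ 2 * am μ v n) ^ 2 := by ring
      _ ≤ _ := hcs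
      _ = _ := by ring
  exact le_of_mul_le_mul_left this hpos

lemma main_aux (v : Ω → I → ℂ) (hv : Measurable v) (h1 : ∀ x, ∑ i, ‖v x i‖ ^ 2 = 1) (n : ℕ) :
    ((n : ℝ) + 1) * am μ v n ≤ (n + Fintype.card I) * am μ v (n + 1) := by
  induction n with
  | zero =>
    have h := key_ineq (μ := μ) v hv h1 0
    have h0 : am μ v 0 = 1 := by
      unfold am
      simp
    rw [h0] at h
    rw [h0]
    simp at h ⊢
    linarith
  | succ n ih =>
    have h := key_ineq (μ := μ) v hv h1 (n + 1)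
    simp only [Nat.add_sub_cancel] at h
    push_cast at h ⊢
    have hn : (0 : ℝ) ≤ n := Nat.cast_nonneg n
    have hc : (0 : ℝ) ≤ Fintype.card I := Nat.cast_nonneg _
    have ha := am_nonneg (μ := μ) v (n + 1)
    have ha' := am_nonneg (μ := μ) v (n + 2)
    rcases ha.eq_or_lt with h0 | h0
    · rw [← h0]
      simp
      positivity
    · have hb : (Fintype.card I + 2 * ((n : ℝ) + 1)) * am μ v (n + 1) +
          ((n : ℝ) + 1) ^ 2 * am μ v n ≤
          ((n : ℝ) + 1 + 1) * (n + 1 + Fintype.card I) * am μ v (n + 1) := by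
        nlinarith
      have h2 : ((n : ℝ) + 1 + 1) ^ 2 * am μ v (n + 1) ^ 2 ≤
          am μ v (n + 1 + 1) * (((n : ℝ) + 1 + 1) * (n + 1 + Fintype.card I) * am μ v (n + 1)) :=
        h.trans (mul_le_mul_of_nonneg_left hb ha')
      have h3 : (((n : ℝ) + 1 + 1) * am μ v (n + 1)) * (((n : ℝ) + 1 + 1) * am μ v (n + 1)) ≤
          (((n : ℝ) + 1 + 1) * am μ v (n + 1)) * ((n + 1 + Fintype.card I) * am μ v (n + 1 + 1)) := by
        calc _ = ((n : ℝ) + 1 + 1) ^ 2 * am μ v (n + 1) ^ 2 := by ring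
          _ ≤ _ := h2
          _ = _ := by ring
      exact le_of_mul_le_mul_left h3 (by positivity)

end Main

/-- The leaf SPH. -/
theorem main : S_SPH := by
  intro I _ Ω _ μ _ v hv h1 N
  classical
  exact main_aux v hv h1 N

end Pool.Agent.H847.CG.SPH
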