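import Pool.Agent.H847.CG.Stm2
import Pool.Agent.H847.CG.Char
import Pool.Agent.H847.CG.SPH

/-!
# STEP: step inequality for the moments of the character (by helper297, for helper847)
-/

set_option autoImplicit false

open MeasureTheory Matrix

namespace Pool.Agent.H847.CG.STEP

variable {B : Type} [Fintype B] [DecidableEq B]

/-- the normalised matrix entries. -/
noncomputable def vv (Γ : CGrp B) (g : Γ.G) (p : B × B) : ℂ :=
  Γ.ρ g p.1 p.2 * ((Real.sqrt (Fintype.card B))⁻¹ : ℝ)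

lemma meas_vv (Γ : CGrp B) : Measurable (vv Γ) := by
  refine measurable_pi_iff.2 fun p => ?_
  have h1 : Continuous fun g => vv Γ g p := by
    unfold vv
    refine Continuous.mul ?_ continuous_const
    exact (continuous_apply p.2).comp ((continuous_apply p.1).comp Γ.cont)
  exact h1.measurable

lemma rho_inv (Γ : CGrp B) (g : Γ.G) : Γ.ρ g⁻¹ = (Γ.ρ g)ᴴ := by
  have h1 : (Γ.ρ g)ᴴ * Γ.ρ g = 1 := mem_unitaryGroup_iff'.1 (Γ.unit g)
  have h2 : Γ.ρ g * Γ.ρ g⁻¹ = 1 := by rw [← map_mul, mul_inv_cancel, map_one]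
  calc Γ.ρ g⁻¹ = ((Γ.ρ g)ᴴ * Γ.ρ g) * Γ.ρ g⁻¹ := by rw [h1, Matrix.one_mul]
    _ = (Γ.ρ g)ᴴ * (Γ.ρ g * Γ.ρ g⁻¹) := Matrix.mul_assoc _ _ _
    _ = (Γ.ρ g)ᴴ := by rw [h2, Matrix.mul_one]

lemma ipr_vv {Γ : CGrp B} (hΓ : Good Γ) (g h : Γ.G) :
    ipr (vv Γ g) (vv Γ h) = (Γ.y (g⁻¹ * h) : ℂ) := by
  have hb : (0 : ℝ) < Fintype.card B := by exact_mod_cast hΓ.card_pos
  have h1 : ipr (vv Γ g) (vv Γ h) =
      (∑ p : B × B, star (Γ.ρ g p.1 p.2) * Γ.ρ h p.1 p.2) * ((Fintype.card B : ℝ)⁻¹ : ℝ) := by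
    unfold ipr vv
    rw [Finset.sum_mul]
    refine Finset.sum_congr rfl fun p _ => ?_
    have h2 : ((Real.sqrt (Fintype.card B))⁻¹ : ℝ) * ((Real.sqrt (Fintype.card B))⁻¹ : ℝ) =
        (Fintype.card B : ℝ)⁻¹ := by
      rw [← mul_inv, Real.mul_self_sqrt hb.le]
    rw [star_mul', ← h2]
    have h3 : star (((Real.sqrt (Fintype.card B))⁻¹ : ℝ) : ℂ) =
        (((Real.sqrt (Fintype.card B))⁻¹ : ℝ) : ℂ) := Complex.conj_ofReal _
    rw [h3, Complex.ofReal_mul]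
    ring
  have h2 : ∑ p : B × B, star (Γ.ρ g p.1 p.2) * Γ.ρ h p.1 p.2 = Γ.χ (g⁻¹ * h) := by
    unfold CGrp.χ
    rw [map_mul, rho_inv, trace, Fintype.sum_prod_type, Finset.sum_comm]
    refine Finset.sum_congr rfl fun i _ => ?_
    rw [diag_apply, Matrix.mul_apply]
    refine Finset.sum_congr rfl fun j _ => ?_
    rw [conjTranspose_apply]
  rw [h1, h2, hΓ.χ_eq, ← Complex.ofReal_mul]
  congr 1

lemma norm_vv {Γ : CGrp B} (hΓ : Good Γ) (g : Γ.G) : ∑ p, ‖vv Γ g p‖ ^ 2 = 1 := by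
  have hb : (0 : ℝ) < Fintype.card B := by exact_mod_cast hΓ.card_pos
  have h1 := ipr_vv hΓ g g
  have h2 : Γ.y (g⁻¹ * g) = 1 := by
    rw [inv_mul_cancel]
    unfold CGrp.y CGrp.χ
    rw [map_one, trace_one]
    simp only [Complex.natCast_re]
    exact div_self hb.ne'
  rw [h2] at h1
  unfold ipr at h1
  have h3 : ∀ p, star (vv Γ g p) * vv Γ g p = ((‖vv Γ g p‖ ^ 2 : ℝ) : ℂ) := by
    intro p
    rw [Complex.star_def, Complex.conj_mul', Complex.ofReal_pow]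
  rw [Finset.sum_congr rfl fun p _ => h3 p, ← Complex.ofReal_sum] at h1
  exact_mod_cast h1

lemma dint {Γ : CGrp B} (hΓ : Good Γ) (N : ℕ) :
    ∫ x, ∫ y, ‖ipr (vv Γ x) (vv Γ y)‖ ^ (2 * N) ∂Γ.μ ∂Γ.μ = Γ.mom N := by
  have h1 : ∀ x y : Γ.G, ‖ipr (vv Γ x) (vv Γ y)‖ ^ (2 * N) = Γ.y (x⁻¹ * y) ^ (2 * N) := by
    intro x y
    rw [ipr_vv hΓ, Complex.norm_real, Real.norm_eq_abs, pow_mul, pow_mul, sq_abs]
  simp only [h1]
  have h2 : ∀ x : Γ.G, ∫ y, Γ.y (x⁻¹ * y) ^ (2 * N) ∂Γ.μ = Γ.mom N := fun x =>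
    integral_mul_left_eq_self (μ := Γ.μ) (fun y => Γ.y y ^ (2 * N)) x⁻¹
  simp only [h2]
  rw [integral_const]
  simp

lemma int_pow {Γ : CGrp B} (hΓ : Good Γ) (N : ℕ) :
    Integrable (fun g => Γ.y g ^ (2 * N)) Γ.μ := by
  refine Integrable.of_bound ((hΓ.cont_y.pow _).measurable.aestronglyMeasurable) 1
    (Filter.Eventually.of_forall fun g => ?_)
  rw [pow_mul, Real.norm_of_nonneg (pow_nonneg (sq_nonneg _) _)]
  exact pow_le_one₀ (sq_nonneg _) (hΓ.y_bound g)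

lemma mom_nonneg (Γ : CGrp B) (N : ℕ) : 0 ≤ Γ.mom N := by
  unfold CGrp.mom
  refine integral_nonneg fun g => ?_
  show 0 ≤ Γ.y g ^ (2 * N)
  rw [pow_mul]
  exact pow_nonneg (sq_nonneg _) _

lemma mom_succ_le {Γ : CGrp B} (hΓ : Good Γ) (N : ℕ) : Γ.mom (N + 1) ≤ Γ.mom N := by
  unfold CGrp.mom
  refine integral_mono (int_pow hΓ (N + 1)) (int_pow hΓ N) fun g => ?_
  show Γ.y g ^ (2 * (N + 1)) ≤ Γ.y g ^ (2 * N)
  rw [pow_mul, pow_mul, pow_succ]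
  exact mul_le_of_le_one_right (pow_nonneg (sq_nonneg _) _) (hΓ.y_bound g)

theorem main : S_STEP := by
  intro B _ _ Γ hΓ N
  have h1 := SPH.main (B × B) Γ.G Γ.μ (vv Γ) (meas_vv Γ) (norm_vv hΓ) N
  rw [dint hΓ N, dint hΓ (N + 1), Fintype.card_prod, Nat.cast_mul] at h1
  have h2 := mom_nonneg Γ (N + 1)
  have h3 := mom_succ_le hΓ N
  have h4 : (0 : ℝ) ≤ (Fintype.card B : ℝ) ^ 2 := sq_nonneg _
  nlinarith

end Pool.Agent.H847.CG.STEP
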