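import Pool.Agent.H847.CG.Stm2
import Pool.Agent.H847.CG.Char
import Pool.Agent.H847.CG.FIX
import Pool.Agent.H847.CG.STEP

/-!
# MON: monotonicity of the numbers of the invariant tensors (by helper297, for helper847)
-/

set_option autoImplicit false
set_option linter.unusedSectionVars false

open MeasureTheory Matrix

namespace Pool.Agent.H847.CG.MON

variable {B : Type} [Fintype B] [DecidableEq B]

/-- the product with the vector `e` (in the first place). -/
noncomputable def te (e : B → ℂ) (n : ℕ) : ((Fin n → B) → ℂ) →ₗ[ℂ] ((Fin (n + 1) → B) → ℂ) where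
  toFun v := fun I => e (I 0) * v (Fin.tail I)
  map_add' v w := by
    funext I
    simp only [Pi.add_apply, mul_add]
  map_smul' c v := by
    funext I
    simp only [Pi.smul_apply, smul_eq_mul, RingHom.id_apply]
    ring

lemma te_apply (e : B → ℂ) (n : ℕ) (v : (Fin n → B) → ℂ) (I : Fin (n + 1) → B) :
    te e n v I = e (I 0) * v (Fin.tail I) := rfl

lemma tpw_te (g : Matrix B B ℂ) (e : B → ℂ) (n : ℕ) (v : (Fin n → B) → ℂ) :
    tpw (n + 1) g *ᵥ te e n v = te (g *ᵥ e) n (tpw n g *ᵥ v) := by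
  funext I
  rw [te_apply, mulVec, dotProduct, mulVec, dotProduct, mulVec, dotProduct,
    Finset.sum_mul_sum]
  rw [← Fintype.sum_prod_type' (f := fun (i : B) (j : Fin n → B) =>
    g (I 0) i * e i * (tpw n g (Fin.tail I) j * v j))]
  refine (Fintype.sum_equiv (Fin.consEquiv (fun _ : Fin (n + 1) => B)) _ _ ?_).symm
  rintro ⟨i, J⟩
  rw [te_apply, tpw_apply, tpw_apply, Fin.prod_univ_succ]
  simp only [Fin.consEquiv, Equiv.coe_fn_mk, Fin.cons_zero, Fin.cons_succ, Fin.tail_cons]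
  have h1 : ∏ x : Fin n, g (Fin.tail I x) (J x) = ∏ x : Fin n, g (I x.succ) (J x) := rfl
  rw [h1]
  ring

lemma te_inj {e : B → ℂ} (he : ∑ i, ‖e i‖ ^ 2 = 1) (n : ℕ) : Function.Injective (te e n) := by
  rw [← LinearMap.ker_eq_bot, LinearMap.ker_eq_bot']
  intro v hv
  obtain ⟨i, hi⟩ : ∃ i, e i ≠ 0 := by
    by_contra hcon
    push Not at hcon
    rw [Finset.sum_eq_zero fun i _ => by rw [hcon i]; simp] at he
    exact zero_ne_one he
  funext J
  have h1 := congrFun hv (Fin.cons i J)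
  rw [te_apply, Fin.cons_zero, Fin.tail_cons] at h1
  exact (mul_eq_zero.1 h1).resolve_left hi

lemma s_mono1 {Γ : CGrp B} (hΓ : Good Γ) (n : ℕ) : Γ.s n ≤ Γ.s (n + 1) := by
  obtain ⟨e, he, hfix⟩ := hΓ.vec
  have hmap : ∀ v ∈ Γ.inv' n, te e n v ∈ Γ.inv' (n + 1) := by
    intro v hv
    rw [CGrp.mem_inv] at hv ⊢
    intro g
    rw [tpw_te, hfix g, hv g]
  unfold CGrp.s
  exact LinearMap.finrank_le_finrank_of_injective
    (f := (te e n).restrict (p := Γ.inv' n) (q := Γ.inv' (n + 1)) hmap)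
    (fun a b hab => Subtype.ext (te_inj he n (congrArg Subtype.val hab)))

lemma s_mono {Γ : CGrp B} (hΓ : Good Γ) {m n : ℕ} (h : m ≤ n) : Γ.s m ≤ Γ.s n :=
  monotone_nat_of_le_succ (s_mono1 hΓ) h

lemma s_zero {Γ : CGrp B} (hΓ : Good Γ) : Γ.s 0 = 1 := by
  have h1 := hΓ.s_real FIX.main 0
  simp only [pow_zero, integral_const, one_mul] at h1
  simp at h1
  exact_mod_cast h1

lemma s_even {Γ : CGrp B} (hΓ : Good Γ) (m : ℕ) :
    (Γ.s (2 * m) : ℝ) = (Fintype.card B : ℝ) ^ (2 * m) * Γ.mom m := hΓ.s_real FIX.main (2 * m)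

lemma mom_anti {Γ : CGrp B} (hΓ : Good Γ) {m n : ℕ} (h : m ≤ n) : Γ.mom n ≤ Γ.mom m :=
  antitone_nat_of_succ_le (fun k => STEP.mom_succ_le hΓ k) h

theorem main : S_MON := by
  intro B _ _ Γ hΓ n
  have hb : 1 ≤ Fintype.card B := hΓ.card_pos
  refine ⟨?_, s_mono1 hΓ n, fun r => ?_⟩
  · have h1 := s_mono hΓ (Nat.zero_le n)
    rw [s_zero hΓ] at h1
    exact h1
  · set m := n / 2 with hm
    set M := (n + r + 1) / 2 with hM
    have h1 : Γ.s (2 * m) ≤ Γ.s n := s_mono hΓ (by omega)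
    have h2 : Γ.s (n + r) ≤ Γ.s (2 * M) := s_mono hΓ (by omega)
    have hmM : m ≤ M := by omega
    have h3 : Γ.s (2 * M) ≤ Fintype.card B ^ (2 * M - 2 * m) * Γ.s (2 * m) := by
      have h4 : (Γ.s (2 * M) : ℝ) ≤ (Fintype.card B : ℝ) ^ (2 * M - 2 * m) * Γ.s (2 * m) := by
        rw [s_even hΓ, s_even hΓ, ← mul_assoc, ← pow_add, Nat.sub_add_cancel (by omega)]
        exact mul_le_mul_of_nonneg_left (mom_anti hΓ hmM) (by positivity)
      exact_mod_cast h4
    have h5 : Fintype.card B ^ (2 * M - 2 * m) ≤ Fintype.card B ^ (r + 2) :=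
      Nat.pow_le_pow_right hb (by omega)
    exact h2.trans (h3.trans (Nat.mul_le_mul h5 h1))

end Pool.Agent.H847.CG.MON
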