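import Pool.Agent.H847.CG.Char
import Pool.Agent.H847.CG.FIX

/-!
# The upper bound for the moments
-/

open Matrix MeasureTheory

namespace Pool.Agent.H847.CG.UP

theorem main (h1 : S_LOW) (h2 : S_DIM) : S_UP := by
  intro B _ _ Γ hΓ D c hc hF
  have hb : (0 : ℝ) < Fintype.card B := by exact_mod_cast hΓ.card_pos
  set b : ℝ := (Fintype.card B : ℝ) with hbdef
  refine ⟨4 * b ^ (4 * D) / c ^ 2, fun m => ?_⟩
  have hM : (0 : ℝ) < (m : ℝ) + 1 := by positivity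
  set M : ℝ := (m : ℝ) + 1 with hMdef
  set q : ℝ := Real.sqrt M / b ^ 2 with hq
  have hq0 : 0 ≤ q := div_nonneg (Real.sqrt_nonneg _) (by positivity)
  set r : ℕ := ⌊q⌋₊ with hr
  have hr1 : (r : ℝ) ≤ q := Nat.floor_le hq0
  have hr2 : q ≤ (r : ℝ) + 1 := (Nat.lt_floor_add_one q).le
  have hqM : q ^ 2 * b ^ 4 = M := by
    rw [hq, div_pow, Real.sq_sqrt hM.le]
    field_simp
  have hrM : (r : ℝ) ^ 2 * b ^ 4 ≤ M := by
    rw [← hqM]
    exact mul_le_mul_of_nonneg_right (pow_le_pow_left₀ (Nat.cast_nonneg _) hr1 2) (by positivity)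
  obtain ⟨T, hT, -⟩ := h1 B Γ hΓ r m (Fin r → B) 1 hrM
  obtain ⟨h3, -, -⟩ := h2 B Γ hΓ r
  have hTle : Module.finrank ℂ T ≤ Fintype.card B ^ (2 * m) := by
    refine (Submodule.finrank_le T).trans ?_
    rw [Module.finrank_pi, Fintype.card_fun, Fintype.card_fin]
  have hmom : 0 ≤ Γ.mom m :=
    integral_nonneg fun g => by
      show 0 ≤ Γ.y g ^ (2 * m)
      rw [pow_mul]
      positivity
  have hs : (Γ.s (2 * m) : ℝ) = b ^ (2 * m) * Γ.mom m := hΓ.s_real FIX.main (2 * m)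
  have h4 : (Module.finrank ℂ (Γ.coef r) : ℝ) * (b ^ (2 * m) * Γ.mom m) ≤ 2 * b ^ (2 * m) := by
    rw [← hs, ← h3]
    have h5 : Module.finrank ℂ (Γ.orb r (1 : Matrix (Fin r → B) (Fin r → B) ℂ)) * Γ.s (2 * m) ≤
        2 * Fintype.card B ^ (2 * m) := hT.trans (Nat.mul_le_mul_left 2 hTle)
    rw [hbdef]
    exact_mod_cast h5
  have h6 : (Module.finrank ℂ (Γ.coef r) : ℝ) * Γ.mom m ≤ 2 := by
    have hb2 : 0 < b ^ (2 * m) := by positivity
    refine le_of_mul_le_mul_left ?_ hb2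
    calc b ^ (2 * m) * ((Module.finrank ℂ (Γ.coef r) : ℝ) * Γ.mom m)
        = (Module.finrank ℂ (Γ.coef r) : ℝ) * (b ^ (2 * m) * Γ.mom m) := by ring
      _ ≤ 2 * b ^ (2 * m) := h4
      _ = b ^ (2 * m) * 2 := by ring
  have h7 : c * q ^ D * Γ.mom m ≤ 2 := by
    refine le_trans (mul_le_mul_of_nonneg_right ?_ hmom) h6
    refine le_trans ?_ (hF r)
    exact mul_le_mul_of_nonneg_left (pow_le_pow_left₀ hq0 hr2 D) hc.le
  have h8 : (c * q ^ D * Γ.mom m) ^ 2 ≤ 4 := by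
    have h9 : 0 ≤ c * q ^ D * Γ.mom m := by positivity
    nlinarith
  rw [le_div_iff₀ (by positivity)]
  have h10 : M ^ D = (q ^ D) ^ 2 * b ^ (4 * D) := by
    rw [← hqM, mul_pow, ← pow_mul, ← pow_mul, ← pow_mul, mul_comm 2 D]
  calc Γ.mom m ^ 2 * M ^ D * c ^ 2 = (c * q ^ D * Γ.mom m) ^ 2 * b ^ (4 * D) := by
        rw [h10]
        ring
    _ ≤ 4 * b ^ (4 * D) := mul_le_mul_of_nonneg_right h8 (by positivity)

end Pool.Agent.H847.CG.UP
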