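import Pool.Agent.H847.CG.Stm2

/-!
# Vandermonde: many columns with independent translates
-/

set_option linter.unusedSectionVars false

open Matrix

namespace Pool.Agent.H847.CG.VAN

variable {B : Type} [Fintype B] [DecidableEq B]

/-- The product of two tensors. -/
def pr (m n : ℕ) (v : (Fin m → B) → ℂ) (w : (Fin n → B) → ℂ) : (Fin (m + n) → B) → ℂ :=
  fun I => v (fun i => I (Fin.castAdd n i)) * w (fun i => I (Fin.natAdd m i))

lemma sum_split (m n : ℕ) (F : (Fin m → B) → ℂ) (H : (Fin n → B) → ℂ) :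
    ∑ I : Fin (m + n) → B, F (fun i => I (Fin.castAdd n i)) * H (fun i => I (Fin.natAdd m i)) =
      (∑ I, F I) * ∑ I, H I := by
  rw [Finset.sum_mul_sum, ← Fintype.sum_prod_type']
  refine (Fintype.sum_equiv (Fin.appendEquiv (α := B) m n) _ _ ?_).symm
  rintro ⟨I, J⟩
  simp [Fin.appendEquiv]

lemma tpw_pr (m n : ℕ) (g : Matrix B B ℂ) (v : (Fin m → B) → ℂ) (w : (Fin n → B) → ℂ) :
    tpw (m + n) g *ᵥ pr m n v w = pr m n (tpw m g *ᵥ v) (tpw n g *ᵥ w) := by
  funext I
  simp only [Matrix.mulVec, dotProduct, pr, tpw_apply]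
  rw [← sum_split m n (fun J => (∏ i, g (I (Fin.castAdd n i)) (J i)) * v J)
    (fun J => (∏ i, g (I (Fin.natAdd m i)) (J i)) * w J)]
  refine Finset.sum_congr rfl fun J _ => ?_
  rw [Fin.prod_univ_add]
  ring

lemma pair_pr (m n : ℕ) (g : Matrix B B ℂ) (v η : (Fin m → B) → ℂ) (w ζ : (Fin n → B) → ℂ) :
    ∑ I, pr m n η ζ I * (tpw (m + n) g *ᵥ pr m n v w) I =
      (∑ I, η I * (tpw m g *ᵥ v) I) * ∑ I, ζ I * (tpw n g *ᵥ w) I := by
  rw [tpw_pr, ← sum_split m n (fun I => η I * (tpw m g *ᵥ v) I) (fun I => ζ I * (tpw n g *ᵥ w) I)]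
  refine Finset.sum_congr rfl fun I _ => ?_
  simp only [pr]
  ring

/-- The power of the invariant unit vector. -/
lemma unit_pow (Γ : CGrp B) (h : Good Γ) (r : ℕ) : ∃ v η : (Fin r → B) → ℂ, v ∈ Γ.inv' r ∧
    ∀ g, ∑ I, η I * (tpw r (Γ.ρ g) *ᵥ v) I = 1 := by
  obtain ⟨e, he, hg⟩ := h.vec
  have hinv : ∀ g, tpw r (Γ.ρ g) *ᵥ (fun I : Fin r → B => ∏ i, e (I i)) =
      fun I : Fin r → B => ∏ i, e (I i) := by
    intro g
    funext I
    simp only [Matrix.mulVec, dotProduct, tpw_apply]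
    simp_rw [← Finset.prod_mul_distrib]
    have h2 : ∀ i, e (I i) = ∑ b, Γ.ρ g (I i) b * e b := fun i => by
      conv_lhs => rw [← hg g]
      rfl
    simp_rw [h2]
    rw [Finset.prod_univ_sum, Fintype.piFinset_univ]
  refine ⟨fun I => ∏ i, e (I i), fun I => ∏ i, star (e (I i)), hinv, ?_⟩
  intro g
  rw [hinv g]
  have h1 : ∑ b, star (e b) * e b = 1 := by
    have : ∀ b, star (e b) * e b = ((‖e b‖ ^ 2 : ℝ) : ℂ) := fun b => by
      rw [Complex.star_def, Complex.conj_mul']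
      push_cast
      rfl
    simp_rw [this]
    rw [← Complex.ofReal_sum, he, Complex.ofReal_one]
  simp_rw [← Finset.prod_mul_distrib]
  have h3 : (∏ _i : Fin r, ∑ b, star (e b) * e b) = 1 := by
    rw [h1, Finset.prod_const_one]
  rw [Finset.prod_univ_sum, Fintype.piFinset_univ] at h3
  exact h3

/-- The tensors with the powers as coefficients. -/
lemma pows (Γ : CGrp B) (h : Good Γ) (S : TS Γ) (r : ℕ) (t₀ ξ : (Fin r → B) → ℂ)
    (ht : t₀ ∈ S.T r) (j : ℕ) : ∀ i, i ≤ j → ∃ v η : (Fin (r * j) → B) → ℂ, v ∈ S.T (r * j) ∧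
    ∀ g, ∑ I, η I * (tpw (r * j) (Γ.ρ g) *ᵥ v) I =
      (∑ I, ξ I * (tpw r (Γ.ρ g) *ᵥ t₀) I) ^ i := by
  induction j with
  | zero =>
    intro i hi
    obtain rfl : i = 0 := by omega
    obtain ⟨v, η, hv, hη⟩ := unit_pow Γ h (r * 0)
    exact ⟨v, η, S.inv_le _ hv, fun g => by rw [hη g, pow_zero]⟩
  | succ j ih =>
    intro i hi
    rcases Nat.lt_or_ge i (j + 1) with h1 | h1
    · obtain ⟨v, η, hv, hη⟩ := ih i (by omega)
      obtain ⟨w, ζ, hw, hζ⟩ := unit_pow Γ h r
      refine ⟨pr (r * j) r v w, pr (r * j) r η ζ, S.mul (r * j) r v w hv (S.inv_le _ hw), ?_⟩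
      intro g
      have := pair_pr (r * j) r (Γ.ρ g) v η w ζ
      rw [hη g, hζ g, mul_one] at this
      exact this
    · obtain rfl : i = j + 1 := by omega
      obtain ⟨v, η, hv, hη⟩ := ih j le_rfl
      refine ⟨pr (r * j) r v t₀, pr (r * j) r η ξ, S.mul (r * j) r v t₀ hv ht, ?_⟩
      intro g
      have := pair_pr (r * j) r (Γ.ρ g) v η t₀ ξ
      rw [hη g, ← pow_succ] at this
      exact this

theorem main : S_VAN := by
  intro B _ _ Γ hΓ S r t₀ ξ ht hinf j
  have H := fun i : Fin (j + 1) => pows Γ hΓ S r t₀ ξ ht j i (by omega)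
  choose v η hv hη using H
  refine ⟨Matrix.of fun I i => v i I, fun i => hv i, ?_⟩
  set t : Matrix (Fin (r * j) → B) (Fin (j + 1)) ℂ := Matrix.of fun I i => v i I with ht'
  set f : Γ.G → ℂ := fun g => ∑ I, ξ I * (tpw r (Γ.ρ g) *ᵥ t₀) I with hf
  -- distinct values
  obtain ⟨z⟩ : Nonempty (Fin (j + 1) ↪ Set.range f) := by
    have : Infinite (Set.range f) := hinf.to_subtype
    exact ⟨(Fin.valEmbedding).trans (Infinite.natEmbedding _)⟩
  choose γ hγ using fun k => (z k).2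
  have hz : Function.Injective fun k => f (γ k) := by
    intro a b hab
    apply z.injective
    apply Subtype.ext
    rw [← hγ a, ← hγ b]
    exact hab
  -- the linear map
  let L : Matrix (Fin (r * j) → B) (Fin (j + 1)) ℂ →ₗ[ℂ] (Fin (j + 1) → ℂ) :=
    { toFun := fun A i => ∑ I, η i I * A I i
      map_add' := by
        intro A A'
        funext i
        simp only [Matrix.add_apply, Pi.add_apply, mul_add, Finset.sum_add_distrib]
      map_smul' := by
        intro c A
        funext i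
        simp only [Matrix.smul_apply, Pi.smul_apply, smul_eq_mul, RingHom.id_apply,
          Finset.mul_sum]
        exact Finset.sum_congr rfl fun I _ => by ring }
  have hL : ∀ g, L (tpw (r * j) (Γ.ρ g) * t) = fun i : Fin (j + 1) => f g ^ (i : ℕ) := by
    intro g
    funext i
    exact hη i g
  have hli : LinearIndependent ℂ fun k : Fin (j + 1) => tpw (r * j) (Γ.ρ (γ k)) * t := by
    apply LinearIndependent.of_comp L
    have h2 : (L ∘ fun k : Fin (j + 1) => tpw (r * j) (Γ.ρ (γ k)) * t) =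
        (Matrix.vandermonde fun k => f (γ k)).row := by
      funext k i
      simp only [Function.comp_apply, hL]
      rfl
    rw [h2]
    exact Matrix.linearIndependent_rows_of_det_ne_zero (Matrix.det_vandermonde_ne_zero_iff.2 hz)
  have hmem : ∀ k : Fin (j + 1), tpw (r * j) (Γ.ρ (γ k)) * t ∈ Γ.orb (r * j) t := fun k =>
    Submodule.subset_span ⟨γ k, rfl⟩
  have hli' : LinearIndependent ℂ fun k : Fin (j + 1) =>
      (⟨tpw (r * j) (Γ.ρ (γ k)) * t, hmem k⟩ : Γ.orb (r * j) t) := by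
    apply LinearIndependent.of_comp (Γ.orb (r * j) t).subtype
    exact hli
  have h3 := hli'.fintype_card_le_finrank
  rwa [Fintype.card_fin] at h3

end Pool.Agent.H847.CG.VAN
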