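import Pool.Agent.H847.CG.KEY
import Pool.Agent.H847.CG.STEP
import Pool.Agent.H847.CG.DIM
import Pool.Agent.H847.CG.LOW
import Pool.Agent.H847.CG.UP
import Pool.Agent.H847.CG.DOWN
import Pool.Agent.H847.CG.MON
import Pool.Agent.H847.CG.AVG
import Pool.Agent.H847.CG.COL
import Pool.Agent.H847.CG.VAN
import Pool.Agent.H847.CG.GAPA
import Pool.Agent.H847.CG.FIN
import Pool.Agent.H847.CG.ASY
import Pool.Agent.H847.CG.GAP
import Pool.Agent.H847.CG.GROW2
import Pool.Agent.H847.CG.BIC

/-!
# The laws for compact groups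
-/

namespace Pool.Agent.H847.CG

theorem low : S_LOW := LOW.main KEY.main STEP.main

/-- The growth law. -/
theorem grow_law : S_GROW2 :=
  GROW2.main (UP.main low DIM.main) (DOWN.main DIM.main) MON.main DIM.main

/-- The gap. -/
theorem gap_law : S_GAP :=
  GAP.main (GAPA.main VAN.main low MON.main) FIN.main (COL.main AVG.main)
    (ASY.main KEY.main STEP.main MON.main) MON.main

end Pool.Agent.H847.CG
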