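import Pool.Agent.H847.CG.Glue5

/-!
# The extension of the coefficients of a system of classes to the complex numbers
-/

set_option linter.unusedSectionVars false
set_option linter.unusedVariables false

open CategoryTheory AlgebraicGeometry CategoryTheory.Limits TensorProduct

universe u v

namespace Pool.Agent.H847.CG

open Pool.Agent.H914 Pool.Agent.H447 Pool.Agent.W534 Pool.Agent.Y163 VarClass Obj WeilCohomology
  Module
open Pool.Agent.Y121 Pool.Agent.R940 Pool.Agent.R914.UN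
open Pool.Agent.Y133.Half (Sys PH Ev Adj ClassPred)

section alg

variable {K L A : Type} [Field K] [Field L] [Algebra K L] [Algebra K ℂ] [Ring A] [Algebra K A]

/-- The span of the image is the extension. -/
lemma exists_cancel (σ : L →ₐ[K] ℂ) : ∃ (_ : Algebra L ℂ) (e : ℂ ⊗[L] (L ⊗[K] A) ≃ₗ[ℂ] ℂ ⊗[K] A),
    ∀ U : Submodule L (L ⊗[K] A),
      Submodule.span ℂ (cs A σ '' (U : Set (L ⊗[K] A))) =
        (U.baseChange ℂ).map (e : ℂ ⊗[L] (L ⊗[K] A) →ₗ[ℂ] ℂ ⊗[K] A) ∧
      ∀ x : L ⊗[K] A, e ((1 : ℂ) ⊗ₜ[L] x) = cs A σ x := by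
  letI : Algebra L ℂ := σ.toRingHom.toAlgebra
  haveI : IsScalarTower K L ℂ := IsScalarTower.of_algebraMap_eq fun x => (σ.commutes x).symm
  let e := TensorProduct.AlgebraTensorModule.cancelBaseChange K L ℂ ℂ A
  have h1 : ∀ x : L ⊗[K] A, e ((1 : ℂ) ⊗ₜ[L] x) = cs A σ x := by
    intro x
    refine cs_ind (P := fun x => e ((1 : ℂ) ⊗ₜ[L] x) = cs A σ x) ?_ ?_ ?_ x
    · rw [TensorProduct.tmul_zero, map_zero, map_zero]
    · intro x y hx hy
      rw [TensorProduct.tmul_add, map_add, hx, hy, map_add]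
    · intro l a
      rw [TensorProduct.AlgebraTensorModule.cancelBaseChange_tmul, cs_tmul, Algebra.smul_def,
        mul_one]
      rfl
  refine ⟨inferInstance, e, fun U => ⟨?_, h1⟩⟩
  rw [Submodule.baseChange_eq_span, Submodule.map_span]
  congr 1
  ext y
  constructor
  · rintro ⟨x, hx, rfl⟩
    exact ⟨(1 : ℂ) ⊗ₜ[L] x, ⟨x, hx, rfl⟩, h1 x⟩
  · rintro ⟨_, ⟨x, hx, rfl⟩, rfl⟩
    exact ⟨x, hx, (h1 x).symm⟩

lemma finrank_span_cs (σ : L →ₐ[K] ℂ) (U : Submodule L (L ⊗[K] A)) :
    finrank ℂ (Submodule.span ℂ (cs A σ '' (U : Set (L ⊗[K] A)))) = finrank L U := by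
  obtain ⟨_, e, h⟩ := exists_cancel (A := A) σ
  rw [(h U).1, LinearEquiv.finrank_map_eq]
  exact Pool.Agent.Y129.finrank_baseChange ℂ U

lemma mem_of_span_cs (σ : L →ₐ[K] ℂ) (U : Submodule L (L ⊗[K] A)) {x : L ⊗[K] A}
    (hx : cs A σ x ∈ Submodule.span ℂ (cs A σ '' (U : Set (L ⊗[K] A)))) : x ∈ U := by
  obtain ⟨_, e, h⟩ := exists_cancel (A := A) σ
  rw [(h U).1, ← (h U).2 x] at hx
  obtain ⟨y, hy, h1⟩ := hx
  have h2 : y = (1 : ℂ) ⊗ₜ[L] x := e.injective h1
  rw [h2] at hy
  exact mem_of_baseChange (K := L) (L := ℂ) (G := U) hy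

end alg

variable {k : Type u} [Field k] {𝒱 : VarClass k} {ops : CycleOps 𝒱}
variable {T : AH.HodgeTheory ops} {X Y Z : 𝒱.Obj} {L : Type} [Field L] [Algebra T.W.K L]
  (σ : L →ₐ[T.W.K] ℂ)

lemma csH_push (f : Y ⟶ Z) (x : (baseW T.W L).H Y) :
    csH σ Z ((baseW T.W L).push f x) = (baseW T.W ℂ).push f (csH σ Y x) := by
  refine em_ind (p := fun x => csH σ Z ((baseW T.W L).push f x) =
    (baseW T.W ℂ).push f (csH σ Y x)) ?_ ?_ ?_ ?_ x
  · rw [map_zero, map_zero, map_zero, map_zero]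
  · intro x y hx hy
    rw [map_add, map_add, hx, hy, map_add, map_add]
  · intro c x hx
    rw [map_smul, csH_smul, csH_smul, hx, map_smul]
  · intro i a _
    rw [AH.em_push, csH_em, csH_em, AH.em_push]

/-- The extension of the coefficients to the complex numbers. -/
noncomputable def extC (S : Sys (baseW T.W L)) (Y : 𝒱.Obj) :
    Submodule (baseW T.W ℂ).K ((baseW T.W ℂ).H Y) :=
  Submodule.span (baseW T.W ℂ).K (csH σ Y '' (S.C Y : Set ((baseW T.W L).H Y)))

lemma extC_ind {S : Sys (baseW T.W L)} {p : (baseW T.W ℂ).H Y → Prop} (h0 : p 0)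
    (hadd : ∀ x y, p x → p y → p (x + y)) (hs : ∀ (c : (baseW T.W ℂ).K) x, p x → p (c • x))
    (h : ∀ a ∈ S.C Y, p (csH σ Y a)) {x : (baseW T.W ℂ).H Y} (hx : x ∈ extC σ S Y) : p x := by
  unfold extC at hx
  induction hx using Submodule.span_induction with
  | mem x hx =>
    obtain ⟨a, ha, rfl⟩ := hx
    exact h a ha
  | zero => exact h0
  | add x y _ _ hx hy => exact hadd x y hx hy
  | smul c x _ hx => exact hs c x hx

lemma extC_of {S : Sys (baseW T.W L)} {a : (baseW T.W L).H Y} (ha : a ∈ S.C Y) :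
    csH σ Y a ∈ extC σ S Y := Submodule.subset_span ⟨a, ha, rfl⟩

/-- The extension of the coefficients of a system. -/
noncomputable def extSys (S : Sys (baseW T.W L)) : Sys (baseW T.W ℂ) where
  C Y := extC σ S Y
  even {Y c} hc := by
    refine extC_ind σ (p := fun c => c ∈ PH (baseW T.W ℂ) Y 0) ?_ ?_ ?_ ?_ hc
    · exact Submodule.zero_mem _
    · intro x y hx hy; exact Submodule.add_mem _ hx hy
    · intro r x hx; exact Submodule.smul_mem _ _ hx
    · intro a ha
      refine PH.ind (p := fun a => csH σ Y a ∈ PH (baseW T.W ℂ) Y 0) ?_ ?_ ?_ (S.even ha)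
      · intro i hi x hx
        exact PH.of' hi (csH_gr σ hx)
      · rw [map_zero]; exact Submodule.zero_mem _
      · intro x y hx hy; rw [map_add]; exact Submodule.add_mem _ hx hy
  one Y := by
    have h1 := extC_of σ (S.one Y)
    rwa [map_one] at h1
  mul {Y c d} hc hd := by
    refine extC_ind σ (p := fun c => c * d ∈ extC σ S Y) ?_ ?_ ?_ ?_ hc
    · rw [zero_mul]; exact Submodule.zero_mem _
    · intro x y hx hy; rw [add_mul]; exact Submodule.add_mem _ hx hy
    · intro r x hx; rw [smul_mul_assoc]; exact Submodule.smul_mem _ _ hx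
    · intro a ha
      refine extC_ind σ (p := fun d => csH σ Y a * d ∈ extC σ S Y) ?_ ?_ ?_ ?_ hd
      · rw [mul_zero]; exact Submodule.zero_mem _
      · intro x y hx hy; rw [mul_add]; exact Submodule.add_mem _ hx hy
      · intro r x hx; rw [mul_smul_comm]; exact Submodule.smul_mem _ _ hx
      · intro b hb
        rw [← map_mul (csH σ Y)]
        exact extC_of σ (S.mul ha hb)
  map {Y Z} f c hc := by
    refine extC_ind σ (p := fun c => (baseW T.W ℂ).map f c ∈ extC σ S Y) ?_ ?_ ?_ ?_ hc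
    · rw [map_zero]; exact Submodule.zero_mem _
    · intro x y hx hy; rw [map_add]; exact Submodule.add_mem _ hx hy
    · intro r x hx; rw [map_smul]; exact Submodule.smul_mem _ _ hx
    · intro a ha
      rw [← csH_map]
      exact extC_of σ (S.map f ha)
  push {Y Z} f c hc := by
    refine extC_ind σ (p := fun c => (baseW T.W ℂ).push f c ∈ extC σ S Z) ?_ ?_ ?_ ?_ hc
    · rw [map_zero]; exact Submodule.zero_mem _
    · intro x y hx hy; rw [map_add]; exact Submodule.add_mem _ hx hy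
    · intro r x hx; rw [map_smul]; exact Submodule.smul_mem _ _ hx
    · intro a ha
      rw [← csH_push]
      exact extC_of σ (S.push f ha)

lemma finrank_extSys (S : Sys (baseW T.W L)) (Y : 𝒱.Obj) :
    finrank (baseW T.W ℂ).K ((extSys σ S).C Y) = finrank (baseW T.W L).K (S.C Y) :=
  finrank_span_cs (K := T.W.K) (A := T.W.H Y) σ (S.C Y)

lemma mem_of_extSys {S : Sys (baseW T.W L)} {x : (baseW T.W L).H Y}
    (hx : csH σ Y x ∈ (extSys σ S).C Y) : x ∈ S.C Y :=
  mem_of_span_cs (K := T.W.K) (A := T.W.H Y) σ (S.C Y) hx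

/-- The rational classes whose extensions lie in the system. -/
lemma base_le_extSys (Q : ClassPred T.W) (S : Sys (baseW T.W L))
    (hQ : ∀ (Y : 𝒱.Obj) (j : ℕ) (c : T.W.H Y), Q.P Y j c → AH.em T.W L c ∈ S.C Y) (Y : 𝒱.Obj) :
    (Q.sys.base ℂ).C Y ≤ (extSys σ S).C Y := by
  intro x hx
  refine SG_ind (T := T) (L := ℂ) (G := Q.sp Y) (P := fun x => x ∈ (extSys σ S).C Y)
    ?_ ?_ ?_ ?_ hx
  · exact Submodule.zero_mem _
  · intro x y hx hy; exact Submodule.add_mem _ hx hy
  · intro c x hx; exact Submodule.smul_mem _ _ hx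
  · intro a ha
    refine ClassPred.sp_ind (Q := Q) (q := fun a => AH.em T.W ℂ a ∈ (extSys σ S).C Y) ?_ ?_ ?_ ha
    · intro j c hc
      rw [← csH_em σ]
      exact extC_of σ (hQ Y j c hc)
    · rw [AH.em_zero]; exact Submodule.zero_mem _
    · intro a b ha hb; rw [AH.em_add]; exact Submodule.add_mem _ ha hb

/-- The system is the extension of the rational system. -/
lemma extSys_eq_iff (Q : ClassPred T.W) (S : Sys (baseW T.W L))
    (hQ : ∀ (Y : 𝒱.Obj) (j : ℕ) (c : T.W.H Y), Q.P Y j c → AH.em T.W L c ∈ S.C Y) (Y : 𝒱.Obj) :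
    (extSys σ S).C Y = (Q.sys.base ℂ).C Y ↔ S.C Y ≤ SG L (Q.sp Y) := by
  constructor
  · intro h x hx
    have h1 : csH σ Y x ∈ (Q.sys.base ℂ).C Y := h ▸ extC_of σ hx
    refine mem_of_extSys σ (S := Q.sys.base L) ?_
    refine base_le_extSys σ Q (Q.sys.base L) (fun Y j c hc => ?_) Y h1
    exact em_SG (T := T) (L := L) (ClassPred.sp_of hc)
  · intro h
    refine le_antisymm ?_ (base_le_extSys σ Q S hQ Y)
    intro x hx
    refine extC_ind σ (p := fun x => x ∈ (Q.sys.base ℂ).C Y) ?_ ?_ ?_ ?_ hx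
    · exact Submodule.zero_mem _
    · intro x y hx hy; exact Submodule.add_mem _ hx hy
    · intro c x hx; exact Submodule.smul_mem _ _ hx
    · intro a ha
      refine SG_ind (T := T) (L := L) (G := Q.sp Y) (P := fun a => csH σ Y a ∈
        (Q.sys.base ℂ).C Y) ?_ ?_ ?_ ?_ (h ha)
      · rw [map_zero]; exact Submodule.zero_mem _
      · intro x y hx hy; rw [map_add]; exact Submodule.add_mem _ hx hy
      · intro c x hx; rw [csH_smul]; exact Submodule.smul_mem _ _ hx
      · intro b hb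
        rw [csH_em]
        exact em_SG (T := T) (L := ℂ) hb

end Pool.Agent.H847.CG
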