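import Pool.Agent.H847.CG.Law
import Pool.Agent.H847.CG.Ext
import Pool.Graph.R_seed8.R940.HFin

/-!
# The growth law for properties of classes
-/

set_option linter.unusedSectionVars false
set_option linter.unusedVariables false

open CategoryTheory AlgebraicGeometry CategoryTheory.Limits TensorProduct Matrix Filter

universe u v

namespace Pool.Agent.H847.CG

open Pool.Agent.H914 Pool.Agent.H447 Pool.Agent.W534 Pool.Agent.Y163 VarClass Obj WeilCohomology
  Module
open Pool.Agent.Y121 Pool.Agent.Y121.AHS Pool.Agent.R940 Pool.Agent.R914.UN Pool.Agent.R920.MT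
open Pool.Agent.Y133.Half (Sys PH Ev Adj ClassPred dimBy)

variable {k : Type u} [Field k] {𝒱 : VarClass k} {ops : CycleOps 𝒱}

lemma sub_zero' {K : Type v} [Field K] {A : Type v} [Ring A] [Algebra K A] {S : A → Prop}
    (h : IsSubspace K S) : S 0 := by
  obtain ⟨p, hp⟩ := h
  exact (hp 0).1 p.zero_mem

lemma sub_add' {K : Type v} [Field K] {A : Type v} [Ring A] [Algebra K A] {S : A → Prop}
    (h : IsSubspace K S) {a b : A} (ha : S a) (hb : S b) : S (a + b) := by
  obtain ⟨p, hp⟩ := h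
  exact (hp _).1 (p.add_mem ((hp a).2 ha) ((hp b).2 hb))

lemma sub_smul' {K : Type v} [Field K] {A : Type v} [Ring A] [Algebra K A] {S : A → Prop}
    (h : IsSubspace K S) (r : K) {a : A} (ha : S a) : S (r • a) := by
  obtain ⟨p, hp⟩ := h
  exact (hp _).1 (p.smul_mem r ((hp a).2 ha))

/-- The system of classes. -/
def cpred {W : WeilCohomology.{u, v} ops} (P : Property W) (hP : IsClassSystem P) :
    ClassPred W where
  P := P
  gr := fun h => hP.deg _ _ _ h
  zero := sub_zero' (hP.lin _ _)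
  add := fun ha hb => sub_add' (hP.lin _ _) ha hb
  smul := fun r _ ha => sub_smul' (hP.lin _ _) r ha
  cl := fun hz => hP.cyc _ _ _ hz
  mul := fun ha hb => hP.mul _ _ _ _ _ ha hb
  map f _ _ h := hP.map _ _ f _ _ h
  push f _ _ hl _ h := hP.push _ _ f _ _ _ hl h

lemma fix_eq {T : AH.HodgeTheory ops} (P : Property T.W) (hP : IsClassSystem P) (X : 𝒱.Obj) :
    FixGroup T.W P X = stab ((cpred P hP).sys.base ℂ) X := by
  ext g
  constructor
  · intro hg n x hx
    refine SG_ind (T := T) (L := ℂ) (G := (cpred P hP).sp (pw X n))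
      (P := fun x => pwOp (baseW T.W ℂ) g n x = x) ?_ ?_ ?_ ?_ hx
    · rw [map_zero]
    · intro x y hx hy; rw [map_add, hx, hy]
    · intro c x hx; rw [map_smul, hx]
    · intro a ha
      refine ClassPred.sp_ind (Q := cpred P hP) (q := fun a => pwOp (baseW T.W ℂ) g n
        (AH.em T.W ℂ a) = AH.em T.W ℂ a) ?_ ?_ ?_ ha
      · intro j c hc; exact hg n j c hc
      · rw [AH.em_zero, map_zero]
      · intro x y hx hy; rw [AH.em_add, map_add, hx, hy]
  · intro hg n j c hc
    exact hg n _ (em_SG (T := T) (L := ℂ) (ClassPred.sp_of (Q := cpred P hP) hc))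

/-- The growth law for properties of classes. -/
theorem prop_law (T : HodgeTheory ops) (hpos : NonnegTypes T) (X : 𝒱.Obj)
    (hsym : HodgeSymmetric T X) [Nontrivial (T.W.H X)] (P : Property T.W) (hP : IsClassSystem P)
    (hH : ∀ Y j c, P Y j c → IsHodge T Y j c) {ψ : BilH T X} (hψ : IsPolarisation T X ψ)
    (hψP : GivenBy P ψ) :
    ∃ D : ℕ, HasOrder (finrank T.W.K (T.W.H X)) D (fun n => dimBy T.W P (pw X n)) ∧
      HasPoly D (polyDim T.W P X) ∧
      ∀ S' : Sys (baseW T.W ℂ), (∀ Y, ((cpred P hP).sys.base ℂ).C Y ≤ S'.C Y) →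
        (∃ N : ℕ, 1 ≤ N ∧ (N = 1 ↔ ∀ n, S'.C (pw X n) = ((cpred P hP).sys.base ℂ).C (pw X n)) ∧
          NearIndex N (fun n => finrank (baseW T.W ℂ).K (S'.C (pw X n)))
            (fun n => dimBy T.W P (pw X n))) ∨
        SqrtGap (fun n => finrank (baseW T.W ℂ).K (S'.C (pw X n)))
          (fun n => dimBy T.W P (pw X n)) := by
  obtain ⟨γ, hγ, hγψ⟩ := hψP
  have key : ∀ x y : T.W.H X, bilVal ψ x y = T.W.tr X (T.W.corr γ x * y) := by
    intro x y
    have h3 : T.W.tr X (T.W.corr γ x * y) =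
        T.W.tr (X.prod X) (γ * T.W.map (fst X X) x * T.W.map (snd X X) y) := by
      rw [corr_apply, T.W.tr_push]
    rw [hγψ, h3, mul_assoc]
  have hnt : Nontrivial ((toH T).W.H X) := ‹Nontrivial (T.W.H X)›
  have h1 := law (T := toH T) (X := X) hpos hsym (ψ := ψ) ⟨hψ.orth, hψ.pos⟩ (cpred P hP) hH
    (c := γ) hγ (fun x y => key x y)
  obtain ⟨D, h2, h3, h4⟩ := h1
  refine ⟨D, h2, ?_, h4⟩
  have h5 : grp (T := toH T) (cpred P hP) X = polyDim T.W P X := by
    funext n
    rw [grp, polyDim]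
    have h6 := fix_eq (T := toH T) P hP X
    have h7 : FixGroup T.W P X = stab ((cpred P hP).sys.base ℂ) X := h6
    rw [h7]
    rfl
  rw [← h5]
  exact h3

end Pool.Agent.H847.CG
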