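import Pool.Agent.H847.CG.StmP

/-!
# Leaf CBC: the commutant and extension of the scalars
-/

open TensorProduct

namespace Pool.Agent.H847.CG.CBC

variable {K L V : Type} [Field K] [Field L] [Algebra K L] [AddCommGroup V] [Module K V]
  [FiniteDimensional K V]

/-- the extension of scalars of the endomorphisms, as a linear map over `K` -/
noncomputable def j (K L V : Type) [Field K] [Field L] [Algebra K L] [AddCommGroup V] [Module K V] :
    Module.End K V →ₗ[K] Module.End L (L ⊗[K] V) :=
  (TensorProduct.isBaseChange K V L).endHom

omit [FiniteDimensional K V] in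
theorem j_apply (g : Module.End K V) : j K L V g = g.baseChange L := by
  apply LinearMap.ext
  intro x
  induction x with
  | zero => rw [map_zero, map_zero]
  | add x y hx hy => rw [map_add, map_add, hx, hy]
  | tmul l v =>
    have h1 : (l ⊗ₜ[K] v : L ⊗[K] V) = l • (TensorProduct.mk K L V 1 v) := by
      rw [TensorProduct.mk_apply, TensorProduct.smul_tmul', smul_eq_mul, mul_one]
    rw [h1, map_smul, map_smul]
    congr 1
    have h2 := IsBaseChange.endHom_comp_apply (TensorProduct.isBaseChange K V L) g v
    rw [j, h2, TensorProduct.mk_apply, TensorProduct.mk_apply, LinearMap.baseChange_tmul]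

omit [FiniteDimensional K V] in
theorem j_mul (f g : Module.End K V) : j K L V (f * g) = j K L V f * j K L V g := by
  rw [j_apply, j_apply, j_apply, LinearMap.baseChange_mul]

/-- the endomorphisms of `L ⊗ V` -/
noncomputable def e (K L V : Type) [Field K] [Field L] [Algebra K L] [AddCommGroup V] [Module K V]
    [FiniteDimensional K V] : L ⊗[K] Module.End K V ≃ₗ[L] Module.End L (L ⊗[K] V) :=
  (TensorProduct.isBaseChange K V L).end.equiv

theorem e_tmul (l : L) (f : Module.End K V) : e K L V (l ⊗ₜ f) = l • j K L V f :=
  IsBaseChange.equiv_tmul _ l f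

/-- the image of `L ⊗ W` -/
noncomputable def T (L : Type) [Field L] [Algebra K L] (W : Submodule K (Module.End K V)) :
    L ⊗[K] W →ₗ[L] Module.End L (L ⊗[K] V) :=
  (e K L V).toLinearMap ∘ₗ W.subtype.baseChange L

theorem T_tmul (W : Submodule K (Module.End K V)) (l : L) (w : W) :
    T L W (l ⊗ₜ w) = l • j K L V (w : Module.End K V) := by
  rw [T, LinearMap.comp_apply, LinearMap.baseChange_tmul, LinearEquiv.coe_coe, e_tmul]
  rfl

theorem T_inj (W : Submodule K (Module.End K V)) : Function.Injective (T L W) := by
  have h1 : Function.Injective (LinearMap.lTensor L W.subtype) :=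
    Module.Flat.lTensor_preserves_injective_linearMap _ W.subtype_injective
  rw [T, LinearMap.coe_comp]
  refine (e K L V).injective.comp ?_
  rw [LinearMap.baseChange_eq_ltensor]
  exact h1

theorem range_T (C : Set (Module.End K V)) :
    LinearMap.range (T L (commSub C)) =
      commSub ((fun g : Module.End K V => g.baseChange L) '' C) := by
  classical
  apply le_antisymm
  · rintro _ ⟨x, rfl⟩
    induction x with
    | zero => rw [map_zero]; exact Submodule.zero_mem _
    | add x y hx hy => rw [map_add]; exact Submodule.add_mem _ hx hy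
    | tmul l w =>
      rw [T_tmul]
      apply Submodule.smul_mem
      rintro _ ⟨g, hg, rfl⟩
      show j K L V w * g.baseChange L = g.baseChange L * j K L V w
      rw [← j_apply, ← j_mul, ← j_mul, w.2 g hg]
  · intro F hF
    let B := Module.Basis.ofVectorSpace K L
    obtain ⟨c, hc⟩ := TensorProduct.eq_repr_basis_left B ((e K L V).symm F)
    have hF' : F = c.sum fun i f => B i • j K L V f := by
      have h1 : F = e K L V ((e K L V).symm F) := (LinearEquiv.apply_symm_apply _ _).symm
      rw [h1, ← hc, Finsupp.sum, map_sum, Finsupp.sum]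
      exact Finset.sum_congr rfl fun i _ => e_tmul _ _
    have hmem : ∀ i, c i ∈ commSub C := by
      intro i g hg
      have h2 : F * j K L V g = j K L V g * F := by
        have := hF (g.baseChange L) ⟨g, hg, rfl⟩
        rw [← j_apply] at this
        exact this
      have h5 : ∑ i ∈ c.support, B i • j K L V (c i) = F := hF'.symm
      have h3 : (c.mapRange (fun f => f * g) (zero_mul g)).sum (fun i f => B i ⊗ₜ[K] f) =
          (c.mapRange (fun f => g * f) (mul_zero g)).sum (fun i f => B i ⊗ₜ[K] f) := by
        rw [Finsupp.sum_mapRange_index (by intro i; rw [TensorProduct.tmul_zero]),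
          Finsupp.sum_mapRange_index (by intro i; rw [TensorProduct.tmul_zero])]
        apply (e K L V).injective
        rw [Finsupp.sum, map_sum, Finsupp.sum, map_sum]
        have h4 : ∀ i ∈ c.support, e K L V (B i ⊗ₜ[K] (c i * g)) =
            (B i • j K L V (c i)) * j K L V g := by
          intro i _
          rw [e_tmul, j_mul, smul_mul_assoc]
        have h4' : ∀ i ∈ c.support, e K L V (B i ⊗ₜ[K] (g * c i)) =
            j K L V g * (B i • j K L V (c i)) := by
          intro i _
          rw [e_tmul, j_mul, mul_smul_comm]
        rw [Finset.sum_congr rfl h4, Finset.sum_congr rfl h4', ← Finset.sum_mul,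
          ← Finset.mul_sum, h5, h2]
      have h6 := TensorProduct.sum_tmul_basis_left_injective B h3
      have h7 := DFunLike.congr_fun h6 i
      rwa [Finsupp.mapRange_apply, Finsupp.mapRange_apply] at h7
    rw [hF', Finsupp.sum]
    apply Submodule.sum_mem
    intro i _
    exact ⟨B i ⊗ₜ ⟨c i, hmem i⟩, T_tmul _ _ _⟩

theorem main : S_CBC := by
  intro K L V _ _ _ _ _ _ C
  rw [← range_T, LinearMap.finrank_range_of_inj (T_inj _), Module.finrank_baseChange]

end Pool.Agent.H847.CG.CBC
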