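import Pool.Agent.H847.CG.Glue5

/-!
# Polarisations are Hodge classes
-/

set_option linter.unusedSectionVars false
set_option linter.unusedVariables false

open CategoryTheory AlgebraicGeometry CategoryTheory.Limits TensorProduct Matrix

universe u v

namespace Pool.Agent.H847.CG

open Pool.Agent.H914 Pool.Agent.H447 Pool.Agent.W534 Pool.Agent.Y163 VarClass Obj WeilCohomology
  Module
open Pool.Agent.Y121 Pool.Agent.R940 Pool.Agent.R914.UN
open Pool.Agent.Y133.Half (Sys PH Ev Adj ClassPred)

variable {k : Type u} [Field k] {𝒱 : VarClass k} {ops : CycleOps 𝒱}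

section general

variable {W : WeilCohomology.{u, 0} ops} {X Y : 𝒱.Obj}

/-- The intersection form. -/
noncomputable def trF (W : WeilCohomology.{u, 0} ops) (X : 𝒱.Obj) :
    LinearMap.BilinForm W.K (W.H X) :=
  LinearMap.mk₂ W.K (fun x y => W.tr X (x * y))
    (fun x y z => by rw [add_mul, map_add]) (fun c x y => by rw [smul_mul_assoc, map_smul])
    (fun x y z => by rw [mul_add, map_add]) (fun c x y => by rw [mul_smul_comm, map_smul])

lemma trF_apply (x y : W.H X) : trF W X x y = W.tr X (x * y) := rfl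

/-- Every bilinear form is given by an operator. -/
lemma exists_op (ψ : LinearMap.BilinForm W.K (W.H X)) :
    ∃ f : Module.End W.K (W.H X), ∀ x y, ψ x y = W.tr X (f x * y) := by
  have h1 : Function.Injective (trF W X) := by
    rw [← LinearMap.ker_eq_bot, LinearMap.ker_eq_bot']
    intro x hx
    refine W.nondeg x fun y => ?_
    exact congrArg (fun g : W.H X →ₗ[W.K] W.K => g y) hx
  have h2 : Function.Surjective (trF W X) :=
    (LinearMap.injective_iff_surjective_of_finrank_eq_finrank
      (Subspace.dual_finrank_eq (K := W.K) (V := W.H X)).symm).1 h1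
  let e : W.H X ≃ₗ[W.K] (W.H X →ₗ[W.K] W.K) := LinearEquiv.ofBijective (trF W X) ⟨h1, h2⟩
  refine ⟨(e.symm : (W.H X →ₗ[W.K] W.K) →ₗ[W.K] W.H X) ∘ₗ ψ, fun x y => ?_⟩
  have h3 : trF W X (e.symm (ψ x)) = ψ x := e.apply_symm_apply (ψ x)
  exact (congrArg (fun g : W.H X →ₗ[W.K] W.K => g y) h3).symm

/-- An operator which preserves the parity is given by a class. -/
lemma corr_ext_diag {f : Module.End W.K (W.H X)} (hf : Ev W f) :
    W.corr (extOp W LinearMap.id f (W.push (diag X) 1)) = f := by
  rw [Pool.Agent.Y133.Half.corr_extOp (a' := LinearMap.id) (fun a b => rfl)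
      (fun b x hx => hx) hf, Sys.corr_diag_one]
  rfl

end general

variable {T : AH.HodgeTheory ops} {X Y Z : 𝒱.Obj}

lemma pol_tr_gr {ψ : LinearMap.BilinForm T.W.K (T.W.H X)} (hψ : IsPol ψ)
    {f : Module.End T.W.K (T.W.H X)} (hf : ∀ x y, ψ x y = T.W.tr X (f x * y)) : Ev T.W f := by
  intro b x hx
  -- the components of the wrong parity vanish
  have key : ∀ i, i % 2 ≠ b % 2 → H914.proj (T.W.isInternal X) i (f x) = 0 := by
    intro i hi
    refine T.W.nondeg _ fun y => ?_
    refine gr_induction (T.W.isInternal X) (p := fun y =>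
      T.W.tr X (H914.proj (T.W.isInternal X) i (f x) * y) = 0) ?_ ?_ y
    · intro j y hy
      by_cases hij : i + j = 2 * X.dim
      · have h1 : T.W.tr X (H914.proj (T.W.isInternal X) i (f x) * y) = T.W.tr X (f x * y) := by
          refine gr_induction (T.W.isInternal X) (p := fun z =>
            T.W.tr X (H914.proj (T.W.isInternal X) i z * y) = T.W.tr X (z * y)) ?_ ?_ (f x)
          · intro l z hz
            by_cases hl : l = i
            · subst hl
              rw [proj_same _ hz]
            · rw [proj_ne _ hz hl, zero_mul, map_zero]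
              exact (T.W.tr_eq_zero (T.W.mul_mem hz hy) (by omega)).symm
          · intro z z' hz hz'
            rw [map_add, add_mul, map_add, hz, hz', add_mul, map_add]
        rw [h1, ← hf]
        refine PH.ind (p := fun x => ψ x y = 0) ?_ ?_ ?_ hx
        · intro l hl x hx
          exact pol_orth hψ (by omega) hx hy
        · rw [map_zero, LinearMap.zero_apply]
        · intro x x' hx hx'; rw [map_add, LinearMap.add_apply, hx, hx', add_zero]
      · refine T.W.tr_eq_zero (T.W.mul_mem (proj_mem _ _ _) hy) hij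
    · intro y y' hy hy'
      rw [mul_add, map_add, hy, hy', add_zero]
  have h2 : f x = ∑ i ∈ Finset.range (2 * X.dim + 1), H914.proj (T.W.isInternal X) i (f x) := by
    refine gr_induction (T.W.isInternal X) (p := fun z => z =
      ∑ i ∈ Finset.range (2 * X.dim + 1), H914.proj (T.W.isInternal X) i z) ?_ ?_ (f x)
    · intro l z hz
      by_cases hl : l < 2 * X.dim + 1
      · rw [Finset.sum_eq_single l, proj_same _ hz]
        · intro j _ hj
          exact proj_ne _ hz (Ne.symm hj)
        · intro h; exact absurd (Finset.mem_range.2 hl) h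
      · rw [T.W.gr_eq_bot X l (by omega), Submodule.mem_bot] at hz
        subst hz
        simp
    · intro z z' hz hz'
      conv_lhs => rw [hz, hz']
      rw [← Finset.sum_add_distrib]
      exact Finset.sum_congr rfl fun i _ => (map_add _ _ _).symm
  rw [h2]
  refine Submodule.sum_mem _ fun i _ => ?_
  by_cases hi : i % 2 = b % 2
  · exact PH.of' hi (proj_mem _ _ _)
  · rw [key i hi]
    exact Submodule.zero_mem _

/-- **Polarisations are given by Hodge classes.** -/
theorem pol_hodge (hpos : ∀ (Y : 𝒱.Obj) (p q : ℤ), p < 0 ∨ q < 0 → T.pq Y p q = ⊥)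
    {ψ : LinearMap.BilinForm T.W.K (T.W.H X)} (hψ : IsPol ψ) :
    ∃ c ∈ (AH.hodgePred T).sp (X.prod X), ∀ x y, ψ x y = T.W.tr X (T.W.corr c x * y) := by
  obtain ⟨f, hf⟩ := exists_op ψ
  have hEv := pol_tr_gr hψ hf
  set c := extOp T.W LinearMap.id f (T.W.push (diag X) 1) with hc
  have hcf : T.W.corr c = f := corr_ext_diag hEv
  have h0 : ∀ x y, ψ x y = T.W.tr X (T.W.corr c x * y) := by
    intro x y
    rw [hcf, hf]
  refine ⟨c, ?_, h0⟩
  set F : Module.End (baseW T.W ℂ).K ((baseW T.W ℂ).H X) :=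
    (baseW T.W ℂ).corr (AH.em T.W ℂ c) with hF
  have hpsi := psi_corr h0
  have hgF : ∀ (σ : ℂ ≃ₐ[T.W.K] ℂ) (z : ℂ), z ≠ 0 → ∀ x, gam σ z X (F x) = F (gam σ z X x) := by
    intro σ z hz x
    have h1 : ∀ w, (baseW T.W ℂ).tr X (gam σ z X (F x) * w) =
        (baseW T.W ℂ).tr X (F (gam σ z X x) * w) := by
      intro w
      obtain ⟨y, rfl⟩ : ∃ y, gam σ z X y = w := ⟨gam σ z⁻¹ X w, by
        rw [gam_gam, mul_inv_cancel₀ hz, gam_id]⟩
      rw [← gam_mul σ hz, gam_tr σ hpos, ← hpsi, ← hpsi, psi_gam hψ σ hz]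
    have h2 : gam σ z X (F x) - F (gam σ z X x) = 0 := by
      refine (baseW T.W ℂ).nondeg _ fun w => ?_
      rw [sub_mul, map_sub, h1, sub_self]
    exact sub_eq_zero.1 h2
  have hem : AH.em T.W ℂ c = extOp (baseW T.W ℂ) LinearMap.id F
      ((baseW T.W ℂ).push (diag X) 1) := by
    have h1 : (baseW T.W ℂ).push (diag X) (1 : (baseW T.W ℂ).H X) =
      AH.em T.W ℂ (T.W.push (diag X) 1) := AH.em_push (diag X) 1
    rw [h1, hc]
    refine T.W.kunneth_induction (p := fun z => AH.em T.W ℂ (extOp T.W LinearMap.id f z) =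
      extOp (baseW T.W ℂ) LinearMap.id F (AH.em T.W ℂ z)) ?_ ?_ (T.W.push (diag X) 1)
    · intro a b ha hb
      rw [map_add, AH.em_add, ha, hb, AH.em_add, map_add]
    · intro i j a _ b _
      rw [extOp_tmul, AH.em_mul, AH.em_mul, ← AH.em_map, ← AH.em_map, ← AH.em_map, ← AH.em_map,
        extOp_tmul, hF, AH.em_corr, hcf]
      rfl
  refine mem_of_SG (T := T) (L := ℂ) (G := (AH.hodgePred T).sp (X.prod X)) ?_
  refine fixed_mem (T := T) fun σ z hz => ?_
  have h3 : gam σ z (X.prod X) (extOp (baseW T.W ℂ) LinearMap.id F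
      ((baseW T.W ℂ).push (diag X) 1)) = extOp (baseW T.W ℂ) LinearMap.id F
      (gam σ z (X.prod X) ((baseW T.W ℂ).push (diag X) 1)) := by
    have h : gam σ z (X.prod X) ∘ₗ extOp (baseW T.W ℂ) LinearMap.id F =
        extOp (baseW T.W ℂ) LinearMap.id F ∘ₗ gam σ z (X.prod X) := by
      apply ext_kunneth_lin
      intro a b
      rw [LinearMap.comp_apply, LinearMap.comp_apply, extOp_tmul, gam_mul σ hz, gam_mul σ hz,
        gam_map, gam_map, gam_map, gam_map, extOp_tmul, hgF σ z hz]
      rfl
    exact congrArg (fun f => f ((baseW T.W ℂ).push (diag X) 1)) h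
  rw [hem, h3, gam_diag]

end Pool.Agent.H847.CG
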