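import Mathlib

/-!
# Periods and commutants: statements of the algebraic lemmas

Project of helper847. Every `S_XXX` below is proved in its own file.
-/

open TensorProduct

namespace Pool.Agent.H847.CG

/-- The endomorphisms which commute with the elements of `C`. -/
def commSub {K V : Type} [Field K] [AddCommGroup V] [Module K V] (C : Set (Module.End K V)) :
    Submodule K (Module.End K V) where
  carrier := {F | ∀ g ∈ C, F * g = g * F}
  add_mem' := by
    intro a b ha hb g hg
    rw [add_mul, mul_add, ha g hg, hb g hg]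
  zero_mem' := by
    intro g _
    rw [zero_mul, mul_zero]
  smul_mem' := by
    intro c a ha g hg
    rw [smul_mul_assoc, mul_smul_comm, ha g hg]

/-- TRD. Transcendence degree and growth. Let `E / F` be fields and `U ⊆ E` a finite-dimensional subspace over
`F` with `1 ∈ U`. If `t` is the maximal number of algebraically independent elements of `U`, then `dim U ^ (n + 1)`
has the exact order `n ^ t`.
Proof. Let `t` be maximal (at most `dim U`) such that there are `t` algebraically independent elements in `U`
(`t = 0` is possible, with the empty family). Lower bound: the monomials of degree `≤ n + 1` in `x_1, …, x_t ∈ U`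
lie in `U ^ (n + 1)` (as `1 ∈ U`) and are linearly independent over `F`; there are `binom (n + 1 + t) t` of them.
Upper bound: `R = Algebra.adjoin F U` is a finitely generated `F`-algebra and a domain. Noether
normalisation (`exists_finite_inj_algHom_of_fg`): `R` is finite over a polynomial ring `F[y_1, …, y_s] ⊆ R`; here
`s ≤ t`, as `R` is algebraic over `F(x_1, …, x_t)` by the maximality of `t` (transcendence degrees). Let
`z_1 = 1, …, z_M` be generators of the module `R` over `F[y]`, and `u_a z_j = ∑_k f_(a j k)(y) z_k` for a basis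
`u_a` of `U`, with `deg f_(a j k) ≤ q`; then `U ^ (n + 1) ⊆ ∑_k F[y]_(≤ q (n + 1)) z_k`, so
`dim U ^ (n + 1) ≤ M * binom (q (n + 1) + s) s ≤ C (n + 1) ^ s ≤ C (n + 1) ^ t`. (The file HIL.lean of this project
[team-store get helper847_CG_HIL.lean] contains a similar argument over the complex numbers.) -/
def S_TRD : Prop := ∀ (F E : Type) [Field F] [Field E] [Algebra F E] (U : Submodule F E),
  FiniteDimensional F U → (1 : E) ∈ U →
  ∃ t : ℕ, (∃ x : Fin t → E, (∀ i, x i ∈ U) ∧ AlgebraicIndependent F x) ∧
    (∀ x : Fin (t + 1) → E, (∀ i, x i ∈ U) → ¬ AlgebraicIndependent F x) ∧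
    ∃ c C : ℝ, 0 < c ∧ ∀ n : ℕ,
      c * ((n : ℝ) + 1) ^ t ≤ Module.finrank F (U ^ (n + 1) : Submodule F E) ∧
      (Module.finrank F (U ^ (n + 1) : Submodule F E) : ℝ) ≤ C * ((n : ℝ) + 1) ^ t

/-- CBC. The commutant and extension of the scalars. Proof. `≥`: the map `F ↦ F.baseChange L` maps `commSub C` into
the right hand side, and `K`-linearly independent endomorphisms of `V` stay `L`-linearly independent (the map
`L ⊗ End V → End (L ⊗ V)` is bijective, or use matrices with respect to a basis of `V`). `≤`: choose a basis `l_i` of `L`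
over `K`. Every `F' ∈ End (L ⊗ V)` is a finite sum `∑ l_i • (F_i).baseChange L` with unique `F_i ∈ End V` (entries of
the matrix), and `F'` commutes with `g.baseChange L` if and only if all `F_i` commute with `g` (uniqueness). So the
right hand side is the `L`-span of the image of `commSub C`. -/
def S_CBC : Prop := ∀ (K L V : Type) [Field K] [Field L] [Algebra K L] [AddCommGroup V] [Module K V]
  [FiniteDimensional K V] (C : Set (Module.End K V)),
  Module.finrank L (commSub ((fun g : Module.End K V => g.baseChange L) '' C)) =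
    Module.finrank K (commSub C)

/-- The space of the periods of `S`: the span over `F` of the values on `S` of the functionals on `V` with complex
coefficients. -/
noncomputable def perSub {K V : Type} [Field K] [Algebra K ℂ] [AddCommGroup V] [Module K V]
    (F : Subfield ℂ) (S : Set (ℂ ⊗[K] V)) : Submodule F ℂ :=
  Submodule.span F {z | ∃ s ∈ S, ∃ l : V →ₗ[K] K,
    z = TensorProduct.AlgebraTensorModule.rid K ℂ ℂ (l.baseChange ℂ s)}

/-- PER. The number of the linearly independent periods is at most the dimension of the commutant of the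
endomorphisms which respect the `F`-structure `S`. Proof. Let `b = dim V`, `e_k` a basis of `V`, and `s_j` an
`F`-basis of `S`, which is a `ℂ`-basis of `ℂ ⊗ V` (it spans, and has `b` elements): `s_j = ∑ p_jk e_k` with
`P = (p_jk)` invertible. The periods are the `F`-span of the `p_jk` (a functional `l` has values `l(e_k) ∈ K ⊆ F`).
For `a ∈ C` let `a(e_k) = ∑ A_kl e_l` (`A_kl ∈ K`) and `a(s_j) = ∑ D_jl s_l` (`D_jl ∈ F`); so
`∑_l D_jl p_lk = ∑_l p_jl A_lk`, i.e. `D P = P A`. Let `R` be the `F`-space of the `F`-linear relations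
`∑ r_jk p_jk = 0` (`r_jk ∈ F`). Then `dim_F (periods) = b² - dim_F R = dim_F T`, where `T` is the space of the
`X ∈ M_b(F)` which satisfy all relations in `R`. As the rows of `D P = P A` are relations, every `X ∈ T` satisfies
`D X = X A` for all `a ∈ C`. An `F`-basis `X_1, …, X_m` of `T` is linearly independent over `ℂ` in `M_b(ℂ)`, and the
matrices `Y_i = P⁻¹ X_i ∈ M_b(ℂ)` are linearly independent and satisfy `A Y = Y A` for all `a ∈ C`
(`P A Y = D P Y = D X = X A = P Y A`). So `m ≤ dim_ℂ {Y ∈ M_b(ℂ) | A Y = Y A for all a}`, which is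
`finrank K (commSub C)` by CBC (or directly: solutions of a linear system with coefficients in `K`). -/
def S_PER : Prop := S_CBC → ∀ (K V : Type) [Field K] [Algebra K ℂ] [AddCommGroup V] [Module K V]
  [FiniteDimensional K V] (F : Subfield ℂ), (∀ r : K, algebraMap K ℂ r ∈ F) →
  ∀ S : Submodule F (ℂ ⊗[K] V), Submodule.span ℂ (S : Set (ℂ ⊗[K] V)) = ⊤ →
  FiniteDimensional F S → Module.finrank F S = Module.finrank K V →
  ∀ C : Set (Module.End K V), (∀ a ∈ C, ∀ s ∈ S, a.baseChange ℂ s ∈ S) →
  FiniteDimensional F (perSub F (S : Set (ℂ ⊗[K] V))) ∧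
    Module.finrank F (perSub F (S : Set (ℂ ⊗[K] V))) ≤ Module.finrank K (commSub C)

/-- FRM. A subspace `S` over `F` which spans `ℂ ⊗ V` and on which a nondegenerate bilinear form of `V` takes values
in `τ F` is an `F`-structure. Proof. `S` contains a `ℂ`-basis `s_1, …, s_b` of `ℂ ⊗ V`. The Gram matrix
`G_ij = β(s_i, s_j) / τ` has entries in `F` and is invertible. For `s = ∑ c_i s_i` in `S` (`c_i ∈ ℂ`):
`β(s, s_j) / τ = ∑ c_i G_ij ∈ F`, so `c_i ∈ F`. So the `s_i` are an `F`-basis of `S`. -/
def S_FRM : Prop := ∀ (K V : Type) [Field K] [Algebra K ℂ] [AddCommGroup V] [Module K V]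
  [FiniteDimensional K V] (F : Subfield ℂ) (S : Submodule F (ℂ ⊗[K] V)),
  Submodule.span ℂ (S : Set (ℂ ⊗[K] V)) = ⊤ →
  ∀ β : LinearMap.BilinForm K V, β.Nondegenerate → ∀ τ : ℂ, τ ≠ 0 →
  (∀ x ∈ S, ∀ y ∈ S, ∃ r ∈ F, (LinearMap.BilinForm.baseChange ℂ β) x y = τ * r) →
  FiniteDimensional F S ∧ Module.finrank F S = Module.finrank K V

end Pool.Agent.H847.CG
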