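import Pool.Agent.H847.CG.Comm
import Pool.Agent.H847.CG.Glue6
import Pool.Agent.H847.CG.StmP

/-!
# The operators which commute with the group are correspondences
-/

set_option linter.unusedSectionVars false
set_option linter.unusedVariables false

open CategoryTheory AlgebraicGeometry CategoryTheory.Limits TensorProduct Matrix

universe u v

namespace Pool.Agent.H847.CG

open Pool.Agent.H914 Pool.Agent.H447 Pool.Agent.W534 Pool.Agent.Y163 VarClass Obj WeilCohomology
  Module
open Pool.Agent.Y121 Pool.Agent.R940 Pool.Agent.R914.UN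
open Pool.Agent.Y133.Half (Sys PH Ev Adj)

variable {k : Type u} [Field k] {𝒱 : VarClass k} {ops : CycleOps 𝒱}

variable {W : WeilCohomology.{u, 0} ops} {X Y Z Z' : 𝒱.Obj} {ι : Type} [Fintype ι] [DecidableEq ι]

lemma extOp_par : extOp W (par (W.isInternal Y)) (par (W.isInternal Z)) =
    par (W.isInternal (Y.prod Z)) := by
  apply LinearMap.ext
  intro c
  refine W.kunneth_induction (p := fun c => extOp W (par (W.isInternal Y))
    (par (W.isInternal Z)) c = par (W.isInternal (Y.prod Z)) c) ?_ ?_ c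
  · intro a b ha hb
    rw [map_add, map_add, ha, hb]
  · intro i j a ha b hb
    rw [extOp_tmul, PH.par (PH.of ha), PH.par (PH.of hb),
      PH.par (PH.of (W.mul_mem (W.map_mem (fst Y Z) ha) (W.map_mem (snd Y Z) hb))),
      map_smul, map_smul, smul_mul_assoc, mul_smul_comm, smul_smul, ← pow_add]

lemma pwOp_par : ∀ n, pwOp W (par (W.isInternal X)) n = par (W.isInternal (pw X n))
  | 0 => rfl
  | n + 1 => by
    have h := pwOp_par n
    have h1 : pwOp W (par (W.isInternal X)) (n + 1) =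
      extOp W (par (W.isInternal X)) (pwOp W (par (W.isInternal X)) n) := rfl
    rw [h1, h]
    exact extOp_par

lemma par_stab (S : Sys W) : par (W.isInternal X) ∈ stab S X := by
  intro n x hx
  rw [pwOp_par, PH.par (S.even hx), pow_zero, one_smul]

/-- The elements of a given parity. -/
lemma mem_PH {b : ℕ} {y : W.H X} (h : par (W.isInternal X) y = (-1 : W.K) ^ b • y) :
    y ∈ PH W X b := by
  have key : ∀ i, i % 2 ≠ b % 2 → H914.proj (W.isInternal X) i y = 0 := by
    intro i hi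
    have h1 : H914.proj (W.isInternal X) i (par (W.isInternal X) y) =
        (-1 : W.K) ^ i • H914.proj (W.isInternal X) i y := by
      refine gr_induction (W.isInternal X) (p := fun y =>
        H914.proj (W.isInternal X) i (par (W.isInternal X) y) =
        (-1 : W.K) ^ i • H914.proj (W.isInternal X) i y) ?_ ?_ y
      · intro l z hz
        rw [PH.par (PH.of hz), map_smul]
        by_cases hl : l = i
        · rw [hl]
        · rw [proj_ne _ hz hl, smul_zero, smul_zero]
      · intro z z' hz hz'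
        rw [map_add, map_add, map_add, hz, hz', smul_add]
    rw [h, map_smul] at h1
    have h2 : ((-1 : W.K) ^ b - (-1) ^ i) • H914.proj (W.isInternal X) i y = 0 := by
      rw [sub_smul, h1, sub_self]
    rcases smul_eq_zero.1 h2 with h3 | h3
    · exfalso
      have h4 : (2 : W.K) ≠ 0 := two_ne_zero
      rcases Nat.even_or_odd b with hb | hb <;> rcases Nat.even_or_odd i with hi' | hi'
      · rw [Nat.even_iff] at hb hi'; omega
      · rw [hb.neg_one_pow, hi'.neg_one_pow] at h3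
        apply h4
        rw [← h3]; ring
      · rw [hb.neg_one_pow, hi'.neg_one_pow] at h3
        apply h4
        rw [← neg_eq_zero, ← h3]; ring
      · rw [Nat.odd_iff] at hb hi'; omega
    · exact h3
  have h2 : y = ∑ i ∈ Finset.range (2 * X.dim + 1), H914.proj (W.isInternal X) i y := by
    refine gr_induction (W.isInternal X) (p := fun z => z =
      ∑ i ∈ Finset.range (2 * X.dim + 1), H914.proj (W.isInternal X) i z) ?_ ?_ y
    · intro l z hz
      by_cases hl : l < 2 * X.dim + 1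
      · rw [Finset.sum_eq_single l, proj_same _ hz]
        · intro j _ hj
          exact proj_ne _ hz (Ne.symm hj)
        · intro h; exact absurd (Finset.mem_range.2 hl) h
      · rw [W.gr_eq_bot X l (by omega), Submodule.mem_bot] at hz
        subst hz
        simp
    · intro z z' hz hz'
      conv_lhs => rw [hz, hz']
      rw [← Finset.sum_add_distrib]
      exact Finset.sum_congr rfl fun i _ => (map_add _ _ _).symm
  rw [h2]
  refine Submodule.sum_mem _ fun i _ => ?_
  by_cases hi : i % 2 = b % 2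
  · exact PH.of' hi (proj_mem _ _ _)
  · rw [key i hi]
    exact Submodule.zero_mem _

lemma ev_of_comm {F : Module.End W.K (W.H X)}
    (h : F * par (W.isInternal X) = par (W.isInternal X) * F) : Ev W F := by
  intro b x hx
  apply mem_PH
  have h1 := congrArg (fun G : Module.End W.K (W.H X) => G x) h
  simp only [Module.End.mul_apply] at h1
  rw [← h1, PH.par hx, map_smul]

/-- **The operators which commute with the group are correspondences.** -/
theorem op_of_comm {S : Sys W} (hT : ∀ N, ∀ x : W.H (pw X N), (∀ g ∈ stab S X, pwOp W g N x = x) →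
    x ∈ S.C (pw X N)) (n : ℕ) {F : Module.End W.K (W.H (pw X n))}
    (hF : ∀ g ∈ stab S X, F * pwOp W g n = pwOp W g n * F) : F ∈ S.Op (pw X n) (pw X n) := by
  have hEv : Ev W F := by
    apply ev_of_comm
    have h1 := hF _ (par_stab S)
    rwa [pwOp_par] at h1
  have hδ : W.push (diag (pw X n)) (1 : W.H (pw X n)) ∈ S.C ((pw X n).prod (pw X n)) :=
    S.push _ (S.one (pw X n))
  have hc : extOp W LinearMap.id F (W.push (diag (pw X n)) 1) ∈
      S.C ((pw X n).prod (pw X n)) := by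
    refine mem_prod hT n n fun g hg => ?_
    have h1 := fix_prod hg n n hδ
    have h2 : extOp W (pwOp W g n) (pwOp W g n) * extOp W (1 : Module.End W.K (W.H (pw X n))) F =
        extOp W (1 : Module.End W.K (W.H (pw X n))) F * extOp W (pwOp W g n) (pwOp W g n) := by
      rw [extOp_mul, extOp_mul, mul_one, one_mul, hF g hg]
    have h3 := congrArg (fun G : Module.End W.K (W.H ((pw X n).prod (pw X n))) =>
      G (W.push (diag (pw X n)) 1)) h2
    simp only [Module.End.mul_apply] at h3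
    rw [h1] at h3
    exact h3
  have h4 := Sys.Op.corr (S := S) hc
  rwa [corr_ext_diag hEv] at h4

variable {T : AH.HodgeTheory ops}

/-- Endomorphisms of the cohomology of the powers and matrices. -/
lemma matEquiv_mul (B : HBasis W X ι) (n : ℕ)
    (M N : Matrix (Fin (n + 1) → ι) (Fin (n + 1) → ι) W.K) :
    matEquiv B n (M * N) = matEquiv B n M * matEquiv B n N := by
  rw [matEquiv, LinearEquiv.trans_apply, LinearEquiv.trans_apply, LinearEquiv.trans_apply]
  have h1 : Matrix.toLin' (M * N) = Matrix.toLin' M * Matrix.toLin' N := Matrix.toLin'_mul M N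
  refine (congrArg _ h1).trans ?_
  exact LinearEquiv.conj_comp _ _ _

omit [DecidableEq ι] in
lemma form_of_fix [DecidableEq ι] {J g : Matrix ι ι ℂ}
    (h1 : tpw 2 g *ᵥ (fun w : Fin 2 → ι => J⁻¹ (w 0) (w 1)) =
      (fun w : Fin 2 → ι => J⁻¹ (w 0) (w 1))) : g * J⁻¹ * gᵀ = J⁻¹ := by
  ext a b
  have h3 := congrFun h1 ![a, b]
  rw [mulVec, dotProduct] at h3
  rw [Matrix.mul_apply]
  simp only [Matrix.mul_apply, Finset.sum_mul, transpose_apply]
  rw [Finset.sum_comm]
  rw [← Fintype.sum_equiv (finTwoArrowEquiv ι).symm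
    (fun p : ι × ι => tpw 2 g ![a, b] ((finTwoArrowEquiv ι).symm p) *
      J⁻¹ ((finTwoArrowEquiv ι).symm p 0) ((finTwoArrowEquiv ι).symm p 1)) _
    (fun p => rfl), Fintype.sum_prod_type] at h3
  refine Eq.trans ?_ h3
  refine Finset.sum_congr rfl fun x _ => Finset.sum_congr rfl fun y _ => ?_
  rw [tpw_apply, Fin.prod_univ_two]
  simp [finTwoArrowEquiv]
  ring

/-- A matrix which fixes the tensors on `Fin (m + 1)` fixes all tensors. -/
lemma fix_all {P : PSys ι} {g : Matrix ι ι ℂ}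
    (hg : ∀ m : ℕ, ∀ v ∈ P.A (Fin (m + 1)), tpw (m + 1) g *ᵥ v = v)
    (κ : Type) [Fintype κ] [DecidableEq κ] (u : (κ → ι) → ℂ) (hu : u ∈ P.A κ) :
    tp κ g *ᵥ u = u := by
  rcases isEmpty_or_nonempty κ with he | hne
  · have h1 : tp κ g = 1 := by
      ext I J
      rw [tp_apply, Fintype.prod_empty, Subsingleton.elim I J, Matrix.one_apply_eq]
    rw [h1, Matrix.one_mulVec]
  · obtain ⟨m, ⟨e⟩⟩ : ∃ m, Nonempty (κ ≃ Fin (m + 1)) := by
      have h1 : 0 < Fintype.card κ := Fintype.card_pos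
      obtain ⟨m, hm⟩ := Nat.exists_eq_succ_of_ne_zero h1.ne'
      exact ⟨m, ⟨Fintype.equivFinOfCardEq hm⟩⟩
    have h1 : tp (Fin (m + 1)) g *ᵥ (fun w => u (w ∘ e)) = fun w => u (w ∘ e) :=
      hg m _ (P.relabel e hu)
    funext I
    have h2 := congrFun h1 (I ∘ e.symm)
    have h3 : (I ∘ e.symm) ∘ e = I := by
      funext i
      simp
    rw [h3] at h2
    refine Eq.trans ?_ h2
    rw [Matrix.mulVec, Matrix.mulVec, dotProduct, dotProduct]
    refine Fintype.sum_equiv (e.arrowCongr (Equiv.refl ι)) _ _ fun J => ?_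
    rw [tp_apply, tp_apply]
    have h4 : ((e.arrowCongr (Equiv.refl ι)) J) ∘ e = J := by
      funext i
      simp
    rw [h4]
    congr 1
    refine Fintype.prod_equiv e _ _ fun i => ?_
    simp

/-- **The commutant of the correspondences.** -/
theorem sys_comm (hBIC : S_BIC) (hpos : ∀ (Y : 𝒱.Obj) (p q : ℤ), p < 0 ∨ q < 0 → T.pq Y p q = ⊥)
    {ψ : LinearMap.BilinForm T.W.K (T.W.H X)} (hψ : IsPol ψ) (B : HBasis (baseW T.W ℂ) X ι)
    (hB : ∀ i j, hf ψ (B.b i) (B.b j) = if i = j then 1 else 0) (S : Sys (baseW T.W ℂ))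
    (hfix : ∀ (n : ℕ) (x : (baseW T.W ℂ).H (pw X n)), x ∈ S.C (pw X n) →
      gam AlgEquiv.refl Complex.I⁻¹ (pw X n) x = x)
    (hc : ∀ (Y : 𝒱.Obj) (x : (baseW T.W ℂ).H Y), x ∈ S.C Y → sm (cK T) Y x ∈ S.C Y)
    (hev : evp T X ∈ S.Op X X)
    {f : Module.End (baseW T.W ℂ).K ((baseW T.W ℂ).H X)} (hf : f ∈ S.Op X X)
    (hfψ : ∀ x y, psi ψ x y = (baseW T.W ℂ).tr X (f x * y))
    [Nontrivial ((baseW T.W ℂ).H X)] (n : ℕ) :
    finrank (baseW T.W ℂ).K (commSub (K := (baseW T.W ℂ).K) (V := (baseW T.W ℂ).H (pw X n))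
      (S.Op (pw X n) (pw X n) : Set (Module.End (baseW T.W ℂ).K ((baseW T.W ℂ).H (pw X n))))) ≤
    finrank (baseW T.W ℂ).K (Submodule.span (baseW T.W ℂ).K
        {F | ∃ g ∈ stab S X, F = pwOp (baseW T.W ℂ) g n}) := by
  obtain ⟨P, Γ, hΓ, hPJ, hPA, hΓA⟩ := sys_good hpos hψ B hB S hfix hc hev hf hfψ
  have hdiag : (fun w : Fin 2 → ι => P.J⁻¹ (w 0) (w 1)) ∈ P.A (Fin 2) := by
    rw [hPJ]
    exact (hPA 1 _).2 (mem_AS.1 (diag_AS S B))
  have hdet : IsUnit P.J.det := by rw [hPJ]; exact det_tr B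
  have hform0 : ∀ g : Matrix ι ι ℂ, tpw 2 g *ᵥ (fun w : Fin 2 → ι => P.J⁻¹ (w 0) (w 1)) =
      (fun w : Fin 2 → ι => P.J⁻¹ (w 0) (w 1)) → g * P.J⁻¹ * gᵀ = P.J⁻¹ :=
    fun _ h => form_of_fix h
  have hform : ∀ g : Γ.G, Γ.ρ g * P.J⁻¹ * (Γ.ρ g)ᵀ = P.J⁻¹ := fun g =>
    hform0 _ ((hΓA (Fin 2) _).2 hdiag g)
  have hT : ∀ N, ∀ x : (baseW T.W ℂ).H (pw X N),
      (∀ g ∈ stab S X, pwOp (baseW T.W ℂ) g N x = x) → x ∈ S.C (pw X N) := by
    intro N x hx
    obtain ⟨v, rfl⟩ := (Phi_bijective B N).2 x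
    refine (hPA N v).1 ((hΓA _ v).1 fun γ => ?_)
    have h1 : opM B (show Matrix ι ι (baseW T.W ℂ).K from Γ.ρ γ) ∈ stab S X := by
      intro m y hy
      obtain ⟨w, rfl⟩ := (Phi_bijective B m).2 y
      rw [pwOp_Phi, mW_opM]
      exact congrArg (Phi B m) ((hΓA _ w).2 ((hPA m w).2 hy) γ)
    have h2 := hx _ h1
    rw [pwOp_Phi, mW_opM] at h2
    exact (Phi_bijective B N).1 h2
  have hst : ∀ g ∈ stab S X, ∀ m : ℕ, ∀ v ∈ P.A (Fin (m + 1)),
      tpw (m + 1) (show Matrix ι ι ℂ from mW B g) *ᵥ v = v := by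
    intro g hg m v hv
    have h1 := hg m _ ((hPA m v).1 hv)
    have h2 := pwOp_Phi B g m v
    exact (Phi_bijective B m).1 (h2.symm.trans h1)
  have hN : ∀ N : Matrix (Fin (n + 1) → ι) (Fin (n + 1) → ι) ℂ, Γ.IsEqv (n + 1) (n + 1) N →
      matEquiv B n (show Matrix (Fin (n + 1) → ι) (Fin (n + 1) → ι) (baseW T.W ℂ).K from N) ∈
        S.Op (pw X n) (pw X n) := by
    intro N hN
    refine op_of_comm hT n fun g hg => ?_
    have h1 := comm_of_fix hΓA hdet hform (g := (show Matrix ι ι ℂ from mW B g))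
      (fix_all (hst g hg)) (hform0 _ (hst g hg 1 _ hdiag)) hN
    rw [← matEquiv_tpK B n g, ← matEquiv_mul B n, ← matEquiv_mul B n]
    exact congrArg (matEquiv B n) h1.symm
  have key : commSub (K := (baseW T.W ℂ).K) (V := (baseW T.W ℂ).H (pw X n))
      (S.Op (pw X n) (pw X n) : Set (Module.End (baseW T.W ℂ).K ((baseW T.W ℂ).H (pw X n)))) ≤
      Submodule.span (baseW T.W ℂ).K {F | ∃ g ∈ stab S X, F = pwOp (baseW T.W ℂ) g n} := by
    intro F hF
    obtain ⟨M, rfl⟩ := (matEquiv B n).surjective F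
    have h1 : (show Matrix (Fin (n + 1) → ι) (Fin (n + 1) → ι) ℂ from M) ∈
        Γ.orb (n + 1) (1 : Matrix (Fin (n + 1) → ι) (Fin (n + 1) → ι) ℂ) := by
      refine (hBIC ι Γ (n + 1) _).1 fun N hN' => ?_
      have h2 := hF _ (hN N hN')
      rw [← matEquiv_mul B n, ← matEquiv_mul B n] at h2
      exact (matEquiv B n).injective h2
    rw [← span_fix hBIC hΓA hdet hdiag (n + 1)] at h1
    refine Submodule.span_induction
      (p := fun (M : Matrix (Fin (n + 1) → ι) (Fin (n + 1) → ι) ℂ) _ => matEquiv B n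
      (show Matrix (Fin (n + 1) → ι) (Fin (n + 1) → ι) (baseW T.W ℂ).K from M) ∈
      Submodule.span (baseW T.W ℂ).K {F | ∃ g ∈ stab S X, F = pwOp (baseW T.W ℂ) g n})
      ?_ ?_ ?_ ?_ h1
    · rintro _ ⟨g, hg, rfl⟩
      refine Submodule.subset_span ⟨opM B (show Matrix ι ι (baseW T.W ℂ).K from g), ?_, ?_⟩
      · intro m y hy
        obtain ⟨w, rfl⟩ := (Phi_bijective B m).2 y
        rw [pwOp_Phi, mW_opM]
        exact congrArg (Phi B m) (hg m w ((hPA m w).2 hy))
      · rw [← matEquiv_tpK B n, mW_opM]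
        rfl
    · exact (congrArg (fun z => z ∈ Submodule.span (baseW T.W ℂ).K
        {F | ∃ g ∈ stab S X, F = pwOp (baseW T.W ℂ) g n}) (map_zero (matEquiv B n))).mpr
        (Submodule.zero_mem _)
    · intro M N _ _ hM hN
      exact (congrArg (fun z => z ∈ Submodule.span (baseW T.W ℂ).K
        {F | ∃ g ∈ stab S X, F = pwOp (baseW T.W ℂ) g n}) (map_add (matEquiv B n) _ _)).mpr
        (Submodule.add_mem _ hM hN)
    · intro c M _ hM
      exact (congrArg (fun z => z ∈ Submodule.span (baseW T.W ℂ).K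
        {F | ∃ g ∈ stab S X, F = pwOp (baseW T.W ℂ) g n})
          ((matEquiv B n).map_smul (show (baseW T.W ℂ).K from c) _)).mpr
        (Submodule.smul_mem _ _ hM)
  exact Submodule.finrank_mono key

end Pool.Agent.H847.CG
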