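import Pool.Agent.H847.CG.Cm2
import Pool.Agent.H847.CG.CBC
import Pool.Agent.H847.CG.Fin1

/-!
# The commutant of the correspondences: rational coefficients
-/

set_option linter.unusedSectionVars false
set_option linter.unusedVariables false

open CategoryTheory AlgebraicGeometry CategoryTheory.Limits TensorProduct Matrix Filter

universe u v

namespace Pool.Agent.H847.CG

open Pool.Agent.H914 Pool.Agent.H447 Pool.Agent.W534 Pool.Agent.Y163 VarClass Obj WeilCohomology
  Module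
open Pool.Agent.Y121 Pool.Agent.Y121.AHS Pool.Agent.R940 Pool.Agent.R914.UN Pool.Agent.R920.MT
open Pool.Agent.Y133.Half (Sys PH Ev Adj ClassPred dimBy)

variable {k : Type u} [Field k] {𝒱 : VarClass k} {ops : CycleOps 𝒱}

section alg

lemma commSub_anti {K V : Type} [Field K] [AddCommGroup V] [Module K V]
    {C D : Set (Module.End K V)} (h : C ⊆ D) : commSub D ≤ commSub C :=
  fun _ hF g hg => hF g (h hg)

/-- The commutant of the span. -/
lemma commSub_span {K V : Type} [Field K] [AddCommGroup V] [Module K V]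
    (C : Set (Module.End K V)) : commSub (Submodule.span K C : Set (Module.End K V)) = commSub C := by
  apply le_antisymm (commSub_anti Submodule.subset_span)
  intro F hF g hg
  refine Submodule.span_induction (p := fun g _ => F * g = g * F) ?_ ?_ ?_ ?_ hg
  · intro g hg; exact hF g hg
  · rw [mul_zero, zero_mul]
  · intro a b _ _ ha hb; rw [mul_add, add_mul, ha, hb]
  · intro c a _ ha; rw [mul_smul_comm, smul_mul_assoc, ha]

end alg

/-- The correspondences given by the elements of `G`. -/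
def corrs (W : WeilCohomology.{u, 0} ops) (Y : 𝒱.Obj) (G : Submodule W.K (W.H (Y.prod Y))) :
    Set (Module.End W.K (W.H Y)) := {f | ∃ c ∈ G, f = W.corr c}

variable {T : AH.HodgeTheory ops} {X Y Z : 𝒱.Obj}

lemma corr_em (c : T.W.H (Y.prod Y)) :
    (baseW T.W ℂ).corr (AH.em T.W ℂ c) =
      (show Module.End (baseW T.W ℂ).K ((baseW T.W ℂ).H Y) from (T.W.corr c).baseChange ℂ) := by
  apply LinearMap.ext
  intro x
  refine em_ind (p := fun x => (baseW T.W ℂ).corr (AH.em T.W ℂ c) x =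
    (show Module.End (baseW T.W ℂ).K ((baseW T.W ℂ).H Y) from (T.W.corr c).baseChange ℂ) x)
    ?_ ?_ ?_ ?_ x
  · rw [map_zero, map_zero]
  · intro x y hx hy; rw [map_add, map_add, hx, hy]
  · intro r x hx; rw [map_smul, map_smul, hx]
  · intro i a ha
    rw [AH.em_corr]
    exact (LinearMap.baseChange_tmul (A := ℂ) (1 : ℂ) a (f := T.W.corr c)).symm

lemma comm_base (Q : ClassPred T.W) (Y : 𝒱.Obj) :
    finrank T.W.K (commSub (corrs T.W Y (Q.sp (Y.prod Y)))) ≤
      finrank (baseW T.W ℂ).K (commSub (K := (baseW T.W ℂ).K) (V := (baseW T.W ℂ).H Y)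
        ((Q.sys.base ℂ).Op Y Y : Set (Module.End (baseW T.W ℂ).K ((baseW T.W ℂ).H Y)))) := by
  have h1 := CBC.main T.W.K ℂ (T.W.H Y) (corrs T.W Y (Q.sp (Y.prod Y)))
  rw [← h1]
  have h2 : commSub (K := (baseW T.W ℂ).K) (V := (baseW T.W ℂ).H Y)
      ((fun g : Module.End T.W.K (T.W.H Y) =>
        (show Module.End (baseW T.W ℂ).K ((baseW T.W ℂ).H Y) from g.baseChange ℂ)) ''
          (corrs T.W Y (Q.sp (Y.prod Y)))) ≤
      commSub (K := (baseW T.W ℂ).K) (V := (baseW T.W ℂ).H Y)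
        ((Q.sys.base ℂ).Op Y Y : Set (Module.End (baseW T.W ℂ).K ((baseW T.W ℂ).H Y))) := by
    intro F hF g hg
    obtain ⟨c, hc, rfl⟩ := Sys.mem_Op.1 hg
    refine SG_ind (T := T) (L := ℂ) (G := Q.sp (Y.prod Y))
      (P := fun c => F * (baseW T.W ℂ).corr c = (baseW T.W ℂ).corr c * F) ?_ ?_ ?_ ?_ hc
    · rw [corr_zero, mul_zero, zero_mul]
    · intro x y hx hy; rw [corr_add, mul_add, add_mul, hx, hy]
    · intro c x hx; rw [corr_smul, mul_smul_comm, smul_mul_assoc, hx]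
    · intro a ha
      rw [corr_em]
      exact hF _ ⟨_, ⟨a, ha, rfl⟩, rfl⟩
  exact Submodule.finrank_mono (R := (baseW T.W ℂ).K)
    (M := Module.End (baseW T.W ℂ).K ((baseW T.W ℂ).H Y)) h2

/-- **The dimension of the commutant of the correspondences on the powers.** -/
theorem pred_comm
    (hpos : ∀ (Y : 𝒱.Obj) (p q : ℤ), p < 0 ∨ q < 0 → T.pq Y p q = ⊥)
    (hsym : ∀ (p q : ℤ) (x : (baseW T.W ℂ).H X), x ∈ T.pq X p q → sm (cK T) X x ∈ T.pq X q p)
    {ψ : LinearMap.BilinForm T.W.K (T.W.H X)} (hψ : IsPol ψ) (Q : ClassPred T.W)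
    (hQ : ∀ (Y : 𝒱.Obj) (j : ℕ) (c : T.W.H Y), Q.P Y j c → AH.IsHodge T Y j c)
    {c : T.W.H (X.prod X)} (hc : c ∈ Q.sp (X.prod X))
    (h : ∀ x y, ψ x y = T.W.tr X (T.W.corr c x * y)) [Nontrivial (T.W.H X)] (n : ℕ) :
    finrank T.W.K (commSub (corrs T.W (pw X n) (Q.sp ((pw X n).prod (pw X n))))) ≤
      grp Q X n := by
  obtain ⟨b, B, hb, hB⟩ := exists_hbasis_onb hsym hψ
  subst hb
  have hQs : ∀ Y : 𝒱.Obj, Q.sp Y ≤ (AH.hodgePred T).sp Y := fun Y =>
    Submodule.span_mono fun c ⟨j, hj⟩ => ⟨j, hQ Y j c hj⟩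
  have : Nontrivial ((baseW T.W ℂ).H X) := by
    obtain ⟨x, hx⟩ := exists_ne (0 : T.W.H X)
    exact ⟨AH.em T.W ℂ x, 0, fun h0 => hx (AH.em_injective h0)⟩
  refine (comm_base Q (pw X n)).trans ?_
  exact sys_comm BIC.main hpos hψ B hB (Q.sys.base ℂ)
    (fun n x hx => gam_SG (SG_mono (hQs _) hx) AlgEquiv.refl _)
    (fun Y x hx => sm_SG (cK T) hx) (evp_base EVP.main hsym hψ Q hc h) (em_Op Q hc)
    (psi_corr h) n

/-- **The dimension of the commutant of the correspondences, for properties of classes.** -/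
theorem prop_comm (T : HodgeTheory ops) (hpos : NonnegTypes T) (X : 𝒱.Obj)
    (hsym : HodgeSymmetric T X) [Nontrivial (T.W.H X)] (P : Property T.W) (hP : IsClassSystem P)
    (hH : ∀ Y j c, P Y j c → IsHodge T Y j c) {ψ : BilH T X} (hψ : IsPolarisation T X ψ)
    (hψP : GivenBy P ψ) (n : ℕ) :
    finrank T.W.K (commSub (corrs T.W (pw X n)
      (Submodule.span T.W.K {c | ∃ j, P ((pw X n).prod (pw X n)) j c}))) ≤
      polyDim T.W P X n := by
  obtain ⟨γ, hγ, hγψ⟩ := hψP
  have key : ∀ x y : T.W.H X, bilVal ψ x y = T.W.tr X (T.W.corr γ x * y) := by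
    intro x y
    have h3 : T.W.tr X (T.W.corr γ x * y) =
        T.W.tr (X.prod X) (γ * T.W.map (fst X X) x * T.W.map (snd X X) y) := by
      rw [corr_apply, T.W.tr_push]
    rw [hγψ, h3, mul_assoc]
  have hnt : Nontrivial ((toH T).W.H X) := ‹Nontrivial (T.W.H X)›
  have h1 := pred_comm (T := toH T) (X := X) hpos hsym (ψ := ψ) ⟨hψ.orth, hψ.pos⟩ (cpred P hP) hH
    (c := γ) hγ (fun x y => key x y) n
  have h5 : grp (T := toH T) (cpred P hP) X n = polyDim T.W P X n := by
    rw [grp, polyDim]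
    have h6 := fix_eq (T := toH T) P hP X
    have h7 : FixGroup T.W P X = stab ((cpred P hP).sys.base ℂ) X := h6
    rw [h7]
    rfl
  rw [← h5]
  exact h1

end Pool.Agent.H847.CG
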