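import Pool.Agent.H847.CG.Pair
import Pool.Graph.R_seed8.Y163.Idx

/-!
# The commutant of the correspondences: general lemmas
-/

set_option linter.unusedSectionVars false
set_option linter.unusedVariables false

open CategoryTheory AlgebraicGeometry CategoryTheory.Limits TensorProduct Matrix

universe u v

namespace Pool.Agent.H847.CG

open Pool.Agent.H914 Pool.Agent.H447 Pool.Agent.W534 Pool.Agent.Y163 VarClass Obj WeilCohomology
  Module
open Pool.Agent.Y121 Pool.Agent.R940 Pool.Agent.R914.UN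
open Pool.Agent.Y133.Half (Sys PH Ev Adj)

variable {k : Type u} [Field k] {𝒱 : VarClass k} {ops : CycleOps 𝒱}

variable {W : WeilCohomology.{u, 0} ops} {X Y Z Z' : 𝒱.Obj} {ι : Type} [Fintype ι] [DecidableEq ι]

lemma map_assoc (a : Module.End W.K (W.H X)) (b : Module.End W.K (W.H Y))
    (c : Module.End W.K (W.H Z)) (x : W.H (X.prod (Y.prod Z))) :
    extOp W (extOp W a b) c (W.map (assocIso X Y Z).hom x) =
      W.map (assocIso X Y Z).hom (extOp W a (extOp W b c) x) := by
  have e1 : (assocIso X Y Z).hom ≫ fst X (Y.prod Z) = fst (X.prod Y) Z ≫ fst X Y :=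
    Obj.lift_fst _ _
  have e2 : ((assocIso X Y Z).hom ≫ snd X (Y.prod Z)) ≫ fst Y Z =
      fst (X.prod Y) Z ≫ snd X Y :=
    (congrArg (· ≫ fst Y Z) (Obj.lift_snd _ _)).trans (Obj.lift_fst _ _)
  have e3 : ((assocIso X Y Z).hom ≫ snd X (Y.prod Z)) ≫ snd Y Z = snd (X.prod Y) Z :=
    (congrArg (· ≫ snd Y Z) (Obj.lift_snd _ _)).trans (Obj.lift_snd _ _)
  have key : ∀ (u : W.H X) (v : W.H Y) (w : W.H Z), W.map (assocIso X Y Z).hom
      (W.map (fst X (Y.prod Z)) u * W.map (snd X (Y.prod Z)) (W.map (fst Y Z) v *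
        W.map (snd Y Z) w)) =
      W.map (fst (X.prod Y) Z) (W.map (fst X Y) u * W.map (snd X Y) v) *
        W.map (snd (X.prod Y) Z) w := by
    intro u v w
    rw [map_mul (W.map (assocIso X Y Z).hom), map_mul (W.map (snd X (Y.prod Z))),
      map_mul (W.map (assocIso X Y Z).hom), map_mul (W.map (fst (X.prod Y) Z)),
      ← W.map_comp, ← W.map_comp, ← W.map_comp, ← W.map_comp, ← W.map_comp, ← W.map_comp,
      ← W.map_comp, e1, e2, e3, mul_assoc]
  refine W.kunneth_induction (p := fun x => extOp W (extOp W a b) c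
    (W.map (assocIso X Y Z).hom x) =
      W.map (assocIso X Y Z).hom (extOp W a (extOp W b c) x)) ?_ ?_ x
  · intro x y hx hy
    rw [map_add, map_add, hx, hy, map_add, map_add]
  · intro i j u _ v' _
    refine W.kunneth_induction (p := fun v' => extOp W (extOp W a b) c
      (W.map (assocIso X Y Z).hom (W.map (fst X (Y.prod Z)) u * W.map (snd X (Y.prod Z)) v')) =
      W.map (assocIso X Y Z).hom (extOp W a (extOp W b c)
        (W.map (fst X (Y.prod Z)) u * W.map (snd X (Y.prod Z)) v'))) ?_ ?_ v'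
    · intro x y hx hy
      simp only [map_add, mul_add] at hx hy ⊢
      rw [hx, hy]
    · intro i j v _ w _
      rw [key, extOp_tmul, extOp_tmul, extOp_tmul, extOp_tmul, key]

lemma map_prodIso (e : Z ≅ Z') (a : Module.End W.K (W.H X)) (F : Module.End W.K (W.H Z'))
    (F' : Module.End W.K (W.H Z)) (h : ∀ y, F' (W.map e.hom y) = W.map e.hom (F y))
    (x : W.H (X.prod Z')) :
    extOp W a F' (W.map (prodIso (Iso.refl X) e).hom x) =
      W.map (prodIso (Iso.refl X) e).hom (extOp W a F x) := by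
  have e1 : (prodIso (Iso.refl X) e).hom ≫ fst X Z' = fst X Z := by
    refine (Obj.lift_fst _ _).trans ?_
    exact Category.comp_id _
  have e2 : (prodIso (Iso.refl X) e).hom ≫ snd X Z' = snd X Z ≫ e.hom := Obj.lift_snd _ _
  have key : ∀ (u : W.H X) (v : W.H Z'), W.map (prodIso (Iso.refl X) e).hom
      (W.map (fst X Z') u * W.map (snd X Z') v) =
      W.map (fst X Z) u * W.map (snd X Z) (W.map e.hom v) := by
    intro u v
    rw [map_mul (W.map (prodIso (Iso.refl X) e).hom), ← W.map_comp, ← W.map_comp, e1, e2,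
      W.map_comp]
  refine W.kunneth_induction (p := fun x => extOp W a F' (W.map (prodIso (Iso.refl X) e).hom x) =
      W.map (prodIso (Iso.refl X) e).hom (extOp W a F x)) ?_ ?_ x
  · intro x y hx hy
    rw [map_add, map_add, hx, hy, map_add, map_add]
  · intro i j u _ v _
    rw [key, extOp_tmul, extOp_tmul, key, h]

lemma tr_id {P : 𝒱.Obj} (F : Module.End W.K (W.H P)) (x : W.H P) :
    F (W.map (Iso.refl P).hom x) = W.map (Iso.refl P).hom (F x) := by
  have h : ∀ y : W.H P, W.map (Iso.refl P).hom y = y := fun y => W.map_id _ y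
  rw [h, h]

lemma tr_comp {P Q R : 𝒱.Obj} (e : P ≅ Q) (e' : Q ≅ R) {F : Module.End W.K (W.H P)}
    {G : Module.End W.K (W.H Q)} {T : Module.End W.K (W.H R)}
    (h : ∀ x, F (W.map e.hom x) = W.map e.hom (G x))
    (h' : ∀ x, G (W.map e'.hom x) = W.map e'.hom (T x)) (x : W.H R) :
    F (W.map (e ≪≫ e').hom x) = W.map (e ≪≫ e').hom (T x) := by
  have h1 : ∀ y, W.map (e ≪≫ e').hom y = W.map e.hom (W.map e'.hom y) :=
    fun y => W.map_comp _ _ y
  rw [h1, h1, h, h']

/-- The product of two powers is a power. -/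
lemma tens_iso (W : WeilCohomology.{u, 0} ops) (X : 𝒱.Obj) (n : ℕ) : ∀ m : ℕ, ∃ N : ℕ,
    ∃ e : (pw X m).prod (pw X n) ≅ pw X N, ∀ (g : Module.End W.K (W.H X)) (x : W.H (pw X N)),
      extOp W (pwOp W g m) (pwOp W g n) (W.map e.hom x) = W.map e.hom (pwOp W g N x)
  | 0 => ⟨n + 1, Iso.refl _, fun g x => tr_id (extOp W g (pwOp W g n)) x⟩
  | m + 1 => by
    obtain ⟨N, e, he⟩ := tens_iso W X n m
    exact ⟨N + 1, assocIso X (pw X m) (pw X n) ≪≫ prodIso (Iso.refl X) e, fun g x =>
      tr_comp (assocIso X (pw X m) (pw X n)) (prodIso (Iso.refl X) e)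
        (map_assoc g (pwOp W g m) (pwOp W g n))
        (map_prodIso e g (pwOp W g N) (extOp W (pwOp W g m) (pwOp W g n)) (he g)) x⟩

lemma map_inv_hom (e : Y ≅ Z) (x : W.H Y) : W.map e.hom (W.map e.inv x) = x := by
  rw [← W.map_comp, e.hom_inv_id, W.map_id]

lemma map_hom_inv (e : Y ≅ Z) (x : W.H Z) : W.map e.inv (W.map e.hom x) = x := by
  rw [← W.map_comp, e.inv_hom_id, W.map_id]

/-- The operators of the group fix the classes on the products of two powers. -/
lemma fix_prod {S : Sys W} {g : Module.End W.K (W.H X)} (hg : g ∈ stab S X) (m n : ℕ)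
    {c : W.H ((pw X m).prod (pw X n))} (hc : c ∈ S.C ((pw X m).prod (pw X n))) :
    extOp W (pwOp W g m) (pwOp W g n) c = c := by
  obtain ⟨N, e, he⟩ := tens_iso W X n m
  rw [← map_inv_hom e c, he, hg N _ (S.map e.inv hc)]

/-- The classes on the products of two powers fixed by the group. -/
lemma mem_prod {S : Sys W} (hT : ∀ N, ∀ x : W.H (pw X N), (∀ g ∈ stab S X, pwOp W g N x = x) →
    x ∈ S.C (pw X N)) (m n : ℕ) {c : W.H ((pw X m).prod (pw X n))}
    (hc : ∀ g ∈ stab S X, extOp W (pwOp W g m) (pwOp W g n) c = c) :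
    c ∈ S.C ((pw X m).prod (pw X n)) := by
  obtain ⟨N, e, he⟩ := tens_iso W X n m
  have h1 : W.map e.inv c ∈ S.C (pw X N) := by
    refine hT N _ fun g hg => ?_
    have h2 := he g (W.map e.inv c)
    rw [map_inv_hom, hc g hg] at h2
    rw [← map_hom_inv e (pwOp W g N (W.map e.inv c)), ← h2]
  have h3 := S.map e.hom h1
  rwa [map_inv_hom] at h3

lemma two_injective (B : HBasis W X ι) {M N : Matrix ι ι W.K} (h : two B M = two B N) : M = N := by
  rw [← Phi_two, ← Phi_two] at h
  have h1 := (Phi_bijective B 1).1 h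
  ext i j
  exact congrFun h1 ![i, j]

/-- External products of operators on the classes on `X × X`. -/
lemma ext_two (B : HBasis W X ι) (f f' : Module.End W.K (W.H X)) (N : Matrix ι ι W.K) :
    extOp W f f' (two B N) = two B (mW B f * N * (mW B f')ᵀ) := by
  have h2 : ∀ i j, extOp W f f' (W.map (fst X X) (B.b i) * W.map (snd X X) (B.b j)) =
      ∑ l, ∑ r, (mW B f l i * mW B f' r j) •
        (W.map (fst X X) (B.b l) * W.map (snd X X) (B.b r)) := by
    intro i j
    rw [extOp_tmul, mW_sum B f i, mW_sum B f' j, map_sum, map_sum, Finset.sum_mul]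
    refine Finset.sum_congr rfl fun l _ => ?_
    rw [Finset.mul_sum]
    refine Finset.sum_congr rfl fun r _ => ?_
    rw [map_smul, map_smul, smul_mul_assoc, mul_smul_comm, smul_smul]
  rw [two, two, map_sum]
  simp only [map_sum, map_smul, h2, Finset.smul_sum, smul_smul]
  have h3 : ∀ l r, (mW B f * N * (mW B f')ᵀ) l r =
      ∑ i, ∑ j, N i j * (mW B f l i * mW B f' r j) := by
    intro l r
    rw [Matrix.mul_apply]
    simp only [Matrix.mul_apply, Matrix.transpose_apply, Finset.sum_mul]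
    rw [Finset.sum_comm]
    refine Finset.sum_congr rfl fun i _ => Finset.sum_congr rfl fun j _ => ?_
    ring
  simp only [h3, Finset.sum_smul]
  calc ∑ i, ∑ j, ∑ l, ∑ r, (N i j * (mW B f l i * mW B f' r j)) •
        (W.map (fst X X) (B.b l) * W.map (snd X X) (B.b r))
      = ∑ i, ∑ l, ∑ j, ∑ r, (N i j * (mW B f l i * mW B f' r j)) •
        (W.map (fst X X) (B.b l) * W.map (snd X X) (B.b r)) :=
        Finset.sum_congr rfl fun i _ => Finset.sum_comm
    _ = ∑ l, ∑ i, ∑ j, ∑ r, (N i j * (mW B f l i * mW B f' r j)) •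
        (W.map (fst X X) (B.b l) * W.map (snd X X) (B.b r)) := Finset.sum_comm
    _ = ∑ l, ∑ i, ∑ r, ∑ j, (N i j * (mW B f l i * mW B f' r j)) •
        (W.map (fst X X) (B.b l) * W.map (snd X X) (B.b r)) :=
        Finset.sum_congr rfl fun l _ => Finset.sum_congr rfl fun i _ => Finset.sum_comm
    _ = _ := Finset.sum_congr rfl fun l _ => Finset.sum_comm

end Pool.Agent.H847.CG
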