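import Pool.Graph.R_seed8.H914R2.ExtOp
import Pool.Graph.R_seed8.Y163.Pow
import Pool.Graph.R_seed8.R920.MT.Defs
import Pool.Graph.R_seed8.Y133.Half.PairDefs
import Pool.Graph.R_seed8.Y121.AH.Defs
import Pool.Graph.R_pool_sql_team_seeded_b0a926ef.R914.UN.HDefs

/-!
# Orders of growth, systems of classes and the groups which fix them: definitions
-/

open CategoryTheory AlgebraicGeometry

universe u v

namespace Pool.Agent.H847.CG

/-- The exact order of growth `b ^ n n ^ (- D / 2)`. -/
def HasOrder (b : ℝ) (D : ℕ) (t : ℕ → ℕ) : Prop :=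
  ∃ c C : ℝ, 0 < c ∧ ∀ n : ℕ, c * (b ^ n * ((n : ℝ) + 1) ^ (-(D : ℝ) / 2)) ≤ t n ∧
    (t n : ℝ) ≤ C * (b ^ n * ((n : ℝ) + 1) ^ (-(D : ℝ) / 2))

/-- The exact order of growth `n ^ D`. -/
def HasPoly (D : ℕ) (z : ℕ → ℕ) : Prop :=
  ∃ c C : ℝ, 0 < c ∧ ∀ n : ℕ, c * ((n : ℝ) + 1) ^ D ≤ z n ∧ (z n : ℝ) ≤ C * ((n : ℝ) + 1) ^ D

/-- The quotients `t n / s n` differ from `N` by at most a constant multiple of `1 / (n + 1)`. -/
def NearIndex (N : ℕ) (t s : ℕ → ℕ) : Prop :=
  ∃ C : ℝ, ∀ n : ℕ, |(t n : ℝ) - N * s n| ≤ C / (n + 1) * s n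

/-- The lower bound `t n ≥ c n ^ (1 / 2) s n` for all `n`. -/
def SqrtGap (t s : ℕ → ℕ) : Prop :=
  ∃ c : ℝ, 0 < c ∧ ∀ n : ℕ, c * Real.sqrt (n + 1) * s n ≤ t n

open Pool.Agent.H914 Pool.Agent.H914.VarClass Pool.Agent.H914.VarClass.Obj
  Pool.Agent.H914.WeilCohomology Pool.Agent.R920.MT
open Pool.Agent.Y163 (pw)

variable {k : Type u} [Field k] {𝒱 : VarClass k} {ops : CycleOps 𝒱}

/-- The element `c` lies in the subspace `V`. -/
def LiesIn {K A : Type*} [Field K] [Ring A] [Algebra K A] (V : Submodule K A) (c : A) : Prop :=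
  c ∈ V

/-- A system of classes: a property of classes of degree `2 j` which holds for the classes of the
algebraic cycles and is stable under linear combinations, products, pull-backs and push-forwards. -/
structure IsClassSystem {W : WeilCohomology.{u, v} ops} (P : Property W) : Prop where
  lin : Linear P
  cyc : HasCycles P
  mul : MulClosed P
  map : PullClosed P
  push : PushClosed P
  deg : ∀ Y j c, P Y j c → LiesIn (W.gr Y (2 * j)) c

/-- The linear map `g ⊗ … ⊗ g` on the cohomology of the power `X ^ (n + 1)`, which is the tensor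
power `n + 1` of the cohomology of `X`. -/
noncomputable def pwOp (W : WeilCohomology.{u, 0} ops) {X : 𝒱.Obj} (g : Module.End W.K (W.H X)) :
    ∀ n : ℕ, Module.End W.K (W.H (pw X n))
  | 0 => g
  | n + 1 => extOp W g (pwOp W g n)

variable (W : WeilCohomology.{u, 0} ops) [Algebra W.K ℂ]

/-- The group of the linear automorphisms `g` of the cohomology of `X` with complex coefficients such
that, for all `n`, `g ⊗ … ⊗ g` fixes the classes with the property `P` on `X ^ (n + 1)`. -/
def FixGroup (P : Property W) (X : 𝒱.Obj) : Set (Module.End (baseW W ℂ).K ((baseW W ℂ).H X)) :=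
  {g | ∀ n j c, P (pw X n) j c →
    pwOp (baseW W ℂ) g n (Pool.Agent.Y121.AH.em W ℂ c) = Pool.Agent.Y121.AH.em W ℂ c}

/-- The dimension of the span of the operators `g ⊗ … ⊗ g` on the cohomology of `X ^ (n + 1)`, for
`g` in the group `FixGroup W P X`. It is the dimension of the space of the functions on this group
which are given by homogeneous polynomials of degree `n + 1` in the entries of the matrices. -/
noncomputable def polyDim (P : Property W) (X : 𝒱.Obj) (n : ℕ) : ℕ :=
  Module.finrank (baseW W ℂ).K (Submodule.span (baseW W ℂ).K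
    {F | ∃ g ∈ FixGroup W P X, F = pwOp (baseW W ℂ) g n})

/-- The bilinear form `ψ` is `ψ(x, y) = tr(γ p(x) q(y))`, where `γ` is a linear combination of
elements of `S`. -/
def FormOf {K A B : Type} [Field K] [Ring A] [Algebra K A] [Ring B] [Algebra K B] (tr : B →ₗ[K] K)
    (p q : A →ₐ[K] B) (S : Set B) (ψ : LinearMap.BilinForm K A) : Prop :=
  ∃ γ ∈ Submodule.span K S, ∀ x y, Pool.Agent.R914.UN.bilVal ψ x y = tr (γ * (p x * q y))

/-- The bilinear form `ψ` on `H(X)` is given by a linear combination `γ` of classes with the property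
`P` on `X × X`: `ψ(x, y)` is the integral of `γ` times the external product of `x` and `y`. -/
def GivenBy {T : Pool.Agent.Y121.AHS.HodgeTheory ops} (P : Property T.W) {X : 𝒱.Obj}
    (ψ : Pool.Agent.R914.UN.BilH T X) : Prop :=
  FormOf (T.W.tr (X.prod X)) (T.W.map (fst X X)) (T.W.map (snd X X)) {c | ∃ j, P (X.prod X) j c} ψ

end Pool.Agent.H847.CG
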