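import Pool.Agent.H847.CG.Stm2

/-!
# Growth of invariant tensors of compact groups: the third batch of statements
-/

set_option linter.unusedSectionVars false

open MeasureTheory Matrix
open scoped ComplexOrder

namespace Pool.Agent.H847.CG

/-- BIC: the double centraliser theorem. Proof. `A = orb r 1` is the span of the unitary matrices
`ρ_r(g) = tpw r (ρ g)`, a subalgebra closed under `ᴴ`. Direction `⟸` is clear. Let `M` commute with all `N` with
`IsEqv r r N` (these are the `N` commuting with `A`). On the matrices `X : Matrix (Fin r → B) (Fin r → B)` let `Q` be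
the orthogonal projection (Frobenius inner product) onto the subspace `A = A * 1`. As `A` is stable under
left multiplication by the unitary matrices `ρ_r(g)`, so is its orthogonal complement, and `Q` commutes with
these left multiplications. For column indices `J`, `K` the matrix
`N_(J K) : x ↦ column K of Q (x ⊗ e_J)` (`x ⊗ e_J` the matrix with the column `x` at `J`) is equivariant, so it
commutes with `M`; hence `Q` commutes with the left multiplication by `M`: `M = M * 1 = M * Q 1 = Q M ∈ A`. -/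
def S_BIC : Prop := ∀ (B : Type) [Fintype B] [DecidableEq B] (Γ : CGrp B) (r : ℕ)
  (M : Matrix (Fin r → B) (Fin r → B) ℂ),
  (∀ N : Matrix (Fin r → B) (Fin r → B) ℂ, Γ.IsEqv r r N → M * N = N * M) ↔
    M ∈ Γ.orb r (1 : Matrix (Fin r → B) (Fin r → B) ℂ)

/-- PRJ. Proof. Let `m = X^k * g` be the minimal polynomial of `u`, `g 0 ≠ 0`, `g = g₀ + X h`. On the range of `p`
the endomorphism `u` is injective (and preserves the range), so `g(u)` vanishes there, `x = - g₀⁻¹ u h(u) x`; on
the kernel of `p` both `p` and `u` vanish. So `p = u * (- g₀⁻¹ h)(u)`. -/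
def S_PRJ : Prop := ∀ (K : Type) [Field K] (V : Type) [AddCommGroup V] [Module K V]
  [FiniteDimensional K V] (u p : Module.End K V), p * p = p → u * p = u → p * u = u →
  (∀ x, p x = x → u x = 0 → x = 0) → ∃ q : Polynomial K, p = u * Polynomial.aeval u q

/-- The growth law, with the meaning of the exponent. -/
def S_GROW2 : Prop := ∀ (B : Type) [Fintype B] [DecidableEq B] (Γ : CGrp B), Good Γ →
  ∃ (D : ℕ) (c C : ℝ), 0 < c ∧ 0 < C ∧ ∀ n : ℕ,
    c * ((Fintype.card B : ℝ) ^ n) ^ 2 ≤ (Γ.s n : ℝ) ^ 2 * ((n : ℝ) + 1) ^ D ∧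
    (Γ.s n : ℝ) ^ 2 * ((n : ℝ) + 1) ^ D ≤ C * ((Fintype.card B : ℝ) ^ n) ^ 2 ∧
    c * ((n : ℝ) + 1) ^ D ≤
      Module.finrank ℂ (Γ.orb n (1 : Matrix (Fin n → B) (Fin n → B) ℂ)) ∧
    (Module.finrank ℂ (Γ.orb n (1 : Matrix (Fin n → B) (Fin n → B) ℂ)) : ℝ) ≤
      C * ((n : ℝ) + 1) ^ D

end Pool.Agent.H847.CG
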