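import Pool.Agent.H847.CG.Glue4
import Pool.Agent.H847.CG.PDefs
import Pool.Agent.H847.CG.Stm3

/-!
# The group which fixes the classes of a system
-/

set_option linter.unusedSectionVars false
set_option linter.unusedVariables false

open CategoryTheory AlgebraicGeometry CategoryTheory.Limits TensorProduct Matrix

universe u v

namespace Pool.Agent.H847.CG

open Pool.Agent.H914 Pool.Agent.H447 Pool.Agent.W534 Pool.Agent.Y163 VarClass Obj WeilCohomology
  Module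
open Pool.Agent.Y121 Pool.Agent.R940 Pool.Agent.R914.UN
open Pool.Agent.Y133.Half (Sys PH Ev Adj)

section alg

variable {B : Type} [Fintype B] [DecidableEq B]

/-- The tensor of an equivariant matrix. -/
lemma eqv_mem {P : PSys B} {Γ : CGrp B}
    (hΓ : ∀ (κ : Type) [Fintype κ] [DecidableEq κ] (v : (κ → B) → ℂ),
        (∀ g, tp κ (Γ.ρ g) *ᵥ v = v) ↔ v ∈ P.A κ)
    (hform : ∀ g : Γ.G, Γ.ρ g * P.J⁻¹ * (Γ.ρ g)ᵀ = P.J⁻¹)
    {r n : ℕ} {N : Matrix (Fin n → B) (Fin r → B) ℂ} (hN : Γ.IsEqv r n N) :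
    (fun w : Fin n ⊕ Fin r → B => (N * tp (Fin r) P.J⁻¹) (w ∘ Sum.inl)
        (w ∘ Sum.inr)) ∈ P.A (Fin n ⊕ Fin r) := by
  rw [← hΓ]
  intro g
  rw [tp_sum_mulVec]
  have h2 : tp (Fin n) (Γ.ρ g) * (N * tp (Fin r) P.J⁻¹) * tp (Fin r) (Γ.ρ g)ᵀ =
      N * tp (Fin r) P.J⁻¹ := by
    have h3 : tp (Fin n) (Γ.ρ g) * N = N * tp (Fin r) (Γ.ρ g) := hN g
    rw [← Matrix.mul_assoc, h3, Matrix.mul_assoc, Matrix.mul_assoc, ← tp_mul, ← tp_mul,
      ← Matrix.mul_assoc, hform]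
  rw [h2]

/-- The matrices which fix the tensors commute with the equivariant matrices. -/
lemma comm_of_fix {P : PSys B} {Γ : CGrp B}
    (hΓ : ∀ (κ : Type) [Fintype κ] [DecidableEq κ] (v : (κ → B) → ℂ),
        (∀ g, tp κ (Γ.ρ g) *ᵥ v = v) ↔ v ∈ P.A κ)
    (hJ : IsUnit P.J.det) (hform : ∀ g : Γ.G, Γ.ρ g * P.J⁻¹ * (Γ.ρ g)ᵀ = P.J⁻¹)
    {g : Matrix B B ℂ}
    (hg : ∀ (κ : Type) [Fintype κ] [DecidableEq κ] (v : (κ → B) → ℂ), v ∈ P.A κ →
      tp κ g *ᵥ v = v) (hgJ : g * P.J⁻¹ * gᵀ = P.J⁻¹) {n : ℕ}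
    {N : Matrix (Fin n → B) (Fin n → B) ℂ} (hN : Γ.IsEqv n n N) : tpw n g * N = N * tpw n g := by
  have h1 := hg _ _ (eqv_mem hΓ hform hN)
  rw [tp_sum_mulVec] at h1
  have h2 : tp (Fin n) g * (N * tp (Fin n) P.J⁻¹) * tp (Fin n) gᵀ = N * tp (Fin n) P.J⁻¹ := by
    ext I K
    have h3 := congrFun h1 (Sum.elim I K)
    simpa only [Sum.elim_comp_inl, Sum.elim_comp_inr] using h3
  have hJi : IsUnit (P.J⁻¹).det := isUnit_nonsing_inv_det _ hJ
  have hgi : (P.J⁻¹ * gᵀ * P.J) * g = 1 := by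
    have h3 : g * (P.J⁻¹ * gᵀ * P.J) = 1 := by
      rw [← Matrix.mul_assoc, ← Matrix.mul_assoc, hgJ, nonsing_inv_mul _ hJ]
    exact mul_eq_one_comm.1 h3
  have h4 : tp (Fin n) gᵀ * tp (Fin n) P.J * tp (Fin n) g = tp (Fin n) P.J := by
    rw [← tp_mul, ← tp_mul]
    congr 1
    calc gᵀ * P.J * g = P.J * ((P.J⁻¹ * gᵀ * P.J) * g) := by
          rw [← Matrix.mul_assoc P.J, ← Matrix.mul_assoc P.J, ← Matrix.mul_assoc P.J,
            mul_nonsing_inv _ hJ, Matrix.one_mul]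
      _ = P.J := by rw [hgi, Matrix.mul_one]
  have h5 : tp (Fin n) P.J⁻¹ * tp (Fin n) P.J = 1 := by
    rw [← tp_mul, nonsing_inv_mul _ hJ, tp_one]
  change tp (Fin n) g * N = N * tp (Fin n) g
  calc tp (Fin n) g * N = tp (Fin n) g * N * (tp (Fin n) P.J⁻¹ * tp (Fin n) P.J) := by
        rw [h5, Matrix.mul_one]
    _ = tp (Fin n) g * N * tp (Fin n) P.J⁻¹ *
          (tp (Fin n) gᵀ * tp (Fin n) P.J * tp (Fin n) g) := by
        rw [h4, ← Matrix.mul_assoc]
    _ = (tp (Fin n) g * (N * tp (Fin n) P.J⁻¹) * tp (Fin n) gᵀ) * tp (Fin n) P.J *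
          tp (Fin n) g := by
        simp only [Matrix.mul_assoc]
    _ = N * (tp (Fin n) P.J⁻¹ * tp (Fin n) P.J) * tp (Fin n) g := by
        rw [h2]
        simp only [Matrix.mul_assoc]
    _ = N * tp (Fin n) g := by rw [h5, Matrix.mul_one]

/-- The span of the tensor powers of the matrices which fix the tensors. -/
theorem span_fix (hB : S_BIC) {P : PSys B} {Γ : CGrp B}
    (hΓ : ∀ (κ : Type) [Fintype κ] [DecidableEq κ] (v : (κ → B) → ℂ),
        (∀ g, tp κ (Γ.ρ g) *ᵥ v = v) ↔ v ∈ P.A κ)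
    (hJ : IsUnit P.J.det)
    (hD : (fun w : Fin 2 → B => P.J⁻¹ (w 0) (w 1)) ∈ P.A (Fin 2)) (n : ℕ) :
    Submodule.span ℂ {M | ∃ g : Matrix B B ℂ, (∀ m : ℕ, ∀ v ∈ P.A (Fin (m + 1)),
      tpw (m + 1) g *ᵥ v = v) ∧ M = tpw n g} = Γ.orb n (1 : Matrix (Fin n → B) (Fin n → B) ℂ) := by
  have hform0 : ∀ g : Matrix B B ℂ, tpw 2 g *ᵥ (fun w : Fin 2 → B => P.J⁻¹ (w 0) (w 1)) =
      (fun w : Fin 2 → B => P.J⁻¹ (w 0) (w 1)) → g * P.J⁻¹ * gᵀ = P.J⁻¹ := by
    intro g h1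
    ext a b
    have h3 := congrFun h1 ![a, b]
    rw [mulVec, dotProduct] at h3
    rw [Matrix.mul_apply]
    simp only [Matrix.mul_apply, Finset.sum_mul, transpose_apply]
    rw [Finset.sum_comm]
    rw [← Fintype.sum_equiv (finTwoArrowEquiv B).symm
      (fun p : B × B => tpw 2 g ![a, b] ((finTwoArrowEquiv B).symm p) *
        P.J⁻¹ ((finTwoArrowEquiv B).symm p 0) ((finTwoArrowEquiv B).symm p 1)) _
      (fun p => rfl), Fintype.sum_prod_type] at h3
    refine Eq.trans ?_ h3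
    refine Finset.sum_congr rfl fun x _ => Finset.sum_congr rfl fun y _ => ?_
    rw [tpw_apply, Fin.prod_univ_two]
    simp [finTwoArrowEquiv]
    ring
  have hform : ∀ g : Γ.G, Γ.ρ g * P.J⁻¹ * (Γ.ρ g)ᵀ = P.J⁻¹ := fun g =>
    hform0 _ ((hΓ (Fin 2) _).2 hD g)
  apply le_antisymm
  · rw [Submodule.span_le]
    rintro _ ⟨g, hg, rfl⟩
    refine (hB B Γ n _).1 fun N hN => ?_
    refine comm_of_fix hΓ hJ hform (g := g) ?_ (hform0 g (hg 1 _ hD)) hN
    intro κ _ _ u hu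
    rcases isEmpty_or_nonempty κ with he | hne
    · have h1 : tp κ g = 1 := by
        ext I J
        rw [tp_apply, Fintype.prod_empty, Subsingleton.elim I J, Matrix.one_apply_eq]
      rw [h1, Matrix.one_mulVec]
    · obtain ⟨m, ⟨e⟩⟩ : ∃ m, Nonempty (κ ≃ Fin (m + 1)) := by
        have h1 : 0 < Fintype.card κ := Fintype.card_pos
        obtain ⟨m, hm⟩ := Nat.exists_eq_succ_of_ne_zero h1.ne'
        exact ⟨m, ⟨Fintype.equivFinOfCardEq hm⟩⟩
      have h1 : tp (Fin (m + 1)) g *ᵥ (fun w => u (w ∘ e)) = fun w => u (w ∘ e) :=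
        hg m _ (P.relabel e hu)
      funext I
      have h2 := congrFun h1 (I ∘ e.symm)
      have h3 : (I ∘ e.symm) ∘ e = I := by
        funext i
        simp
      rw [h3] at h2
      refine Eq.trans ?_ h2
      rw [Matrix.mulVec, Matrix.mulVec, dotProduct, dotProduct]
      refine Fintype.sum_equiv (e.arrowCongr (Equiv.refl B)) _ _ fun J => ?_
      rw [tp_apply, tp_apply]
      have h4 : ((e.arrowCongr (Equiv.refl B)) J) ∘ e = J := by
        funext i
        simp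
      rw [h4]
      congr 1
      refine Fintype.prod_equiv e _ _ fun i => ?_
      simp
  · rw [CGrp.orb, Submodule.span_le]
    rintro _ ⟨g, rfl⟩
    refine Submodule.subset_span ⟨Γ.ρ g, fun m v hv => (hΓ _ v).2 hv g, ?_⟩
    change tpw n (Γ.ρ g) * 1 = _
    rw [Matrix.mul_one]

end alg

variable {k : Type u} [Field k] {𝒱 : VarClass k} {ops : CycleOps 𝒱}

section general

variable {W : WeilCohomology.{u, 0} ops} {X : 𝒱.Obj} {ι : Type} [Fintype ι] [DecidableEq ι]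

lemma pwOp_mon (B : HBasis W X ι) (g : Module.End W.K (W.H X)) : ∀ (n : ℕ) (K : Fin (n + 1) → ι),
    pwOp W g n (mon B n K) = ∑ I : Fin (n + 1) → ι, (∏ i, mW B g (I i) (K i)) • mon B n I
  | 0, K => by
    change g (B.b (K 0)) = _
    rw [mW_sum B g (K 0)]
    refine Fintype.sum_equiv (Equiv.funUnique (Fin 1) ι).symm _ _ fun l => ?_
    rw [Fin.prod_univ_one]
    rfl
  | n + 1, K => by
    have ih := pwOp_mon B g n (Fin.tail K)
    have h1 : pwOp W g (n + 1) (mon B (n + 1) K) =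
        W.map (fst X (pw X n)) (g (B.b (K 0))) *
          W.map (snd X (pw X n)) (pwOp W g n (mon B n (Fin.tail K))) := extOp_tmul _ _ _ _
    rw [h1, ih, mW_sum B g (K 0), map_sum, map_sum, Finset.sum_mul]
    simp only [Finset.mul_sum, map_smul, smul_mul_assoc, mul_smul_comm, smul_smul]
    rw [← Fintype.sum_prod_type' (f := fun l I => ((∏ i, mW B g (I i) (Fin.tail K i)) *
      mW B g l (K 0)) • (W.map (fst X (pw X n)) (B.b l) * W.map (snd X (pw X n)) (mon B n I)))]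
    refine Fintype.sum_equiv (Fin.consEquiv (fun _ : Fin (n + 2) => ι)) _ _ fun x => ?_
    have h2 : (∏ i, mW B g ((Fin.consEquiv (fun _ : Fin (n + 2) => ι)) x i) (K i)) =
        (∏ i, mW B g (x.2 i) (Fin.tail K i)) * mW B g x.1 (K 0) := by
      rw [Fin.prod_univ_succ, mul_comm]
      rfl
    rw [h2]
    rfl

/-- The tensor power of a matrix, over any field. -/
def tpK {K : Type} [Field K] (r : ℕ) (g : Matrix ι ι K) : Matrix (Fin r → ι) (Fin r → ι) K :=
  Matrix.of fun I J => ∏ i, g (I i) (J i)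

lemma pwOp_Phi (B : HBasis W X ι) (g : Module.End W.K (W.H X)) (n : ℕ)
    (v : (Fin (n + 1) → ι) → W.K) :
    pwOp W g n (Phi B n v) = Phi B n (tpK (n + 1) (mW B g) *ᵥ v) := by
  rw [Phi_apply, Phi_apply, map_sum]
  simp only [map_smul, pwOp_mon, Finset.smul_sum, smul_smul, mulVec, dotProduct, Finset.sum_smul]
  rw [Finset.sum_comm]
  refine Finset.sum_congr rfl fun I _ => Finset.sum_congr rfl fun K _ => ?_
  rw [mul_comm]
  rfl

/-- The operator with a given matrix. -/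
noncomputable def opM (B : HBasis W X ι) (M : Matrix ι ι W.K) : Module.End W.K (W.H X) :=
  B.b.constr W.K fun i => ∑ l, M l i • B.b l

lemma mW_opM (B : HBasis W X ι) (M : Matrix ι ι W.K) : mW B (opM B M) = M := by
  ext j i
  rw [mW, Matrix.of_apply, opM, Basis.constr_basis]
  simp [Finsupp.single_apply]

/-- Matrices and operators on the cohomology of the powers. -/
noncomputable def matEquiv (B : HBasis W X ι) (n : ℕ) :
    Matrix (Fin (n + 1) → ι) (Fin (n + 1) → ι) W.K ≃ₗ[W.K] Module.End W.K (W.H (pw X n)) :=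
  (Matrix.toLin' : Matrix (Fin (n + 1) → ι) (Fin (n + 1) → ι) W.K ≃ₗ[W.K] _).trans
    (LinearEquiv.conj (LinearEquiv.ofBijective (Phi B n) (Phi_bijective B n)))

lemma matEquiv_tpK (B : HBasis W X ι) (n : ℕ) (g : Module.End W.K (W.H X)) :
    matEquiv B n (tpK (n + 1) (mW B g)) = pwOp W g n := by
  apply LinearMap.ext
  intro x
  obtain ⟨v, rfl⟩ := (Phi_bijective B n).2 x
  rw [pwOp_Phi, matEquiv, LinearEquiv.trans_apply, LinearEquiv.conj_apply_apply]
  have h1 : (LinearEquiv.ofBijective (Phi B n) (Phi_bijective B n)).symm (Phi B n v) = v :=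
    (LinearEquiv.ofBijective (Phi B n) (Phi_bijective B n)).symm_apply_apply v
  rw [h1, Matrix.toLin'_apply]
  rfl

/-- The operators on `H(X)` whose tensor powers fix the classes of the system on the powers
of `X`. -/
def stab (S : Sys W) (X : 𝒱.Obj) : Set (Module.End W.K (W.H X)) :=
  {g | ∀ n, ∀ x ∈ S.C (pw X n), pwOp W g n x = x}

lemma span_pwOp (B : HBasis W X ι) (S : Sys W) (n : ℕ) :
    finrank W.K (Submodule.span W.K {F | ∃ g ∈ stab S X, F = pwOp W g n}) =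
      finrank W.K (Submodule.span W.K {M | ∃ g : Matrix ι ι W.K,
        (∀ m : ℕ, ∀ v : (Fin (m + 1) → ι) → W.K, Phi B m v ∈ S.C (pw X m) →
          tpK (m + 1) g *ᵥ v = v) ∧ M = tpK (n + 1) g}) := by
  have h1 : Submodule.span W.K {F | ∃ g ∈ stab S X, F = pwOp W g n} =
      (Submodule.span W.K {M | ∃ g : Matrix ι ι W.K,
        (∀ m : ℕ, ∀ v : (Fin (m + 1) → ι) → W.K, Phi B m v ∈ S.C (pw X m) →
          tpK (m + 1) g *ᵥ v = v) ∧ M = tpK (n + 1) g}).map
        (matEquiv B n : Matrix (Fin (n + 1) → ι) (Fin (n + 1) → ι) W.K →ₗ[W.K]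
          Module.End W.K (W.H (pw X n))) := by
    rw [Submodule.map_span]
    congr 1
    ext F
    constructor
    · rintro ⟨g, hg, rfl⟩
      refine ⟨tpK (n + 1) (mW B g), ⟨mW B g, fun m v hv => ?_, rfl⟩, matEquiv_tpK B n g⟩
      apply (Phi_bijective B m).1
      rw [← pwOp_Phi]
      exact hg m _ hv
    · rintro ⟨_, ⟨g, hg, rfl⟩, rfl⟩
      refine ⟨opM B g, fun m x hx => ?_, ?_⟩
      · obtain ⟨v, rfl⟩ := (Phi_bijective B m).2 x
        rw [pwOp_Phi, mW_opM, hg m v hx]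
      · rw [← matEquiv_tpK B n (opM B g), mW_opM]
        rfl
  rw [h1]
  exact LinearEquiv.finrank_map_eq (matEquiv B n) _

end general

end Pool.Agent.H847.CG
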