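import Pool.Agent.H847.CG.StmE

set_option autoImplicit false

/-!
# The projector onto the even part of a polarised variety
-/

open CategoryTheory AlgebraicGeometry

universe u

namespace Pool.Agent.H847.CG.EVP

open Module
open Pool.Agent.H914 Pool.Agent.H914.VarClass Pool.Agent.H914.VarClass.Obj
  Pool.Agent.H914.WeilCohomology
open Pool.Agent.Y133.Half (Sys PH Ev Adj ClassPred)

section

variable {k : Type u} [Field k] {𝒱 : VarClass k} {ops : CycleOps 𝒱}
  {W : WeilCohomology.{u, 0} ops} {X : 𝒱.Obj}

theorem sum_even {Q : ClassPred W} {c : W.H X} (hc : c ∈ Q.sp X) :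
    c = ∑ j ∈ Finset.range (X.dim + 1), proj (W.isInternal X) (2 * j) c := by
  refine ClassPred.sp_ind (q := fun c => c = ∑ j ∈ Finset.range (X.dim + 1),
    proj (W.isInternal X) (2 * j) c) ?_ ?_ ?_ hc
  · intro j x hx
    have hx' := Q.gr hx
    by_cases hj : j < X.dim + 1
    · rw [Finset.sum_eq_single j, proj_same _ hx']
      · intro i _ hij
        exact proj_ne _ hx' (by omega)
      · intro h
        exact absurd (Finset.mem_range.2 hj) h
    · rw [W.gr_eq_bot X (2 * j) (by omega), Submodule.mem_bot] at hx'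
      rw [hx']
      simp
  · simp
  · intro a b ha hb
    simp only [map_add, Finset.sum_add_distrib]
    rw [← ha, ← hb]

theorem tr_grZ {a : ℤ} {m : ℕ} {x y : W.H X} (hx : x ∈ grZ (W.gr X) a) (hy : y ∈ W.gr X m)
    (h : a + m ≠ 2 * X.dim) : W.tr X (x * y) = 0 := by
  by_cases ha : 0 ≤ a
  · lift a to ℕ using ha
    rw [grZ_natCast] at hx
    exact W.tr_eq_zero (W.mul_mem hx hy) (by omega)
  · rw [grZ_of_neg (by omega), Submodule.mem_bot] at hx
    rw [hx, zero_mul, map_zero]

end

theorem main : S_EVP.{u} := by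
  intro k _ 𝒱 ops W X Q c hc horth hinj
  classical
  set d := X.dim with hd
  set f := W.corr c with hf
  set F : ℕ → Module.End W.K (W.H X) :=
    fun j => W.corr (proj (W.isInternal (X.prod X)) (2 * j) c) with hF
  have hFhom : ∀ j : ℕ, IsHom (W.gr X) (2 * ((j : ℤ) - d)) (F j) := fun j =>
    W.corr_isHom (proj_mem _ _ _)
  have hFO : ∀ j : ℕ, F j ∈ Q.sys.Op X X := fun j =>
    Sys.Op.corr (ClassPred.sp_of (ClassPred.sp_proj hc j))
  have hdim : (X.prod X).dim = 2 * d := by rw [dim_prod]; omega
  have hsum : f = ∑ j ∈ Finset.range (2 * d + 1), F j := by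
    have h1 := sum_even hc
    rw [hdim] at h1
    have h2 : (Pool.Agent.Y133.Half.corrL W X X) c = ∑ j ∈ Finset.range (2 * d + 1), F j := by
      conv_lhs => rw [h1]
      rw [map_sum]
      rfl
    exact h2
  have hFdeg : ∀ (j i : ℕ) (x : W.H X), x ∈ W.gr X i →
      F j x ∈ grZ (W.gr X) ((i : ℤ) + 2 * ((j : ℤ) - d)) := by
    intro j i x hx
    exact hFhom j i x (by rw [grZ_natCast]; exact hx)
  have hFz : ∀ (j i : ℕ) (x : W.H X), j < 2 * d + 1 → x ∈ W.gr X i → j + i ≠ 2 * d →
      F j x = 0 := by
    intro j i x hj hx hji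
    apply W.nondeg
    intro y
    refine gr_induction (W.isInternal X) (p := fun y => W.tr X (F j x * y) = 0) ?_ ?_ y
    · intro m y hy
      by_cases hm : (i : ℤ) + 2 * ((j : ℤ) - d) + m = 2 * d
      · have h1 : W.tr X (f x * y) = W.tr X (F j x * y) := by
          rw [hsum, LinearMap.sum_apply, Finset.sum_mul, map_sum]
          refine Finset.sum_eq_single j ?_ ?_
          · intro j' _ hj'
            exact tr_grZ (hFdeg j' i x hx) hy (by omega)
          · intro h
            exact absurd (Finset.mem_range.2 hj) h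
        rw [← h1]
        exact horth i m x y (by omega) hx hy
      · exact tr_grZ (hFdeg j i x hx) hy hm
    · intro a b ha hb
      rw [mul_add, map_add, ha, hb, add_zero]
  set E : Module.End W.K (W.H X) :=
    ∑ j ∈ (Finset.range (2 * d + 1)).filter (fun j => Even j), F j with hE
  have hEO : E ∈ Q.sys.Op X X := Submodule.sum_mem _ fun j _ => hFO j
  set p : Module.End W.K (W.H X) := scal (W.isInternal X) (fun i => if Even i then 1 else 0)
    with hp
  have hpx : ∀ (i : ℕ) (x : W.H X), x ∈ W.gr X i → p x = if Even i then x else 0 := by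
    intro i x hx
    rw [hp, scal_apply _ _ hx]
    split_ifs
    · rw [one_smul]
    · rw [zero_smul]
  have hEx : ∀ (i : ℕ) (x : W.H X), x ∈ W.gr X i → i ≤ 2 * d →
      E x = if Even i then F (2 * d - i) x else 0 := by
    intro i x hx hi
    rw [hE, LinearMap.sum_apply]
    split_ifs with he
    · refine Finset.sum_eq_single (2 * d - i) ?_ ?_
      · intro j hj hji
        rw [Finset.mem_filter, Finset.mem_range] at hj
        exact hFz j i x hj.1 hx (by omega)
      · intro h
        exfalso
        apply h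
        rw [Finset.mem_filter, Finset.mem_range]
        exact ⟨by omega, by rw [Nat.even_sub hi]; simp [he]⟩
    · refine Finset.sum_eq_zero fun j hj => ?_
      rw [Finset.mem_filter, Finset.mem_range] at hj
      refine hFz j i x hj.1 hx fun hji => he ?_
      have : Even (j + i) := by rw [hji]; exact even_two_mul d
      exact (Nat.even_add.1 this).1 hj.2
  have hfx : ∀ (i : ℕ) (x : W.H X), x ∈ W.gr X i → i ≤ 2 * d → f x = F (2 * d - i) x := by
    intro i x hx hi
    rw [hsum, LinearMap.sum_apply]
    refine Finset.sum_eq_single (2 * d - i) ?_ ?_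
    · intro j hj hji
      exact hFz j i x (Finset.mem_range.1 hj) hx (by omega)
    · intro h
      exact absurd (Finset.mem_range.2 (by omega)) h
  have hbig : ∀ (i : ℕ) (x : W.H X), x ∈ W.gr X i → ¬ i ≤ 2 * d → x = 0 := by
    intro i x hx hi
    rw [W.gr_eq_bot X i (by omega), Submodule.mem_bot] at hx
    exact hx
  have hEfp : E = f * p := by
    apply gr_ext (W.isInternal X)
    intro i x hx
    by_cases hi : i ≤ 2 * d
    · rw [Module.End.mul_apply, hpx i x hx, hEx i x hx hi]
      split_ifs
      · exact (hfx i x hx hi).symm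
      · rw [map_zero]
    · rw [hbig i x hx hi, map_zero, map_zero]
  have hpp : p * p = p := by
    apply gr_ext (W.isInternal X)
    intro i x hx
    rw [Module.End.mul_apply, hpx i x hx]
    split_ifs with he
    · rw [hpx i x hx, if_pos he]
    · rw [map_zero]
  have hEp : E * p = E := by rw [hEfp, mul_assoc, hpp]
  have hpE : p * E = E := by
    apply gr_ext (W.isInternal X)
    intro i x hx
    by_cases hi : i ≤ 2 * d
    · rw [Module.End.mul_apply, hEx i x hx hi]
      split_ifs with he
      · have h1 := hFdeg (2 * d - i) i x hx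
        have h2 : (i : ℤ) + 2 * (((2 * d - i : ℕ) : ℤ) - d) = ((2 * d - i : ℕ) : ℤ) := by
          rw [Nat.cast_sub hi]; push_cast; ring
        rw [h2, grZ_natCast] at h1
        rw [hpx _ _ h1, if_pos (by rw [Nat.even_sub hi]; simp [he])]
      · rw [map_zero]
    · rw [hbig i x hx hi, map_zero, map_zero]
  have hEinj : ∀ x, p x = x → E x = 0 → x = 0 := by
    intro x hx hx0
    apply hinj
    intro y
    have h1 : E x = f x := by
      rw [hEfp, Module.End.mul_apply, hx]
    rw [← h1, hx0, zero_mul, map_zero]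
  set w : Module.End W.K (W.H X) := E * E with hw
  have h1 : w * p = w := by rw [hw, mul_assoc, hEp]
  have h2 : p * w = w := by rw [hw, ← mul_assoc, hpE]
  have h3 : ∀ x, p x = x → w x = 0 → x = 0 := by
    intro x hx hx0
    apply hEinj x hx
    apply hEinj (E x)
    · rw [← Module.End.mul_apply, hpE]
    · exact hx0
  obtain ⟨q, hq⟩ := PRJ.main W.K (W.H X) w p hpp h1 h2 h3
  have hwO : w ∈ Q.sys.Op X X := Sys.Op.comp hEO hEO
  have hpow : ∀ n : ℕ, w ^ n ∈ Q.sys.Op X X := by
    intro n
    induction n with
    | zero => rw [pow_zero]; exact Sys.Op.id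
    | succ n ih => rw [pow_succ]; exact Sys.Op.comp ih hwO
  refine ⟨p, ?_, hpx⟩
  rw [hq, Polynomial.aeval_eq_sum_range]
  exact Sys.Op.comp hwO (Submodule.sum_mem _ fun i _ => Submodule.smul_mem _ _ (hpow i))

end Pool.Agent.H847.CG.EVP
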