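import Pool.Agent.H847.CG.StmP

/-!
# F-structures from Gram matrices
-/

open TensorProduct

namespace Pool.Agent.H847.CG.FRM

/-- The base change of a nondegenerate form is nondegenerate. -/
theorem nondeg_baseChange {K V : Type} [Field K] [Algebra K ℂ] [AddCommGroup V] [Module K V]
    [FiniteDimensional K V] (β : LinearMap.BilinForm K V) (hβ : β.Nondegenerate) :
    (LinearMap.BilinForm.baseChange ℂ β).Nondegenerate := by
  classical
  let b := Module.finBasis K V
  rw [LinearMap.BilinForm.nondegenerate_iff_det_ne_zero (b.baseChange ℂ)]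
  have h1 := (LinearMap.BilinForm.nondegenerate_iff_det_ne_zero b).mp hβ
  have h2 : LinearMap.BilinForm.toMatrix (b.baseChange ℂ) (LinearMap.BilinForm.baseChange ℂ β)
      = (LinearMap.BilinForm.toMatrix b β).map (algebraMap K ℂ) := by
    ext i j
    rw [LinearMap.BilinForm.toMatrix_apply, Module.Basis.baseChange_apply,
      Module.Basis.baseChange_apply, LinearMap.BilinForm.baseChange_tmul, Matrix.map_apply,
      LinearMap.BilinForm.toMatrix_apply, mul_one, Algebra.algebraMap_eq_smul_one]
  rw [h2]
  have h3 := RingHom.map_det (algebraMap K ℂ) (LinearMap.BilinForm.toMatrix b β)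
  rw [RingHom.mapMatrix_apply] at h3
  rw [← h3]
  exact (map_ne_zero (algebraMap K ℂ)).mpr h1

theorem main : S_FRM := by
  intro K V _ _ _ _ _ F S hS β hβ τ hτ hval
  classical
  have hB := nondeg_baseChange β hβ
  obtain ⟨t, htS, htspan, hli⟩ := exists_linearIndependent ℂ (S : Set (ℂ ⊗[K] V))
  rw [hS] at htspan
  let e : Module.Basis t ℂ (ℂ ⊗[K] V) := Module.Basis.mk hli (by
    rw [Subtype.range_coe]
    exact htspan.ge)
  have he : ∀ i : t, e i = (i : ℂ ⊗[K] V) := by
    intro i
    rw [Module.Basis.mk_apply]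
  have : Finite t := Module.Finite.finite_basis e
  have : Fintype t := Fintype.ofFinite t
  have hcard : Fintype.card t = Module.finrank K V := by
    rw [← Module.finrank_baseChange (R := ℂ) (S := K) (M' := V)]
    exact (Module.finrank_eq_card_basis e).symm
  -- the Gram matrix
  have hmem : ∀ i : t, (i : ℂ ⊗[K] V) ∈ S := fun i => htS i.2
  have hG : ∀ i j : t, ∃ r : F, (LinearMap.BilinForm.baseChange ℂ β) (i : ℂ ⊗[K] V) (j : ℂ ⊗[K] V)
      = τ * (r : ℂ) := by
    intro i j
    obtain ⟨r, hr, hr'⟩ := hval i (hmem i) j (hmem j)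
    exact ⟨⟨r, hr⟩, hr'⟩
  choose G hG using hG
  let M : Matrix t t F := Matrix.of G
  have hMdet : M.det ≠ 0 := by
    have h1 := (LinearMap.BilinForm.nondegenerate_iff_det_ne_zero e).mp hB
    have h2 : LinearMap.BilinForm.toMatrix e (LinearMap.BilinForm.baseChange ℂ β)
        = τ • M.map (algebraMap F ℂ) := by
      ext i j
      rw [LinearMap.BilinForm.toMatrix_apply, he, he, hG]
      rfl
    rw [h2, Matrix.det_smul] at h1
    have h3 := RingHom.map_det (algebraMap F ℂ) M
    rw [RingHom.mapMatrix_apply] at h3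
    rw [← h3] at h1
    intro h0
    apply h1
    rw [h0, map_zero, mul_zero]
  -- coordinates of elements of S are in F
  have hcoord : ∀ s ∈ S, ∃ c : t → F, s = ∑ i, c i • (i : ℂ ⊗[K] V) := by
    intro s hs
    have hd : ∀ j : t, ∃ r : F, (LinearMap.BilinForm.baseChange ℂ β) s (j : ℂ ⊗[K] V)
        = τ * (r : ℂ) := by
      intro j
      obtain ⟨r, hr, hr'⟩ := hval s hs j (hmem j)
      exact ⟨⟨r, hr⟩, hr'⟩
    choose d hd using hd
    let c : t → ℂ := fun i => e.repr s i
    have hsum : s = ∑ i, c i • (i : ℂ ⊗[K] V) := by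
      have h := e.sum_repr s
      refine h.symm.trans ?_
      apply Finset.sum_congr rfl
      intro i _
      rw [he]
    have h1 : Matrix.vecMul c (M.map (algebraMap F ℂ)) = fun j => ((d j : F) : ℂ) := by
      funext j
      have h2 : (LinearMap.BilinForm.baseChange ℂ β) s (j : ℂ ⊗[K] V)
          = ∑ i, c i * (τ * (G i j : ℂ)) := by
        conv_lhs => rw [hsum]
        rw [map_sum, LinearMap.sum_apply]
        apply Finset.sum_congr rfl
        intro i _
        rw [map_smul, LinearMap.smul_apply, hG, smul_eq_mul]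
      rw [hd] at h2
      have h3 : τ * ((d j : F) : ℂ) = τ * ∑ i, c i * (G i j : ℂ) := by
        rw [h2, Finset.mul_sum]
        apply Finset.sum_congr rfl
        intro i _
        ring
      have h4 := mul_left_cancel₀ hτ h3
      rw [h4]
      rfl
    -- multiply by the inverse
    have hunit : IsUnit M.det := isUnit_iff_ne_zero.mpr hMdet
    have h5 : c = fun i => ((Matrix.vecMul d M⁻¹ i : F) : ℂ) := by
      have h6 : Matrix.vecMul (Matrix.vecMul c (M.map (algebraMap F ℂ)))
          (M⁻¹.map (algebraMap F ℂ)) = c := by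
        rw [Matrix.vecMul_vecMul, ← Matrix.map_mul, Matrix.mul_nonsing_inv M hunit,
          Matrix.map_one (algebraMap F ℂ) (map_zero _) (map_one _), Matrix.vecMul_one]
      rw [← h6, h1]
      funext i
      have h7 := RingHom.map_vecMul (algebraMap F ℂ) M⁻¹ d i
      exact h7.symm
    refine ⟨Matrix.vecMul d M⁻¹, ?_⟩
    rw [hsum]
    apply Finset.sum_congr rfl
    intro i _
    have h8 : c i = ((Matrix.vecMul d M⁻¹ i : F) : ℂ) := congrFun h5 i
    rw [h8]
    rfl
  -- the basis over F
  have hliF : LinearIndependent F (fun i : t => (⟨(i : ℂ ⊗[K] V), hmem i⟩ : S)) := by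
    have h1 : LinearIndependent F (fun i : t => (i : ℂ ⊗[K] V)) :=
      hli.restrict_scalars' F
    apply LinearIndependent.of_comp S.subtype
    exact h1
  let f : Module.Basis t F S := Module.Basis.mk hliF (by
    rintro ⟨s, hs⟩ _
    obtain ⟨c, hc⟩ := hcoord s hs
    have h2 : (⟨s, hs⟩ : S) = ∑ i, c i • (⟨(i : ℂ ⊗[K] V), hmem i⟩ : S) := by
      apply Subtype.ext
      rw [AddSubmonoidClass.coe_finsetSum]
      exact hc
    rw [h2]
    apply Submodule.sum_mem
    intro i _
    apply Submodule.smul_mem
    exact Submodule.subset_span ⟨i, rfl⟩)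
  refine ⟨Module.Finite.of_basis f, ?_⟩
  rw [Module.finrank_eq_card_basis f, hcard]

end Pool.Agent.H847.CG.FRM
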