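import Pool.Agent.H847.CG.Stm

/-!
# Growth of invariant tensors of compact groups: the second batch of statements

Project of helper847. Every `S_XXX` below is proved in its own file. Proved already (files `SPH`, `BER`,
`HIL`, `ANA`, `CHR`, `FIX`, `MIN`, theorem `main` each): the statements of `Pool.Agent.H847.CG.Stm`.
-/

set_option linter.unusedSectionVars false

open MeasureTheory Matrix
open scoped ComplexOrder

namespace Pool.Agent.H847.CG

section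
variable {B : Type} [Fintype B] [DecidableEq B]

lemma tpw_apply (r : ℕ) (g : Matrix B B ℂ) (I J : Fin r → B) :
    tpw r g I J = ∏ i, g (I i) (J i) := rfl

lemma tpw_one (r : ℕ) : tpw r (1 : Matrix B B ℂ) = 1 := by
  ext I J
  rw [tpw_apply, Matrix.one_apply]
  by_cases h : I = J
  · subst h
    simp
  · rw [if_neg h]
    obtain ⟨i, hi⟩ := Function.ne_iff.1 h
    exact Finset.prod_eq_zero (Finset.mem_univ i) (Matrix.one_apply_ne hi)

lemma tpw_mul (r : ℕ) (g h : Matrix B B ℂ) : tpw r (g * h) = tpw r g * tpw r h := by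
  ext I J
  rw [tpw_apply, Matrix.mul_apply]
  simp only [Matrix.mul_apply, tpw_apply]
  rw [Finset.prod_univ_sum, Fintype.piFinset_univ]
  exact Finset.sum_congr rfl fun K _ => Finset.prod_mul_distrib

lemma tpw_ct (r : ℕ) (g : Matrix B B ℂ) : tpw r gᴴ = (tpw r g)ᴴ := by
  ext I J
  rw [conjTranspose_apply, tpw_apply, tpw_apply, star_prod]
  rfl

lemma trace_tpw (r : ℕ) (g : Matrix B B ℂ) : (tpw r g).trace = g.trace ^ r := by
  rw [trace, trace, ← Fin.prod_const, Finset.prod_univ_sum, Fintype.piFinset_univ]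
  rfl

lemma continuous_tpw (r : ℕ) : Continuous fun g : Matrix B B ℂ => tpw r g := by
  refine continuous_pi fun I => continuous_pi fun J => ?_
  simp only [tpw_apply]
  exact continuous_finsetProd _ fun i _ => (continuous_apply _).comp (continuous_apply _)

end

/-- A compact group with a Haar probability measure and a continuous unitary representation. -/
structure CGrp (B : Type) [Fintype B] [DecidableEq B] where
  /-- the group -/
  G : Type
  [grp : Group G]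
  [top : TopologicalSpace G]
  [tg : IsTopologicalGroup G]
  [cpt : CompactSpace G]
  [ms : MeasurableSpace G]
  [bs : BorelSpace G]
  /-- the measure -/
  μ : Measure G
  [prob : IsProbabilityMeasure μ]
  [inv : μ.IsMulLeftInvariant]
  [pos : μ.IsOpenPosMeasure]
  /-- the representation -/
  ρ : G →* Matrix B B ℂ
  cont : Continuous ρ
  unit : ∀ g, ρ g ∈ unitaryGroup B ℂ

attribute [instance] CGrp.grp CGrp.top CGrp.tg CGrp.cpt CGrp.ms CGrp.bs CGrp.prob CGrp.inv CGrp.pos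

namespace CGrp

variable {B : Type} [Fintype B] [DecidableEq B] (Γ : CGrp B)

/-- The character. -/
noncomputable def χ (g : Γ.G) : ℂ := (Γ.ρ g).trace

/-- The representation on the tensors. -/
noncomputable def rep (n : ℕ) : Γ.G →* Matrix (Fin n → B) (Fin n → B) ℂ where
  toFun g := tpw n (Γ.ρ g)
  map_one' := by rw [map_one, tpw_one]
  map_mul' g h := by rw [map_mul, tpw_mul]

lemma rep_apply (n : ℕ) (g : Γ.G) : Γ.rep n g = tpw n (Γ.ρ g) := rfl

lemma cont_rep (n : ℕ) : Continuous (Γ.rep n) := (continuous_tpw n).comp Γ.cont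

/-- The invariant tensors. -/
noncomputable def inv' (n : ℕ) : Submodule ℂ ((Fin n → B) → ℂ) := fixedBy (Γ.rep n)

/-- The number of the invariant tensors. -/
noncomputable def s (n : ℕ) : ℕ := Module.finrank ℂ (Γ.inv' n)

/-- The real character, divided by the dimension. -/
noncomputable def y (g : Γ.G) : ℝ := (Γ.χ g).re / Fintype.card B

/-- The moments of even order. -/
noncomputable def mom (N : ℕ) : ℝ := ∫ g, Γ.y g ^ (2 * N) ∂Γ.μ

/-- The equivariant matrices. -/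
def IsEqv (r n : ℕ) (N : Matrix (Fin n → B) (Fin r → B) ℂ) : Prop :=
  ∀ g, tpw n (Γ.ρ g) * N = N * tpw r (Γ.ρ g)

/-- The span of the translates of a matrix of columns. -/
noncomputable def orb (r : ℕ) {J : Type} [Fintype J] (t : Matrix (Fin r → B) J ℂ) :
    Submodule ℂ (Matrix (Fin r → B) J ℂ) :=
  Submodule.span ℂ (Set.range fun g => tpw r (Γ.ρ g) * t)

/-- The span of the coefficients of the tensor power of the representation. -/
noncomputable def coef (r : ℕ) : Submodule ℂ (Γ.G → ℂ) :=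
  Submodule.span ℂ {f | ∃ I J : Fin r → B, f = fun g => tpw r (Γ.ρ g) I J}

end CGrp

/-- The character is real, and there is an invariant vector. -/
structure Good {B : Type} [Fintype B] [DecidableEq B] (Γ : CGrp B) : Prop where
  real : ∀ g, (Γ.χ g).im = 0
  vec : ∃ e : B → ℂ, (∑ i, ‖e i‖ ^ 2 = 1) ∧ ∀ g, Γ.ρ g *ᵥ e = e

/-- STEP. Proof: apply `SPH.main : S_SPH` with `I = B × B`, `Ω = Γ.G`, `v g p = Γ.ρ g p.1 p.2 / √b`
(`b = card B > 0` by `Good.vec`). As the matrices are unitary, `∑ ‖v g p‖² = 1`, and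
`ipr (v g) (v h) = b⁻¹ tr ((ρ g)ᴴ ρ h) = b⁻¹ χ (g⁻¹ h) = y (g⁻¹ h)` (real character). By left invariance the
double integrals are `mom N` and `mom (N + 1)`, so `(N + 1) mom N ≤ (N + b²) mom (N + 1)`; conclude with
`0 ≤ mom N`. -/
def S_STEP : Prop := ∀ (B : Type) [Fintype B] [DecidableEq B] (Γ : CGrp B), Good Γ → ∀ N : ℕ,
  ((N : ℝ) + 1) * (Γ.mom N - Γ.mom (N + 1)) ≤ (Fintype.card B : ℝ) ^ 2 * Γ.mom N

/-- KEY. Proof. Let `A_1, …, A_q` be an orthonormal basis of `U = orb Γ r t` for the Frobenius inner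
product `⟨A, A'⟩ = ∑ star (A I j) * A' I j`. `D g i l = ⟨A_i, tpw r (ρ g) * A_l⟩` is a unitary representation
`G →* Matrix (Fin q) (Fin q) ℂ` with `tpw r (ρ g) * A_l = ∑_i D g i l • A_i` (`U` is stable). Put
`P = ∑_i A_i * (A_i)ᴴ`; it is positive semidefinite with trace `q`, and `tr (P * tpw r (ρ g)) = tr (D g)`.
The matrices `F : Matrix (Fin n → B) (Fin q)` with `tpw n (ρ g) * F = F * D g` for all `g` are the fixed
vectors of the representation `tpw n (ρ g) ⊗ star (D g)` on `(Fin n → B) × Fin q` (`tpw n (ρ g) F (D g)ᴴ = F`),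
so by `FIX.main : S_FIX` their space has dimension `∫ χ^n * star (tr (D g))` (`trace_tpw`). With
`t = ∑ c_i A_i`, let `𝒯` be the image of this space under `F ↦ F *ᵥ c`. The map is injective: if `F c = 0` then
`F (D g c) = tpw n (ρ g) F c = 0` for all `g`, and the `D g c` span `ℂ^q` as the `tpw r (ρ g) * t` span `U`.
Finally `F c = ∑_j N_j t_j` with `N_j I K = ∑_i F I i * star (A_i K j)`, which is equivariant; conversely,
if `N_j` are equivariant, then `F I i = ∑_j (N_j *ᵥ (A_i)_j) I` satisfies `tpw n (ρ g) F = F D g` and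
`F c = ∑_j N_j t_j`. -/
def S_KEY : Prop := ∀ (B : Type) [Fintype B] [DecidableEq B] (Γ : CGrp B) (r n : ℕ) (J : Type)
  [Fintype J] [DecidableEq J] (t : Matrix (Fin r → B) J ℂ),
  ∃ (T : Submodule ℂ ((Fin n → B) → ℂ)) (P : Matrix (Fin r → B) (Fin r → B) ℂ),
    P.PosSemidef ∧ P.trace = Module.finrank ℂ (Γ.orb r t) ∧
    (∀ g, ‖(P * tpw r (Γ.ρ g)).trace‖ ≤ Module.finrank ℂ (Γ.orb r t)) ∧
    (Module.finrank ℂ T : ℂ) = ∫ g, Γ.χ g ^ n * star ((P * tpw r (Γ.ρ g)).trace) ∂Γ.μ ∧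
    ∀ x, x ∈ T ↔ ∃ N : J → Matrix (Fin n → B) (Fin r → B) ℂ, (∀ j, Γ.IsEqv r n (N j)) ∧
      x = ∑ j, N j *ᵥ (fun I => t I j)

/-- DIM. Proof. The first equality: the rank of the matrix `(g, (I, J)) ↦ tpw r (ρ g) I J` is the dimension
of the span of its rows `tpw r (ρ g) * 1` and of the span of its columns (row rank = column rank;
e.g. `coef` is isomorphic to the dual of `orb`: the map `Dual (orb) → (G → ℂ)`, `l ↦ (g ↦ l (tpw r (ρ g)))`, is
injective with image `coef`). The second: let `z g = fun p => ρ g p.1 p.2`, `Z = range z`. The pull-back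
`(Z → ℂ) → (G → ℂ)` is injective and maps `polyOn Z r` onto `coef r`: with the unit vector `e`,
`1 = ∑ star (e i) * e j * ρ g i j` is a linear form in the coordinates, so a polynomial of degree
`≤ r` restricted to `Z` is a form of degree exactly `r`. -/
def S_DIM : Prop := ∀ (B : Type) [Fintype B] [DecidableEq B] (Γ : CGrp B), Good Γ → ∀ r : ℕ,
  Module.finrank ℂ (Γ.orb r (1 : Matrix (Fin r → B) (Fin r → B) ℂ)) = Module.finrank ℂ (Γ.coef r) ∧
  Module.finrank ℂ (Γ.coef r) =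
    Module.finrank ℂ (polyOn (Set.range fun (g : Γ.G) (p : B × B) => Γ.ρ g p.1 p.2) r) ∧
  (∀ p : MvPolynomial (B × B) ℂ, p.totalDegree ≤ r →
    (fun g => MvPolynomial.eval (fun q : B × B => Γ.ρ g q.1 q.2) p) ∈ Γ.coef r)

/-- LOW. Proof. Take `T`, `P` from `KEY` with `n = 2 m`, `q = finrank (orb r t)`. As `χ` is real, `χ^(2m) ≥ 0`,
and by `BER` `Re tr (P * tpw r (ρ g)) ≥ q (1 - r² (b - Re χ))`, so
`finrank T ≥ q (s_(2m) - r² ∫ (b - χ) χ^(2m))`. Next `b - χ ≤ b²/2 (1 - y²)`: indeed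
`2 - b ≤ χ ≤ b` because of the invariant vector (file `Char`: `Good.sub_le`), `s_(2m) = b^(2m) mom m` (by `FIX`),
and `STEP` gives `∫ (b - χ) χ^(2m) ≤ b^4 / (2 (m + 1)) s_(2m)`. -/
def S_LOW : Prop := ∀ (B : Type) [Fintype B] [DecidableEq B] (Γ : CGrp B), Good Γ →
  ∀ (r m : ℕ) (J : Type) [Fintype J] [DecidableEq J] (t : Matrix (Fin r → B) J ℂ),
  (r : ℝ) ^ 2 * (Fintype.card B : ℝ) ^ 4 ≤ (m : ℝ) + 1 →
  ∃ T : Submodule ℂ ((Fin (2 * m) → B) → ℂ),
    Module.finrank ℂ (Γ.orb r t) * Γ.s (2 * m) ≤ 2 * Module.finrank ℂ T ∧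
    ∀ x ∈ T, ∃ N : J → Matrix (Fin (2 * m) → B) (Fin r → B) ℂ,
      (∀ j, Γ.IsEqv r (2 * m) (N j)) ∧ x = ∑ j, N j *ᵥ (fun I => t I j)

/-- UP. Proof. `LOW` with `t = 1` and `finrank T ≤ b^(2m)`: `finrank (coef r) * mom m ≤ 2` whenever
`r² b⁴ ≤ m + 1` (by `DIM` and `s_(2m) = b^(2m) mom m`). Take `r = ⌊√(m+1) / b²⌋`, so that
`(r + 1) b² ≥ √(m+1)`; then `c (m+1)^(D/2) b^(-2D) mom m ≤ 2`, and square. -/
def S_UP : Prop := ∀ (B : Type) [Fintype B] [DecidableEq B] (Γ : CGrp B), Good Γ →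
  ∀ (D : ℕ) (c : ℝ), 0 < c → (∀ r : ℕ, c * ((r : ℝ) + 1) ^ D ≤ Module.finrank ℂ (Γ.coef r)) →
  ∃ C : ℝ, ∀ m : ℕ, Γ.mom m ^ 2 * ((m : ℝ) + 1) ^ D ≤ C

/-- DOWN. Proof. `ANA` with `x = y²` (`0 ≤ y² ≤ 1`) on `Γ.G`: for a polynomial `f` of degree `≤ n` the
function `g ↦ f (y g ²)` is a polynomial of degree `≤ 2 n` in the entries of `ρ g` (the character is real),
so it lies in `coef (2 n)` (`DIM`), a finite-dimensional space of continuous functions which is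
invariant under the translations; `CHR` gives `f(1)² ≤ C (2n+1)^D ∫ f(y²)²`. -/
def S_DOWN : Prop := ∀ (B : Type) [Fintype B] [DecidableEq B] (Γ : CGrp B), Good Γ →
  ∀ (D : ℕ) (C C' : ℝ), 0 < C → (∀ r : ℕ, (Module.finrank ℂ (Γ.coef r) : ℝ) ≤ C * ((r : ℝ) + 1) ^ D) →
  (∀ m : ℕ, Γ.mom m ^ 2 * ((m : ℝ) + 1) ^ D ≤ C') →
  ∃ c : ℝ, 0 < c ∧ ∀ m : ℕ, c ≤ Γ.mom m ^ 2 * ((m : ℝ) + 1) ^ D

/-- MON. Proof. `v ↦ v ⊗ e` maps the invariant tensors of degree `n` injectively to those of degree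
`n + 1`. `s_(2m) = b^(2m) mom m` by `FIX` and the reality of the character, and `mom` is antitone
(`y² ≤ 1`), so `s_(2m) ≤ s_n` and `s_(n+r) ≤ s_(2M) ≤ b^(2M - 2m) s_(2m)` with `m = ⌊n/2⌋`, `M = ⌈(n+r)/2⌉`. -/
def S_MON : Prop := ∀ (B : Type) [Fintype B] [DecidableEq B] (Γ : CGrp B), Good Γ → ∀ n : ℕ,
  0 < Γ.s n ∧ Γ.s n ≤ Γ.s (n + 1) ∧ ∀ r : ℕ, Γ.s (n + r) ≤ Fintype.card B ^ (r + 2) * Γ.s n

/-- AVG. Proof. The matrices with `tpw n (ρ g) * M * (tpw r (ρ g))ᴴ = M` are the fixed vectors of a unitary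
representation `R`. `Q = ∫ R g` is the projection onto the fixed vectors (see the file `FIX`) and it kills their
orthogonal complement (which is stable), so it is self-adjoint: `Q = ∫ R g⁻¹`. (Or use that the Haar measure
of a compact group is invariant under inversion, if it is in Mathlib.) So
`avg M = ∫ R g⁻¹ M = Q M` is fixed. -/
def S_AVG : Prop := ∀ (B : Type) [Fintype B] [DecidableEq B] (Γ : CGrp B) (r n : ℕ)
  (M : Matrix (Fin n → B) (Fin r → B) ℂ),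
  Γ.IsEqv r n (Matrix.of fun I K => ∫ g, ((tpw n (Γ.ρ g))ᴴ * M * tpw r (Γ.ρ g)) I K ∂Γ.μ)

/-- COL. Proof. Let `t` be the matrix with the columns `t_j` and suppose that all coordinates of
`g ↦ ρ_n(g) x` lie in the span of the coefficients `g ↦ (tpw r (ρ g) * t) K j`:
`ρ_n(g) x = ∑_(K, j) (tpw r (ρ g) * t) K j • w_(K, j)` with fixed vectors `w_(K, j)`. As `ρ_n(g)ᴴ ρ_n(g) = 1`,
`x = ∫ ρ_n(g)ᴴ ρ_n(g) x = ∑_j N_j t_j`, where `N_j = ∑_K avg (M_(K, j))`, `M_(K, j) = w_(K, j) e_Kᵀ` (a column times a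
unit row), is equivariant by `AVG`. -/
def S_COL : Prop := ∀ (B : Type) [Fintype B] [DecidableEq B] (Γ : CGrp B) (r n : ℕ) (J : Type)
  [Fintype J] [DecidableEq J] (t : Matrix (Fin r → B) J ℂ) (x : (Fin n → B) → ℂ),
  (∀ I, (fun g => (tpw n (Γ.ρ g) *ᵥ x) I) ∈
    Submodule.span ℂ {f : Γ.G → ℂ | ∃ K j, f = fun g => (tpw r (Γ.ρ g) * t) K j}) →
  ∃ N : J → Matrix (Fin n → B) (Fin r → B) ℂ, (∀ j, Γ.IsEqv r n (N j)) ∧
      x = ∑ j, N j *ᵥ (fun I => t I j)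

/-- A system of tensors which contains the invariant tensors and is closed under products and
equivariant maps. -/
structure TS {B : Type} [Fintype B] [DecidableEq B] (Γ : CGrp B) where
  /-- the tensors -/
  T : ∀ n, Submodule ℂ ((Fin n → B) → ℂ)
  inv_le : ∀ n, Γ.inv' n ≤ T n
  mul : ∀ (m n : ℕ) (v : (Fin m → B) → ℂ) (w : (Fin n → B) → ℂ), v ∈ T m → w ∈ T n →
    (fun I : Fin (m + n) → B => v (fun i => I (Fin.castAdd n i)) * w (fun i => I (Fin.natAdd m i))) ∈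
      T (m + n)
  eqv : ∀ (r n : ℕ) (N : Matrix (Fin n → B) (Fin r → B) ℂ) (v : (Fin r → B) → ℂ),
    Γ.IsEqv r n N → v ∈ T r → N *ᵥ v ∈ T n

/-- VAN. Proof. `t_i = t₀^{⊗ i} ⊗ e^{⊗ r (j - i)}` and `ξ_i = ξ^{⊗ i} ⊗ ē^{⊗ r (j - i)}` for `i = 0, …, j`, with
`ē = star e` (then `∑ ē * (ρ e) = 1`), as tensors of degree `r j` (cast the `Fin`s; e.g. define them by a
recursion on `j` with `TS.mul`: `T_r ∋ t₀`, `e^{⊗ r} ∈ inv' r`). Then `∑_I ξ_i I (tpw (r j) (ρ g) * t) I i = f(g)^i`,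
`f g = ∑ ξ I (tpw r (ρ g) *ᵥ t₀) I`. The linear map `orb → ℂ^(j+1)`, `A ↦ (∑_I ξ_i I * A I i)_i`, is surjective: its image
contains `(1, z, …, z^j)` for infinitely many `z` (a linear form which vanishes on them is a polynomial with
infinitely many zeros). So `finrank (orb (r j) t) ≥ j + 1`. -/
def S_VAN : Prop := ∀ (B : Type) [Fintype B] [DecidableEq B] (Γ : CGrp B), Good Γ → ∀ (S : TS Γ)
  (r : ℕ) (t₀ : (Fin r → B) → ℂ) (ξ : (Fin r → B) → ℂ), t₀ ∈ S.T r →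
  (Set.range fun g => ∑ I, ξ I * (tpw r (Γ.ρ g) *ᵥ t₀) I).Infinite → ∀ j : ℕ,
  ∃ t : Matrix (Fin (r * j) → B) (Fin (j + 1)) ℂ, (∀ i, (fun I => t I i) ∈ S.T (r * j)) ∧
    j + 1 ≤ Module.finrank ℂ (Γ.orb (r * j) t)

/-- GAPA. Proof. `VAN` and `LOW` with degree `r j`, `j = ⌊√(m+1) / (r b²)⌋` (`r ≥ 1`, as the functions of
degree `0` are constant): `(j + 1) s_(2m) ≤ 2 finrank (T (2m))` (the `x ∈ T` of `LOW` lie in `S.T (2m)`
by `TS.eqv`), and `j + 1 ≥ √(m+1) / (r b²)`. For odd degrees use `finrank (T n) ≤ finrank (T (n+1))` (product with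
`e`) and `MON`. -/
def S_GAPA : Prop := ∀ (B : Type) [Fintype B] [DecidableEq B] (Γ : CGrp B), Good Γ → ∀ (S : TS Γ)
  (r : ℕ) (t₀ : (Fin r → B) → ℂ) (ξ : (Fin r → B) → ℂ), t₀ ∈ S.T r →
  (Set.range fun g => ∑ I, ξ I * (tpw r (Γ.ρ g) *ᵥ t₀) I).Infinite →
  ∃ c : ℝ, 0 < c ∧ ∀ n : ℕ, c * Real.sqrt (n + 1) * Γ.s n ≤ Module.finrank ℂ (S.T n)

/-- FIN. Proof. Let `O_r` be the span of the functions `g ↦ ∑ ξ I (tpw r (ρ g) *ᵥ t) I`, `t ∈ T r`. As
`t ⊗ e ∈ T (r+1)`, `O_r ⊆ O_(r+1)`. Let `V` be the union. Every element of `V` is a finite sum of functions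
with finite range, so it has finite range, and it is (the pull-back of) a polynomial function on
`Z = {ρ g}`. By `MIN` `V` is finite-dimensional, so `V = O_r` for some `r`. Let `t` be the matrix whose
columns are a basis of `T r`. -/
def S_FIN : Prop := ∀ (B : Type) [Fintype B] [DecidableEq B] (Γ : CGrp B), Good Γ → ∀ (S : TS Γ),
  (∀ (r : ℕ) (t₀ ξ : (Fin r → B) → ℂ), t₀ ∈ S.T r →
    (Set.range fun g => ∑ I, ξ I * (tpw r (Γ.ρ g) *ᵥ t₀) I).Finite) →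
  ∃ (r q : ℕ) (t : Matrix (Fin r → B) (Fin q) ℂ), (∀ j, (fun I => t I j) ∈ S.T r) ∧
    ∀ (n : ℕ) (x : (Fin n → B) → ℂ), x ∈ S.T n → ∀ I, (fun g => (tpw n (Γ.ρ g) *ᵥ x) I) ∈
      Submodule.span ℂ {f : Γ.G → ℂ | ∃ K j, f = fun g => (tpw r (Γ.ρ g) * t) K j}

/-- ASY. Proof. With `KEY`: `finrank T = ∫ χ^n Re tr (P * tpw r (ρ g))` (the character is real),
`|Re tr (P * tpw r (ρ g)) - q| ≤ q r² (b - Re χ)` by `BER` and the bound `≤ q`, so
`|finrank T - q s_n| ≤ q r² ∫ |χ|^n (b - χ)`. For `n = 2m` or `2m + 1` this integral is at most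
`b ^ (n + 2) (mom m - mom (m + 1))` (as `b - χ ≤ b²/2 (1 - y²)`, `|y| ≤ 1`), and `STEP` and `MON` give the bound
`C / (n + 1) * s_n`. -/
def S_ASY : Prop := ∀ (B : Type) [Fintype B] [DecidableEq B] (Γ : CGrp B), Good Γ →
  ∀ (r : ℕ) (J : Type) [Fintype J] [DecidableEq J] (t : Matrix (Fin r → B) J ℂ),
  ∃ C : ℝ, ∀ (n : ℕ) (T : Submodule ℂ ((Fin n → B) → ℂ)),
    (∀ x, x ∈ T ↔ ∃ N : J → Matrix (Fin n → B) (Fin r → B) ℂ, (∀ j, Γ.IsEqv r n (N j)) ∧
      x = ∑ j, N j *ᵥ (fun I => t I j)) →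
    |(Module.finrank ℂ T : ℝ) - Module.finrank ℂ (Γ.orb r t) * Γ.s n| * (n + 1) ≤ C * Γ.s n

/-- GROW: the growth law. Proof. `HIL` (for the set `Z` of `DIM`), `UP`, `DOWN`, `MON` (odd degrees). -/
def S_GROW : Prop := ∀ (B : Type) [Fintype B] [DecidableEq B] (Γ : CGrp B), Good Γ →
  ∃ (D : ℕ) (c C : ℝ), 0 < c ∧ 0 < C ∧ ∀ n : ℕ,
    c * ((Fintype.card B : ℝ) ^ n) ^ 2 ≤ (Γ.s n : ℝ) ^ 2 * ((n : ℝ) + 1) ^ D ∧
    (Γ.s n : ℝ) ^ 2 * ((n : ℝ) + 1) ^ D ≤ C * ((Fintype.card B : ℝ) ^ n) ^ 2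

/-- GAP: the gap. -/
def S_GAP : Prop := ∀ (B : Type) [Fintype B] [DecidableEq B] (Γ : CGrp B), Good Γ → ∀ (S : TS Γ),
  (∃ N : ℕ, 1 ≤ N ∧ (N = 1 ↔ ∀ n, S.T n = Γ.inv' n) ∧ ∃ C : ℝ, ∀ n : ℕ,
    |(Module.finrank ℂ (S.T n) : ℝ) - N * Γ.s n| * (n + 1) ≤ C * Γ.s n) ∨
  ∃ c : ℝ, 0 < c ∧ ∀ n : ℕ, c * Real.sqrt (n + 1) * Γ.s n ≤ Module.finrank ℂ (S.T n)

end Pool.Agent.H847.CG
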