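import Pool.Agent.H847.CG.Tan
import Pool.Agent.H847.CG.Stm2

/-!
# The compact group of a system of tensors
-/

set_option linter.unusedSectionVars false

open Matrix MeasureTheory
open Pool.Agent.R914.UN

namespace Pool.Agent.H847.CG

variable {B : Type} [Fintype B] [DecidableEq B]

/-- The group of the unitary matrices which fix the system. -/
def KS (S : TSys B) : Subgroup (unitaryGroup B ℂ) where
  carrier := {u | S.Fixes (u : Matrix B B ℂ)}
  mul_mem' := fun ha hb => TSys.Fixes.mul ha hb
  one_mem' := TSys.Fixes.one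
  inv_mem' := by
    intro u hu ι _ _ v hv
    have h1 : (u : Matrix B B ℂ)ᴴ * (u : Matrix B B ℂ) = 1 := mem_unitaryGroup_iff'.1 u.2
    have h2 : ((u⁻¹ : unitaryGroup B ℂ) : Matrix B B ℂ) = (u : Matrix B B ℂ)ᴴ := rfl
    have h3 := hu ι v hv
    rw [h2]
    conv_lhs => rw [← h3]
    rw [mulVec_mulVec, ← tp_mul, h1, tp_one, one_mulVec]

lemma continuous_tp (ι : Type) [Fintype ι] :
    Continuous fun g : Matrix B B ℂ => tp ι g := by
  refine continuous_pi fun I => continuous_pi fun J => ?_
  simp only [tp_apply]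
  exact continuous_finsetProd _ fun i _ => (continuous_apply _).comp (continuous_apply _)

lemma isClosed_KS (S : TSys B) : IsClosed (KS S : Set (unitaryGroup B ℂ)) := by
  have h1 : (KS S : Set (unitaryGroup B ℂ)) = ⋂ (ι : Type) (_ : Fintype ι) (_ : DecidableEq ι)
      (v : (ι → B) → ℂ) (_ : v ∈ S.A ι),
      {u : unitaryGroup B ℂ | tp ι (u : Matrix B B ℂ) *ᵥ v = v} := by
    ext u
    simp only [Set.mem_iInter, Set.mem_ofPred_eq]
    exact Iff.rfl
  rw [h1]
  refine isClosed_iInter fun ι => isClosed_iInter fun _ => isClosed_iInter fun _ =>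
    isClosed_iInter fun v => isClosed_iInter fun _ => ?_
  refine isClosed_eq ?_ continuous_const
  exact ((continuous_tp ι).comp continuous_subtype_val).matrix_mulVec continuous_const

instance : CompactSpace (unitaryGroup B ℂ) := by
  have h1 : IsClosed ((unitaryGroup B ℂ : Submonoid (Matrix B B ℂ)) : Set (Matrix B B ℂ)) := by
    have h2 : ((unitaryGroup B ℂ : Submonoid (Matrix B B ℂ)) : Set (Matrix B B ℂ)) =
        {A | A * star A = 1} := by
      ext A
      exact mem_unitaryGroup_iff
    rw [h2]
    refine isClosed_eq ?_ continuous_const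
    exact continuous_id.mul continuous_star
  have h3 : ((unitaryGroup B ℂ : Submonoid (Matrix B B ℂ)) : Set (Matrix B B ℂ)) ⊆
      Set.pi Set.univ (fun _ : B => Set.pi Set.univ fun _ : B => Metric.closedBall (0 : ℂ) 1) := by
    intro A hA i _ j _
    rw [mem_closedBall_zero_iff]
    exact entry_norm_bound_of_unitary hA i j
  have h4 : IsCompact (Set.pi Set.univ (fun _ : B => Set.pi Set.univ fun _ : B =>
      Metric.closedBall (0 : ℂ) 1)) :=
    isCompact_univ_pi fun _ => isCompact_univ_pi fun _ => isCompact_closedBall _ _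
  exact isCompact_iff_compactSpace.1 (h4.of_isClosed_subset h1 h3)

/-- The compact group of the system. -/
theorem exists_grp (S : TSys B) (hS : S.HasForm) : ∃ Γ : CGrp B,
    ∀ (ι : Type) [Fintype ι] [DecidableEq ι] (v : (ι → B) → ℂ),
      (∀ g, tp ι (Γ.ρ g) *ᵥ v = v) ↔ v ∈ S.A ι := by
  have : CompactSpace (KS S) := isCompact_iff_compactSpace.1 (isClosed_KS S).isCompact
  let _ : MeasurableSpace (KS S) := borel _
  have _ : BorelSpace (KS S) := ⟨rfl⟩
  let K₀ : TopologicalSpace.PositiveCompacts (KS S) := ⊤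
  let μ : Measure (KS S) := Measure.haarMeasure K₀
  have _ : IsProbabilityMeasure μ := ⟨by
    have h1 : μ K₀ = 1 := Measure.haarMeasure_self
    exact h1⟩
  let Γ : CGrp B :=
    { G := KS S
      μ := μ
      ρ := (unitaryGroup B ℂ).subtype.comp (KS S).subtype
      cont := continuous_subtype_val.comp continuous_subtype_val
      unit := fun g => g.1.2 }
  refine ⟨Γ, fun ι _ _ v => ⟨fun h => ?_, fun h g => g.2 ι v h⟩⟩
  refine tannaka hS fun g hg hfix => ?_
  exact h ⟨⟨g, mem_unitaryGroup_iff'.2 hg⟩, hfix⟩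

end Pool.Agent.H847.CG
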