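import Pool.Graph.R_pool_sql_team_seeded_b0a926ef.R914.UN.PMain
import Pool.Agent.H847.CG.Grp
import Pool.Agent.H847.CG.Char

/-!
# From systems with a bilinear contraction to compact groups
-/

set_option linter.unusedSectionVars false

open Matrix MeasureTheory
open Pool.Agent.R914.UN

namespace Pool.Agent.H847.CG

variable {B : Type} [Fintype B] [DecidableEq B]

/-- A system with a bilinear contraction, a polarisation and a conjugation is a system with a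
sesquilinear contraction. -/
theorem exists_tsys (S : PSys B) (hJ : IsUnit S.J.det) {L C' : Matrix B B ℂ}
    (hL : (fun w : Fin 2 → B => (L * S.J⁻¹) (w 0) (w 1)) ∈ S.A (Fin 2))
    (hD : (fun w : Fin 2 → B => S.J⁻¹ (w 0) (w 1)) ∈ S.A (Fin 2))
    (hfix : ∀ (ι : Type) [Fintype ι] [DecidableEq ι] (v : (ι → B) → ℂ), v ∈ S.A ι →
      tp ι C' *ᵥ v = v)
    (hJCLK : S.Jᵀ * (C' * L * S.K) = 1) :
    ∃ TS : TSys B, TS.HasForm ∧
      ∀ (ι : Type) [Fintype ι] [DecidableEq ι], TS.A ι = S.A ι := by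
  let TS : TSys B :=
    { A := S.A
      relabel := S.relabel
      empty := S.empty
      mul := S.mul
      con := by
        intro ι κ _ _ _ _ v u hv hu
        have h1 := PSys.tp_mem hJ hL (S.conj hv)
        have h2 := hfix ι _ h1
        have h3 : tp ι S.Jᵀ *ᵥ (tp ι L *ᵥ (tp ι S.K *ᵥ star v)) = star v := by
          rw [← h2, mulVec_mulVec, mulVec_mulVec, mulVec_mulVec, ← tp_mul, ← tp_mul, ← tp_mul]
          rw [show S.Jᵀ * C' * L * S.K = S.Jᵀ * (C' * L * S.K) by simp only [Matrix.mul_assoc],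
            hJCLK, tp_one, one_mulVec]
        have h4 := PSys.con_mem h1 hu
        rw [h3] at h4
        exact h4 }
  exact ⟨TS, ⟨S.J⁻¹, isUnit_nonsing_inv_det _ hJ, hD⟩, fun _ _ _ => rfl⟩

/-- The compact group of a system with a bilinear contraction, a polarisation and a
conjugation. -/
theorem exists_good (S : PSys B) (hJ : IsUnit S.J.det) {L C' : Matrix B B ℂ}
    (hL : (fun w : Fin 2 → B => (L * S.J⁻¹) (w 0) (w 1)) ∈ S.A (Fin 2))
    (hD : (fun w : Fin 2 → B => S.J⁻¹ (w 0) (w 1)) ∈ S.A (Fin 2))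
    (hfix : ∀ (ι : Type) [Fintype ι] [DecidableEq ι] (v : (ι → B) → ℂ), v ∈ S.A ι →
      tp ι C' *ᵥ v = v)
    (hJCLK : S.Jᵀ * (C' * L * S.K) = 1)
    {v₀ : (Fin 1 → B) → ℂ} (hv : v₀ ∈ S.A (Fin 1)) (hv0 : v₀ ≠ 0) :
    ∃ Γ : CGrp B, Good Γ ∧ (∀ (ι : Type) [Fintype ι] [DecidableEq ι] (v : (ι → B) → ℂ),
      (∀ g, tp ι (Γ.ρ g) *ᵥ v = v) ↔ v ∈ S.A ι) := by
  obtain ⟨TS, hform, hA⟩ := exists_tsys S hJ hL hD hfix hJCLK
  obtain ⟨Γ, hΓ⟩ := exists_grp TS hform
  have hΓ' : ∀ (ι : Type) [Fintype ι] [DecidableEq ι] (v : (ι → B) → ℂ),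
      (∀ g, tp ι (Γ.ρ g) *ᵥ v = v) ↔ v ∈ S.A ι := by
    intro ι _ _ v
    rw [hΓ, hA]
  refine ⟨Γ, ⟨?_, ?_⟩, hΓ'⟩
  · intro g
    have h1 : Γ.ρ g * S.J⁻¹ * (Γ.ρ g)ᵀ = S.J⁻¹ := by
      have h1 := (hΓ' (Fin 2) _).2 hD g
      ext a b
      have h3 := congrFun h1 ![a, b]
      rw [mulVec, dotProduct] at h3
      rw [Matrix.mul_apply]
      simp only [Matrix.mul_apply, Finset.sum_mul, transpose_apply]
      rw [Finset.sum_comm]
      rw [← Fintype.sum_equiv (finTwoArrowEquiv B).symm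
        (fun p : B × B => tp (Fin 2) (Γ.ρ g) ![a, b] ((finTwoArrowEquiv B).symm p) *
          S.J⁻¹ ((finTwoArrowEquiv B).symm p 0) ((finTwoArrowEquiv B).symm p 1)) _
        (fun p => rfl), Fintype.sum_prod_type] at h3
      refine Eq.trans ?_ h3
      refine Finset.sum_congr rfl fun x _ => Finset.sum_congr rfl fun y _ => ?_
      rw [tp_apply, Fin.prod_univ_two]
      simp [finTwoArrowEquiv]
      ring
    have hu : (Γ.ρ g)ᴴ * Γ.ρ g = 1 := mem_unitaryGroup_iff'.1 (Γ.unit g)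
    have hu' : Γ.ρ g * (Γ.ρ g)ᴴ = 1 := mem_unitaryGroup_iff.1 (Γ.unit g)
    have h2 : (Γ.ρ g)ᵀ = S.J * (Γ.ρ g)ᴴ * S.J⁻¹ := by
      calc (Γ.ρ g)ᵀ = S.J * (((Γ.ρ g)ᴴ * Γ.ρ g) * S.J⁻¹ * (Γ.ρ g)ᵀ) := by
            rw [hu, Matrix.one_mul, ← Matrix.mul_assoc, mul_nonsing_inv _ hJ, Matrix.one_mul]
        _ = S.J * (Γ.ρ g)ᴴ * (Γ.ρ g * S.J⁻¹ * (Γ.ρ g)ᵀ) := by
            simp only [Matrix.mul_assoc]
        _ = S.J * (Γ.ρ g)ᴴ * S.J⁻¹ := by rw [h1]
    have h3 : (Γ.ρ g).trace = star (Γ.ρ g).trace := by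
      calc (Γ.ρ g).trace = ((Γ.ρ g)ᵀ).trace := (trace_transpose _).symm
        _ = (S.J * (Γ.ρ g)ᴴ * S.J⁻¹).trace := by rw [h2]
        _ = ((Γ.ρ g)ᴴ).trace := by
            rw [trace_mul_comm, ← Matrix.mul_assoc, nonsing_inv_mul _ hJ, Matrix.one_mul]
        _ = star (Γ.ρ g).trace := trace_conjTranspose _
    have h4 := congrArg Complex.im h3
    rw [Complex.star_def, Complex.conj_im] at h4
    change ((Γ.ρ g).trace).im = 0
    linarith
  · have hfix' : ∀ g, Γ.ρ g *ᵥ (fun i => v₀ (fun _ => i)) = fun i => v₀ (fun _ => i) := by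
      intro g
      have h1 := (hΓ' (Fin 1) v₀).2 hv g
      funext i
      have h2 := congrFun h1 (fun _ => i)
      rw [mulVec, dotProduct] at h2 ⊢
      refine Eq.trans ?_ h2
      refine Fintype.sum_equiv (Equiv.funUnique (Fin 1) B).symm _ _ fun x => ?_
      rw [tp_apply, Fin.prod_univ_one]
      rfl
    set w : B → ℂ := fun i => v₀ (fun _ => i) with hw
    have hw0 : w ≠ 0 := by
      intro h0
      apply hv0
      funext I
      have h1 := congrFun h0 (I 0)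
      rw [hw] at h1
      have h2 : (fun _ => I 0 : Fin 1 → B) = I := by
        funext i
        rw [Subsingleton.elim i 0]
      simp only [h2] at h1
      exact h1
    have hpos : 0 < ∑ i, ‖w i‖ ^ 2 := by
      obtain ⟨i, hi⟩ := Function.ne_iff.1 hw0
      refine Finset.sum_pos' (fun j _ => by positivity) ⟨i, Finset.mem_univ i, ?_⟩
      have : w i ≠ 0 := hi
      positivity
    set r : ℝ := Real.sqrt (∑ i, ‖w i‖ ^ 2) with hr
    have hr0 : 0 < r := Real.sqrt_pos.2 hpos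
    refine ⟨((r⁻¹ : ℝ) : ℂ) • w, ?_, fun g => ?_⟩
    · simp only [Pi.smul_apply, smul_eq_mul, norm_mul, mul_pow]
      rw [← Finset.mul_sum, Complex.norm_real, Real.norm_of_nonneg (inv_nonneg.2 hr0.le), inv_pow,
        hr, Real.sq_sqrt hpos.le]
      exact inv_mul_cancel₀ hpos.ne'
    · rw [mulVec_smul, hfix' g]

end Pool.Agent.H847.CG
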