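import Pool.Graph.R_pool_sql_team_seeded_b0a926ef.R914.UN.GFin
import Pool.Agent.H847.CG.Glue1

/-!
# The compact group of a system of classes
-/

set_option linter.unusedSectionVars false
set_option linter.unusedVariables false

open CategoryTheory AlgebraicGeometry CategoryTheory.Limits TensorProduct Matrix

universe u v

namespace Pool.Agent.H847.CG

open Pool.Agent.H914 Pool.Agent.H447 Pool.Agent.W534 Pool.Agent.Y163 VarClass Obj WeilCohomology
  Module
open Pool.Agent.Y121 Pool.Agent.R940 Pool.Agent.R914.UN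
open Pool.Agent.Y133.Half (Sys PH Ev Adj)

variable {k : Type u} [Field k] {𝒱 : VarClass k} {ops : CycleOps 𝒱}

section general

variable {W : WeilCohomology.{u, 0} ops} {X Y Z : 𝒱.Obj} {ι : Type} [Fintype ι] [DecidableEq ι]

/-- The matrix of the intersection form. -/
noncomputable def JW (B : HBasis W X ι) : Matrix ι ι W.K :=
  Matrix.of fun i j => W.tr X (B.b i * B.b j)

/-- The class on `X × X` with given coordinates. -/
noncomputable def two (B : HBasis W X ι) (M : Matrix ι ι W.K) : W.H (X.prod X) :=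
  ∑ i, ∑ j, M i j • (W.map (fst X X) (B.b i) * W.map (snd X X) (B.b j))

lemma Phi_two (B : HBasis W X ι) (M : Matrix ι ι W.K) :
    Phi B 1 (fun w => M (w 0) (w 1)) = two B M := by
  rw [Phi_apply, two, ← Fintype.sum_prod_type' (f := fun i j => M i j •
      (W.map (fst X X) (B.b i) * W.map (snd X X) (B.b j)))]
  exact Fintype.sum_equiv (finTwoArrowEquiv ι) _ _ fun I => rfl

lemma exists_two (B : HBasis W X ι) (c : W.H (X.prod X)) : ∃ M : Matrix ι ι W.K, two B M = c := by
  obtain ⟨v, hv⟩ := (Phi_bijective B 1).2 c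
  refine ⟨Matrix.of fun i j => v ![i, j], ?_⟩
  rw [← Phi_two, ← hv]
  congr 1
  funext w
  change v ![w 0, w 1] = v w
  congr 1
  funext a
  fin_cases a <;> rfl

lemma basis_ext (B : HBasis W X ι) {M N : Matrix ι ι W.K}
    (h : ∀ k, ∑ j, M k j • B.b j = ∑ j, N k j • B.b j) : M = N := by
  ext k j
  have h4 := congrArg (fun x => B.b.repr x j) (h k)
  simpa [Finsupp.single_apply] using h4

/-- The matrix of the class of the diagonal. -/
lemma diag_two (S : Sys W) (B : HBasis W X ι) : ∃ M : Matrix ι ι W.K, JW B * M = 1 ∧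
    two B M ∈ S.C (X.prod X) := by
  have hc : W.push (diag X) (1 : W.H X) ∈ S.C (X.prod X) := S.push _ (S.one X)
  obtain ⟨M, hM⟩ := exists_two B (W.push (diag X) (1 : W.H X))
  refine ⟨M, ?_, hM ▸ hc⟩
  refine basis_ext B fun k => ?_
  have h2 : W.corr (W.push (diag X) (1 : W.H X)) (B.b k) = B.b k := by
    rw [WeilCohomology.corr_diag, one_mul]
  rw [corr_apply, PH.even_comm (S.even hc), ← hM, two] at h2
  simp only [Finset.mul_sum, map_sum, mul_smul_comm, map_smul, ← mul_assoc] at h2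
  simp only [← map_mul (W.map (fst X X)), WeilCohomology.push_snd, smul_smul] at h2
  have h3 : ∑ j, (1 : Matrix ι ι W.K) k j • B.b j = B.b k := by
    rw [Finset.sum_eq_single k]
    · rw [Matrix.one_apply_eq, one_smul]
    · intro j _ hj
      rw [Matrix.one_apply_ne (Ne.symm hj), zero_smul]
    · intro h; exact absurd (Finset.mem_univ k) h
  rw [h3, ← h2]
  rw [Finset.sum_comm]
  refine Finset.sum_congr rfl fun j _ => ?_
  rw [Matrix.mul_apply, Finset.sum_smul]
  refine Finset.sum_congr rfl fun i _ => ?_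
  rw [mul_comm]
  rfl

/-- The matrix of an operator. -/
noncomputable def mW (B : HBasis W X ι) (f : Module.End W.K (W.H X)) : Matrix ι ι W.K :=
  Matrix.of fun j i => B.b.repr (f (B.b i)) j

lemma mW_sum (B : HBasis W X ι) (f : Module.End W.K (W.H X)) (i : ι) :
    f (B.b i) = ∑ l, mW B f l i • B.b l := (B.b.sum_repr (f (B.b i))).symm

/-- An operator of the system acts on the classes on `X × X`. -/
lemma op_two (S : Sys W) (B : HBasis W X ι) {f : Module.End W.K (W.H X)} (hf : f ∈ S.Op X X)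
    {N : Matrix ι ι W.K} (hN : two B N ∈ S.C (X.prod X)) :
    two B (mW B f * N) ∈ S.C (X.prod X) := by
  have hF : extOp W f (LinearMap.id : Module.End W.K (W.H X)) ∈
      S.Op (X.prod X) (X.prod X) := Sys.Op.ext hf Sys.Op.id
  have h1 := Sys.Op.apply (T := S) (fun _ => le_rfl) hF hN
  have h2 : extOp W f (LinearMap.id : Module.End W.K (W.H X)) (two B N) =
      two B (mW B f * N) := by
    rw [two, two, map_sum]
    simp only [map_sum, map_smul, extOp_tmul, LinearMap.id_apply]
    rw [Finset.sum_comm]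
    conv_rhs => rw [Finset.sum_comm]
    refine Finset.sum_congr rfl fun j _ => ?_
    have h3 : ∀ i, W.map (fst X X) (f (B.b i)) =
        ∑ l, mW B f l i • W.map (fst X X) (B.b l) := by
      intro i
      conv_lhs => rw [mW_sum B f i]
      rw [map_sum]
      simp only [map_smul]
    simp only [h3, Finset.sum_mul, Finset.smul_sum, smul_mul_assoc, smul_smul]
    rw [Finset.sum_comm]
    refine Finset.sum_congr rfl fun l _ => ?_
    rw [← Finset.sum_smul]
    congr 1
    rw [Matrix.mul_apply]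
    refine Finset.sum_congr rfl fun i _ => ?_
    exact mul_comm _ _
  rw [← h2]
  exact h1

/-- The matrix of an operator and the matrix of a form. -/
lemma form_eq (B : HBasis W X ι) {f : Module.End W.K (W.H X)}
    {F : W.H X → W.H X → W.K} (hF : ∀ x y, F x y = W.tr X (f x * y)) :
    (Matrix.of fun i j => F (B.b i) (B.b j)) = (mW B f)ᵀ * JW B := by
  ext i j
  rw [Matrix.of_apply, hF, mW_sum B f i, Finset.sum_mul, map_sum, Matrix.mul_apply]
  refine Finset.sum_congr rfl fun l _ => ?_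
  rw [smul_mul_assoc, map_smul, smul_eq_mul]
  rfl

end general

variable {T : AH.HodgeTheory ops} {X Y Z : 𝒱.Obj} {ι : Type} [Fintype ι] [DecidableEq ι]

/-- The matrix of the intersection form. -/
noncomputable def JM (B : HBasis (baseW T.W ℂ) X ι) : Matrix ι ι ℂ :=
  Matrix.of fun i j => (show ℂ from (baseW T.W ℂ).tr X (B.b i * B.b j))

lemma diag_AS (S : Sys (baseW T.W ℂ)) (B : HBasis (baseW T.W ℂ) X ι) :
    (fun w : Fin 2 → ι => (JM B)⁻¹ (w 0) (w 1)) ∈ AS S B 1 := by
  obtain ⟨M, hM, h⟩ := diag_two S B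
  obtain ⟨M', rfl⟩ : ∃ M' : Matrix ι ι ℂ, (show Matrix ι ι (baseW T.W ℂ).K from M') = M :=
    ⟨M, rfl⟩
  have h1 : JM B * M' = 1 := hM
  have h2 : (JM B)⁻¹ = M' := Matrix.inv_eq_right_inv h1
  rw [h2]
  have h3 := Phi_two B (show Matrix ι ι (baseW T.W ℂ).K from M')
  have h4 : Phi B 1 (fun w : Fin 2 → ι => M' (w 0) (w 1)) ∈ S.C (pw X 1) := h3.symm ▸ h
  exact mem_AS.2 h4

lemma op_AS (S : Sys (baseW T.W ℂ)) (B : HBasis (baseW T.W ℂ) X ι)
    {f : Module.End (baseW T.W ℂ).K ((baseW T.W ℂ).H X)} (hf : f ∈ S.Op X X) {N : Matrix ι ι ℂ}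
    (hN : (fun w : Fin 2 → ι => N (w 0) (w 1)) ∈ AS S B 1) :
    (fun w : Fin 2 → ι => ((show Matrix ι ι ℂ from mW B f) * N) (w 0) (w 1)) ∈ AS S B 1 := by
  have h0 := Phi_two B (show Matrix ι ι (baseW T.W ℂ).K from N)
  have h1 : two B (show Matrix ι ι (baseW T.W ℂ).K from N) ∈ S.C (X.prod X) :=
    h0 ▸ (mem_AS.1 hN)
  have h2 := op_two S B hf h1
  have h3 := Phi_two B (mW B f * (show Matrix ι ι (baseW T.W ℂ).K from N))
  have h4 : Phi B 1 (fun w : Fin 2 → ι =>
    (mW B f * (show Matrix ι ι (baseW T.W ℂ).K from N)) (w 0) (w 1)) ∈ S.C (pw X 1) := h3.symm ▸ h2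
  exact mem_AS.2 h4

end Pool.Agent.H847.CG
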