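import Pool.Agent.H847.CG.Glue2

/-!
# The compact group of a system of classes: existence
-/

set_option linter.unusedSectionVars false
set_option linter.unusedVariables false

open CategoryTheory AlgebraicGeometry CategoryTheory.Limits TensorProduct Matrix

universe u v

namespace Pool.Agent.H847.CG

open Pool.Agent.H914 Pool.Agent.H447 Pool.Agent.W534 Pool.Agent.Y163 VarClass Obj WeilCohomology
  Module
open Pool.Agent.Y121 Pool.Agent.R940 Pool.Agent.R914.UN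
open Pool.Agent.Y133.Half (Sys PH Ev Adj)

variable {k : Type u} [Field k] {𝒱 : VarClass k} {ops : CycleOps 𝒱}

variable {T : AH.HodgeTheory ops} {X Y Z : 𝒱.Obj} {ι : Type} [Fintype ι] [DecidableEq ι]

/-- Transposition in a system. -/
lemma transpose_mem (P : PSys ι) {M : Matrix ι ι ℂ}
    (h : (fun w : Fin 2 → ι => M (w 0) (w 1)) ∈ P.A (Fin 2)) :
    (fun w : Fin 2 → ι => Mᵀ (w 0) (w 1)) ∈ P.A (Fin 2) :=
  P.relabel (Equiv.swap (0 : Fin 2) 1) h

/-- The matrix relations of a polarisation. -/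
lemma pol_matrix {J K Ψ C C' : Matrix ι ι ℂ} (hJ : IsUnit J.det) (hJC : Cᵀ * J * C = J)
    (hCC : C' * C = 1) (hpol : Kᵀ * Ψ * C = 1) : Jᵀ * (C' * ((Jᵀ)⁻¹ * Ψᵀ) * K) = 1 := by
  have hCC' : C * C' = 1 := mul_eq_one_comm.1 hCC
  have hJt : IsUnit (Jᵀ).det := by rwa [det_transpose]
  have hJL : Jᵀ * ((Jᵀ)⁻¹ * Ψᵀ) = Ψᵀ := by
    rw [← Matrix.mul_assoc, mul_nonsing_inv _ hJt, Matrix.one_mul]
  have h1 : Cᵀ * Jᵀ * C = Jᵀ := by
    have := congrArg transpose hJC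
    rwa [transpose_mul, transpose_mul, transpose_transpose, ← Matrix.mul_assoc] at this
  have h2 : Cᵀ * Jᵀ = Jᵀ * C' := by
    calc Cᵀ * Jᵀ = Cᵀ * Jᵀ * C * C' := by
          rw [Matrix.mul_assoc _ C, hCC', Matrix.mul_one]
      _ = Jᵀ * C' := by rw [h1]
  have h3 : Cᵀ * Ψᵀ * K = 1 := by
    have := congrArg transpose hpol
    rwa [transpose_mul, transpose_mul, transpose_transpose, transpose_one,
      ← Matrix.mul_assoc] at this
  calc Jᵀ * (C' * ((Jᵀ)⁻¹ * Ψᵀ) * K) = Jᵀ * C' * ((Jᵀ)⁻¹ * Ψᵀ) * K := by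
        simp only [Matrix.mul_assoc]
    _ = Cᵀ * (Jᵀ * ((Jᵀ)⁻¹ * Ψᵀ)) * K := by rw [← h2]; simp only [Matrix.mul_assoc]
    _ = 1 := by rw [hJL, h3]

/-- **The compact group of a polarised system of classes.** -/
theorem sys_good (hpos : ∀ (Y : 𝒱.Obj) (p q : ℤ), p < 0 ∨ q < 0 → T.pq Y p q = ⊥)
    {ψ : LinearMap.BilinForm T.W.K (T.W.H X)} (hψ : IsPol ψ) (B : HBasis (baseW T.W ℂ) X ι)
    (hB : ∀ i j, hf ψ (B.b i) (B.b j) = if i = j then 1 else 0) (S : Sys (baseW T.W ℂ))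
    (hfix : ∀ (n : ℕ) (x : (baseW T.W ℂ).H (pw X n)), x ∈ S.C (pw X n) →
      gam AlgEquiv.refl Complex.I⁻¹ (pw X n) x = x)
    (hc : ∀ (Y : 𝒱.Obj) (x : (baseW T.W ℂ).H Y), x ∈ S.C Y → sm (cK T) Y x ∈ S.C Y)
    (hev : evp T X ∈ S.Op X X)
    {f : Module.End (baseW T.W ℂ).K ((baseW T.W ℂ).H X)} (hf : f ∈ S.Op X X)
    (hfψ : ∀ x y, psi ψ x y = (baseW T.W ℂ).tr X (f x * y))
    [Nontrivial ((baseW T.W ℂ).H X)] :
    ∃ (P : PSys ι) (Γ : CGrp ι), Good Γ ∧ P.J = JM B ∧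
      (∀ (n : ℕ) (v : (Fin (n + 1) → ι) → ℂ), v ∈ P.A (Fin (n + 1)) ↔
        Phi B n v ∈ S.C (pw X n)) ∧
      ∀ (κ : Type) [Fintype κ] [DecidableEq κ] (v : (κ → ι) → ℂ),
        (∀ g, tp κ (Γ.ρ g) *ᵥ v = v) ↔ v ∈ P.A κ := by
  obtain ⟨P, hPJ, hPK, hPA⟩ := (bsys S B hev hc).exists_psys
  have hPJ' : P.J = JM B := hPJ
  have hPK' : P.K = mt B (sm (cK T) X) := hPK
  have hPA' : ∀ (n : ℕ) (v : (Fin (n + 1) → ι) → ℂ), v ∈ P.A (Fin (n + 1)) ↔
      Phi B n v ∈ S.C (pw X n) := hPA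
  set C : Matrix ι ι ℂ := mt B (gam AlgEquiv.refl Complex.I X) with hCdef
  set C' : Matrix ι ι ℂ := mt B (gam AlgEquiv.refl Complex.I⁻¹ X) with hC'def
  set Ψ : Matrix ι ι ℂ := Matrix.of (fun i j => (show ℂ from psi ψ (B.b j) (B.b i))) with hΨdef
  have hdet : IsUnit (JM B).det := det_tr B
  have hCC : C' * C = 1 := by
    rw [hCdef, hC'def, ← mt_comp_lin, ← mt_id B]
    congr 1
    funext y
    rw [gam_gam, inv_mul_cancel₀ Complex.I_ne_zero, gam_id]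
  have hpol : P.Kᵀ * Ψ * C = 1 := by
    rw [hPK']
    exact pol_mul B hB
  have hJC : Cᵀ * JM B * C = JM B :=
    form_gen B hpos (LinearMap.flip (LinearMap.mk₂ (baseW T.W ℂ).K
      (fun x y => (baseW T.W ℂ).tr X (x * y))
      (fun x y z => by rw [add_mul, map_add]) (fun c x y => by rw [smul_mul_assoc, map_smul])
      (fun x y z => by rw [mul_add, map_add]) (fun c x y => by rw [mul_smul_comm, map_smul])))
      (fun σ z hz x y => by
        rw [LinearMap.flip_apply, LinearMap.flip_apply, LinearMap.mk₂_apply, LinearMap.mk₂_apply,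
          ← gam_mul σ hz, gam_tr σ hpos]) (gam_mem_gen B hpos _ Complex.I_ne_zero)
  have hD : (fun w : Fin 2 → ι => P.J⁻¹ (w 0) (w 1)) ∈ P.A (Fin 2) := by
    rw [hPJ']
    exact (hPA' 1 _).2 (mem_AS.1 (diag_AS S B))
  have hL : (fun w : Fin 2 → ι => (((P.Jᵀ)⁻¹ * Ψᵀ) * P.J⁻¹) (w 0) (w 1)) ∈ P.A (Fin 2) := by
    have h1 := op_AS S B hf (diag_AS S B)
    have h2 := (hPA' 1 _).2 (mem_AS.1 h1)
    have h3 := transpose_mem P h2
    have h4 : Ψᵀ = (show Matrix ι ι ℂ from mW B f)ᵀ * JM B := by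
      have h5 := form_eq B (F := fun x y => psi ψ x y) hfψ
      exact h5
    have h5 : ((P.Jᵀ)⁻¹ * Ψᵀ) * P.J⁻¹ = ((show Matrix ι ι ℂ from mW B f) * (JM B)⁻¹)ᵀ := by
      rw [hPJ', h4, Matrix.mul_assoc, Matrix.mul_assoc, mul_nonsing_inv _ hdet, Matrix.mul_one,
        transpose_mul, transpose_nonsing_inv]
    rw [h5]
    exact h3
  have hfix' : ∀ (κ : Type) [Fintype κ] [DecidableEq κ] (v : (κ → ι) → ℂ), v ∈ P.A κ →
      tp κ C' *ᵥ v = v := by
    intro κ _ _ u hu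
    rcases isEmpty_or_nonempty κ with he | hne
    · have h1 : tp κ C' = 1 := by
        ext I J
        rw [tp_apply, Fintype.prod_empty, Subsingleton.elim I J, Matrix.one_apply_eq]
      rw [h1, Matrix.one_mulVec]
    · obtain ⟨m, ⟨e⟩⟩ : ∃ m, Nonempty (κ ≃ Fin (m + 1)) := by
        have h1 : 0 < Fintype.card κ := Fintype.card_pos
        obtain ⟨m, hm⟩ := Nat.exists_eq_succ_of_ne_zero h1.ne'
        exact ⟨m, ⟨Fintype.equivFinOfCardEq hm⟩⟩
      have h0 := (hPA' m _).1 (P.relabel e hu)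
      have h1 : tp (Fin (m + 1)) C' *ᵥ (fun w => u (w ∘ e)) = fun w => u (w ∘ e) := by
        have h2 := hfix m _ h0
        rw [gam_Phi B _ (inv_ne_zero Complex.I_ne_zero)] at h2
        exact (Phi_bijective B m).1 h2
      funext I
      have h2 := congrFun h1 (I ∘ e.symm)
      have h3 : (I ∘ e.symm) ∘ e = I := by
        funext i
        simp
      rw [h3] at h2
      refine Eq.trans ?_ h2
      rw [Matrix.mulVec, Matrix.mulVec, dotProduct, dotProduct]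
      refine Fintype.sum_equiv (e.arrowCongr (Equiv.refl ι)) _ _ fun J => ?_
      rw [tp_apply, tp_apply]
      have h4 : ((e.arrowCongr (Equiv.refl ι)) J) ∘ e = J := by
        funext i
        simp
      rw [h4]
      congr 1
      refine Fintype.prod_equiv e _ _ fun i => ?_
      simp
  obtain ⟨v₀, hv₀⟩ := (Phi_bijective B 0).2 (1 : (baseW T.W ℂ).H X)
  have hv1 : v₀ ∈ P.A (Fin 1) := (hPA' 0 v₀).2 (hv₀.symm ▸ S.one X)
  have hv2 : (show (Fin 1 → ι) → ℂ from v₀) ≠ 0 := by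
    intro h0
    have h1 : Phi B 0 v₀ = 0 := by
      have h2 : v₀ = (0 : (Fin (0 + 1) → ι) → (baseW T.W ℂ).K) := h0
      rw [h2, map_zero]
    rw [hv₀] at h1
    exact one_ne_zero (α := (baseW T.W ℂ).H X) h1
  obtain ⟨Γ, hΓ, hΓA⟩ := exists_good P (by rw [hPJ']; exact hdet) (L := (P.Jᵀ)⁻¹ * Ψᵀ) (C' := C')
    hL hD hfix' (by
      refine pol_matrix (by rw [hPJ']; exact hdet) ?_ hCC hpol
      rw [hPJ']; exact hJC) hv1 hv2
  exact ⟨P, Γ, hΓ, hPJ', hPA', hΓA⟩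

end Pool.Agent.H847.CG
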