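import Pool.Agent.H847.CG.Glue3

/-!
# Larger systems of classes, and dimensions
-/

set_option linter.unusedSectionVars false
set_option linter.unusedVariables false

open CategoryTheory AlgebraicGeometry CategoryTheory.Limits TensorProduct Matrix

universe u v

namespace Pool.Agent.H847.CG

open Pool.Agent.H914 Pool.Agent.H447 Pool.Agent.W534 Pool.Agent.Y163 VarClass Obj WeilCohomology
  Module
open Pool.Agent.Y121 Pool.Agent.R940 Pool.Agent.R914.UN
open Pool.Agent.Y133.Half (Sys PH Ev Adj)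

section alg

variable {B : Type} [Fintype B] [DecidableEq B]

/-- The larger system of tensors is stable under products and equivariant matrices. -/
theorem exists_TS {P P' : PSys B} {Γ : CGrp B}
    (hΓ : ∀ (κ : Type) [Fintype κ] [DecidableEq κ] (v : (κ → B) → ℂ),
        (∀ g, tp κ (Γ.ρ g) *ᵥ v = v) ↔ v ∈ P.A κ)
    (hJ : IsUnit P'.J.det) (hJJ : P'.J = P.J)
    (hD : (fun w : Fin 2 → B => P.J⁻¹ (w 0) (w 1)) ∈ P.A (Fin 2))
    (hle : ∀ n : ℕ, ∀ v ∈ P.A (Fin (n + 1)), v ∈ P'.A (Fin (n + 1))) :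
    ∃ S : TS Γ, ∀ n, S.T n = P'.A (Fin n) := by
  have hle' : ∀ n : ℕ, ∀ v ∈ P.A (Fin n), v ∈ P'.A (Fin n) := by
    intro n v hv
    cases n with
    | zero => exact P'.empty v
    | succ n => exact hle n v hv
  have hle2 : ∀ (κ : Type) [Fintype κ] [DecidableEq κ] (v : (κ → B) → ℂ), v ∈ P.A κ →
      v ∈ P'.A κ := by
    intro κ _ _ v hv
    have h1 := P'.relabel (Fintype.equivFin κ).symm (hle' _ _ (P.relabel (Fintype.equivFin κ) hv))
    have h2 : (fun w : κ → B => v ((w ∘ (Fintype.equivFin κ).symm) ∘ (Fintype.equivFin κ))) =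
        v := by
      funext w
      congr 1
      funext i
      simp
    rw [← h2]
    exact h1
  have hform : ∀ g : Γ.G, Γ.ρ g * P.J⁻¹ * (Γ.ρ g)ᵀ = P.J⁻¹ := by
    intro g
    have h1 := (hΓ (Fin 2) _).2 hD g
    ext a b
    have h3 := congrFun h1 ![a, b]
    rw [mulVec, dotProduct] at h3
    rw [Matrix.mul_apply]
    simp only [Matrix.mul_apply, Finset.sum_mul, transpose_apply]
    rw [Finset.sum_comm]
    rw [← Fintype.sum_equiv (finTwoArrowEquiv B).symm
      (fun p : B × B => tp (Fin 2) (Γ.ρ g) ![a, b] ((finTwoArrowEquiv B).symm p) *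
        P.J⁻¹ ((finTwoArrowEquiv B).symm p 0) ((finTwoArrowEquiv B).symm p 1)) _
      (fun p => rfl), Fintype.sum_prod_type] at h3
    refine Eq.trans ?_ h3
    refine Finset.sum_congr rfl fun x _ => Finset.sum_congr rfl fun y _ => ?_
    rw [tp_apply, Fin.prod_univ_two]
    simp [finTwoArrowEquiv]
    ring
  refine ⟨⟨fun n => P'.A (Fin n), ?_, ?_, ?_⟩, fun n => rfl⟩
  · intro n v hv
    exact hle' n v ((hΓ (Fin n) v).1 fun g => hv g)
  · intro m n v w hv hw
    exact P'.relabel finSumFinEquiv (P'.mul hv hw)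
  · intro r n N v hN hv
    have h1 : (fun w : Fin n ⊕ Fin r → B => (N * tp (Fin r) P'.J⁻¹) (w ∘ Sum.inl)
        (w ∘ Sum.inr)) ∈ P'.A (Fin n ⊕ Fin r) := by
      apply hle2
      rw [← hΓ]
      intro g
      rw [tp_sum_mulVec, hJJ]
      have h2 : tp (Fin n) (Γ.ρ g) * (N * tp (Fin r) P.J⁻¹) * tp (Fin r) (Γ.ρ g)ᵀ =
          N * tp (Fin r) P.J⁻¹ := by
        have h3 : tp (Fin n) (Γ.ρ g) * N = N * tp (Fin r) (Γ.ρ g) := hN g
        rw [← Matrix.mul_assoc, h3, Matrix.mul_assoc, Matrix.mul_assoc, ← tp_mul, ← tp_mul,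
          ← Matrix.mul_assoc, hform]
      rw [h2]
    have h2 := P'.relabel (Equiv.sumEmpty (Fin r) (Fin 0)).symm hv
    have h3 := P'.relabel (Equiv.sumEmpty (Fin n) (Fin 0)) (PSys.pres_of_mem hJ h1 h2)
    have h4 : N *ᵥ v = (fun w : Fin n → B => opT N (fun w : Fin r ⊕ Fin 0 → B =>
        v (w ∘ (Equiv.sumEmpty (Fin r) (Fin 0)).symm)) (w ∘ (Equiv.sumEmpty (Fin n) (Fin 0)))) := by
      funext w
      rw [opT, mulVec, dotProduct]
      rfl
    rw [h4]
    exact h3

end alg

variable {k : Type u} [Field k] {𝒱 : VarClass k} {ops : CycleOps 𝒱}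

section dims

variable {W : WeilCohomology.{u, 0} ops} {X : 𝒱.Obj} {ι : Type} [Fintype ι] [DecidableEq ι]

lemma finrank_comap_Phi (B : HBasis W X ι) (n : ℕ) (C : Submodule W.K (W.H (pw X n))) :
    finrank W.K (C.comap (Phi B n)) = finrank W.K C := by
  let e : ((Fin (n + 1) → ι) → W.K) ≃ₗ[W.K] W.H (pw X n) :=
    LinearEquiv.ofBijective (Phi B n) (Phi_bijective B n)
  have h1 : C.comap (Phi B n) = C.comap (e : ((Fin (n + 1) → ι) → W.K) →ₗ[W.K] W.H (pw X n)) :=
    rfl
  rw [h1]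
  exact LinearEquiv.finrank_eq (e.ofSubmodule' C)

end dims

variable {T : AH.HodgeTheory ops} {X Y Z : 𝒱.Obj} {ι : Type} [Fintype ι] [DecidableEq ι]

lemma finrank_AS (S : Sys (baseW T.W ℂ)) (B : HBasis (baseW T.W ℂ) X ι) (n : ℕ) :
    finrank ℂ (AS S B n) = finrank (baseW T.W ℂ).K (S.C (pw X n)) :=
  finrank_comap_Phi B n (S.C (pw X n))

/-- The system of tensors, without conjugation. -/
noncomputable def bsys0 (S : Sys (baseW T.W ℂ)) (B : HBasis (baseW T.W ℂ) X ι)
    (hS : evp T X ∈ S.Op X X) : BSys ι where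
  A n := AS S B n
  par i := decide (Even (B.deg i))
  J := Matrix.of fun i j => (show ℂ from (baseW T.W ℂ).tr X (B.b i * B.b j))
  K := 0
  perm n σ := by
    obtain ⟨s, hs, h⟩ := Phi_perm B n σ
    refine ⟨s, hs, fun v hv => ?_⟩
    have h1 := S.map (perm X n σ) hv
    exact (congrArg (fun u => u ∈ S.C (pw X n)) (h v)).mp h1
  ev n v hv := by
    have h1 := Phi_op B S hS (fun i => if Even (B.deg i) then 1 else 0)
      (fun i => evp_apply (B.mem i)) n hv
    have h2 : (fun w : Fin (n + 1) → ι => (if Even (B.deg (w 0)) then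
        (1 : (baseW T.W ℂ).K) else 0) * (show (baseW T.W ℂ).K from v w)) =
        fun w => if decide (Even (B.deg (w 0))) = true then v w else 0 := by
      funext w
      by_cases h : Even (B.deg (w 0))
      · rw [if_pos h, if_pos (by simpa using h)]
        exact one_mul _
      · rw [if_neg h, if_neg (by simpa using h)]
        exact zero_mul _
    exact (congrArg (fun u => Phi B n u ∈ S.C (pw X n)) h2).mp h1
  mul n m v hv u hu := by
    obtain ⟨f, g, h⟩ := Phi_mul B n m
    have h1 := S.mul (S.map f hv) (S.map g hu)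
    exact (congrArg (fun u => u ∈ S.C (pw X (n + 1 + m))) (h v u)).mp h1
  con n v hv := by
    obtain ⟨f, h⟩ := Phi_con B n
    have h1 := S.push (snd X (pw X n)) (S.map f hv)
    exact (congrArg (fun u => u ∈ S.C (pw X n)) (h v)).mp h1
  conj n v hv := by
    have h1 : tp (Fin (n + 1)) (0 : Matrix ι ι ℂ) *ᵥ star v = 0 := by
      have h2 : tp (Fin (n + 1)) (0 : Matrix ι ι ℂ) = 0 := by
        ext I J
        rw [tp_apply]
        exact Finset.prod_eq_zero (Finset.mem_univ 0) rfl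
      rw [h2, Matrix.zero_mulVec]
    rw [h1]
    exact Submodule.zero_mem _

end Pool.Agent.H847.CG
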