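import Pool.Agent.H847.CG.Stm3

set_option autoImplicit false

/-! A projector is a polynomial without constant term. -/

open Polynomial

namespace Pool.Agent.H847.CG.PRJ

theorem inj_pow {K : Type} [Field K] {V : Type} [AddCommGroup V] [Module K V]
    (u p : Module.End K V) (h1 : u * p = u) (h2 : p * u = u)
    (h3 : ∀ x, p x = x → u x = 0 → x = 0) (N : Module.End K V) (hN : p * N = N) (k : ℕ)
    (hk : u ^ k * N = 0) : N = 0 := by
  have hc : Commute p u := by rw [commute_iff_eq, h1, h2]
  induction k with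
  | zero => simpa using hk
  | succ k ih =>
    apply ih
    have h4 : p * (u ^ k * N) = u ^ k * N := by
      rw [← mul_assoc, (hc.pow_right k).eq, mul_assoc, hN]
    ext x
    apply h3
    · exact LinearMap.congr_fun h4 x
    · rw [pow_succ', mul_assoc] at hk
      exact LinearMap.congr_fun hk x

theorem comm_aeval {K : Type} [Field K] {V : Type} [AddCommGroup V] [Module K V]
    (u p : Module.End K V) (hc : Commute p u) (g : K[X]) : Commute p (aeval u g) := by
  rw [aeval_eq_sum_range]
  exact Commute.sum_right _ _ _ fun i _ => (hc.pow_right i).smul_right _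

theorem main : S_PRJ := by
  intro K _ V _ _ _ u p hp h1 h2 h3
  have hc : Commute p u := by rw [commute_iff_eq, h1, h2]
  have hm : minpoly K u ≠ 0 := minpoly.ne_zero (Algebra.IsIntegral.isIntegral u)
  obtain ⟨g, hg, hg0⟩ := exists_eq_pow_rootMultiplicity_mul_and_not_dvd (minpoly K u) hm 0
  rw [C_0, sub_zero] at hg hg0
  set k := rootMultiplicity 0 (minpoly K u)
  have hg0' : g.coeff 0 ≠ 0 := fun h => hg0 (X_dvd_iff.2 h)
  have h4 : u ^ k * aeval u g = 0 := by
    have h5 : aeval u (minpoly K u) = 0 := minpoly.aeval K u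
    rw [hg, map_mul, map_pow, aeval_X] at h5
    exact h5
  have h5 : aeval u g * p = 0 := by
    refine inj_pow u p h1 h2 h3 _ ?_ k ?_
    · rw [← mul_assoc, (comm_aeval u p hc g).eq, mul_assoc, hp]
    · rw [← mul_assoc, h4, zero_mul]
  have h6 : g = X * g.divX + C (g.coeff 0) := (X_mul_divX_add g).symm
  have h7 : aeval u g = u * aeval u g.divX + algebraMap K _ (g.coeff 0) := by
    conv_lhs => rw [h6]
    rw [map_add, map_mul, aeval_X, aeval_C]
  have h8 : u * aeval u g.divX * p = u * aeval u g.divX := by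
    rw [mul_assoc, ← (comm_aeval u p hc g.divX).eq, ← mul_assoc, h1]
  have h9 : (g.coeff 0) • p = -(u * aeval u g.divX) := by
    rw [h7, add_mul, h8, Algebra.algebraMap_eq_smul_one, smul_mul_assoc, one_mul] at h5
    exact eq_neg_of_add_eq_zero_right h5
  refine ⟨C (-(g.coeff 0)⁻¹) * g.divX, ?_⟩
  rw [map_mul, aeval_C, Algebra.algebraMap_eq_smul_one, smul_mul_assoc, one_mul, mul_smul_comm,
    neg_smul, ← smul_neg, ← h9, smul_smul, inv_mul_cancel₀ hg0', one_smul]

end Pool.Agent.H847.CG.PRJ
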