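import Pool.Graph.R_seed8.Y133.Half.PredSys
import Pool.Agent.H847.CG.PRJ

/-!
# The projector onto the even part of a polarised variety: statement
-/

open CategoryTheory AlgebraicGeometry

universe u

namespace Pool.Agent.H847.CG

open Module
open Pool.Agent.H914 Pool.Agent.H914.VarClass Pool.Agent.H914.VarClass.Obj
  Pool.Agent.H914.WeilCohomology
open Pool.Agent.Y133.Half (Sys PH Ev Adj ClassPred)

/-- EVP. Proof. Let `f = W.corr c` and `d = X.dim`. For `x` of degree `i` the class `f x` has degree `2 d - i`: by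
`horth` and the nondegeneracy of `W.tr` the other components of `f x` are orthogonal to everything. Let
`c_j = proj (2 j) c` (`ClassPred.sp_proj`: `Q.P _ j c_j`), so that `c = ∑ c_j` and `F_j = W.corr c_j ∈ Q.sys.Op X X`.
For `x` of degree `i` the class `F_j x` has degree `i + 2 j - 2 d`, so it is the component of this degree of
`f x`: `F_j x = f x` if `j + i = 2 d` and `F_j x = 0` otherwise. Let `E = ∑_(j even) F_j`: for `x` of
degree `i`, `E x = f x` if `i` is even and `E x = 0` otherwise; `E` maps `H^i` to `H^(2d-i)`. Let `p` be the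
projector onto the even part and `u = E ∘ E`. Then `p * p = p`, `u * p = u = p * u`, and `u` is injective on the
range of `p` (`f` is injective by `hinj`). By `PRJ.main` `p = u * q(u)`, so `p ∈ Q.sys.Op X X`
(`Sys.Op.comp`, `Sys.Op.id`). -/
def S_EVP : Prop := ∀ (k : Type u) [Field k] (𝒱 : VarClass k) (ops : CycleOps 𝒱)
  (W : WeilCohomology.{u, 0} ops) (X : 𝒱.Obj) (Q : ClassPred W) (c : W.H (X.prod X)),
  c ∈ Q.sp (X.prod X) →
  (∀ (i j : ℕ) (x y : W.H X), i ≠ j → x ∈ W.gr X i → y ∈ W.gr X j →
    W.tr X (W.corr c x * y) = 0) →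
  (∀ x, (∀ y, W.tr X (W.corr c x * y) = 0) → x = 0) →
  ∃ e ∈ Q.sys.Op X X, ∀ (i : ℕ) (x : W.H X), x ∈ W.gr X i → e x = if Even i then x else 0

end Pool.Agent.H847.CG
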