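import Pool.Agent.H847.CG.Pair
import Pool.Agent.H847.CG.StmE
import Pool.Graph.R_seed8.Y121.AH.Alg2

/-!
# Polarised systems of Hodge classes
-/

set_option linter.unusedSectionVars false
set_option linter.unusedVariables false

open CategoryTheory AlgebraicGeometry CategoryTheory.Limits TensorProduct Matrix

universe u v

namespace Pool.Agent.H847.CG

open Pool.Agent.H914 Pool.Agent.H447 Pool.Agent.W534 Pool.Agent.Y163 VarClass Obj WeilCohomology
  Module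
open Pool.Agent.Y121 Pool.Agent.R940 Pool.Agent.R914.UN
open Pool.Agent.Y133.Half (Sys PH Ev Adj ClassPred)

variable {k : Type u} [Field k] {𝒱 : VarClass k} {ops : CycleOps 𝒱}

lemma em_ind {W : WeilCohomology.{u, 0} ops} {L : Type} [Field L] [Algebra W.K L] {X : 𝒱.Obj}
    {p : (baseW W L).H X → Prop} (h0 : p 0) (hadd : ∀ x y, p x → p y → p (x + y))
    (hs : ∀ (c : (baseW W L).K) x, p x → p (c • x))
    (h : ∀ i, ∀ a ∈ W.gr X i, p (AH.em W L a)) (x : (baseW W L).H X) : p x := by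
  obtain ⟨x', rfl⟩ : ∃ x' : L ⊗[W.K] W.H X, (show (baseW W L).H X from x') = x := ⟨x, rfl⟩
  refine cs_ind (P := fun x' : L ⊗[W.K] W.H X => p (show (baseW W L).H X from x')) h0
    (fun x y hx hy => hadd _ _ hx hy) ?_ x'
  intro l c
  rw [AH.tmul_eq]
  apply hs
  refine gr_induction (W.isInternal X) (p := fun c => p (AH.em W L c)) h ?_ c
  intro a b ha hb
  rw [AH.em_add]
  exact hadd _ _ ha hb

variable {T : AH.HodgeTheory ops} {X Y Z : 𝒱.Obj}

lemma psi_em (ψ : LinearMap.BilinForm T.W.K (T.W.H X)) (a b : T.W.H X) :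
    psi ψ (AH.em T.W ℂ a) (AH.em T.W ℂ b) = AH.ex T.W ℂ (ψ a b) := by
  have h : ψ.baseChange ℂ ((1 : ℂ) ⊗ₜ[T.W.K] a) ((1 : ℂ) ⊗ₜ[T.W.K] b) =
      algebraMap T.W.K ℂ (ψ a b) := by
    rw [LinearMap.BilinForm.baseChange_tmul, one_mul, Algebra.smul_def, mul_one]
  exact h

lemma psi_corr {ψ : LinearMap.BilinForm T.W.K (T.W.H X)} {c : T.W.H (X.prod X)}
    (h : ∀ x y, ψ x y = T.W.tr X (T.W.corr c x * y)) (x y : (baseW T.W ℂ).H X) :
    psi ψ x y =
      (baseW T.W ℂ).tr X ((baseW T.W ℂ).corr (AH.em T.W ℂ c) x * y) := by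
  refine em_ind (p := fun x => psi ψ x y =
      (baseW T.W ℂ).tr X ((baseW T.W ℂ).corr (AH.em T.W ℂ c) x * y)) ?_ ?_ ?_ ?_ x
  · rw [map_zero, LinearMap.zero_apply, map_zero, zero_mul, map_zero]
  · intro x x' hx hx'
    rw [map_add, LinearMap.add_apply, hx, hx', map_add, add_mul, map_add]
  · intro r x hx
    rw [map_smul, LinearMap.smul_apply, hx, map_smul, smul_mul_assoc, map_smul]
  · intro i a _
    refine em_ind (p := fun y => psi ψ (AH.em T.W ℂ a) y =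
      (baseW T.W ℂ).tr X ((baseW T.W ℂ).corr (AH.em T.W ℂ c) (AH.em T.W ℂ a) * y)) ?_ ?_ ?_ ?_ y
    · rw [map_zero, mul_zero, map_zero]
    · intro y y' hy hy'
      rw [map_add, hy, hy', mul_add, map_add]
    · intro r y hy
      rw [map_smul, hy, mul_smul_comm, map_smul]
    · intro j b _
      rw [psi_em, AH.em_corr, ← AH.em_mul, AH.em_tr, h]

lemma ex_injective {W : WeilCohomology.{u, 0} ops} {L : Type} [Field L] [Algebra W.K L] {r : W.K}
    (h : AH.ex W L r = 0) : r = 0 := by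
  have h1 : algebraMap W.K L r = 0 := h
  exact (map_eq_zero _).1 h1

/-- A polarisation pairs the degrees with themselves. -/
lemma pol_orth {ψ : LinearMap.BilinForm T.W.K (T.W.H X)} (hψ : IsPol ψ) {i j : ℕ} (hij : i ≠ j)
    {x y : T.W.H X} (hx : x ∈ T.W.gr X i) (hy : y ∈ T.W.gr X j) : ψ x y = 0 := by
  apply ex_injective (L := ℂ)
  rw [← psi_em]
  refine Submodule.iSup_induction _ (motive := fun x => psi ψ x (AH.em T.W ℂ y) = 0)
    (T.dec.span hx) ?_ ?_ ?_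
  · intro r x hx
    refine Submodule.iSup_induction _ (motive := fun y => psi ψ x y = 0) (T.dec.span hy) ?_ ?_ ?_
    · intro s y hy
      refine hψ.orth _ _ _ _ _ _ hx hy ?_
      intro h
      apply hij
      rw [Prod.ext_iff] at h
      have h1 := r.2
      have h2 := s.2
      have h3 := h.1
      have h4 := h.2
      simp only at h3 h4
      have h5 : (i : ℤ) = j := by rw [← h1, ← h2, h3, h4]; ring
      exact_mod_cast h5
    · rw [map_zero]
    · intro y y' hy hy'; rw [map_add, hy, hy', add_zero]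
  · rw [map_zero, LinearMap.zero_apply]
  · intro x x' hx hx'; rw [map_add, LinearMap.add_apply, hx, hx', add_zero]

/-- A polarisation is nondegenerate. -/
lemma pol_inj (hsym : ∀ (p q : ℤ) (x : (baseW T.W ℂ).H X), x ∈ T.pq X p q →
      sm (cK T) X x ∈ T.pq X q p)
    {ψ : LinearMap.BilinForm T.W.K (T.W.H X)} (hψ : IsPol ψ) {x : T.W.H X}
    (h : ∀ y, ψ x y = 0) : x = 0 := by
  have h1 : ∀ y : (baseW T.W ℂ).H X, psi ψ (AH.em T.W ℂ x) y = 0 := by
    intro y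
    refine em_ind (p := fun y => psi ψ (AH.em T.W ℂ x) y = 0) ?_ ?_ ?_ ?_ y
    · rw [map_zero]
    · intro y y' hy hy'; rw [map_add, hy, hy', add_zero]
    · intro r y hy; rw [map_smul, hy, smul_zero]
    · intro i a _
      rw [psi_em, h]
      exact map_zero (algebraMap T.W.K ℂ)
  set v : (baseW T.W ℂ).H X := act T (chi Complex.I⁻¹) X (AH.em T.W ℂ x) with hv
  have h2 : act T (chi Complex.I) X v = AH.em T.W ℂ x := by
    rw [hv, act_act, chi_chi, mul_inv_cancel₀ Complex.I_ne_zero, chi_one, act_one']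
  have h3 : hf ψ v v = 0 := by
    rw [hf, h2, h1]
    rfl
  by_contra hx
  have hv0 : v ≠ 0 := by
    intro h0
    rw [h0, map_zero] at h2
    exact hx (AH.em_injective h2.symm)
  obtain ⟨c, hc, h4⟩ := hf_isPos hsym hψ hv0
  rw [h3] at h4
  have : c = 0 := by exact_mod_cast h4.symm
  exact hc.ne' this

/-- The extension of an operator of the system. -/
lemma em_Op (Q : ClassPred T.W) {c : T.W.H (X.prod Y)} (hc : c ∈ Q.sp (X.prod Y)) :
    (baseW T.W ℂ).corr (AH.em T.W ℂ c) ∈ (Q.sys.base ℂ).Op X Y :=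
  Sys.Op.corr (S := Q.sys.base ℂ) (em_SG (T := T) (L := ℂ) hc)

/-- The projector onto the even part. -/
lemma evp_base (hE : S_EVP.{u}) (hsym : ∀ (p q : ℤ) (x : (baseW T.W ℂ).H X), x ∈ T.pq X p q →
      sm (cK T) X x ∈ T.pq X q p)
    {ψ : LinearMap.BilinForm T.W.K (T.W.H X)} (hψ : IsPol ψ) (Q : ClassPred T.W)
    {c : T.W.H (X.prod X)} (hc : c ∈ Q.sp (X.prod X))
    (h : ∀ x y, ψ x y = T.W.tr X (T.W.corr c x * y)) : evp T X ∈ (Q.sys.base ℂ).Op X X := by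
  obtain ⟨e, he, h1⟩ := hE k 𝒱 ops T.W X Q c hc (fun i j x y hij hx hy => by
      rw [← h]; exact pol_orth hψ hij hx hy) (fun x hx => pol_inj hsym hψ fun y => by
      rw [h]; exact hx y)
  obtain ⟨c', hc', rfl⟩ := Sys.mem_Op.1 he
  have h2 : (baseW T.W ℂ).corr (AH.em T.W ℂ c') = evp T X := by
    apply LinearMap.ext
    intro x
    refine em_ind (p := fun x => (baseW T.W ℂ).corr (AH.em T.W ℂ c') x = evp T X x) ?_ ?_ ?_ ?_ x
    · rw [map_zero, map_zero]
    · intro x y hx hy; rw [map_add, map_add, hx, hy]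
    · intro r x hx; rw [map_smul, map_smul, hx]
    · intro i a ha
      rw [AH.em_corr, h1 i a ha, evp_apply (AH.em_gr ha)]
      split_ifs
      · rw [one_smul]
      · rw [zero_smul, AH.em_zero]
  rw [← h2]
  exact em_Op Q hc'

/-- **The compact group of a polarised system of Hodge classes.** -/
theorem pred_pair (hBIC : S_BIC) (hE : S_EVP.{u})
    (hpos : ∀ (Y : 𝒱.Obj) (p q : ℤ), p < 0 ∨ q < 0 → T.pq Y p q = ⊥)
    (hsym : ∀ (p q : ℤ) (x : (baseW T.W ℂ).H X), x ∈ T.pq X p q → sm (cK T) X x ∈ T.pq X q p)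
    {ψ : LinearMap.BilinForm T.W.K (T.W.H X)} (hψ : IsPol ψ) (Q : ClassPred T.W)
    (hQ : ∀ (Y : 𝒱.Obj) (j : ℕ) (c : T.W.H Y), Q.P Y j c → AH.IsHodge T Y j c)
    {c : T.W.H (X.prod X)} (hc : c ∈ Q.sp (X.prod X))
    (h : ∀ x y, ψ x y = T.W.tr X (T.W.corr c x * y)) [Nontrivial (T.W.H X)] :
    ∃ Γ : CGrp (Fin (finrank T.W.K (T.W.H X))), Good Γ ∧
      (∀ n, Γ.s (n + 1) = finrank T.W.K (Q.sp (pw X n))) ∧
      (∀ n, finrank (baseW T.W ℂ).K (Submodule.span (baseW T.W ℂ).K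
        {F | ∃ g ∈ stab (Q.sys.base ℂ) X, F = pwOp (baseW T.W ℂ) g n}) =
          finrank ℂ (Γ.orb (n + 1) (1 : Matrix (Fin (n + 1) → Fin (finrank T.W.K (T.W.H X)))
            (Fin (n + 1) → Fin (finrank T.W.K (T.W.H X))) ℂ))) ∧
      ∀ S' : Sys (baseW T.W ℂ), (∀ Y, (Q.sys.base ℂ).C Y ≤ S'.C Y) → ∃ U : TS Γ,
        (∀ n, finrank ℂ (U.T (n + 1)) = finrank (baseW T.W ℂ).K (S'.C (pw X n))) ∧
        ((∀ n, U.T n = Γ.inv' n) ↔
          ∀ n, S'.C (pw X n) = (Q.sys.base ℂ).C (pw X n)) := by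
  obtain ⟨b, B, hb, hB⟩ := exists_hbasis_onb hsym hψ
  subst hb
  have hQs : ∀ Y : 𝒱.Obj, Q.sp Y ≤ (AH.hodgePred T).sp Y := fun Y =>
    Submodule.span_mono fun c ⟨j, hj⟩ => ⟨j, hQ Y j c hj⟩
  have : Nontrivial ((baseW T.W ℂ).H X) := by
    obtain ⟨x, hx⟩ := exists_ne (0 : T.W.H X)
    exact ⟨AH.em T.W ℂ x, 0, fun h0 => hx (AH.em_injective h0)⟩
  obtain ⟨Γ, hΓ, h1, h3, h2⟩ := sys_pair hBIC hpos hψ B hB (Q.sys.base ℂ)
    (fun n x hx => gam_SG (SG_mono (hQs _) hx) AlgEquiv.refl _)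
    (fun Y x hx => sm_SG (cK T) hx) (evp_base hE hsym hψ Q hc h) (em_Op Q hc) (psi_corr h)
  refine ⟨Γ, hΓ, fun n => ?_, h3, h2⟩
  rw [h1]
  exact Sys.finrank_base ℂ (S := Q.sys) (pw X n)

end Pool.Agent.H847.CG
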