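import Pool.Agent.H847.CG.All
import Pool.Agent.H847.CG.PDefs

/-!
# Orders of growth
-/

namespace Pool.Agent.H847.CG

lemma rpow_sq {x : ℝ} (hx : 0 < x) (D : ℕ) : (x ^ (-(D : ℝ) / 2)) ^ 2 * x ^ D = 1 := by
  rw [← Real.rpow_natCast (x ^ (-(D : ℝ) / 2)) 2, ← Real.rpow_mul hx.le, ← Real.rpow_natCast x D,
    ← Real.rpow_add hx]
  have : (-(D : ℝ) / 2 * ((2 : ℕ) : ℝ) + (D : ℝ)) = 0 := by push_cast; ring
  rw [this, Real.rpow_zero]

lemma sqrt_le_of {c a s : ℝ} (hc : 0 ≤ c) (ha : 0 ≤ a) (hs : 0 ≤ s) (h : c * a ^ 2 ≤ s ^ 2) :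
    Real.sqrt c * a ≤ s := by
  have h1 : (Real.sqrt c * a) ^ 2 ≤ s ^ 2 := by
    rw [mul_pow, Real.sq_sqrt hc]
    exact h
  exact (pow_le_pow_iff_left₀ (by positivity) hs two_ne_zero).1 h1

lemma le_sqrt_of {C a s : ℝ} (hC : 0 ≤ C) (ha : 0 ≤ a) (hs : 0 ≤ s) (h : s ^ 2 ≤ C * a ^ 2) :
    s ≤ Real.sqrt C * a := by
  have h1 : s ^ 2 ≤ (Real.sqrt C * a) ^ 2 := by
    rw [mul_pow, Real.sq_sqrt hC]
    exact h
  exact (pow_le_pow_iff_left₀ hs (by positivity) two_ne_zero).1 h1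

/-- The growth law for the invariants of degree `n + 1`. -/
theorem grow_order {B : Type} [Fintype B] [DecidableEq B] (Γ : CGrp B) (hΓ : Good Γ) :
    ∃ D : ℕ, HasOrder (Fintype.card B) D (fun n => Γ.s (n + 1)) ∧
      HasPoly D (fun n => Module.finrank ℂ
        (Γ.orb (n + 1) (1 : Matrix (Fin (n + 1) → B) (Fin (n + 1) → B) ℂ))) := by
  obtain ⟨D, c, C, hc, hC, h⟩ := grow_law B Γ hΓ
  have hb : (0 : ℝ) < Fintype.card B := by exact_mod_cast hΓ.card_pos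
  set b : ℝ := (Fintype.card B : ℝ) with hbdef
  refine ⟨D, ⟨Real.sqrt (c * b ^ 2 / 2 ^ D), Real.sqrt (C * b ^ 2), by positivity,
    fun n => ⟨?_, ?_⟩⟩, ⟨c, C * 2 ^ D, hc, fun n => ⟨?_, ?_⟩⟩⟩
  · obtain ⟨h1, -, -, -⟩ := h (n + 1)
    have hx : (0 : ℝ) < (n : ℝ) + 1 := by positivity
    refine sqrt_le_of (by positivity) (by positivity) (by positivity) ?_
    have h2 := rpow_sq hx D
    set p := ((n : ℝ) + 1) ^ (-(D : ℝ) / 2) with hp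
    have h3 : (((n + 1 : ℕ) : ℝ) + 1) ^ D ≤ 2 ^ D * ((n : ℝ) + 1) ^ D := by
      rw [← mul_pow]
      push_cast
      gcongr
      linarith
    have h4 : c * (b ^ (n + 1)) ^ 2 ≤ (Γ.s (n + 1) : ℝ) ^ 2 * (2 ^ D * ((n : ℝ) + 1) ^ D) :=
      h1.trans (mul_le_mul_of_nonneg_left h3 (by positivity))
    have h5 : c * (b ^ (n + 1)) ^ 2 * p ^ 2 ≤ (Γ.s (n + 1) : ℝ) ^ 2 * 2 ^ D := by
      calc c * (b ^ (n + 1)) ^ 2 * p ^ 2
          ≤ (Γ.s (n + 1) : ℝ) ^ 2 * (2 ^ D * ((n : ℝ) + 1) ^ D) * p ^ 2 := by gcongr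
        _ = (Γ.s (n + 1) : ℝ) ^ 2 * 2 ^ D * (p ^ 2 * ((n : ℝ) + 1) ^ D) := by ring
        _ = _ := by rw [h2, mul_one]
    have h6 : c * b ^ 2 / 2 ^ D * (b ^ n * p) ^ 2 = c * (b ^ (n + 1)) ^ 2 * p ^ 2 / 2 ^ D := by
      ring
    rw [h6, div_le_iff₀ (by positivity)]
    exact h5
  · obtain ⟨-, h1, -, -⟩ := h (n + 1)
    have hx : (0 : ℝ) < (n : ℝ) + 1 := by positivity
    refine le_sqrt_of (by positivity) (by positivity) (by positivity) ?_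
    have h2 := rpow_sq hx D
    set p := ((n : ℝ) + 1) ^ (-(D : ℝ) / 2) with hp
    have h3 : ((n : ℝ) + 1) ^ D ≤ (((n + 1 : ℕ) : ℝ) + 1) ^ D := by
      push_cast
      gcongr
      linarith
    have h4 : (Γ.s (n + 1) : ℝ) ^ 2 * ((n : ℝ) + 1) ^ D ≤ C * (b ^ (n + 1)) ^ 2 :=
      (mul_le_mul_of_nonneg_left h3 (by positivity)).trans h1
    calc (Γ.s (n + 1) : ℝ) ^ 2 = (Γ.s (n + 1) : ℝ) ^ 2 * ((n : ℝ) + 1) ^ D * p ^ 2 := by
          rw [mul_assoc, mul_comm _ (p ^ 2), h2, mul_one]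
      _ ≤ C * (b ^ (n + 1)) ^ 2 * p ^ 2 := by gcongr
      _ = _ := by ring
  · obtain ⟨-, -, h1, -⟩ := h (n + 1)
    refine le_trans ?_ h1
    push_cast
    gcongr
    linarith
  · obtain ⟨-, -, -, h1⟩ := h (n + 1)
    refine h1.trans ?_
    rw [mul_assoc, ← mul_pow]
    push_cast
    gcongr
    linarith

/-- The gap for the tensors of degree `n + 1`. -/
theorem gap_order {B : Type} [Fintype B] [DecidableEq B] (Γ : CGrp B) (hΓ : Good Γ) (S : TS Γ) :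
    (∃ N : ℕ, 1 ≤ N ∧ (N = 1 ↔ ∀ n, S.T n = Γ.inv' n) ∧
      NearIndex N (fun n => Module.finrank ℂ (S.T (n + 1))) (fun n => Γ.s (n + 1))) ∨
    SqrtGap (fun n => Module.finrank ℂ (S.T (n + 1))) (fun n => Γ.s (n + 1)) := by
  rcases gap_law B Γ hΓ S with ⟨N, h1, h2, C, hC⟩ | ⟨c, hc, h⟩
  · refine Or.inl ⟨N, h1, h2, |C|, fun n => ?_⟩
    have h3 := hC (n + 1)
    have h4 : (0 : ℝ) < (n : ℝ) + 1 := by positivity
    have h5 : (0 : ℝ) ≤ Γ.s (n + 1) := by positivity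
    rw [div_mul_eq_mul_div, le_div_iff₀ h4]
    calc |(Module.finrank ℂ (S.T (n + 1)) : ℝ) - N * Γ.s (n + 1)| * ((n : ℝ) + 1)
        ≤ |(Module.finrank ℂ (S.T (n + 1)) : ℝ) - N * Γ.s (n + 1)| *
          (((n + 1 : ℕ) : ℝ) + 1) := by
          refine mul_le_mul_of_nonneg_left ?_ (abs_nonneg _)
          push_cast
          linarith
      _ ≤ C * Γ.s (n + 1) := h3
      _ ≤ |C| * Γ.s (n + 1) := mul_le_mul_of_nonneg_right (le_abs_self C) h5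
  · refine Or.inr ⟨c, hc, fun n => ?_⟩
    refine le_trans ?_ (h (n + 1))
    have h5 : Real.sqrt ((n : ℝ) + 1) ≤ Real.sqrt (((n + 1 : ℕ) : ℝ) + 1) := by
      apply Real.sqrt_le_sqrt
      push_cast
      linarith
    gcongr

end Pool.Agent.H847.CG
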