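import Pool.Agent.H847.CG.Glue6
import Pool.Agent.H847.CG.EVP
import Pool.Agent.H847.CG.Ord

/-!
# The growth law and the gap for systems of classes
-/

set_option linter.unusedSectionVars false
set_option linter.unusedVariables false

open CategoryTheory AlgebraicGeometry CategoryTheory.Limits TensorProduct Matrix Filter

universe u v

namespace Pool.Agent.H847.CG

open Pool.Agent.H914 Pool.Agent.H447 Pool.Agent.W534 Pool.Agent.Y163 VarClass Obj WeilCohomology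
  Module
open Pool.Agent.Y121 Pool.Agent.R940 Pool.Agent.R914.UN
open Pool.Agent.Y133.Half (Sys PH Ev Adj ClassPred)

section cmp

lemma rpow_bdd {x K : ℝ} (h : ∀ n : ℕ, ((n : ℝ) + 1) ^ x ≤ K) : x ≤ 0 := by
  by_contra hx
  push Not at hx
  have h1 : Tendsto (fun n : ℕ => ((n : ℝ) + 1) ^ x) atTop atTop :=
    (tendsto_rpow_atTop hx).comp (tendsto_atTop_add_const_right _ _ tendsto_natCast_atTop_atTop)
  obtain ⟨n, hn⟩ := (h1.eventually_gt_atTop K).exists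
  exact absurd (h n) (not_le.2 hn)

variable {b : ℝ} {a h : ℕ} {s t : ℕ → ℕ}

/-- Comparison of the orders of growth. -/
lemma order_le (hb : 0 < b) (hs : HasOrder b a s) (ht : HasOrder b h t) {e : ℝ} {c : ℝ}
    (hc : 0 < c) (hst : ∀ n : ℕ, c * ((n : ℝ) + 1) ^ e * s n ≤ t n) :
    (h : ℝ) + 2 * e ≤ a := by
  obtain ⟨c₁, C₁, hc₁, h₁⟩ := hs
  obtain ⟨c₂, C₂, hc₂, h₂⟩ := ht
  have key : ∀ n : ℕ, ((n : ℝ) + 1) ^ (((h : ℝ) + 2 * e - a) / 2) ≤ C₂ / (c * c₁) := by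
    intro n
    have hx : (0 : ℝ) < (n : ℝ) + 1 := by positivity
    have h3 := (h₁ n).1
    have h4 := (h₂ n).2
    have h5 : c * ((n : ℝ) + 1) ^ e * (c₁ * (b ^ n * ((n : ℝ) + 1) ^ (-(a : ℝ) / 2))) ≤
        C₂ * (b ^ n * ((n : ℝ) + 1) ^ (-(h : ℝ) / 2)) :=
      (mul_le_mul_of_nonneg_left h3 (by positivity)).trans ((hst n).trans h4)
    have hbn : 0 < b ^ n := by positivity
    have h6 : c * c₁ * (((n : ℝ) + 1) ^ e * ((n : ℝ) + 1) ^ (-(a : ℝ) / 2)) ≤
        C₂ * ((n : ℝ) + 1) ^ (-(h : ℝ) / 2) := by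
      refine le_of_mul_le_mul_left ?_ hbn
      calc b ^ n * (c * c₁ * (((n : ℝ) + 1) ^ e * ((n : ℝ) + 1) ^ (-(a : ℝ) / 2)))
          = c * ((n : ℝ) + 1) ^ e * (c₁ * (b ^ n * ((n : ℝ) + 1) ^ (-(a : ℝ) / 2))) := by ring
        _ ≤ _ := h5
        _ = _ := by ring
    have h7 : ((n : ℝ) + 1) ^ (((h : ℝ) + 2 * e - a) / 2) =
        ((n : ℝ) + 1) ^ e * ((n : ℝ) + 1) ^ (-(a : ℝ) / 2) / ((n : ℝ) + 1) ^ (-(h : ℝ) / 2) := by
      rw [← Real.rpow_add hx, ← Real.rpow_sub hx]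
      congr 1
      ring
    rw [h7, div_le_div_iff₀ (by positivity) (by positivity)]
    linarith
  have h8 := rpow_bdd key
  linarith

lemma order_le_of_le (hb : 0 < b) (hs : HasOrder b a s) (ht : HasOrder b h t)
    (hst : ∀ n : ℕ, s n ≤ t n) : h ≤ a := by
  have h1 := order_le hb hs ht (e := 0) one_pos fun n => by
    rw [Real.rpow_zero, one_mul, one_mul]
    exact_mod_cast hst n
  rw [mul_zero, add_zero] at h1
  exact_mod_cast h1

lemma order_lt_of_gap (hb : 0 < b) (hs : HasOrder b a s) (ht : HasOrder b h t)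
    (hst : SqrtGap t s) : h < a := by
  obtain ⟨c, hc, h0⟩ := hst
  have h1 := order_le hb hs ht (e := 1 / 2) hc fun n => by
    rw [← Real.sqrt_eq_rpow]
    exact h0 n
  have h2 : (h : ℝ) + 1 ≤ a := by linarith
  have h3 : h + 1 ≤ a := by exact_mod_cast h2
  omega

lemma order_eq_of_near (hb : 0 < b) (hs : HasOrder b a s) (ht : HasOrder b h t) {N : ℕ}
    (hst : NearIndex N t s) (hle : ∀ n, s n ≤ t n) : a = h := by
  refine le_antisymm ?_ (order_le_of_le hb hs ht hle)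
  obtain ⟨C, hC⟩ := hst
  have hK : (0 : ℝ) < |C| + N + 1 := by positivity
  have h1 := order_le hb ht hs (e := 0) (inv_pos.2 hK) fun n => by
    rw [Real.rpow_zero, mul_one, inv_mul_le_iff₀ hK]
    have h2 := hC n
    have h3 : (t n : ℝ) ≤ N * s n + |(t n : ℝ) - N * s n| := by
      linarith [le_abs_self ((t n : ℝ) - N * s n)]
    have h4 : C / ((n : ℝ) + 1) * s n ≤ |C| * s n := by
      refine mul_le_mul_of_nonneg_right ?_ (Nat.cast_nonneg _)
      rw [div_le_iff₀ (by positivity)]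
      have h5 : (1 : ℝ) ≤ (n : ℝ) + 1 := by
        have := Nat.cast_nonneg (α := ℝ) n
        linarith
      calc C ≤ |C| := le_abs_self C
        _ = |C| * 1 := (mul_one _).symm
        _ ≤ |C| * ((n : ℝ) + 1) := mul_le_mul_of_nonneg_left h5 (abs_nonneg C)
    have h5 : (0 : ℝ) ≤ s n := Nat.cast_nonneg _
    nlinarith
  rw [mul_zero, add_zero] at h1
  exact_mod_cast h1

end cmp

variable {k : Type u} [Field k] {𝒱 : VarClass k} {ops : CycleOps 𝒱}
variable {T : AH.HodgeTheory ops} {X Y Z : 𝒱.Obj}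

/-- The number of the linearly independent classes. -/
noncomputable def num (Q : ClassPred T.W) (X : 𝒱.Obj) (n : ℕ) : ℕ := finrank T.W.K (Q.sp (pw X n))

/-- The dimension of the span of the tensor powers of the operators which fix the classes. -/
noncomputable def grp (Q : ClassPred T.W) (X : 𝒱.Obj) (n : ℕ) : ℕ :=
  finrank (baseW T.W ℂ).K (Submodule.span (baseW T.W ℂ).K
        {F | ∃ g ∈ stab (Q.sys.base ℂ) X, F = pwOp (baseW T.W ℂ) g n})

/-- **The growth law and the gap.** -/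
theorem law (hpos : ∀ (Y : 𝒱.Obj) (p q : ℤ), p < 0 ∨ q < 0 → T.pq Y p q = ⊥)
    (hsym : ∀ (p q : ℤ) (x : (baseW T.W ℂ).H X), x ∈ T.pq X p q → sm (cK T) X x ∈ T.pq X q p)
    {ψ : LinearMap.BilinForm T.W.K (T.W.H X)} (hψ : IsPol ψ) (Q : ClassPred T.W)
    (hQ : ∀ (Y : 𝒱.Obj) (j : ℕ) (c : T.W.H Y), Q.P Y j c → AH.IsHodge T Y j c)
    {c : T.W.H (X.prod X)} (hc : c ∈ Q.sp (X.prod X))
    (h : ∀ x y, ψ x y = T.W.tr X (T.W.corr c x * y)) [Nontrivial (T.W.H X)] :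
    ∃ D : ℕ, HasOrder (finrank T.W.K (T.W.H X)) D (num Q X) ∧ HasPoly D (grp Q X) ∧
      ∀ S' : Sys (baseW T.W ℂ), (∀ Y, (Q.sys.base ℂ).C Y ≤ S'.C Y) →
        (∃ N : ℕ, 1 ≤ N ∧ (N = 1 ↔ ∀ n, S'.C (pw X n) = (Q.sys.base ℂ).C (pw X n)) ∧
          NearIndex N (fun n => finrank (baseW T.W ℂ).K (S'.C (pw X n))) (num Q X)) ∨
        SqrtGap (fun n => finrank (baseW T.W ℂ).K (S'.C (pw X n))) (num Q X) := by
  obtain ⟨Γ, hΓ, h1, h2, h3⟩ := pred_pair BIC.main EVP.main hpos hsym hψ Q hQ hc h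
  obtain ⟨D, hD1, hD2⟩ := grow_order Γ hΓ
  have e1 : (fun n => Γ.s (n + 1)) = num Q X := funext h1
  have e2 : (fun n => Module.finrank ℂ (Γ.orb (n + 1)
      (1 : Matrix (Fin (n + 1) → Fin (finrank T.W.K (T.W.H X)))
        (Fin (n + 1) → Fin (finrank T.W.K (T.W.H X))) ℂ))) = grp Q X :=
    funext fun n => (h2 n).symm
  rw [e1, Fintype.card_fin] at hD1
  rw [e2] at hD2
  refine ⟨D, hD1, hD2, fun S' hS' => ?_⟩
  obtain ⟨U, hU1, hU2⟩ := h3 S' hS'
  have e3 : (fun n => finrank ℂ (U.T (n + 1))) =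
      fun n => finrank (baseW T.W ℂ).K (S'.C (pw X n)) := funext hU1
  have h4 := gap_order Γ hΓ U
  rw [e1, e3, hU2] at h4
  exact h4

end Pool.Agent.H847.CG
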