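import Pool.Agent.H847.CG.StmP

/-! PER: the number of independent periods is at most the dimension of the commutant. -/

open TensorProduct

namespace Pool.Agent.H847.CG.PER

section

variable {K V : Type} [Field K] [Algebra K ℂ] [AddCommGroup V] [Module K V]

/-- the functional with complex coefficients -/
noncomputable def ev (l : V →ₗ[K] K) : ℂ ⊗[K] V →ₗ[ℂ] ℂ :=
  (TensorProduct.AlgebraTensorModule.rid K ℂ ℂ).toLinearMap ∘ₗ l.baseChange ℂ

theorem ev_apply (l : V →ₗ[K] K) (x : ℂ ⊗[K] V) :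
    ev l x = TensorProduct.AlgebraTensorModule.rid K ℂ ℂ (l.baseChange ℂ x) := rfl

theorem ev_tmul (l : V →ₗ[K] K) (z : ℂ) (v : V) : ev l (z ⊗ₜ v) = algebraMap K ℂ (l v) * z := by
  rw [ev_apply, LinearMap.baseChange_tmul, TensorProduct.AlgebraTensorModule.rid_tmul,
    Algebra.smul_def]

theorem ev_comp (l : V →ₗ[K] K) (a : Module.End K V) (x : ℂ ⊗[K] V) :
    ev (l ∘ₗ a) x = ev l (a.baseChange ℂ x) := by
  rw [ev_apply, ev_apply, LinearMap.baseChange_comp]
  rfl

theorem repr_eq {n : ℕ} (e : Module.Basis (Fin n) K V) (x : ℂ ⊗[K] V) (k : Fin n) :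
    (Algebra.TensorProduct.basis ℂ e).repr x k = ev (e.coord k) x := by
  induction x using TensorProduct.induction_on with
  | zero => simp
  | tmul z v =>
    rw [ev_tmul, Algebra.TensorProduct.basis_repr_tmul]
    simp only [Finsupp.smul_apply, Finsupp.mapRange_apply, smul_eq_mul, Module.Basis.coord_apply]
    exact mul_comm _ _
  | add x y hx hy => rw [map_add, map_add, Finsupp.add_apply, hx, hy]

theorem ext_ev {n : ℕ} (e : Module.Basis (Fin n) K V) {x y : ℂ ⊗[K] V}
    (h : ∀ l : V →ₗ[K] K, ev l x = ev l y) : x = y := by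
  apply (Algebra.TensorProduct.basis ℂ e).repr.injective
  ext k
  rw [repr_eq, repr_eq, h]

theorem ev_eq_sum {n : ℕ} (e : Module.Basis (Fin n) K V) (l : V →ₗ[K] K) (x : ℂ ⊗[K] V) :
    ev l x = ∑ k, algebraMap K ℂ (l (e k)) * ev (e.coord k) x := by
  conv_lhs => rw [← (Algebra.TensorProduct.basis ℂ e).sum_repr x]
  rw [map_sum]
  refine Finset.sum_congr rfl fun k _ => ?_
  rw [map_smul, repr_eq, Algebra.TensorProduct.basis_apply, ev_tmul, mul_one, smul_eq_mul, mul_comm]

end

theorem main : S_PER := by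
  intro hCBC K V _ _ _ _ _ F hK S hspan hfin hrank C hC
  set P : Submodule F ℂ := perSub F (S : Set (ℂ ⊗[K] V)) with hP
  set b := Module.finrank K V with hb
  let e : Module.Basis (Fin b) K V := Module.finBasis K V
  let s : Module.Basis (Fin b) F S := Module.finBasisOfFinrankEq F S hrank
  have hmem : ∀ x ∈ S, ∀ l : V →ₗ[K] K, ev l x ∈ P := fun x hx l =>
    Submodule.subset_span ⟨x, hx, l, rfl⟩
  let p : Fin b → Fin b → P := fun j k => ⟨ev (e.coord k) (s j), hmem _ (s j).2 _⟩
  -- expansion of the elements of `S`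
  have hexp : ∀ x (hx : x ∈ S), x = ∑ j, ((s.repr ⟨x, hx⟩ j : F) : ℂ) • (s j : ℂ ⊗[K] V) := by
    intro x hx
    have h1 := congrArg (Subtype.val) (s.sum_repr ⟨x, hx⟩)
    rw [Submodule.coe_sum] at h1
    exact h1.symm
  have hex2 : ∀ x (hx : x ∈ S) (l : V →ₗ[K] K), (⟨ev l x, hmem x hx l⟩ : P) =
      ∑ j, (s.repr ⟨x, hx⟩ j : F) • ∑ k, (⟨algebraMap K ℂ (l (e k)), hK _⟩ : F) • p j k := by
    intro x hx l
    apply Subtype.ext
    rw [Submodule.coe_sum]
    conv_lhs => rw [show (⟨ev l x, hmem x hx l⟩ : P).val = ev l x from rfl, hexp x hx]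
    rw [map_sum]
    refine Finset.sum_congr rfl fun j _ => ?_
    rw [map_smul, ev_eq_sum e l, Submodule.coe_smul, Submodule.coe_sum]
    rfl
  -- finiteness
  have hfd : FiniteDimensional F P := by
    have h1 : P ≤ Submodule.span F (Set.range fun jk : Fin b × Fin b => ((p jk.1 jk.2 : P) : ℂ)) := by
      refine Submodule.span_le.2 ?_
      rintro z ⟨x, hx, l, rfl⟩
      have h2 := congrArg Subtype.val (hex2 x hx l)
      rw [SetLike.mem_coe]
      have h3 : TensorProduct.AlgebraTensorModule.rid K ℂ ℂ (l.baseChange ℂ x) = ev l x := rfl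
      rw [h3]
      have h4 : ev l x = ((∑ j, (s.repr ⟨x, hx⟩ j : F) •
        ∑ k, (⟨algebraMap K ℂ (l (e k)), hK _⟩ : F) • p j k : P) : ℂ) := h2
      rw [h4, Submodule.coe_sum]
      refine Submodule.sum_mem _ fun j _ => ?_
      rw [Submodule.coe_smul, Submodule.coe_sum]
      refine Submodule.smul_mem _ _ (Submodule.sum_mem _ fun k _ => ?_)
      rw [Submodule.coe_smul]
      exact Submodule.smul_mem _ _ (Submodule.subset_span ⟨(j, k), rfl⟩)
    have h2 : FiniteDimensional F (Submodule.span F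
        (Set.range fun jk : Fin b × Fin b => ((p jk.1 jk.2 : P) : ℂ))) :=
      FiniteDimensional.span_of_finite F (Set.finite_range _)
    exact Submodule.finiteDimensional_of_le h1
  refine ⟨hfd, ?_⟩
  -- the basis of `ℂ ⊗ V`
  have hcard : Fintype.card (Fin b) = Module.finrank ℂ (ℂ ⊗[K] V) := by
    rw [Fintype.card_fin, Module.finrank_baseChange]
  have htop : ⊤ ≤ Submodule.span ℂ (Set.range fun j => ((s j : S) : ℂ ⊗[K] V)) := by
    rw [← hspan, Submodule.span_le]
    intro x hx
    rw [SetLike.mem_coe, hexp x hx]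
    exact Submodule.sum_mem _ fun j _ => Submodule.smul_mem _ _ (Submodule.subset_span ⟨j, rfl⟩)
  let sC : Module.Basis (Fin b) ℂ (ℂ ⊗[K] V) := basisOfTopLeSpanOfCardEqFinrank _ htop hcard
  have hsC : ∀ j, sC j = (s j : ℂ ⊗[K] V) := fun j => by
    rw [coe_basisOfTopLeSpanOfCardEqFinrank]
  -- the maps
  let Y : (P →ₗ[F] F) → Module.End ℂ (ℂ ⊗[K] V) := fun f =>
    sC.constr ℂ fun j => ∑ k, ((f (p j k) : F) : ℂ) • ((1 : ℂ) ⊗ₜ[K] e k)
  have hY : ∀ (f : P →ₗ[F] F) (x : ℂ ⊗[K] V) (hx : x ∈ S) (l : V →ₗ[K] K),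
      ev l (Y f x) = ((f ⟨ev l x, hmem x hx l⟩ : F) : ℂ) := by
    intro f x hx l
    rw [hex2 x hx l]
    conv_lhs => rw [hexp x hx]
    rw [map_sum, map_sum, map_sum, AddSubmonoidClass.coe_finsetSum]
    refine Finset.sum_congr rfl fun j _ => ?_
    rw [map_smul, map_smul, map_smul, smul_eq_mul, smul_eq_mul, MulMemClass.coe_mul]
    congr 1
    rw [← hsC j]
    change ev l (sC.constr ℂ _ (sC j)) = _
    rw [Module.Basis.constr_basis, map_sum, map_sum, AddSubmonoidClass.coe_finsetSum]
    refine Finset.sum_congr rfl fun k _ => ?_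
    rw [map_smul, map_smul, ev_tmul, mul_one, smul_eq_mul, smul_eq_mul, MulMemClass.coe_mul,
      mul_comm]
  have hcomm : ∀ f : P →ₗ[F] F,
      Y f ∈ commSub ((fun g : Module.End K V => g.baseChange ℂ) '' C) := by
    rintro f _ ⟨a, ha, rfl⟩
    change Y f * a.baseChange ℂ = a.baseChange ℂ * Y f
    refine sC.ext fun j => ?_
    rw [Module.End.mul_apply, Module.End.mul_apply, hsC]
    refine ext_ev e fun l => ?_
    have has : a.baseChange ℂ (s j : ℂ ⊗[K] V) ∈ S := hC a ha _ (s j).2
    rw [hY f _ has l, ← ev_comp l a (Y f _), hY f _ (s j).2 (l ∘ₗ a)]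
    congr 2
    exact Subtype.ext (ev_comp l a _).symm
  -- independence
  set m := Module.finrank F P with hm
  let π : Module.Basis (Fin m) F P := Module.finBasis F P
  let W : Submodule ℂ (Module.End ℂ (ℂ ⊗[K] V)) :=
    commSub ((fun g : Module.End K V => g.baseChange ℂ) '' C)
  let Yc : Fin m → W := fun i => ⟨Y (π.coord i), hcomm _⟩
  have hli : LinearIndependent ℂ Yc := by
    refine (Fintype.linearIndependent_iff (ι := Fin m) (R := ℂ) (M := W) (v := Yc)).2
      fun c hc i => ?_
    have h1 : ∑ i, c i • Y (π.coord i) = 0 := by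
      have := congrArg Subtype.val hc
      rw [Submodule.coe_sum] at this
      exact this
    have h2 : ∀ x (hx : x ∈ P), ∑ i, c i * (((π.coord i) ⟨x, hx⟩ : F) : ℂ) = 0 := by
      intro x hx
      refine Submodule.span_induction
        (p := fun x hx => ∑ i, c i * (((π.coord i) ⟨x, hx⟩ : F) : ℂ) = 0) ?_ ?_ ?_ ?_ hx
      · rintro z ⟨y, hy, l, rfl⟩
        have h3 := congrArg (fun T : Module.End ℂ (ℂ ⊗[K] V) => ev l (T y)) h1
        simp only [LinearMap.sum_apply, LinearMap.smul_apply, map_sum, map_smul, smul_eq_mul,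
          LinearMap.zero_apply, map_zero] at h3
        rw [← h3]
        refine Finset.sum_congr rfl fun i _ => ?_
        rw [hY _ y hy l]
        rfl
      · refine Finset.sum_eq_zero fun i _ => ?_
        have h3 : (⟨0, Submodule.zero_mem P⟩ : P) = 0 := rfl
        rw [h3, map_zero]
        simp
      · intro y z hy hz h3 h4
        have h5 : ∀ i, (((π.coord i) ⟨y + z, Submodule.add_mem _ hy hz⟩ : F) : ℂ) =
            (((π.coord i) ⟨y, hy⟩ : F) : ℂ) + (((π.coord i) ⟨z, hz⟩ : F) : ℂ) := by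
          intro i
          have h6 : (⟨y + z, Submodule.add_mem _ hy hz⟩ : P) = ⟨y, hy⟩ + ⟨z, hz⟩ := rfl
          rw [h6, map_add]
          rfl
        simp_rw [h5, mul_add]
        rw [Finset.sum_add_distrib, h3, h4, add_zero]
      · intro r y hy h3
        have h5 : ∀ i, (((π.coord i) ⟨r • y, Submodule.smul_mem _ r hy⟩ : F) : ℂ) =
            (r : ℂ) * (((π.coord i) ⟨y, hy⟩ : F) : ℂ) := by
          intro i
          have h6 : (⟨r • y, Submodule.smul_mem _ r hy⟩ : P) = r • ⟨y, hy⟩ := rfl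
          rw [h6, map_smul]
          rfl
        simp_rw [h5, mul_left_comm]
        rw [← Finset.mul_sum, h3, mul_zero]
    have h5 := h2 (π i) (π i).2
    rw [Finset.sum_eq_single i] at h5
    · simpa using h5
    · intro j _ hji
      have h6 : (π.coord j) ⟨(π i : ℂ), (π i).2⟩ = 0 := by
        change (π.coord j) (π i) = 0
        rw [Module.Basis.coord_apply, Module.Basis.repr_self, Finsupp.single_apply, if_neg hji.symm]
      rw [h6]; simp
    · intro h; exact absurd (Finset.mem_univ i) h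
  have h7 := hli.fintype_card_le_finrank
  rw [Fintype.card_fin, hCBC K ℂ V C] at h7
  exact h7

end Pool.Agent.H847.CG.PER
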