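import Pool.Agent.H847.CG.Dim1

/-!
# The compact group of a polarised system of classes, and a larger system
-/

set_option linter.unusedSectionVars false
set_option linter.unusedVariables false

open CategoryTheory AlgebraicGeometry CategoryTheory.Limits TensorProduct Matrix

universe u v

namespace Pool.Agent.H847.CG

open Pool.Agent.H914 Pool.Agent.H447 Pool.Agent.W534 Pool.Agent.Y163 VarClass Obj WeilCohomology
  Module
open Pool.Agent.Y121 Pool.Agent.R940 Pool.Agent.R914.UN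
open Pool.Agent.Y133.Half (Sys PH Ev Adj)

variable {k : Type u} [Field k] {𝒱 : VarClass k} {ops : CycleOps 𝒱}

variable {T : AH.HodgeTheory ops} {X Y Z : 𝒱.Obj} {ι : Type} [Fintype ι] [DecidableEq ι]

/-- **The compact group of a polarised system of classes, and a larger system.** -/
theorem sys_pair (hBIC : S_BIC) (hpos : ∀ (Y : 𝒱.Obj) (p q : ℤ), p < 0 ∨ q < 0 → T.pq Y p q = ⊥)
    {ψ : LinearMap.BilinForm T.W.K (T.W.H X)} (hψ : IsPol ψ) (B : HBasis (baseW T.W ℂ) X ι)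
    (hB : ∀ i j, hf ψ (B.b i) (B.b j) = if i = j then 1 else 0) (S : Sys (baseW T.W ℂ))
    (hfix : ∀ (n : ℕ) (x : (baseW T.W ℂ).H (pw X n)), x ∈ S.C (pw X n) →
      gam AlgEquiv.refl Complex.I⁻¹ (pw X n) x = x)
    (hc : ∀ (Y : 𝒱.Obj) (x : (baseW T.W ℂ).H Y), x ∈ S.C Y → sm (cK T) Y x ∈ S.C Y)
    (hev : evp T X ∈ S.Op X X)
    {f : Module.End (baseW T.W ℂ).K ((baseW T.W ℂ).H X)} (hf : f ∈ S.Op X X)
    (hfψ : ∀ x y, psi ψ x y = (baseW T.W ℂ).tr X (f x * y))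
    [Nontrivial ((baseW T.W ℂ).H X)] :
    ∃ Γ : CGrp ι, Good Γ ∧
      (∀ n, Γ.s (n + 1) = finrank (baseW T.W ℂ).K (S.C (pw X n))) ∧
      (∀ n, finrank (baseW T.W ℂ).K (Submodule.span (baseW T.W ℂ).K
        {F | ∃ g ∈ stab S X, F = pwOp (baseW T.W ℂ) g n}) =
          finrank ℂ (Γ.orb (n + 1) (1 : Matrix (Fin (n + 1) → ι) (Fin (n + 1) → ι) ℂ))) ∧
      ∀ S' : Sys (baseW T.W ℂ), (∀ Y, S.C Y ≤ S'.C Y) → ∃ U : TS Γ,
        (∀ n, finrank ℂ (U.T (n + 1)) = finrank (baseW T.W ℂ).K (S'.C (pw X n))) ∧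
        ((∀ n, U.T n = Γ.inv' n) ↔ ∀ n, S'.C (pw X n) = S.C (pw X n)) := by
  obtain ⟨P, Γ, hΓ, hPJ, hPA, hΓA⟩ := sys_good hpos hψ B hB S hfix hc hev hf hfψ
  have hinv : ∀ n, Γ.inv' (n + 1) = AS S B n := by
    intro n
    ext v
    exact (hΓA (Fin (n + 1)) v).trans (hPA n v)
  have hdiag : (fun w : Fin 2 → ι => P.J⁻¹ (w 0) (w 1)) ∈ P.A (Fin 2) := by
    rw [hPJ]
    exact (hPA 1 _).2 (mem_AS.1 (diag_AS S B))
  refine ⟨Γ, hΓ, fun n => ?_, fun n => ?_, fun S' hS' => ?_⟩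
  · rw [CGrp.s, hinv, finrank_AS]
  · rw [← span_fix hBIC hΓA (by rw [hPJ]; exact det_tr B) hdiag (n + 1)]
    rw [span_pwOp B S n]
    have h1 : ∀ g : Matrix ι ι ℂ, (∀ m : ℕ, ∀ v : (Fin (m + 1) → ι) → (baseW T.W ℂ).K,
        Phi B m v ∈ S.C (pw X m) → tpK (m + 1) (show Matrix ι ι (baseW T.W ℂ).K from g) *ᵥ v = v) ↔
        ∀ m : ℕ, ∀ v ∈ P.A (Fin (m + 1)), tpw (m + 1) g *ᵥ v = v := fun g =>
      forall_congr' fun m => forall_congr' fun v => imp_congr (hPA m v).symm Iff.rfl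
    have h2 : {M | ∃ g : Matrix ι ι (baseW T.W ℂ).K,
        (∀ m : ℕ, ∀ v : (Fin (m + 1) → ι) → (baseW T.W ℂ).K, Phi B m v ∈ S.C (pw X m) →
          tpK (m + 1) g *ᵥ v = v) ∧ M = tpK (n + 1) g} =
        {M : Matrix (Fin (n + 1) → ι) (Fin (n + 1) → ι) ℂ | ∃ g : Matrix ι ι ℂ,
          (∀ m : ℕ, ∀ v ∈ P.A (Fin (m + 1)), tpw (m + 1) g *ᵥ v = v) ∧ M = tpw (n + 1) g} := by
      ext M
      exact exists_congr fun g => and_congr (h1 g) Iff.rfl
    rw [h2]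
    rfl
  · have hev' : evp T X ∈ S'.Op X X := by
      obtain ⟨c, hc', h⟩ := Sys.mem_Op.1 hev
      exact Sys.mem_Op.2 ⟨c, hS' _ hc', h⟩
    obtain ⟨P', hPJ', -, hPA'⟩ := (bsys0 S' B hev').exists_psys
    have hPA'' : ∀ (n : ℕ) (v : (Fin (n + 1) → ι) → ℂ), v ∈ P'.A (Fin (n + 1)) ↔
        Phi B n v ∈ S'.C (pw X n) := hPA'
    have hPJ'' : P'.J = JM B := hPJ'
    have hdet : IsUnit (JM B).det := det_tr B
    obtain ⟨U, hU⟩ := exists_TS (P := P) (P' := P') (Γ := Γ) hΓA (by rw [hPJ'']; exact hdet)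
      (by rw [hPJ'', hPJ]) (by rw [hPJ]; exact (hPA 1 _).2 (mem_AS.1 (diag_AS S B)))
      (fun n v hv => (hPA'' n v).2 (hS' _ ((hPA n v).1 hv)))
    have hU' : ∀ n, U.T (n + 1) = AS S' B n := by
      intro n
      rw [hU]
      ext v
      exact hPA'' n v
    refine ⟨U, fun n => ?_, ?_⟩
    · rw [hU', finrank_AS]
    · constructor
      · intro h n
        have h1 := (hU' n).symm.trans ((h (n + 1)).trans (hinv n))
        ext x
        obtain ⟨v, rfl⟩ := (Phi_bijective B n).2 x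
        exact SetLike.ext_iff.1 h1 v
      · intro h n
        cases n with
        | zero =>
          rw [hU]
          refine le_antisymm (fun v _ => ?_) (fun v _ => P'.empty v)
          exact (hΓA (Fin 0) v).2 (P.empty v)
        | succ n =>
          rw [hU', hinv]
          ext v
          have h1 := h n
          have h2 : Phi B n v ∈ S'.C (pw X n) ↔ Phi B n v ∈ S.C (pw X n) := by rw [h1]
          exact h2

end Pool.Agent.H847.CG
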