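import Mathlib

/-!
# Growth of invariant tensors of compact groups: statements of the analytic lemmas

Project of helper847. Every `S_XXX` below is proved in its own file.
-/

open MeasureTheory
open scoped ComplexOrder

namespace Pool.Agent.H847.CG

/-- The `r`-th tensor power of a matrix. -/
def tpw {B : Type} [Fintype B] [DecidableEq B] (r : ℕ) (g : Matrix B B ℂ) :
    Matrix (Fin r → B) (Fin r → B) ℂ := Matrix.of fun I J => ∏ i, g (I i) (J i)

/-- The inner product of two vectors. -/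
noncomputable def ipr {I : Type} [Fintype I] (v w : I → ℂ) : ℂ := ∑ i, star (v i) * w i

/-- SPH. Proof. For `v` a unit vector put `a = v^{⊗(N+1)}` and `b_i = P (v^{⊗N} ⊗ e_i)`, where `P` is the
projection onto the symmetric tensors:
`P (v^{⊗N} ⊗ e_i) = (N+1)⁻¹ ∑_p v^{⊗p} ⊗ e_i ⊗ v^{⊗(N-p)}` in the space of the functions
`(Fin (N+1) → I) → ℂ`.
With `c = ⟨v, v'⟩`: `⟨a, a'⟩ = c^(N+1)`, `∑_i |⟨a, b'_i⟩|² = |c|^(2N)` (as `∑_i |⟨v, e_i⟩|² = 1` and `P` fixes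
`a`), `⟨b_i, b'_j⟩ = (N+1)⁻¹ (c^N δ_ij + N c^(N-1) ⟨v, e_j⟩ ⟨e_i, v'⟩)` and hence
`∑_ij |⟨b_i, b'_j⟩|² = (N+1)⁻² ((m + 2N) |c|^(2N) + N² |c|^(2N-2))`.
Let `A = ∫ a a^*`, `B = ∫ ∑_i b_i b_i^*` (finite matrices). Cauchy-Schwarz `|tr(AB)|² ≤ tr(A²) tr(B²)` gives,
with `a_N = ∫∫ |c|^(2N)`: `a_N² ≤ a_(N+1) (N+1)⁻² ((m + 2N) a_N + N² a_(N-1))`. By induction
`N a_(N-1) ≤ (N - 1 + m) a_N`, so the bracket is at most `(N+1)(N+m) a_N`, and the claim follows
(if `a_N = 0` it is trivial). -/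
def S_SPH : Prop := ∀ (I : Type) [Fintype I] (Ω : Type) [MeasurableSpace Ω] (μ : Measure Ω)
  [IsProbabilityMeasure μ] (v : Ω → I → ℂ), Measurable v → (∀ x, ∑ i, ‖v x i‖ ^ 2 = 1) → ∀ N : ℕ,
  ((N : ℝ) + 1) * ∫ x, ∫ y, ‖ipr (v x) (v y)‖ ^ (2 * N) ∂μ ∂μ ≤
    ((N : ℝ) + Fintype.card I) * ∫ x, ∫ y, ‖ipr (v x) (v y)‖ ^ (2 * (N + 1)) ∂μ ∂μ

/-- BER. Proof. By the spectral theorem (or `P = Aᴴ A`, columns) it suffices: for every vector `x`,
`‖x‖² (1 - r² (b - Re tr k)) ≤ Re ⟨x, k^{⊗r} x⟩`. As `k^{⊗r}` is unitary,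
`‖x‖² - Re ⟨x, k^{⊗r} x⟩ = ½ ‖k^{⊗r} x - x‖²`. Telescoping: `‖k^{⊗r} x - x‖ ≤ ∑_j ‖(k at position j) y_j - y_j‖`
with `‖y_j‖ = ‖x‖`, and `‖(k - 1 at position j) y‖ ≤ ‖k - 1‖_HS ‖y‖` (Cauchy-Schwarz in one index), where
`‖k - 1‖_HS² = 2 (b - Re tr k)`. -/
def S_BER : Prop := ∀ (B : Type) [Fintype B] [DecidableEq B] (r : ℕ)
  (P : Matrix (Fin r → B) (Fin r → B) ℂ) (k : Matrix B B ℂ), P.PosSemidef →
  k ∈ Matrix.unitaryGroup B ℂ →
  P.trace.re * (1 - (r : ℝ) ^ 2 * (Fintype.card B - k.trace.re)) ≤ (P * tpw r k).trace.re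

/-- The space of the restrictions to `Z` of the polynomials of degree at most `r`. -/
noncomputable def polyOn {σ : Type} (Z : Set (σ → ℂ)) (r : ℕ) : Submodule ℂ (Z → ℂ) :=
  Submodule.span ℂ {f | ∃ p : MvPolynomial σ ℂ, p.totalDegree ≤ r ∧
    f = fun z => MvPolynomial.eval z.1 p}

/-- HIL. The Hilbert function of a finitely generated commutative algebra has polynomial growth of
integer order. Proof. `R = ℂ[x] / I(Z)` is a nonzero finitely generated commutative algebra and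
`polyOn Z r` is the image `R_r` of the polynomials of degree `≤ r`. Noether normalisation
(`exists_finite_inj_algHom_of_fg`): `R` is a finite module over the polynomial ring `A = ℂ[y_1, …, y_D]`, which is
contained in `R`. Let `q` be such that the images `y_i` lie in `R_q`: the monomials of degree `≤ r/q` in the `y_i`
are linearly independent in `R_r`, so `dim R_r ≥ c (r+1)^D`. Upper bound: let `z_1 = 1, …, z_M` be generators
of the `A`-module `R`, `x_a z_j = ∑ f_{ajk}(y) z_k` with `deg f_{ajk} ≤ q'`; then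
`R_r ⊆ ∑_k A_(q' r) z_k`, so `dim R_r ≤ M * (number of monomials of degree ≤ q' r in D variables)`. -/
def S_HIL : Prop := ∀ (σ : Type) [Finite σ] (Z : Set (σ → ℂ)), Z.Nonempty →
  ∃ (D : ℕ) (c C : ℝ), 0 < c ∧ 0 < C ∧ ∀ r : ℕ,
    c * ((r : ℝ) + 1) ^ D ≤ Module.finrank ℂ (polyOn Z r) ∧
    (Module.finrank ℂ (polyOn Z r) : ℝ) ≤ C * ((r : ℝ) + 1) ^ D

/-- ANA. From a Christoffel inequality and an upper bound for the moments to a lower bound for the
moments. Proof. Let `v ε = μ {1 - x ≤ ε}`. From `h2` with `l = ⌈1/ε⌉` (Markov): `v ε ≤ C₁ ε^(D/2)` for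
`0 < ε ≤ 1` (trivial for `ε ≥ 1/2` after enlarging `C₁`). For `n ≥ 1` let
`f = (U_(n-1) / n)^(2M)`, `U` the Chebyshev polynomials of the second kind, `2M ≥ D/2 + 1`; then `f 1 = 1`
and `0 ≤ f(x) ≤ min (1, (n² (1 - x))^(-M))` on `[0, 1]`, as `U_(n-1)(x)² (1 - x²) = 1 - T_n(x)² ≤ 1` and
`|U_(n-1)(x)| ≤ n`. By `h1`, `c₁ n^(-D) ≤ ∫ f²`. With `t = n² (1 - x)` and `A ≥ 1`:
`f² ≤ 1_{t ≤ A} + ∑_{k ≥ 0} (2^k A)^(-2M) 1_{t ≤ 2^(k+1) A}` (finitely many `k` suffice), so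
`∫ f² ≤ v(A/n²) + C₂ A^(D/2 - 2M) n^(-D)`. Choose `A` with `C₂ A^(D/2-2M) ≤ c₁/2`: `v(A/n²) ≥ (c₁/2) n^(-D)`
for all `n` with `A ≤ n²/2`. Then `∫ x^l ≥ (1 - A/n²)^l v(A/n²) ≥ c l^(-D/2)` with `n = ⌈√l⌉` (large `l`;
for the finitely many small `l` use that `∫ x^l > 0`, a consequence of `h1` applied to `X^l`). -/
def S_ANA : Prop := ∀ (Ω : Type) [MeasurableSpace Ω] (μ : Measure Ω) [IsProbabilityMeasure μ]
  (x : Ω → ℝ), Measurable x → (∀ ω, 0 ≤ x ω ∧ x ω ≤ 1) → ∀ (D : ℕ) (A C : ℝ),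
  (∀ (n : ℕ) (f : Polynomial ℝ), f.natDegree ≤ n →
    (f.eval 1) ^ 2 ≤ A * ((n : ℝ) + 1) ^ D * ∫ ω, (f.eval (x ω)) ^ 2 ∂μ) →
  (∀ l : ℕ, (∫ ω, x ω ^ l ∂μ) ^ 2 * ((l : ℝ) + 1) ^ D ≤ C) →
  ∃ c : ℝ, 0 < c ∧ ∀ l : ℕ, c ≤ (∫ ω, x ω ^ l ∂μ) ^ 2 * ((l : ℝ) + 1) ^ D

/-- CHR. Reproducing kernels of translation invariant spaces. Proof. Let `φ_i` be an orthonormal basis of
`E` for the inner product `∫ conj f g` (positive definite as the functions are continuous and Haar measure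
is positive on open sets), and `K g = ∑ |φ_i g|²`, which is the square of the norm of the functional `ev_g`
on `E`. As the left translations are isometries of `E`, `K g = K 1` for all `g`. Integrating,
`finrank E = ∫ K = K 1`, and `|f 1|² ≤ K 1 ‖f‖²`. -/
def S_CHR : Prop := ∀ (G : Type) [Group G] [TopologicalSpace G] [IsTopologicalGroup G] [CompactSpace G]
  [MeasurableSpace G] [BorelSpace G] (μ : Measure G) [IsProbabilityMeasure μ] [μ.IsMulLeftInvariant]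
  [μ.IsOpenPosMeasure] (E : Submodule ℂ (G → ℂ)), FiniteDimensional ℂ E → (∀ f ∈ E, Continuous f) →
  (∀ (h : G), ∀ f ∈ E, (fun g => f (h * g)) ∈ E) →
  ∀ f ∈ E, ‖f 1‖ ^ 2 ≤ Module.finrank ℂ E * ∫ g, ‖f g‖ ^ 2 ∂μ

/-- The fixed vectors. -/
def fixedBy {G I : Type} [Fintype I] (R : G → Matrix I I ℂ) : Submodule ℂ (I → ℂ) where
  carrier := {v | ∀ g, (R g).mulVec v = v}
  add_mem' := by
    intro a b ha hb g
    rw [Matrix.mulVec_add, ha g, hb g]
  zero_mem' := fun g => Matrix.mulVec_zero _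
  smul_mem' := by
    intro c a ha g
    rw [Matrix.mulVec_smul, ha g]

/-- FIX. The dimension of the space of the fixed vectors is the integral of the trace. Proof.
`P = ∫ R g` (entrywise) satisfies `R h * P = P` by invariance, so `P` maps into the fixed vectors, and
`P v = v` for fixed `v`. So `P` is a projection onto the fixed vectors and its trace is the dimension
(`LinearMap.IsProj.trace` or similar). -/
def S_FIX : Prop := ∀ (G : Type) [Group G] [TopologicalSpace G] [IsTopologicalGroup G] [CompactSpace G]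
  [MeasurableSpace G] [BorelSpace G] (μ : Measure G) [IsProbabilityMeasure μ] [μ.IsMulLeftInvariant]
  (I : Type) [Fintype I] [DecidableEq I] (R : G →* Matrix I I ℂ), Continuous R →
  (Module.finrank ℂ (fixedBy R) : ℂ) = ∫ g, (R g).trace ∂μ

/-- MIN. A space of polynomial functions with finitely many values is finite-dimensional. Proof.
`R = ℂ[x] / I(Z)` is noetherian and reduced, so it has finitely many minimal primes (`p_1, …, p_N`, with
intersection `0`). Every `f ∈ V` satisfies `∏_{λ ∈ f(Z)} (f - λ) = 0` in `R`, so for every `i` there is a unique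
`λ_i(f) ∈ ℂ` with `f - λ_i(f) ∈ p_i`. The map `f ↦ (λ_i(f))_i` is linear and injective. -/
def S_MIN : Prop := ∀ (σ : Type) [Finite σ] (Z : Set (σ → ℂ)) (V : Submodule ℂ (Z → ℂ)),
  (∀ f ∈ V, (∃ p : MvPolynomial σ ℂ, f = fun z => MvPolynomial.eval z.1 p) ∧ (Set.range f).Finite) →
  FiniteDimensional ℂ V

end Pool.Agent.H847.CG
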