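import Pool.Agent.H847.CG.StmP

/-!
# TRD: transcendence degree and growth (helper721, for helper847)
-/

open MvPolynomial

namespace Pool.Agent.H847.CG.TRD

section W

variable {F E : Type} [Field F] [Field E] [Algebra F E]

/-- The spaces of the upper bound. -/
noncomputable def Wsp {s M : ℕ} (G : MvPolynomial (Fin s) F →ₐ[F] E) (z : Fin M → E) (n : ℕ) :
    Submodule F E :=
  Submodule.span F (Set.range (fun q : (Fin s → Fin (n + 1)) × Fin M =>
    G (monomial (Finsupp.equivFunOnFinite.symm (fun i => (q.1 i : ℕ))) 1) * z q.2))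

lemma mon_mem {s M : ℕ} (G : MvPolynomial (Fin s) F →ₐ[F] E) (z : Fin M → E) (n : ℕ)
    (m : Fin s →₀ ℕ) (hm : ∀ i, m i ≤ n) (k : Fin M) :
    G (monomial m 1) * z k ∈ Wsp G z n := by
  apply Submodule.subset_span
  refine ⟨(fun i => ⟨m i, Nat.lt_succ_of_le (hm i)⟩, k), ?_⟩
  have : (Finsupp.equivFunOnFinite.symm (fun i => m i)) = m := by
    ext i; simp
  simp [this]

lemma pol_mem {s M : ℕ} (G : MvPolynomial (Fin s) F →ₐ[F] E) (z : Fin M → E) (n : ℕ)
    (f : MvPolynomial (Fin s) F) (hm : ∀ m ∈ f.support, ∀ i, m i ≤ n) (k : Fin M) :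
    G f * z k ∈ Wsp G z n := by
  rw [f.as_sum, map_sum, Finset.sum_mul]
  apply Submodule.sum_mem
  intro m hm'
  have h1 : (monomial m (coeff m f)) = (coeff m f) • (monomial m (1 : F)) := by
    rw [smul_monomial, smul_eq_mul, mul_one]
  rw [h1, map_smul, smul_mul_assoc]
  exact Submodule.smul_mem _ _ (mon_mem G z n m (hm m hm') k)

lemma finrank_Wsp {s M : ℕ} (G : MvPolynomial (Fin s) F →ₐ[F] E) (z : Fin M → E) (n : ℕ) :
    Module.finrank F (Wsp G z n) ≤ (n + 1) ^ s * M := by
  have := finrank_range_le_card (R := F) (fun q : (Fin s → Fin (n + 1)) × Fin M =>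
    G (monomial (Finsupp.equivFunOnFinite.symm (fun i => (q.1 i : ℕ))) 1) * z q.2)
  have h2 : Module.finrank F (Wsp G z n) ≤ Fintype.card ((Fin s → Fin (n + 1)) × Fin M) := this
  simpa using h2

lemma fd_Wsp {s M : ℕ} (G : MvPolynomial (Fin s) F →ₐ[F] E) (z : Fin M → E) (n : ℕ) :
    FiniteDimensional F (Wsp G z n) :=
  FiniteDimensional.span_of_finite F (Set.finite_range _)

/-- Multiplication by `x` shifts the spaces if it does so on the generators. -/
lemma mul_shift {s M : ℕ} (G : MvPolynomial (Fin s) F →ₐ[F] E) (z : Fin M → E) (q : ℕ) (x : E)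
    (P : Fin M → Fin M → MvPolynomial (Fin s) F)
    (hP : ∀ k j, ∀ m ∈ (P k j).support, ∀ i, m i ≤ q)
    (hx : ∀ k, x * z k = ∑ j, G (P k j) * z j) (n : ℕ) (w : E) (hw : w ∈ Wsp G z n) :
    x * w ∈ Wsp G z (n + q) := by
  induction hw using Submodule.span_induction with
  | mem w hw =>
    obtain ⟨⟨e, k⟩, rfl⟩ := hw
    simp only
    have h1 : x * (G (monomial (Finsupp.equivFunOnFinite.symm (fun i => (e i : ℕ))) 1) * z k) =
        ∑ j, G (monomial (Finsupp.equivFunOnFinite.symm (fun i => (e i : ℕ))) 1 * P k j) * z j := by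
      calc x * (G (monomial (Finsupp.equivFunOnFinite.symm (fun i => (e i : ℕ))) 1) * z k)
          = G (monomial (Finsupp.equivFunOnFinite.symm (fun i => (e i : ℕ))) 1) * (x * z k) := by ring
        _ = _ := by
          rw [hx k, Finset.mul_sum]
          apply Finset.sum_congr rfl
          intro j _
          rw [map_mul, mul_assoc]
    rw [h1]
    apply Submodule.sum_mem
    intro j _
    apply pol_mem
    intro m hm i
    rw [mem_support_iff, coeff_monomial_mul'] at hm
    split_ifs at hm with hle
    · have h3 : m - Finsupp.equivFunOnFinite.symm (fun i => (e i : ℕ)) ∈ (P k j).support := by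
        rw [mem_support_iff]
        intro h0
        apply hm
        rw [h0, mul_zero]
      have h4 := hP k j _ h3 i
      have h5 := hle i
      simp only [Finsupp.tsub_apply, Finsupp.equivFunOnFinite_symm_apply_apply] at h4 h5
      have := (e i).2
      omega
    · exact absurd rfl hm
  | zero => rw [mul_zero]; exact Submodule.zero_mem _
  | add a b _ _ ha hb => rw [mul_add]; exact Submodule.add_mem _ ha hb
  | smul c a _ ha => rw [mul_smul_comm]; exact Submodule.smul_mem _ _ ha

end W

theorem main : S_TRD := by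
  intro F E _ _ _ U hUf h1
  classical
  -- the algebra generated by `U`
  let R : Subalgebra F E := Algebra.adjoin F (U : Set E)
  obtain ⟨b, hb⟩ := (Module.Finite.iff_fg.1 hUf : U.FG)
  have hRb : R = Algebra.adjoin F (b : Set E) := by
    change Algebra.adjoin F (U : Set E) = _
    rw [← hb, Algebra.adjoin_span]
  have hRfg : R.FG := ⟨b, hRb.symm⟩
  have hft : Algebra.FiniteType F R := (Subalgebra.fg_iff_finiteType R).1 hRfg
  obtain ⟨s, g, hinj, hfin⟩ := exists_finite_inj_algHom_of_fg F R
  let G : MvPolynomial (Fin s) F →ₐ[F] E := R.val.comp g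
  -- the transcendence degree
  let _ : Algebra (MvPolynomial (Fin s) F) R := g.toRingHom.toAlgebra
  have hmf : Module.Finite (MvPolynomial (Fin s) F) R := hfin
  have hst : IsScalarTower F (MvPolynomial (Fin s) F) R := IsScalarTower.of_algebraMap_eq fun r =>
    (g.commutes r).symm
  have hfs : FaithfulSMul (MvPolynomial (Fin s) F) R :=
    (faithfulSMul_iff_algebraMap_injective _ _).2 hinj
  have hai : Algebra.IsAlgebraic (MvPolynomial (Fin s) F) R := inferInstance
  have hB : IsTranscendenceBasis F
      (algebraMap (MvPolynomial (Fin s) F) R ∘ (X : Fin s → MvPolynomial (Fin s) F)) :=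
    (IsTranscendenceBasis.mvPolynomial (Fin s) F).algebraMap_comp
  have htr := hB.cardinalMk_eq_trdeg
  rw [Cardinal.mk_fin] at htr
  -- algebraically independent elements of `U`
  obtain ⟨x, hxU, hx⟩ : ∃ x : Fin s → E, (∀ i, x i ∈ U) ∧ AlgebraicIndependent F x := by
    let SU : Set R := {r | r.1 ∈ U}
    have hadj : Algebra.adjoin F SU = ⊤ := by
      have h2 : (Algebra.adjoin F SU).map R.val = R := by
        rw [AlgHom.map_adjoin]
        have h3 : R.val '' SU = (U : Set E) := by
          ext w
          constructor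
          · rintro ⟨r, hr, rfl⟩
            exact hr
          · intro hw
            exact ⟨⟨w, Algebra.subset_adjoin hw⟩, hw, rfl⟩
        rw [h3]
      rw [eq_top_iff]
      intro r _
      have h3 : r.1 ∈ (Algebra.adjoin F SU).map R.val := by
        rw [h2]
        exact r.2
      obtain ⟨r', hr', h4⟩ := h3
      have h5 : r' = r := Subtype.ext h4
      rwa [← h5]
    have hal : Algebra.IsAlgebraic (Algebra.adjoin F SU) R := ⟨fun a => by
      have ha : a ∈ Algebra.adjoin F SU := by
        rw [hadj]
        trivial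
      exact isAlgebraic_algebraMap (⟨a, ha⟩ : Algebra.adjoin F SU)⟩
    obtain ⟨t, ht, htb⟩ := exists_isTranscendenceBasis_subset (R := F) (A := R) SU
    have hct := htb.cardinalMk_eq_trdeg
    rw [← htr, ← Cardinal.mk_fin, Cardinal.eq] at hct
    obtain ⟨e⟩ := hct
    refine ⟨fun i => (e.symm i).1.1, fun i => ht (e.symm i).2, ?_⟩
    have h6 := (htb.1.comp e.symm e.symm.injective).map' (f := R.val) Subtype.val_injective
    exact h6
  have hmax : ∀ x : Fin (s + 1) → E, (∀ i, x i ∈ U) → ¬ AlgebraicIndependent F x := by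
    intro x hxU hx
    have h2 : AlgebraicIndependent F (fun i => (⟨x i, Algebra.subset_adjoin (hxU i)⟩ : R)) :=
      AlgebraicIndependent.of_comp R.val hx
    have h3 := h2.cardinalMk_le_trdeg
    rw [← htr, Cardinal.mk_fin] at h3
    have h4 : s + 1 ≤ s := by exact_mod_cast h3
    omega
  refine ⟨s, ⟨x, hxU, hx⟩, hmax, ?_⟩
  -- powers of `U`
  have hmono : Monotone fun n : ℕ => U ^ n := by
    apply monotone_nat_of_le_succ
    intro n w hw
    have h2 := Submodule.mul_mem_mul hw h1
    rw [mul_one] at h2
    rwa [← pow_succ] at h2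
  -- upper bound
  obtain ⟨M, z, q, hup⟩ : ∃ (M : ℕ) (z : Fin M → E) (q : ℕ), ∀ n : ℕ,
      U ^ n ≤ Wsp G z (q * (n + 1)) := by
    obtain ⟨M, f, hf⟩ := Module.Finite.exists_fin' (MvPolynomial (Fin s) F) R
    let z : Fin M → E := fun k => (f (Pi.single k 1)).1
    have key : ∀ x : R, ∃ a : Fin M → MvPolynomial (Fin s) F, x.1 = ∑ j, G (a j) * z j := by
      intro x
      obtain ⟨a, ha⟩ := hf x
      refine ⟨a, ?_⟩
      have h1 : a = ∑ j, a j • (Pi.single j (1 : MvPolynomial (Fin s) F) :
          Fin M → MvPolynomial (Fin s) F) := by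
        funext i
        simp [Finset.sum_apply, Pi.single_apply]
      have h2 : x = ∑ j, a j • f (Pi.single j 1) := by
        rw [← ha]
        conv_lhs => rw [h1]
        rw [map_sum]
        apply Finset.sum_congr rfl
        intro j _
        rw [map_smul]
      rw [h2]
      have h3 : ∀ j, ((a j • f (Pi.single j 1) : R) : E) = G (a j) * z j := by
        intro j
        rw [Algebra.smul_def]
        rfl
      rw [AddSubmonoidClass.coe_finsetSum]
      exact Finset.sum_congr rfl fun j _ => h3 j
    have hxk : ∀ (a : b) (k : Fin M), ∃ P : Fin M → MvPolynomial (Fin s) F,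
        a.1 * z k = ∑ j, G (P j) * z j := by
      intro a k
      have ha : a.1 ∈ R := by
        rw [hRb]
        exact Algebra.subset_adjoin a.2
      exact key ((⟨a.1, ha⟩ : R) * f (Pi.single k 1))
    choose P hP using hxk
    obtain ⟨F1, hF1⟩ := key 1
    obtain ⟨q1, hq1⟩ : ∃ q1 : ℕ, ∀ a k j, (P a k j).totalDegree ≤ q1 :=
      ⟨Finset.univ.sup (fun t : b × Fin M × Fin M => (P t.1 t.2.1 t.2.2).totalDegree),
        fun a k j => Finset.le_sup
          (f := fun t : b × Fin M × Fin M => (P t.1 t.2.1 t.2.2).totalDegree)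
          (Finset.mem_univ (a, k, j))⟩
    obtain ⟨q2, hq2⟩ : ∃ q2 : ℕ, ∀ j, (F1 j).totalDegree ≤ q2 :=
      ⟨Finset.univ.sup (fun t => (F1 t).totalDegree), fun j =>
        Finset.le_sup (f := fun t => (F1 t).totalDegree) (Finset.mem_univ j)⟩
    have hsup : ∀ (p : MvPolynomial (Fin s) F) (n : ℕ), p.totalDegree ≤ n →
        ∀ m ∈ p.support, ∀ i, m i ≤ n := by
      intro p n hp m hm i
      have h1 := le_totalDegree hm
      have h2 : m i ≤ m.degree := Finsupp.le_degree i m
      rw [Finsupp.degree_apply] at h2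
      exact le_trans h2 (le_trans h1 hp)
    have hsh : ∀ u ∈ U, ∀ (n : ℕ) (w : E), w ∈ Wsp G z n → u * w ∈ Wsp G z (n + (q1 + q2)) := by
      intro u hu n w hw
      rw [← hb] at hu
      induction hu using Submodule.span_induction with
      | mem u hu =>
        exact mul_shift G z (q1 + q2) u (P ⟨u, hu⟩)
          (fun k j => hsup _ _ (le_trans (hq1 _ k j) (by omega))) (hP ⟨u, hu⟩) n w hw
      | zero => rw [zero_mul]; exact Submodule.zero_mem _
      | add a b _ _ ha hb => rw [add_mul]; exact Submodule.add_mem _ ha hb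
      | smul c a _ ha => rw [smul_mul_assoc]; exact Submodule.smul_mem _ _ ha
    refine ⟨M, z, q1 + q2, fun n => ?_⟩
    induction n with
    | zero =>
      rw [pow_zero, Submodule.one_le, zero_add, mul_one]
      have : (1 : E) = ∑ j, G (F1 j) * z j := hF1
      rw [this]
      apply Submodule.sum_mem
      intro j _
      exact pol_mem G z _ _ (hsup _ _ (le_trans (hq2 j) (by omega))) j
    | succ n ih =>
      rw [pow_succ', Submodule.mul_le]
      intro u hu w hw
      have h5 : (q1 + q2) * (n + 1 + 1) = (q1 + q2) * (n + 1) + (q1 + q2) := by ring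
      rw [h5]
      exact hsh u hu _ _ (ih hw)
  have hfd : ∀ n : ℕ, FiniteDimensional F (U ^ n : Submodule F E) := fun n => by
    have := fd_Wsp G z (q * (n + 1))
    exact Submodule.finiteDimensional_of_le (hup n)
  have hup2 : ∀ n : ℕ, Module.finrank F (U ^ (n + 1) : Submodule F E) ≤
      (q * (n + 2) + 1) ^ s * M := by
    intro n
    have := fd_Wsp G z (q * (n + 1 + 1))
    exact (Submodule.finrank_mono (hup (n + 1))).trans (finrank_Wsp G z (q * (n + 1 + 1)))
  -- lower bound
  have hlow : ∀ m n : ℕ, (s + 1) * m ≤ n →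
      (m + 1) ^ s ≤ Module.finrank F (U ^ n : Submodule F E) := by
    intro m n hmn
    have := hfd n
    let H : MvPolynomial (Fin s) F →ₐ[F] E := aeval x
    have hH : Function.Injective H := hx
    have hmon : ∀ e : Fin s →₀ ℕ, H (monomial e 1) = ∏ i, x i ^ e i := by
      intro e
      have h0 : (monomial e (1 : F)) = ∏ i, X i ^ e i := by
        rw [monomial_eq, map_one, one_mul, Finsupp.prod_fintype]
        intro i; exact pow_zero _
      rw [h0, map_prod]
      apply Finset.prod_congr rfl
      intro i _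
      rw [map_pow, aeval_X]
    have hpr : ∀ (T : Finset (Fin s)) (e : Fin s → ℕ), ∏ i ∈ T, x i ^ e i ∈ U ^ (∑ i ∈ T, e i) := by
      intro T e
      induction T using Finset.induction_on with
      | empty =>
        rw [Finset.prod_empty, Finset.sum_empty, pow_zero]
        exact Submodule.one_le.1 le_rfl
      | insert i T hi ih =>
        rw [Finset.prod_insert hi, Finset.sum_insert hi, pow_add]
        exact Submodule.mul_mem_mul (Submodule.pow_mem_pow U (hxU i) _) ih
    let v : (Fin s → Fin (m + 1)) → (U ^ n : Submodule F E) := fun e =>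
      ⟨H (monomial (Finsupp.equivFunOnFinite.symm (fun i => (e i : ℕ))) 1), by
        rw [hmon]
        refine hmono ?_ (hpr Finset.univ _)
        calc ∑ i, (Finsupp.equivFunOnFinite.symm (fun i => (e i : ℕ))) i ≤ ∑ _i : Fin s, m := by
              apply Finset.sum_le_sum
              intro i _
              simp only [Finsupp.equivFunOnFinite_symm_apply_apply]
              have := (e i).2
              omega
          _ = s * m := by simp
          _ ≤ (s + 1) * m := Nat.mul_le_mul_right m (by omega)
          _ ≤ n := hmn⟩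
    have hv : LinearIndependent F v := by
      have h1 : LinearIndependent F (fun m : Fin s →₀ ℕ => (monomial m (1 : F))) := by
        have := (basisMonomials (Fin s) F).linearIndependent
        simpa using this
      have h2 : LinearIndependent F (fun m : Fin s →₀ ℕ => H (monomial m (1 : F))) := by
        exact h1.map' H.toLinearMap (LinearMap.ker_eq_bot.2 hH)
      have h3 : LinearIndependent F (fun e : Fin s → Fin (m + 1) =>
          H (monomial (Finsupp.equivFunOnFinite.symm (fun i => (e i : ℕ))) (1 : F))) := by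
        apply h2.comp (fun e : Fin s → Fin (m + 1) =>
          Finsupp.equivFunOnFinite.symm (fun i => (e i : ℕ)))
        intro e e' h
        have h' := Finsupp.equivFunOnFinite.symm.injective h
        funext i
        exact Fin.ext (congrFun h' i)
      exact LinearIndependent.of_comp (U ^ n : Submodule F E).subtype h3
    have := hv.fintype_card_le_finrank
    simpa using this
  refine ⟨(1 / ((s + 1 : ℕ) : ℝ)) ^ s, (2 * (q : ℝ) + 1) ^ s * M, by positivity, fun n => ⟨?_, ?_⟩⟩
  · have h2 := hlow ((n + 1) / (s + 1)) (n + 1) (Nat.mul_div_le (n + 1) (s + 1))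
    have h3 : ((n : ℝ) + 1) ≤ ((s + 1 : ℕ) : ℝ) * ((((n + 1) / (s + 1) : ℕ) : ℝ) + 1) := by
      have h4 : n + 1 ≤ (s + 1) * ((n + 1) / (s + 1) + 1) :=
        (Nat.lt_mul_div_succ (n + 1) (Nat.succ_pos s)).le
      exact_mod_cast h4
    have hK : (0 : ℝ) < ((s + 1 : ℕ) : ℝ) := by positivity
    calc (1 / ((s + 1 : ℕ) : ℝ)) ^ s * ((n : ℝ) + 1) ^ s = (((n : ℝ) + 1) / ((s + 1 : ℕ) : ℝ)) ^ s := by
          rw [← mul_pow]; congr 1; ring
      _ ≤ ((((n + 1) / (s + 1) : ℕ) : ℝ) + 1) ^ s := by
          apply pow_le_pow_left₀ (by positivity)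
          rw [div_le_iff₀ hK]
          linarith
      _ ≤ (Module.finrank F (U ^ (n + 1) : Submodule F E) : ℝ) := by exact_mod_cast h2
  · have h2 := hup2 n
    calc (Module.finrank F (U ^ (n + 1) : Submodule F E) : ℝ) ≤
        (((q * (n + 2) + 1) ^ s * M : ℕ) : ℝ) := by exact_mod_cast h2
      _ = ((q : ℝ) * (n + 2) + 1) ^ s * M := by push_cast; ring
      _ ≤ ((2 * (q : ℝ) + 1) * (n + 1)) ^ s * M := by
          apply mul_le_mul_of_nonneg_right _ (by positivity)
          apply pow_le_pow_left₀ (by positivity)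
          have hn : (0 : ℝ) ≤ n := Nat.cast_nonneg n
          have hq : (0 : ℝ) ≤ q := Nat.cast_nonneg q
          nlinarith [mul_nonneg hn hq]
      _ = ((2 * (q : ℝ) + 1) ^ s * M) * ((n : ℝ) + 1) ^ s := by rw [mul_pow]; ring

end Pool.Agent.H847.CG.TRD
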