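import Pool.Graph.R_pool_sql_team_seeded_b0a926ef.R914.UN.Mach

/-!
# Tannaka duality for systems of tensors with a sesquilinear contraction

The tensors of a system which contains a nondegenerate form are exactly the tensors which are fixed by
the unitary matrices which fix the system.
-/

set_option linter.unusedSectionVars false

open MvPolynomial Matrix
open Pool.Agent.R914.UN
open scoped ComplexOrder

namespace Pool.Agent.H847.CG

variable {B : Type} [Fintype B] [DecidableEq B]

section prod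

variable {S : TSys B} {ι ι' : Type} [Fintype ι] [DecidableEq ι] [Fintype ι'] [DecidableEq ι']

variable (S) in
/-- The product tensors belong to the system. -/
def PT (c : (Fin 2 → B) → ℂ) (ι : Type) [Fintype ι] [DecidableEq ι] : Prop :=
  (fun w : ι ⊕ ι → B => ∏ i, c ![w (Sum.inl i), w (Sum.inr i)]) ∈ S.A (ι ⊕ ι)

lemma PT.equiv {c : (Fin 2 → B) → ℂ} (h : PT S c ι) (e : ι ≃ ι') : PT S c ι' := by
  have h1 := S.relabel (Equiv.sumCongr e e) h
  have h2 : (fun w : ι' ⊕ ι' → B => ∏ i, c ![w (Sum.inl i), w (Sum.inr i)]) =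
      fun w => ∏ i, c ![(w ∘ (Equiv.sumCongr e e)) (Sum.inl i),
        (w ∘ (Equiv.sumCongr e e)) (Sum.inr i)] := by
    funext w
    exact (e.prod_comp fun i => c ![w (Sum.inl i), w (Sum.inr i)]).symm
  rw [PT, h2]
  exact h1

lemma PT.sum {c : (Fin 2 → B) → ℂ} (h : PT S c ι) (h' : PT S c ι') : PT S c (ι ⊕ ι') := by
  have h1 := S.relabel (Equiv.sumSumSumComm ι ι ι' ι') (S.mul h h')
  have h2 : (fun w : (ι ⊕ ι') ⊕ (ι ⊕ ι') → B => ∏ i, c ![w (Sum.inl i), w (Sum.inr i)]) =
      fun w => mulT (fun w : ι ⊕ ι → B => ∏ i, c ![w (Sum.inl i), w (Sum.inr i)])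
        (fun w : ι' ⊕ ι' → B => ∏ i, c ![w (Sum.inl i), w (Sum.inr i)])
        (w ∘ (Equiv.sumSumSumComm ι ι ι' ι')) := by
    funext w
    rw [Fintype.prod_sum_type]
    rfl
  rw [PT, h2]
  exact h1

lemma PT.zero {c : (Fin 2 → B) → ℂ} : PT S c (Fin 0) := S.empty _

lemma PT.one {c : (Fin 2 → B) → ℂ} (hc : c ∈ S.A (Fin 2)) : PT S c (Fin 1) := by
  have h1 := S.relabel (finSumFinEquiv (m := 1) (n := 1)).symm hc
  have h2 : (fun w : Fin 1 ⊕ Fin 1 → B => ∏ i, c ![w (Sum.inl i), w (Sum.inr i)]) =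
      fun w => c (w ∘ (finSumFinEquiv (m := 1) (n := 1)).symm) := by
    funext w
    rw [Fin.prod_univ_one]
    congr 1
    funext i
    fin_cases i
    · rfl
    · rfl
  rw [PT, h2]
  exact h1

lemma PT.fin {c : (Fin 2 → B) → ℂ} (hc : c ∈ S.A (Fin 2)) : ∀ n : ℕ, PT S c (Fin n)
  | 0 => PT.zero
  | n + 1 => ((PT.fin hc n).sum (PT.one hc)).equiv finSumFinEquiv

lemma PT.all {c : (Fin 2 → B) → ℂ} (hc : c ∈ S.A (Fin 2)) : PT S c ι :=
  (PT.fin hc (Fintype.card ι)).equiv (Fintype.equivFin ι).symm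

end prod

section star

variable {S : TSys B} {ι : Type} [Fintype ι] [DecidableEq ι]

/-- The conjugate tensor with raised indices. -/
lemma conj_mem {J : Matrix B B ℂ} (hJ : (fun w : Fin 2 → B => J (w 0) (w 1)) ∈ S.A (Fin 2))
    {v : (ι → B) → ℂ} (hv : v ∈ S.A ι) : tp ι Jᵀ *ᵥ star v ∈ S.A ι := by
  have h1 := S.con hv (PT.all (ι := ι) hJ)
  have h2 : tp ι Jᵀ *ᵥ star v = conT v (fun w : ι ⊕ ι → B =>
      ∏ i, J (![w (Sum.inl i), w (Sum.inr i)] 0) (![w (Sum.inl i), w (Sum.inr i)] 1)) := by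
    funext w
    rw [mulVec, dotProduct, conT]
    refine Finset.sum_congr rfl fun x _ => ?_
    rw [tp_apply, Pi.star_apply, mul_comm]
    rfl
  rw [h2]
  exact h1

lemma form_fix {J g : Matrix B B ℂ} (hJ : (fun w : Fin 2 → B => J (w 0) (w 1)) ∈ S.A (Fin 2))
    (hg : S.Fixes g) : g * J * gᵀ = J := by
  have h1 := hg (Fin 2) _ hJ
  ext a b
  have h3 := congrFun h1 ![a, b]
  rw [mulVec, dotProduct] at h3
  simp only [Matrix.cons_val_zero, Matrix.cons_val_one] at h3
  rw [← h3, ← (finTwoArrowEquiv B).symm.sum_comp, Fintype.sum_prod_type, Matrix.mul_apply]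
  simp only [Matrix.mul_apply, transpose_apply, Finset.sum_mul]
  rw [Finset.sum_comm]
  refine Finset.sum_congr rfl fun x _ => Finset.sum_congr rfl fun y _ => ?_
  rw [tp_apply, Fin.prod_univ_two]
  simp [finTwoArrowEquiv]
  ring

lemma star_mulVec_tp (g : Matrix B B ℂ) (v : (ι → B) → ℂ) :
    star (tp ι gᵀ *ᵥ star v) = tp ι gᴴ *ᵥ v := by
  funext w
  rw [Pi.star_apply, mulVec, mulVec, dotProduct, dotProduct, star_sum]
  refine Finset.sum_congr rfl fun x _ => ?_
  rw [star_mul', Pi.star_apply, star_star, tp_apply, tp_apply, star_prod]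
  rfl

/-- The matrices which fix the system are closed under conjugate transposition. -/
theorem Fixes.ct (hS : S.HasForm) {g : Matrix B B ℂ} (hg : S.Fixes g) : S.Fixes gᴴ := by
  obtain ⟨J, hJ, hJA⟩ := hS
  have hform := form_fix hJA hg
  have hdet : IsUnit g.det := by
    have h3 := congrArg det hform
    rw [det_mul, det_mul, det_transpose] at h3
    rw [isUnit_iff_ne_zero]
    intro h4
    rw [h4, zero_mul, zero_mul] at h3
    exact hJ.ne_zero h3.symm
  have hform' : g * Jᵀ * gᵀ = Jᵀ := by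
    have h3 := congrArg transpose hform
    rwa [transpose_mul, transpose_mul, transpose_transpose, ← Matrix.mul_assoc] at h3
  have hJt : IsUnit (Jᵀ).det := by rwa [det_transpose]
  have hgt : IsUnit (gᵀ).det := by rwa [det_transpose]
  intro ι _ _ v hv
  have h1 := hg ι _ (conj_mem hJA hv)
  rw [mulVec_mulVec, ← tp_mul] at h1
  have h2 : g * Jᵀ = Jᵀ * (gᵀ)⁻¹ := by
    calc g * Jᵀ = g * Jᵀ * gᵀ * (gᵀ)⁻¹ := by
          rw [Matrix.mul_assoc (g * Jᵀ), mul_nonsing_inv _ hgt, Matrix.mul_one]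
      _ = _ := by rw [hform']
  rw [h2, tp_mul, ← mulVec_mulVec] at h1
  have h3 : ∀ z y : (ι → B) → ℂ, tp ι Jᵀ *ᵥ z = tp ι Jᵀ *ᵥ y → z = y := by
    intro z y h
    have h4 := congrArg (fun u => tp ι (Jᵀ)⁻¹ *ᵥ u) h
    simp only [mulVec_mulVec] at h4
    rwa [← tp_mul, nonsing_inv_mul _ hJt, tp_one, one_mulVec, one_mulVec] at h4
  have h4 := h3 _ _ h1
  have h5 : star v = tp ι gᵀ *ᵥ star v := by
    conv_rhs => rw [← h4]
    rw [mulVec_mulVec, ← tp_mul, mul_nonsing_inv _ hgt, tp_one, one_mulVec]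
  have h6 := congrArg star h5
  rw [star_star, star_mulVec_tp] at h6
  exact h6.symm

/-- Tensors fixed by all matrices which fix the system belong to the system. -/
theorem mem_of_all {v : (ι → B) → ℂ}
    (hv : ∀ g, S.Fixes g → tp ι g *ᵥ v = v) : v ∈ S.A ι := by
  classical
  by_contra hcon
  set a : (ι → B) → ℂ := v - S.R ι *ᵥ v with ha
  have ha0 : a ≠ 0 := by
    intro h
    apply hcon
    rw [sub_eq_zero.1 h]
    exact (S.isProj ι).mem v
  have hRa : S.R ι *ᵥ a = 0 := by
    rw [ha, mulVec_sub, (S.isProj ι).self ((S.isProj ι).mem v), sub_self]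
  have hga : ∀ g, S.Fixes g → tp ι g *ᵥ a = a := by
    intro g hg
    rw [ha, mulVec_sub, hv g hg, hg ι _ ((S.isProj ι).mem v)]
  -- normalise
  set r : ℝ := ∑ i, ‖a i‖ ^ 2 with hr
  have hr0 : 0 < r := by
    obtain ⟨i, hi⟩ := Function.ne_iff.1 ha0
    refine Finset.sum_pos' (fun i _ => by positivity) ⟨i, Finset.mem_univ i, ?_⟩
    have : 0 < ‖a i‖ := norm_pos_iff.2 hi
    positivity
  set c : ℂ := Complex.ofReal (Real.sqrt r)⁻¹ with hc
  set u : (ι → B) → ℂ := c • a with hu
  have hu1 : star u ⬝ᵥ u = 1 := by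
    rw [hu, star_smul, smul_dotProduct, dotProduct_smul, star_dot_self, ← hr, smul_eq_mul,
      smul_eq_mul, hc, Complex.star_def, Complex.conj_ofReal, ← Complex.ofReal_mul,
      ← Complex.ofReal_mul]
    rw [← Complex.ofReal_one]
    congr 1
    have h1 : Real.sqrt r ≠ 0 := (Real.sqrt_pos.2 hr0).ne'
    have h2 : Real.sqrt r * Real.sqrt r = r := Real.mul_self_sqrt hr0.le
    field_simp
    rw [pow_two, h2]
  have hRu : S.R ι *ᵥ u = 0 := by rw [hu, mulVec_smul, hRa, smul_zero]
  have hgu : ∀ g, S.Fixes g → tp ι g *ᵥ u = u := by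
    intro g hg
    rw [hu, mulVec_smul, hga g hg]
  have h2 : fp u - 1 ∈ S.ker.radical := by
    rw [← vanishingIdeal_zeroLocus_eq_radical (K := ℂ), mem_vanishingIdeal_iff]
    intro x hx
    set g : Matrix B B ℂ := Matrix.of fun i j => x (i, j) with hg
    have hev : ∀ q ∈ S.ker, ev g q = 0 := by
      intro q hq
      have h1 := (mem_zeroLocus_iff).1 hx q hq
      rw [ev]
      rw [aeval_eq_eval] at h1
      exact h1
    have h3 : ev g (fp u - 1) = 0 := by
      rw [map_sub, map_one, ev_fp, hgu g (S.fixes_of_zero hev), hu1, sub_self]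
    rw [aeval_eq_eval]
    exact h3
  obtain ⟨M, hM⟩ := h2
  have h3 : ∀ k : ℕ, S.mu (fp u ^ k) = ∑ j ∈ Finset.range M,
      (k.choose j : ℂ) * S.mu ((fp u - 1) ^ j) := by
    intro k
    have h4 : fp u ^ k = ∑ j ∈ Finset.range (k + 1 + M), C (k.choose j : ℂ) * (fp u - 1) ^ j := by
      have h5 : fp u ^ k = ∑ j ∈ Finset.range (k + 1), C (k.choose j : ℂ) * (fp u - 1) ^ j := by
        conv_lhs => rw [show fp u = (fp u - 1) + 1 by ring]
        rw [add_pow]
        refine Finset.sum_congr rfl fun j _ => ?_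
        rw [one_pow, mul_one, mul_comm]
        congr 1
      rw [h5]
      refine Finset.sum_subset (Finset.range_mono (by omega)) fun j _ hj => ?_
      rw [Nat.choose_eq_zero_of_lt (by simpa using hj), Nat.cast_zero, C_0, zero_mul]
    rw [h4, map_sum]
    simp only [S.mu_C_mul]
    symm
    refine Finset.sum_subset (Finset.range_mono (by omega)) fun j _ hj => ?_
    have h5 : (fp u - 1) ^ j ∈ S.ker := by
      have h6 : M ≤ j := by simpa using hj
      obtain ⟨i, rfl⟩ := Nat.exists_eq_add_of_le h6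
      rw [pow_add]
      exact Ideal.mul_mem_right _ _ hM
    have h6 := h5 1
    rw [mul_one] at h6
    rw [h6, mul_zero]
  have h4 : ∀ k : ℕ, ‖S.mu (fp u ^ k)‖ ≤ 1 := by
    intro k
    obtain ⟨κ, _, _, c', h5, h6⟩ := fp_pow hu1 k
    rw [h6, mu_fp]
    exact (S.isProj κ).norm_le h5
  have h5 := moment (M := M) (fun j => S.mu ((fp u - 1) ^ j)) (fun k => by
    rw [← h3]
    exact h4 k) 1
  rw [← h3, ← h3, pow_one, pow_zero, S.mu_one, mu_fp, hRu, dotProduct_zero] at h5
  exact zero_ne_one h5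

end star

section diag

variable {ι : Type} [Fintype ι] [DecidableEq ι]

lemma tp_diag (d : B → ℂ) (w : (ι → B) → ℂ) (I : ι → B) :
    (tp ι (diagonal d) *ᵥ w) I = (∏ i, d (I i)) * w I := by
  rw [mulVec, dotProduct, Finset.sum_eq_single I]
  · rw [tp_apply]
    congr 1
    exact Finset.prod_congr rfl fun i _ => diagonal_apply_eq _ _
  · intro J _ hJ
    obtain ⟨i, hi⟩ := Function.ne_iff.1 hJ
    rw [tp_apply, Finset.prod_eq_zero (Finset.mem_univ i), zero_mul]
    exact diagonal_apply_ne _ (Ne.symm hi)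
  · intro h; exact absurd (Finset.mem_univ _) h

/-- The matrix `U f(d) U⁻¹`. -/
noncomputable def fmat (U : Matrix B B ℂ) (d : B → ℝ) (f : ℝ → ℂ) : Matrix B B ℂ :=
  U * diagonal (fun i => f (d i)) * Uᴴ

variable {U : Matrix B B ℂ} (hU : Uᴴ * U = 1) (d : B → ℝ)

include hU in
lemma fmat_mul (f g : ℝ → ℂ) : fmat U d f * fmat U d g = fmat U d (fun x => f x * g x) := by
  calc fmat U d f * fmat U d g
      = U * diagonal (fun i => f (d i)) * (Uᴴ * U) * diagonal (fun i => g (d i)) * Uᴴ := by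
        simp only [fmat, Matrix.mul_assoc]
    _ = _ := by
        rw [hU, Matrix.mul_one, Matrix.mul_assoc U, diagonal_mul_diagonal, fmat]

lemma fmat_ct (f : ℝ → ℂ) : (fmat U d f)ᴴ = fmat U d (fun x => star (f x)) := by
  rw [fmat, fmat, conjTranspose_mul, conjTranspose_mul, conjTranspose_conjTranspose,
    diagonal_conjTranspose, ← Matrix.mul_assoc]
  rfl

include hU in
lemma fmat_fix (f : ℝ → ℂ) (v : (ι → B) → ℂ) : tp ι (fmat U d f) *ᵥ v = v ↔
    ∀ I, (tp ι Uᴴ *ᵥ v) I ≠ 0 → ∏ i, f (d (I i)) = 1 := by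
  have hU' : U * Uᴴ = 1 := mul_eq_one_comm.1 hU
  have h1 : tp ι (fmat U d f) *ᵥ v = v ↔
      tp ι (diagonal fun i => f (d i)) *ᵥ (tp ι Uᴴ *ᵥ v) = tp ι Uᴴ *ᵥ v := by
    rw [fmat, tp_mul, tp_mul, ← mulVec_mulVec, ← mulVec_mulVec]
    constructor
    · intro h
      have h2 := congrArg (fun u => tp ι Uᴴ *ᵥ u) h
      simp only [mulVec_mulVec] at h2
      rw [mulVec_mulVec]
      rwa [← Matrix.mul_assoc, ← tp_mul, hU, tp_one, Matrix.one_mul] at h2
    · intro h
      rw [h, mulVec_mulVec, ← tp_mul, hU', tp_one, one_mulVec]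
  rw [h1]
  constructor
  · intro h I hI
    have h2 := congrFun h I
    rw [tp_diag] at h2
    exact mul_right_cancel₀ hI (by rw [h2, one_mul])
  · intro h
    funext I
    rw [tp_diag]
    by_cases hI : (tp ι Uᴴ *ᵥ v) I = 0
    · rw [hI, mul_zero]
    · rw [h I hI, one_mul]

end diag

section polar

variable {S : TSys B} {ι : Type} [Fintype ι] [DecidableEq ι]

/-- Multiplicative functions on the positive numbers. -/
structure MulPos (f : ℝ → ℂ) : Prop where
  one : f 1 = 1
  mul : ∀ x y, 0 < x → 0 < y → f (x * y) = f x * f y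

lemma MulPos.prod {f : ℝ → ℂ} (hf : MulPos f) {d : B → ℝ} (hd : ∀ i, 0 < d i) (I : ι → B) :
    ∏ i, f (d (I i)) = f (∏ i, d (I i)) := by
  classical
  have key : ∀ s : Finset ι, ∏ i ∈ s, f (d (I i)) = f (∏ i ∈ s, d (I i)) := by
    intro s
    induction s using Finset.induction_on with
    | empty => rw [Finset.prod_empty, Finset.prod_empty, hf.one]
    | insert a s ha ih =>
      rw [Finset.prod_insert ha, Finset.prod_insert ha, ih,
        hf.mul _ _ (hd _) (Finset.prod_pos fun i _ => hd _)]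
  exact key _

/-- The power `x ^ z`. -/
noncomputable def powz (z : ℂ) (x : ℝ) : ℂ := (x : ℂ) ^ z

lemma mulPos_powz (z : ℂ) : MulPos (powz z) where
  one := by simp [powz]
  mul x y hx hy := by
    rw [powz, powz, powz, Complex.ofReal_mul, Complex.mul_cpow_ofReal_nonneg hx.le hy.le]

lemma fmat_fixes {U : Matrix B B ℂ} (hU : Uᴴ * U = 1) {d : B → ℝ} (hd : ∀ i, 0 < d i)
    (h : S.Fixes (fmat U d (powz 1))) {f : ℝ → ℂ} (hf : MulPos f) : S.Fixes (fmat U d f) := by
  intro ι _ _ v hv
  rw [fmat_fix hU]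
  intro I hI
  have h1 := (fmat_fix hU d (powz 1) v).1 (h ι v hv) I hI
  rw [(mulPos_powz 1).prod hd, powz, Complex.cpow_one] at h1
  rw [hf.prod hd]
  have h2 : ∏ i, d (I i) = 1 := by exact_mod_cast h1
  rw [h2, hf.one]

/-- **Tannaka duality.** The tensors fixed by the unitary matrices which fix the system belong to
the system. -/
theorem tannaka (hS : S.HasForm) {v : (ι → B) → ℂ}
    (hv : ∀ g : Matrix B B ℂ, gᴴ * g = 1 → S.Fixes g → tp ι g *ᵥ v = v) : v ∈ S.A ι := by
  refine mem_of_all fun g hg => ?_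
  set P : Matrix B B ℂ := gᴴ * g with hP
  have hPh : P.IsHermitian := by
    rw [hP, IsHermitian, conjTranspose_mul, conjTranspose_conjTranspose]
  have hPfix : S.Fixes P := (Fixes.ct hS hg).mul hg
  set U : Matrix B B ℂ := (hPh.eigenvectorUnitary : Matrix B B ℂ) with hUdef
  set d : B → ℝ := hPh.eigenvalues with hd
  have hU : Uᴴ * U = 1 := by
    have := (Matrix.mem_unitaryGroup_iff'.1 hPh.eigenvectorUnitary.2)
    exact this
  have hdet : IsUnit g.det := hg.isUnit hS
  have hpd : P.PosDef := by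
    refine Matrix.PosDef.conjTranspose_mul_self g ?_
    intro x y hxy
    have h2 := congrArg (fun u => g⁻¹ *ᵥ u) hxy
    simp only [mulVec_mulVec] at h2
    rwa [nonsing_inv_mul _ hdet, one_mulVec, one_mulVec] at h2
  have hdpos : ∀ i, 0 < d i := fun i => hpd.eigenvalues_pos i
  have hfm : ∀ f g : ℝ → ℂ, (∀ i, f (d i) = g (d i)) → fmat U d f = fmat U d g := by
    intro f g h
    rw [fmat, fmat, funext h]
  have hPe : P = fmat U d (powz 1) := by
    have h1 := hPh.spectral_theorem
    rw [Unitary.conjStarAlgAut_apply] at h1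
    conv_lhs => rw [h1]
    rw [fmat]
    congr 2
    funext i j
    by_cases hij : i = j
    · subst hij
      rw [diagonal_apply_eq, diagonal_apply_eq, powz, Complex.cpow_one]
      rfl
    · rw [diagonal_apply_ne _ hij, diagonal_apply_ne _ hij]
  have hPfix' : S.Fixes (fmat U d (powz 1)) := hPe ▸ hPfix
  have hone : fmat U d (fun _ => 1) = 1 := by
    rw [fmat, diagonal_one, Matrix.mul_one]
    exact mul_eq_one_comm.1 hU
  have hinv : fmat U d (powz (-(1 / 2))) * fmat U d (powz (1 / 2)) = 1 := by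
    rw [fmat_mul hU, ← hone]
    refine hfm _ _ fun i => ?_
    rw [powz, powz, ← Complex.cpow_add _ _ (by exact_mod_cast (hdpos i).ne')]
    norm_num
  set u : Matrix B B ℂ := g * fmat U d (powz (-(1 / 2))) with hu
  have hreal : ∀ (s : ℝ) (i : B), star (powz (s : ℂ) (d i)) = powz (s : ℂ) (d i) := by
    intro s i
    rw [powz, ← Complex.ofReal_cpow (hdpos i).le]
    exact Complex.conj_ofReal _
  have hct : (fmat U d (powz (-(1 / 2))))ᴴ = fmat U d (powz (-(1 / 2))) := by
    rw [fmat_ct]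
    refine hfm _ _ fun i => ?_
    have h1 := hreal (-(1 / 2)) i
    push_cast at h1
    exact h1
  have huu : uᴴ * u = 1 := by
    rw [hu, conjTranspose_mul, hct]
    calc fmat U d (powz (-(1 / 2))) * gᴴ * (g * fmat U d (powz (-(1 / 2))))
        = fmat U d (powz (-(1 / 2))) * P * fmat U d (powz (-(1 / 2))) := by
          simp only [hP, Matrix.mul_assoc]
      _ = 1 := by
          rw [hPe, fmat_mul hU, fmat_mul hU, ← hone]
          refine hfm _ _ fun i => ?_
          have h0 : (d i : ℂ) ≠ 0 := by exact_mod_cast (hdpos i).ne'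
          rw [powz, powz, ← Complex.cpow_add _ _ h0, ← Complex.cpow_add _ _ h0]
          norm_num
  have hufix : S.Fixes u := hg.mul (fmat_fixes hU hdpos hPfix' (mulPos_powz _))
  have hgu : g = u * fmat U d (powz (1 / 2)) := by
    rw [hu, Matrix.mul_assoc, hinv, Matrix.mul_one]
  have h1 : tp ι u *ᵥ v = v := hv u huu hufix
  have h2 : tp ι (fmat U d (powz (1 / 2))) *ᵥ v = v := by
    rw [fmat_fix hU]
    intro I hI
    rw [(mulPos_powz _).prod hdpos]
    set ρ : ℝ := ∏ i, d (I i) with hρ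
    have hρ0 : 0 < ρ := Finset.prod_pos fun i _ => hdpos _
    have h3 : ρ = 1 := by
      by_contra hne
      have hlog : Real.log ρ ≠ 0 := by
        intro h
        rcases Real.log_eq_zero.1 h with h | h | h
        · exact hρ0.ne' h
        · exact hne h
        · linarith
      set s : ℝ := Real.pi / Real.log ρ with hs
      have hui : (fmat U d (powz (Complex.I * s)))ᴴ * fmat U d (powz (Complex.I * s)) = 1 := by
        rw [fmat_ct, fmat_mul hU, ← hone]
        refine hfm _ _ fun i => ?_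
        have h0 : (d i : ℂ) ≠ 0 := by exact_mod_cast (hdpos i).ne'
        have h4 : star (powz (Complex.I * s) (d i)) = powz (-(Complex.I * s)) (d i) := by
          rw [powz, powz, Complex.star_def, Complex.cpow_def_of_ne_zero h0,
            Complex.cpow_def_of_ne_zero h0, ← Complex.exp_conj, ← Complex.ofReal_log (hdpos i).le,
            map_mul, map_mul, Complex.conj_ofReal, Complex.conj_I, Complex.conj_ofReal, neg_mul]
        rw [h4, powz, powz, ← Complex.cpow_add _ _ h0, neg_add_cancel, Complex.cpow_zero]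
      have h5 := hv _ hui (fmat_fixes hU hdpos hPfix' (mulPos_powz _))
      have h6 := (fmat_fix hU d _ v).1 h5 I hI
      rw [(mulPos_powz _).prod hdpos, ← hρ, powz, Complex.cpow_def_of_ne_zero
        (by exact_mod_cast hρ0.ne'), ← Complex.ofReal_log hρ0.le] at h6
      have h7 : (Real.log ρ : ℂ) * (Complex.I * s) = Real.pi * Complex.I := by
        rw [hs]
        push_cast
        have : (Real.log ρ : ℂ) ≠ 0 := by exact_mod_cast hlog
        field_simp
      rw [h7, Complex.exp_pi_mul_I] at h6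
      norm_num at h6
    rw [h3]
    exact (mulPos_powz _).one
  rw [hgu, tp_mul, ← mulVec_mulVec, h2, h1]

end polar

end Pool.Agent.H847.CG
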