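import Pool.Agent.H847.CG.Fin1
import Pool.Graph.R_pool_sql_team_seeded_620a6dc7.H694.TT.Main

/-!
# Systems of classes with larger coefficients, Tate classes
-/

set_option linter.unusedSectionVars false
set_option linter.unusedVariables false

open CategoryTheory AlgebraicGeometry CategoryTheory.Limits TensorProduct Matrix Filter

universe u v w

namespace Pool.Agent.H847.CG

open Pool.Agent.H914 Pool.Agent.H447 Pool.Agent.W534 Pool.Agent.Y163 VarClass Obj WeilCohomology
  Module
open Pool.Agent.Y121 Pool.Agent.Y121.AHS Pool.Agent.R940 Pool.Agent.R914.UN Pool.Agent.R920.MT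
open Pool.Agent.Y133.Half (Sys PH Ev Adj ClassPred dimBy)

variable {k : Type u} [Field k] {𝒱 : VarClass k} {ops : CycleOps 𝒱}

section big

variable {T : AH.HodgeTheory ops} {L : Type} [Field L] [Algebra T.W.K L] {Y : 𝒱.Obj}

/-- The span of the classes of degree `2 j`. -/
noncomputable def spanP (L : Type) [Field L] [Algebra T.W.K L] (Q : ClassPred T.W) (Y : 𝒱.Obj)
    (j : ℕ) : Submodule (baseW T.W L).K ((baseW T.W L).H Y) :=
  Submodule.span (baseW T.W L).K {x | ∃ a, Q.P Y j a ∧ AH.em T.W L a = x}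

lemma spanP_le (Q : ClassPred T.W) (Y : 𝒱.Obj) (j : ℕ) : spanP L Q Y j ≤ SG L (Q.sp Y) := by
  refine Submodule.span_le.2 ?_
  rintro _ ⟨a, ha, rfl⟩
  exact em_SG (T := T) (L := L) (ClassPred.sp_of ha)

lemma proj_spanP (Q : ClassPred T.W) (j : ℕ) {x : (baseW T.W L).H Y} (hx : x ∈ SG L (Q.sp Y)) :
    H914.proj ((baseW T.W L).isInternal Y) (2 * j) x ∈ spanP L Q Y j := by
  refine SG_ind (T := T) (L := L) (G := Q.sp Y)
    (P := fun x => H914.proj ((baseW T.W L).isInternal Y) (2 * j) x ∈ spanP L Q Y j)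
    ?_ ?_ ?_ ?_ hx
  · rw [map_zero]; exact Submodule.zero_mem _
  · intro x y hx hy; rw [map_add]; exact Submodule.add_mem _ hx hy
  · intro c x hx; rw [map_smul]; exact Submodule.smul_mem _ _ hx
  · intro a ha
    refine ClassPred.sp_ind (Q := Q) (q := fun a =>
      H914.proj ((baseW T.W L).isInternal Y) (2 * j) (AH.em T.W L a) ∈ spanP L Q Y j) ?_ ?_ ?_ ha
    · intro i c hc
      by_cases h : i = j
      · subst h
        rw [proj_same _ (AH.em_gr (Q.gr hc))]
        exact Submodule.subset_span ⟨c, hc, rfl⟩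
      · rw [proj_ne _ (AH.em_gr (Q.gr hc)) (by omega)]
        exact Submodule.zero_mem _
    · rw [AH.em_zero, map_zero]; exact Submodule.zero_mem _
    · intro x y hx hy
      rw [AH.em_add, map_add]; exact Submodule.add_mem _ hx hy

/-- The system with coefficients in `L` is spanned by the rational system. -/
lemma sys_le_SG_iff (Q : ClassPred T.W) (R : ClassPred (baseW T.W L)) (Y : 𝒱.Obj) :
    R.sys.C Y ≤ SG L (Q.sp Y) ↔ ∀ j c, R.P Y j c → c ∈ spanP L Q Y j := by
  constructor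
  · intro h j c hc
    have h1 := proj_spanP (L := L) Q j (h (ClassPred.sp_of (Q := R) hc))
    rwa [proj_same _ (R.gr hc)] at h1
  · intro h c hc
    refine ClassPred.sp_ind (Q := R) (q := fun c => c ∈ SG L (Q.sp Y)) ?_ ?_ ?_ hc
    · intro j x hx; exact spanP_le Q Y j (h j x hx)
    · exact Submodule.zero_mem _
    · intro x y hx hy; exact Submodule.add_mem _ hx hy

end big

/-- The growth law, and the gap for larger systems with larger coefficients. -/
theorem ext_law (T : HodgeTheory ops) (hpos : NonnegTypes T) (X : 𝒱.Obj)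
    (hsym : HodgeSymmetric T X) [Nontrivial (T.W.H X)] (P : Property T.W) (hP : IsClassSystem P)
    (hH : ∀ Y j c, P Y j c → IsHodge T Y j c) {ψ : BilH T X} (hψ : IsPolarisation T X ψ)
    (hψP : GivenBy P ψ) :
    ∃ D : ℕ, HasOrder (finrank T.W.K (T.W.H X)) D (fun n => dimBy T.W P (pw X n)) ∧
      HasPoly D (polyDim T.W P X) ∧
      ∀ (L : Type) [Field L] [Algebra T.W.K L] (σ : L →ₐ[T.W.K] ℂ)
        (R : ClassPred (baseW T.W L)), (∀ Y j c, P Y j c → R.P Y j (AH.em T.W L c)) →
        (∃ N : ℕ, 1 ≤ N ∧ (N = 1 ↔ ∀ n j c, R.P (pw X n) j c → c ∈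
            Submodule.span (baseW T.W L).K {x | ∃ a, P (pw X n) j a ∧ AH.em T.W L a = x}) ∧
          NearIndex N (fun n => dimBy (baseW T.W L) R.P (pw X n))
            (fun n => dimBy T.W P (pw X n))) ∨
        SqrtGap (fun n => dimBy (baseW T.W L) R.P (pw X n))
          (fun n => dimBy T.W P (pw X n)) := by
  obtain ⟨D, h1, h2, h3⟩ := prop_law T hpos X hsym P hP hH hψ hψP
  refine ⟨D, h1, h2, fun L _ _ σ R hR => ?_⟩
  have hR' : ∀ (Y : 𝒱.Obj) (j : ℕ) (c : (toH T).W.H Y), (cpred P hP).P Y j c →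
      AH.em (toH T).W L c ∈ R.sys.C Y := fun Y j c hc => ClassPred.sp_of (Q := R) (hR Y j c hc)
  obtain ⟨S', e0, e1, e2⟩ : ∃ S' : Sys (baseW T.W ℂ),
      (∀ Y, ((cpred P hP).sys.base ℂ).C Y ≤ S'.C Y) ∧
      (∀ n, finrank (baseW T.W ℂ).K (S'.C (pw X n)) = dimBy (baseW T.W L) R.P (pw X n)) ∧
      ∀ n, S'.C (pw X n) = ((cpred P hP).sys.base ℂ).C (pw X n) ↔ ∀ j c, R.P (pw X n) j c → c ∈
        Submodule.span (baseW T.W L).K {x | ∃ a, P (pw X n) j a ∧ AH.em T.W L a = x} := by
    refine ⟨extSys (T := toH T) σ R.sys,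
      base_le_extSys (T := toH T) σ (cpred P hP) R.sys hR', fun n => ?_, fun n => ?_⟩
    · exact finrank_extSys (T := toH T) σ R.sys (pw X n)
    · have h5 := extSys_eq_iff (T := toH T) σ (cpred P hP) R.sys hR' (pw X n)
      have h6 := sys_le_SG_iff (T := toH T) (L := L) (cpred P hP) R (pw X n)
      exact h5.trans h6
  have h4 := h3 S' e0
  rw [funext e1, forall_congr' e2] at h4
  exact h4

end Pool.Agent.H847.CG
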